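import Pool.Agent.SSM.Targets

/-!
# SSM, target TAU (divisor bound), helper92
-/

open Polynomial

namespace SSM
namespace TAU_

open Finset

lemma two_pow_ge (k : ℕ) : ((k + 1 : ℕ) : ℝ) ≤ 2 ^ k := by
  have h : k + 1 ≤ 2 ^ k := Nat.lt_two_pow_self
  exact_mod_cast h

lemma small (ε : ℝ) (hε : 0 < ε) : ∃ K : ℝ, 1 ≤ K ∧ ∀ k : ℕ,
    ((k + 1 : ℕ) : ℝ) ≤ K * ((2 : ℝ) ^ k) ^ ε := by
  have hl : 0 < Real.log 2 := Real.log_pos one_lt_two
  refine ⟨max 1 (1 / (ε * Real.log 2)), le_max_left _ _, fun k => ?_⟩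
  set K := max 1 (1 / (ε * Real.log 2)) with hK
  have h1 : ((2 : ℝ) ^ k) ^ ε = Real.exp (k * (ε * Real.log 2)) := by
    rw [Real.rpow_def_of_pos (by positivity), Real.log_pow]
    congr 1
    ring
  have h2 : (k : ℝ) * (ε * Real.log 2) + 1 ≤ Real.exp (k * (ε * Real.log 2)) :=
    Real.add_one_le_exp _
  have h3 : 1 ≤ K := le_max_left _ _
  have h4 : 1 ≤ K * (ε * Real.log 2) := by
    have h5 : 1 / (ε * Real.log 2) ≤ K := le_max_right _ _
    rwa [div_le_iff₀ (by positivity)] at h5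
  rw [h1]
  have h5 : K * ((k : ℝ) * (ε * Real.log 2) + 1) ≤ K * Real.exp (k * (ε * Real.log 2)) :=
    mul_le_mul_of_nonneg_left h2 (by linarith)
  have h6 : (k : ℝ) ≤ k * (K * (ε * Real.log 2)) := by
    have hk : (0 : ℝ) ≤ k := Nat.cast_nonneg k
    nlinarith
  push_cast
  nlinarith

end TAU_

open TAU_ Finset in
theorem p_TAU : T_TAU := by
  classical
  intro ε hε
  obtain ⟨K, hK1, hK⟩ := small ε hε
  obtain ⟨N, hN⟩ := exists_nat_ge ((2 : ℝ) ^ (1 / ε))
  refine ⟨K ^ N, by positivity, fun n hn => ?_⟩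
  have hn0 : n ≠ 0 := by omega
  have key : ∀ p ∈ n.primeFactors, ((n.factorization p + 1 : ℕ) : ℝ) ≤
      (if p < N then K else 1) * ((p : ℝ) ^ (n.factorization p)) ^ ε := by
    intro p hp
    have hp2 : 2 ≤ p := (Nat.prime_of_mem_primeFactors hp).two_le
    have hp2' : (2 : ℝ) ≤ p := by exact_mod_cast hp2
    set k := n.factorization p
    by_cases h : p < N
    · rw [if_pos h]
      refine (hK k).trans ?_
      gcongr
    · rw [if_neg h, one_mul]
      push Not at h
      have h1 : (2 : ℝ) ^ (1 / ε) ≤ p := hN.trans (by exact_mod_cast h)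
      have h2 : (2 : ℝ) ≤ (p : ℝ) ^ ε := by
        calc (2 : ℝ) = ((2 : ℝ) ^ (1 / ε)) ^ ε := by
              rw [← Real.rpow_mul (by norm_num), one_div, inv_mul_cancel₀ hε.ne', Real.rpow_one]
          _ ≤ _ := Real.rpow_le_rpow (by positivity) h1 hε.le
      calc ((k + 1 : ℕ) : ℝ) ≤ 2 ^ k := two_pow_ge k
        _ ≤ ((p : ℝ) ^ ε) ^ k := pow_le_pow_left₀ (by norm_num) h2 k
        _ = _ := by
            rw [← Real.rpow_natCast, ← Real.rpow_mul (by positivity), ← Real.rpow_natCast,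
              ← Real.rpow_mul (by positivity), mul_comm]
  have hcard : (n.divisors.card : ℝ) = ∏ p ∈ n.primeFactors, ((n.factorization p + 1 : ℕ) : ℝ) := by
    rw [Nat.card_divisors hn0]
    push_cast
    rfl
  have hprod : ∏ p ∈ n.primeFactors, ((p : ℝ) ^ (n.factorization p)) ^ ε = (n : ℝ) ^ ε := by
    rw [Real.finsetProd_rpow _ _ (fun p _ => by positivity)]
    congr 1
    have h := Nat.prod_factorization_pow_eq_self hn0
    have h' : ((∏ p ∈ n.primeFactors, p ^ n.factorization p : ℕ) : ℝ) = n := by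
      exact_mod_cast congrArg (Nat.cast (R := ℝ)) h
    rw [← h']
    push_cast
    rfl
  have hK' : ∏ p ∈ n.primeFactors, (if p < N then K else 1) ≤ K ^ N := by
    rw [← Finset.prod_filter, Finset.prod_const]
    refine pow_le_pow_right₀ hK1 ?_
    calc (n.primeFactors.filter (fun p => p < N)).card ≤ (range N).card := by
          refine card_le_card ?_
          intro p hp
          exact mem_range.2 (mem_filter.1 hp).2
      _ = N := card_range N
  rw [hcard]
  calc ∏ p ∈ n.primeFactors, ((n.factorization p + 1 : ℕ) : ℝ)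
      ≤ ∏ p ∈ n.primeFactors, ((if p < N then K else 1) * ((p : ℝ) ^ (n.factorization p)) ^ ε) :=
        Finset.prod_le_prod (fun p _ => by positivity) key
    _ = (∏ p ∈ n.primeFactors, (if p < N then K else 1)) * (n : ℝ) ^ ε := by
        rw [Finset.prod_mul_distrib, hprod]
    _ ≤ K ^ N * (n : ℝ) ^ ε := mul_le_mul_of_nonneg_right hK' (by positivity)

end SSM
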