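import Pool.Agent.SSM.Defs
import Pool.Agent.SSP.Defs

/-!
# MP_d74fca_nt, part IV: modular functions over `ℂ` (helper58): targets
-/

open Polynomial

namespace SSM

/-! ### the function `J` -/

/-- INV: holomorphy, modularity, conjugation -/
def T_INV : Prop :=
  DifferentiableOn ℂ J {z : ℂ | 0 < z.im} ∧
  (∀ (a b c d : ℤ), a * d - b * c = 1 → ∀ z : ℂ, 0 < z.im →
    0 < ((a * z + b) / (c * z + d)).im ∧ (c * z + d) ≠ 0 ∧ J ((a * z + b) / (c * z + d)) = J z) ∧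
  (∀ z : ℂ, 0 < z.im → J (z + 1) = J z ∧ 0 < (-1 / z).im ∧ J (-1 / z) = J z) ∧
  (∀ z : ℂ, 0 < z.im → J (-(starRingEnd ℂ z)) = starRingEnd ℂ (J z))

/-- JEX: the `q`-expansion has integral coefficients -/
def T_JEX : Prop := ∃ c : ℕ → ℤ, c 0 = 1 ∧ ∀ z : ℂ, 0 < z.im →
  HasSum (fun n : ℕ => (c n : ℂ) * qq 1 z ^ n) (J z * qq 1 z ^ 1)

/-- SPE: special values -/
def T_SPE : Prop := J Complex.I = 1728 ∧ J ((1 + Real.sqrt 3 * Complex.I) / 2) = 0 ∧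
  (∀ z : ℂ, 0 < z.im → J z = 0 →
    ModularForm.E₄ (UpperHalfPlane.ofComplex z) = 0) ∧
  (∀ z : ℂ, 0 < z.im → J z = 1728 →
    ModularForm.E₆ (UpperHalfPlane.ofComplex z) = 0) ∧
  (∀ z : ℂ, 0 < z.im → J z ≠ 0 → J z ≠ 1728 → ∀ a b c d : ℤ, a * d - b * c = 1 →
    (a * z + b) / (c * z + d) = z → b = 0 ∧ c = 0 ∧ a = d ∧ (a = 1 ∨ a = -1))

/-- EIS: Eisenstein series and lattice sums -/
def T_EIS : Prop := ∀ (L : PeriodPair) (z : ℂ), 0 < z.im → L.ω₁ = 1 → L.ω₂ = z →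
  L.G 4 = 2 * riemannZeta 4 * ModularForm.E₄ (UpperHalfPlane.ofComplex z) ∧
  L.G 6 = 2 * riemannZeta 6 * ModularForm.E₆ (UpperHalfPlane.ofComplex z)

/-- LAT: a lattice is determined by `G 4` and `G 6` -/
def T_LAT : Prop := ∀ L L' : PeriodPair, L.G 4 = L'.G 4 → L.G 6 = L'.G 6 → L.lattice = L'.lattice

/-- INJ: `J` separates orbits -/
def T_INJ : Prop := ∀ z w : ℂ, 0 < z.im → 0 < w.im → J z = J w →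
  ∃ a b c d : ℤ, a * d - b * c = 1 ∧ w = (a * z + b) / (c * z + d)

/-- SUR: `J` is surjective -/
def T_SUR : Prop := ∀ x : ℂ, ∃ z : ℂ, 0 < z.im ∧ |z.re| ≤ 1 / 2 ∧ 1 ≤ ‖z‖ ∧ J z = x

/-- FUN: every orbit meets the fundamental domain -/
def T_FUN : Prop := ∀ z : ℂ, 0 < z.im → ∃ a b c d : ℤ, a * d - b * c = 1 ∧
  0 < ((a * z + b) / (c * z + d)).im ∧ |((a * z + b) / (c * z + d)).re| ≤ 1 / 2 ∧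
  1 ≤ ‖(a * z + b) / (c * z + d)‖

/-- DER: `J' ≠ 0` away from the elliptic points -/
def T_DER : Prop := ∀ z : ℂ, 0 < z.im → J z ≠ 0 → J z ≠ 1728 → deriv J z ≠ 0

/-- JBD: growth -/
def T_JBD : Prop := (∃ C : ℝ, 0 < C ∧ ∀ z : ℂ, 1 / 2 ≤ z.im →
  ‖J z‖ ≤ C * Real.exp (2 * Real.pi * z.im) ∧
  ‖J z - Complex.exp (-(2 * Real.pi * Complex.I * z))‖ ≤ C) ∧
  (∀ (h : ℝ) (P : ℂ[X]), (∀ z : ℂ, 0 < z.im → h < z.im → P.eval (J z) = 0) → P = 0)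

/-! ### expansions -/

/-- RNG: algebra of expansions -/
def T_RNG : Prop :=
  (∀ (A : AddSubgroup ℂ) (M N N' : ℕ) (f : ℂ → ℂ), HasExp A M N f → N ≤ N' → HasExp A M N' f) ∧
  (∀ (A : AddSubgroup ℂ) (M N : ℕ) (f g : ℂ → ℂ), HasExp A M N f → HasExp A M N g →
    HasExp A M N (fun z => f z + g z)) ∧
  (∀ (A : AddSubgroup ℂ) (M N : ℕ) (f : ℂ → ℂ), HasExp A M N f → HasExp A M N (fun z => - f z)) ∧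
  (∀ (A B D : AddSubgroup ℂ) (M N N' : ℕ) (f g : ℂ → ℂ), (∀ x ∈ A, ∀ y ∈ B, x * y ∈ D) →
    HasExp A M N f → HasExp B M N' g → HasExp D M (N + N') (fun z => f z * g z)) ∧
  (∀ (A : AddSubgroup ℂ) (M N k : ℕ) (f : ℂ → ℂ), 1 ≤ M → 1 ≤ k → HasExp A M N f →
    HasExp A (M * k) (N * k) f) ∧
  (∀ (A : AddSubgroup ℂ) (M : ℕ) (x : ℂ), x ∈ A → HasExp A M 0 (fun _ => x)) ∧
  (∀ (A : AddSubgroup ℂ) (M N a b d : ℕ) (f : ℂ → ℂ), 1 ≤ M → 1 ≤ a → 1 ≤ d →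
    (∀ x ∈ OO, ∀ y ∈ A, x * y ∈ A) → HasExp A M N f →
    HasExp A (M * d) (N * a) (fun z => f ((a * z + b) / d))) ∧
  (∀ (A : AddSubgroup ℂ) (M N : ℕ) (f g : ℂ → ℂ), (∀ z : ℂ, 0 < z.im → f z = g z) →
    HasExp A M N f → HasExp A M N g)

/-- UNX: uniqueness of expansions -/
def T_UNX : Prop := ∀ (M : ℕ) (a b : ℕ → ℂ) (F : ℂ → ℂ), 1 ≤ M →
  (∀ z : ℂ, 0 < z.im → HasSum (fun n : ℕ => a n * qq M z ^ n) (F z)) →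
  (∀ z : ℂ, 0 < z.im → HasSum (fun n : ℕ => b n * qq M z ^ n) (F z)) → a = b

/-- PER: expansions of functions of period `1` -/
def T_PER : Prop := ∀ (A : AddSubgroup ℂ) (M N : ℕ) (f : ℂ → ℂ), 1 ≤ M →
  (∀ z : ℂ, 0 < z.im → f (z + 1) = f z) → HasExp A M N f → HasExp A 1 N f

/-- POL: modular functions are polynomials in `J` -/
def T_POL : Prop := ∀ (R : Subring ℂ) (f : ℂ → ℂ) (N : ℕ), HasExp R 1 N f →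
  (∀ z : ℂ, 0 < z.im → f (-1 / z) = f z) →
  ∃ P : ℂ[X], (∀ n, P.coeff n ∈ R) ∧ P.natDegree ≤ N ∧ ∀ z : ℂ, 0 < z.im → f z = P.eval (J z)

/-! ### matrices of determinant `m` -/

/-- HNF: Hermite normal form -/
def T_HNF : Prop := ∀ m : ℕ, 1 ≤ m →
  (∀ x y z w : ℤ, x * w - y * z = m → ∃ g ∈ TT m, ∃ a b c d : ℤ, a * d - b * c = 1 ∧
    x = a * g.1.1 ∧ y = a * g.2 + b * g.1.2 ∧ z = c * g.1.1 ∧ w = c * g.2 + d * g.1.2) ∧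
  (∀ g ∈ TT m, ∀ h ∈ TT m, ∀ a b c d : ℤ, a * d - b * c = 1 →
    (h.1.1 : ℤ) = a * g.1.1 → (h.2 : ℤ) = a * g.2 + b * g.1.2 → (0 : ℤ) = c * g.1.1 →
    (h.1.2 : ℤ) = c * g.2 + d * g.1.2 → h = g)

/-- PRM: `SL₂(ℤ)` permutes the values `J (g z)` -/
def T_PRM : Prop := ∀ m : ℕ, 1 ≤ m → ∀ a b c d : ℤ, a * d - b * c = 1 → ∀ z : ℂ, 0 < z.im →
  ∏ g ∈ TT m, (X - C (J (act g ((a * z + b) / (c * z + d))))) = ∏ g ∈ TT m, (X - C (J (act g z)))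

/-! ### the modular polynomial -/

/-- PSM: power sums -/
def T_PSM : Prop := ∀ m k : ℕ, 1 ≤ m → ∃ N : ℕ,
  HasExp ZZ 1 N (fun z => ∑ g ∈ TT m, J (act g z) ^ k)

/-- ESM: elementary symmetric functions -/
def T_ESM : Prop := ∀ m k : ℕ, 1 ≤ m → ∃ N : ℕ,
  HasExp OO 1 N (fun z => (∏ g ∈ TT m, (X - C (J (act g z)))).coeff k)

/-- MPI: existence of the modular polynomial -/
def T_MPI : Prop := ∀ m : ℕ, 1 ≤ m → ∃ F : ℤ[X][X], IsMP m F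

/-- SYM: symmetry up to sign -/
def T_SYM : Prop := ∀ (m : ℕ) (F : ℤ[X][X]), 1 ≤ m → IsMP m F →
  ∃ ε : ℤ, (ε = 1 ∨ ε = -1) ∧ Polynomial.Bivariate.swap F = C (C ε) * F

/-- KR0: prime ideals of the ring of algebraic integers -/
def T_KR0 : Prop := ∀ ℓ : ℕ, ℓ.Prime → ∃ I : AddSubgroup ℂ, PrimeOver ℓ I ∧
  (∀ n : ℤ, (n : ℂ) ∈ I ↔ (ℓ : ℤ) ∣ n) ∧ (∀ ζ : ℂ, ζ ^ ℓ = 1 → 1 - ζ ∈ I)

/-- KR1: `J(ℓ z) ≡ J(z)^ℓ` -/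
def T_KR1 : Prop := ∀ ℓ : ℕ, ℓ.Prime → ∀ I : AddSubgroup ℂ, PrimeOver ℓ I →
  ∃ N : ℕ, HasExp I 1 N (fun z => J (ℓ * z) - J z ^ ℓ)

/-- KR2: `J((z+c)/ℓ) ≡ J(z/ℓ)` -/
def T_KR2 : Prop := ∀ ℓ : ℕ, ℓ.Prime → ∀ I : AddSubgroup ℂ, PrimeOver ℓ I →
  (∀ ζ : ℂ, ζ ^ ℓ = 1 → 1 - ζ ∈ I) →
  ∀ c : ℕ, ∃ N : ℕ, HasExp I ℓ N (fun z => J ((z + c) / ℓ) - J (z / ℓ))

/-- KR3: integral polynomials in `J` with expansion divisible by `ℓ` -/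
def T_KR3 : Prop := ∀ ℓ : ℕ, ℓ.Prime → ∀ I : AddSubgroup ℂ, (∀ n : ℤ, (n : ℂ) ∈ I ↔ (ℓ : ℤ) ∣ n) →
  ∀ (h : ℤ[X]) (M N : ℕ), 1 ≤ M → HasExp I M N (fun z => aeval (J z) h) →
  ∀ n, (ℓ : ℤ) ∣ h.coeff n

/-- KRO: Kronecker's congruence -/
def T_KRO : Prop := ∀ (ℓ m : ℕ), ℓ.Prime → 1 ≤ m → ¬ ℓ ∣ m → ∀ F G : ℤ[X][X], IsMP m F →
  IsMP (ℓ * m) G → ∃ K : ℤ[X][X], G = (expand ℤ[X] ℓ F) * (F.map (expand ℤ ℓ).toRingHom) +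
    C (C (ℓ : ℤ)) * K

/-- SQD: `F_D(X,X)` is a square up to sign modulo `ℓ ∣ D` -/
def T_SQD : Prop := ∀ (D ℓ : ℕ) (F : ℤ[X][X]), 1 ≤ D → ℓ.Prime → ℓ ∣ D → Squarefree D →
  IsMP D F → ∃ (ε : ZMod ℓ) (S : (ZMod ℓ)[X]), (ε = 1 ∨ ε = -1) ∧
    (diag F).map (Int.castRingHom (ZMod ℓ)) = C ε * S ^ 2

/-- LDC: degree and leading coefficient of `F_D(X,X)` -/
def T_LDC : Prop := ∀ (D : ℕ) (F : ℤ[X][X]), 1 < D → ¬ IsSquare D → IsMP D F →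
  (diag F).natDegree = 2 * ∑ e ∈ D.divisors.filter (fun e => D < e ^ 2), e ∧
  (diag F).leadingCoeff = (-1) ^ kk D

/-! ### the polynomial `P_D` -/

/-- DEC: odd part of a polynomial -/
def T_DEC : Prop := ∀ A : ℤ[X], (A.leadingCoeff = 1 ∨ A.leadingCoeff = -1) →
  ∃ P R : ℤ[X], P.Monic ∧ R.Monic ∧ A = C A.leadingCoeff * P * R ^ 2 ∧
    (P.map (Int.castRingHom ℂ)).roots.Nodup ∧
    ∀ x : ℂ, aeval x P = 0 ↔ Odd ((A.map (Int.castRingHom ℂ)).rootMultiplicity x)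

/-- SQM: `P` is a square mod `ℓ` -/
def T_SQM : Prop := ∀ (ℓ : ℕ) (A P R : ℤ[X]) (s : ℤ) (ε : ZMod ℓ) (S : (ZMod ℓ)[X]), ℓ.Prime →
  P.Monic → R.Monic → (s = 1 ∨ s = -1) → (ε = 1 ∨ ε = -1) → A = C s * P * R ^ 2 →
  A.map (Int.castRingHom (ZMod ℓ)) = C ε * S ^ 2 →
  ∃ Q : (ZMod ℓ)[X], P.map (Int.castRingHom (ZMod ℓ)) = Q ^ 2

/-- ELL: no elliptic roots -/
def T_ELL : Prop := ∀ (D : ℕ) (F : ℤ[X][X]), 24 ∣ D + 1 → IsMP D F →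
  aeval (0 : ℂ) (diag F) ≠ 0 ∧ aeval (1728 : ℂ) (diag F) ≠ 0

/-- MUL: multiplicities -/
def T_MUL : Prop := ∀ (D : ℕ) (F : ℤ[X][X]) (t : ℂ), 1 < D → ¬ IsSquare D → IsMP D F → 0 < t.im →
  J t ≠ 0 → J t ≠ 1728 → ((diag F).map (Int.castRingHom ℂ)).rootMultiplicity (J t) =
    {g ∈ TT D | J (act g t) = J t}.card

/-- PAR: parity of multiplicities -/
def T_PAR : Prop := ∀ (D : ℕ) (t : ℂ), 1 < D → ¬ IsSquare D → 0 < t.im → J t ≠ 0 → J t ≠ 1728 →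
  (Odd {g ∈ TT D | J (act g t) = J t}.card ↔ CMt D t)

/-- CMP: existence of `P_D` -/
def T_CMP : Prop := ∀ D : ℕ, Squarefree D → 24 ∣ D + 1 → ∃ P : ℤ[X], IsPD D P

/-! ### sign -/

/-- RE1: `J` on the imaginary axis -/
def T_RE1 : Prop := ∃ f : ℝ → ℝ, (∀ y : ℝ, 0 < y → J (y * Complex.I) = f y ∧ f (1 / y) = f y) ∧
  StrictMonoOn f (Set.Ici 1) ∧ ContinuousOn f (Set.Ici 1) ∧ f 1 = 1728 ∧
  Filter.Tendsto f Filter.atTop Filter.atTop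

/-- RE2: `J` on the line `re z = 1/2` -/
def T_RE2 : Prop := ∃ f : ℝ → ℝ,
  (∀ y : ℝ, 0 < y → J ((1 + y * Complex.I) / 2) = f y ∧ f (1 / y) = f y) ∧
  StrictAntiOn f (Set.Ici 1) ∧ ContinuousOn f (Set.Ici 1) ∧ f 1 = 1728 ∧
  Filter.Tendsto f Filter.atTop Filter.atBot

/-- SG1: sign of `F_D(x,x)`, `x > 1728` -/
def T_SG1 : Prop := ∀ (D : ℕ) (F : ℤ[X][X]) (η x : ℝ), Odd D → ¬ IsSquare D → IsMP D F → 1 < η →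
  J (η * Complex.I) = x → 0 ≤ (-1) ^ near D η * aeval x (diag F)

/-- SG2: sign of `F_D(x,x)`, `x < 1728` -/
def T_SG2 : Prop := ∀ (D : ℕ) (F : ℤ[X][X]) (η x : ℝ), Odd D → ¬ IsSquare D → IsMP D F → 1 < η →
  J ((1 + η * Complex.I) / 2) = x → 0 ≤ (-1) ^ near D η * aeval x (diag F)

/-- SGN: sign of `F_D(x,x)`, locally uniform -/
def T_SGN : Prop := ∀ x : ℝ, x ≠ 1728 → ∃ δ η₁ η₂ : ℝ, 0 < δ ∧ 1 < η₁ ∧ η₁ ≤ η₂ ∧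
  ∀ x' : ℝ, |x' - x| < δ → ∃ η : ℝ, η₁ ≤ η ∧ η ≤ η₂ ∧
  ∀ (D : ℕ) (F : ℤ[X][X]), Odd D → ¬ IsSquare D → IsMP D F →
    0 ≤ (-1) ^ near D η * aeval x' (diag F)

/-- admissible `D` -/
def Adm (B : ℕ) (ρ : ℝ) (D : ℕ) : Prop := Squarefree D ∧ 24 ∣ D + 1 ∧ B < D ∧
  (∀ ℓ : ℕ, ℓ.Prime → ℓ ∣ D → B < ℓ) ∧
  (D.Prime ∨ ∃ a c : ℕ, D = a * c ∧ a.Prime ∧ a < c ∧ (c : ℝ) < ρ * a)

/-- PSG: `P_D(x) ≤ 0` -/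
def T_PSG : Prop := ∀ x : ℝ, x ≠ 1728 → ∃ (B : ℕ) (ρ : ℝ), 1 < ρ ∧ ∀ (D : ℕ) (P : ℤ[X]),
  Adm B ρ D → IsPD D P → aeval x P ≤ 0

/-- NVN: for given `x` at most one `P_D` vanishes at `x` -/
def T_NVN : Prop := ∀ (x : ℂ) (D D' : ℕ) (P P' : ℤ[X]), Squarefree D → Squarefree D' →
  IsPD D P → IsPD D' P' → aeval x P = 0 → aeval x P' = 0 → D = D'

/-! ### size -/

/-- TAU: divisor bound -/
def T_TAU : Prop := ∀ ε : ℝ, 0 < ε → ∃ C : ℝ, 0 < C ∧ ∀ n : ℕ, 1 ≤ n →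
  (n.divisors.card : ℝ) ≤ C * (n : ℝ) ^ ε

/-- RDS: the roots come from reduced forms -/
def T_RDS : Prop := ∀ (D : ℕ) (t : ℂ), 0 < D → CMt D t → ∃ (α β γ : ℕ) (s : ℤ) (u : ℂ),
  (s = β ∨ s = -β) ∧ 0 < α ∧ α ≤ γ ∧ 2 * β ≤ α ∧ α * γ = β ^ 2 + D ∧ J u = J t ∧
  u = (-s + Real.sqrt D * Complex.I) / α

/-- SIZ: size of `P_D(x)` -/
def T_SIZ : Prop := ∀ (x ε : ℝ), 0 < ε → ∃ D₀ : ℕ, ∀ (D : ℕ) (P : ℤ[X]), D₀ ≤ D → IsPD D P →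
  |aeval x P| ≤ Real.exp ((D : ℝ) ^ (1 / 2 + ε)) ∧ (P.natDegree : ℝ) ≤ (D : ℝ) ^ (1 / 2 + ε)

/-! ### conclusion -/

/-- JAC: a negative number which is a square modulo `D` -/
def T_JAC : Prop := ∀ (D : ℕ) (N : ℤ), Squarefree D → 8 ∣ D + 1 → N < 0 →
  (∀ ℓ : ℕ, ℓ.Prime → ℓ ∣ D → ¬ (ℓ : ℤ) ∣ N ∧ ∃ x : ZMod ℓ, (N : ZMod ℓ) = x ^ 2) →
  ∃ p : ℕ, p.Prime ∧ p ≠ 2 ∧ (∀ x : ZMod p, x ^ 2 ≠ -(D : ZMod p)) ∧ Odd (padicValInt p N)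

/-- OUT: output of this part -/
def T_OUT : Prop := ∀ r s : ℤ, s ≠ 0 → r ≠ 1728 * s → ∃ (B : ℕ) (ρ : ℝ), 1 < ρ ∧
  ∀ ε : ℝ, 0 < ε → ∃ D₀ : ℕ, ∀ D : ℕ, D₀ ≤ D → Adm B ρ D → ∃ Q : ℤ[X], Q.Monic ∧
  0 < Q.natDegree ∧
  (∀ x : ℂ, aeval x Q = 0 → x ≠ 0 ∧ x ≠ 1728 ∧ ∃ t : ℂ, CMt D t ∧ J t = x) ∧
  SSP.hv Q r s ≠ 0 ∧ |((SSP.hv Q r s : ℤ) : ℝ)| ≤ Real.exp ((D : ℝ) ^ (1 / 2 + ε)) ∧
  ((∃ ℓ : ℕ, ℓ.Prime ∧ ℓ ∣ D ∧ (ℓ : ℤ) ∣ SSP.hv Q r s) ∨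
    ∃ p : ℕ, p.Prime ∧ p ≠ 2 ∧ (∀ x : ZMod p, x ^ 2 ≠ -(D : ZMod p)) ∧
      Odd (padicValInt p (SSP.hv Q r s)))

end SSM
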