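import Pool.Agent.SSM.Targets

/-!
# CMP: existence of the polynomial `P_D`
-/

open Polynomial

namespace SSM

namespace CMP_

theorem eval_diag (y : ℂ) (F : ℤ[X][X]) : aeval y (diag F) = (inn y F).eval y := by
  unfold diag inn
  rw [eval_map, Polynomial.eval]
  show (aeval y : ℤ[X] →ₐ[ℤ] ℂ).toRingHom (eval₂ (RingHom.id ℤ[X]) X F) = _
  rw [Polynomial.hom_eval₂ F (RingHom.id _) (aeval y : ℤ[X] →ₐ[ℤ] ℂ).toRingHom X]
  simp

theorem eval_prod {D : ℕ} {F : ℤ[X][X]} (hF : IsMP D F) (z : ℂ) (hz : 0 < z.im) :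
    aeval (J z) (diag F) = ∏ g ∈ TT D, (J z - J (act g z)) := by
  rw [eval_diag, hF.2 z hz, eval_prod']
where
  eval_prod' {D : ℕ} {z : ℂ} : (∏ g ∈ TT D, (X - C (J (act g z)))).eval (J z) =
      ∏ g ∈ TT D, (J z - J (act g z)) := by
    rw [Polynomial.eval_prod]
    simp

theorem mem_TT {D : ℕ} {g : (ℕ × ℕ) × ℕ} (h : g ∈ TT D) :
    g.1.1 * g.1.2 = D ∧ D ≠ 0 ∧ g.2 < g.1.2 := by
  unfold TT at h
  rw [Finset.mem_filter, Finset.mem_product, Nat.mem_divisorsAntidiagonal] at h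
  exact ⟨h.1.1.1, h.1.1.2, h.2⟩

theorem act_im {D : ℕ} {g : (ℕ × ℕ) × ℕ} (h : g ∈ TT D) {t : ℂ} (ht : 0 < t.im) :
    0 < (act g t).im := by
  obtain ⟨h1, h2, h3⟩ := mem_TT h
  have ha : 0 < g.1.1 := Nat.pos_of_ne_zero (by
    intro h4
    rw [h4, zero_mul] at h1
    exact h2 h1.symm)
  have hd : 0 < g.1.2 := by omega
  have haR : (0 : ℝ) < g.1.1 := by exact_mod_cast ha
  have hdR : (0 : ℝ) < g.1.2 := by exact_mod_cast hd
  unfold act
  have e : ((g.1.1 * t + g.2) / g.1.2 : ℂ).im = g.1.1 * t.im / g.1.2 := by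
    have e1 : ((g.1.1 * t + g.2) / g.1.2 : ℂ) = (g.1.1 * t + g.2) / ((g.1.2 : ℝ) : ℂ) := by
      push_cast
      rfl
    rw [e1, Complex.div_ofReal_im]
    simp
  rw [e]
  positivity

/-- a CM point is fixed by one of the correspondences -/
theorem cm_fix (hINV : T_INV) (hHNF : T_HNF) {D : ℕ} (hD : 1 ≤ D) {t : ℂ} (ht : CMt D t) :
    ∃ g ∈ TT D, J (act g t) = J t := by
  obtain ⟨him, α, β, γ, hα, hdisc, heq⟩ := ht
  obtain ⟨g, hg, a, b, c, d, hdet, hx, hy, hz, hw⟩ :=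
    (hHNF D hD).1 (-β) (-γ) α β (by linear_combination hdisc)
  refine ⟨g, hg, ?_⟩
  have hgim := act_im hg him
  obtain ⟨-, hne, hJ⟩ := hINV.2.1 a b c d hdet (act g t) hgim
  have hd : (g.1.2 : ℂ) ≠ 0 := by
    have := (mem_TT hg).2.2
    exact_mod_cast (by omega : g.1.2 ≠ 0)
  rw [← hJ]
  congr 1
  rw [div_eq_iff hne]
  -- clear the denominator `g.1.2`
  apply mul_left_cancel₀ hd
  have e1 : (g.1.2 : ℂ) * (a * act g t + b) = ((-β : ℤ) : ℂ) * t + ((-γ : ℤ) : ℂ) := by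
    rw [hx, hy]
    unfold act
    push_cast
    field_simp
    ring
  have e2 : (g.1.2 : ℂ) * (c * act g t + d) = (α : ℂ) * t + β := by
    rw [hz, hw]
    unfold act
    push_cast
    field_simp
    ring
  calc (g.1.2 : ℂ) * (a * act g t + b) = ((-β : ℤ) : ℂ) * t + ((-γ : ℤ) : ℂ) := e1
    _ = t * ((α : ℂ) * t + β) := by
        push_cast
        linear_combination -heq
    _ = t * ((g.1.2 : ℂ) * (c * act g t + d)) := by rw [e2]
    _ = (g.1.2 : ℂ) * (t * (c * act g t + d)) := by ring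

theorem not_square {D : ℕ} (h : 24 ∣ D + 1) : ¬ IsSquare D := by
  rintro ⟨r, hr⟩
  have h1 : r % 4 = 0 ∨ r % 4 = 1 ∨ r % 4 = 2 ∨ r % 4 = 3 := by omega
  have h2 : (r * r) % 4 = ((r % 4) * (r % 4)) % 4 := Nat.mul_mod r r 4
  have h3 : D % 4 = 3 := by omega
  rw [hr, h2] at h3
  rcases h1 with h | h | h | h <;> rw [h] at h3 <;> omega

theorem root_at (hINV : T_INV) (hHNF : T_HNF) {D : ℕ} (hD : 1 ≤ D) {F : ℤ[X][X]}
    (hF : IsMP D F) {t : ℂ} (ht : CMt D t) : aeval (J t) (diag F) = 0 := by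
  obtain ⟨g, hg, hgt⟩ := cm_fix hINV hHNF hD ht
  rw [eval_prod hF t ht.1]
  exact Finset.prod_eq_zero hg (by rw [hgt, sub_self])

end CMP_

open CMP_ in
theorem p_CMP (hINV : T_INV) (hSUR : T_SUR) (hHNF : T_HNF) (hMPI : T_MPI) (hLDC : T_LDC)
    (hDEC : T_DEC) (hSQD : T_SQD) (hSQM : T_SQM) (hELL : T_ELL) (hMUL : T_MUL) (hPAR : T_PAR) :
    T_CMP := by
  intro D hsf h24
  have hD1 : 1 < D := by omega
  have hnsq := not_square h24
  obtain ⟨F, hF⟩ := hMPI D hD1.le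
  obtain ⟨hdeg, hlc⟩ := hLDC D F hD1 hnsq hF
  have hlc' : (diag F).leadingCoeff = 1 ∨ (diag F).leadingCoeff = -1 := by
    rw [hlc]
    exact neg_one_pow_eq_or ℤ (kk D)
  obtain ⟨P, R, hP, hR, hA, hnodup, hroot⟩ := hDEC (diag F) hlc'
  obtain ⟨h0, h1728⟩ := hELL D F h24 hF
  -- roots of `P` are not elliptic
  have hnz : ∀ x : ℂ, aeval x P = 0 → x ≠ 0 ∧ x ≠ 1728 := by
    intro x hx
    have hz : aeval x (diag F) = 0 := by
      rw [hA, map_mul, map_mul, hx]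
      ring
    constructor
    · rintro rfl
      exact h0 hz
    · rintro rfl
      exact h1728 hz
  have hroots : ∀ x : ℂ, aeval x P = 0 ↔ ∃ t : ℂ, CMt D t ∧ J t = x := by
    intro x
    constructor
    · intro hx
      obtain ⟨hx0, hx1⟩ := hnz x hx
      obtain ⟨z, hz, -, -, hJz⟩ := hSUR x
      refine ⟨z, ?_, hJz⟩
      have hodd := (hroot x).1 hx
      rw [← hJz] at hodd hx0 hx1
      rw [hMUL D F z hD1 hnsq hF hz hx0 hx1] at hodd
      exact (hPAR D z hD1 hnsq hz hx0 hx1).1 hodd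
    · rintro ⟨t, ht, rfl⟩
      have hrt := root_at hINV hHNF hD1.le hF ht
      have hx0 : J t ≠ 0 := by
        intro h
        rw [h] at hrt
        exact h0 hrt
      have hx1 : J t ≠ 1728 := by
        intro h
        rw [h] at hrt
        exact h1728 hrt
      rw [hroot, hMUL D F t hD1 hnsq hF ht.1 hx0 hx1]
      exact (hPAR D t hD1 hnsq ht.1 hx0 hx1).2 ht
  refine ⟨P, ⟨hP, ?_, ?_, hnodup, hroots, hnz, ?_, ?_⟩⟩
  · -- positive degree
    by_contra hcon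
    have hdeg0 : P.natDegree = 0 := by omega
    have hP1 : P = 1 := (Monic.natDegree_eq_zero hP).1 hdeg0
    have hDR : (0 : ℝ) < D := by exact_mod_cast (by omega : 0 < D)
    have ht : CMt D (Real.sqrt D * Complex.I) := by
      refine ⟨?_, 1, 0, D, by norm_num, by ring, ?_⟩
      · simp
        omega
      · have h5 : ((Real.sqrt D : ℝ) : ℂ) ^ 2 = (D : ℂ) := by
          rw [← Complex.ofReal_pow, Real.sq_sqrt hDR.le]
          simp
        push_cast
        rw [mul_pow, h5, Complex.I_sq]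
        ring
    have := (hroots (J (Real.sqrt D * Complex.I))).2 ⟨_, ht, rfl⟩
    rw [hP1, map_one] at this
    exact one_ne_zero this
  · -- even degree
    have hu : (diag F).leadingCoeff ≠ 0 := by
      rcases hlc' with h | h <;> rw [h] <;> norm_num
    have h5 : (diag F).natDegree = P.natDegree + 2 * R.natDegree := by
      conv_lhs => rw [hA]
      rw [natDegree_mul (mul_ne_zero (C_ne_zero.2 hu) hP.ne_zero) (pow_ne_zero 2 hR.ne_zero),
        natDegree_mul (C_ne_zero.2 hu) hP.ne_zero, natDegree_C, zero_add, natDegree_pow]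
    rw [hdeg] at h5
    exact ⟨(∑ e ∈ D.divisors.filter (fun e => D < e ^ 2), e) - R.natDegree, by omega⟩
  · intro ℓ hℓ hℓD
    obtain ⟨ε, S, hε, hS⟩ := hSQD D ℓ F hD1.le hℓ hℓD hsf hF
    exact hSQM ℓ (diag F) P R _ ε S hℓ hP hR hlc' hε hA hS
  · refine ⟨F, R, hF, hR, ?_⟩
    rw [← hlc]
    exact hA

end SSM
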