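import Pool.Agent.SSM.Targets

/-!
# DER: `J' ≠ 0` away from the elliptic points (helper74)
-/

open UpperHalfPlane hiding I
open Real Complex Filter ModularForm EisensteinSeries Derivative
open scoped Manifold MatrixGroups ModularForm Topology

namespace SSM

namespace DER_

lemma bdd_D {F : ℍ → ℂ} (hF : MDiff F) (hb : IsBoundedAtImInfty F) :
    IsBoundedAtImInfty (normalizedDerivOfComplex F) := by
  rw [isBoundedAtImInfty_iff] at hb ⊢
  obtain ⟨M, A, hM⟩ := hb
  refine ⟨‖(2 * π * I : ℂ)⁻¹‖ * (M / (1/2)), max A 0 + 1, fun z hz => ?_⟩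
  rw [normalizedDerivOfComplex, norm_mul]
  refine mul_le_mul_of_nonneg_left ?_ (norm_nonneg _)
  have hd := UpperHalfPlane.mdifferentiable_iff.mp hF
  have him : ∀ w ∈ Metric.closedBall (z : ℂ) (1/2), max A 0 < w.im := by
    intro w hw
    have h1 : |(w - z).im| ≤ 1/2 :=
      (Complex.abs_im_le_norm _).trans (by simpa [dist_eq_norm] using hw)
    have h2 := (abs_le.mp h1).1
    rw [Complex.sub_im] at h2
    have h3 : (z:ℂ).im = z.im := rfl
    linarith
  have hpos : ∀ w ∈ Metric.closedBall (z : ℂ) (1/2), 0 < w.im := fun w hw =>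
    lt_of_le_of_lt (le_max_right _ _) (him w hw)
  apply Complex.norm_deriv_le_of_forall_mem_sphere_norm_le (by norm_num)
  · apply DifferentiableOn.diffContOnCl
    rw [closure_ball _ (by norm_num)]
    exact hd.mono (fun w hw => hpos w hw)
  · intro w hw
    have hw1 := Metric.sphere_subset_closedBall hw
    rw [Function.comp_apply, ofComplex_apply_of_im_pos (hpos w hw1)]
    exact hM ⟨w, hpos w hw1⟩ (le_of_lt (lt_of_le_of_lt (le_max_left _ _) (him w hw1)))

lemma E4_mdiff : MDiff (E₄ : ℍ → ℂ) := E₄.holo'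

lemma E4_bdd : IsBoundedAtImInfty (E₄ : ℍ → ℂ) := ModularFormClass.bdd_at_infty E₄

lemma E4_slash (γ : SL(2, ℤ)) : (E₄ : ℍ → ℂ) ∣[(4 : ℤ)] γ = E₄ := E₄.slash_action_eq' _ ⟨γ, rfl⟩

lemma S4_slash (γ : SL(2, ℤ)) :
    serreDerivative 4 (E₄ : ℍ → ℂ) ∣[(6 : ℤ)] γ = serreDerivative 4 (E₄ : ℍ → ℂ) := by
  have := serreDerivative_slash_invariant (k := 4) E4_mdiff (γ := γ) (E4_slash γ)
  simpa using this

lemma S4_bdd : IsBoundedAtImInfty (serreDerivative 4 (E₄ : ℍ → ℂ)) := by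
  have h1 := bdd_D E4_mdiff E4_bdd
  have h2 : IsBoundedAtImInfty ((((4 : ℂ) * 12⁻¹) • (E2 * (E₄ : ℍ → ℂ)))) :=
    (isBoundedAtImInfty_E2.mul E4_bdd).const_smul_left _
  have h3 := h1.sub h2
  have h4 : serreDerivative 4 (E₄ : ℍ → ℂ) = normalizedDerivOfComplex (E₄ : ℍ → ℂ) -
      (((4 : ℂ) * 12⁻¹) • (E2 * (E₄ : ℍ → ℂ))) := by
    ext z
    simp [serreDerivative, mul_assoc]
  rw [h4]
  exact h3

/-- the Serre derivative of `E₄` -/
noncomputable def S4 : ModularForm 𝒮ℒ 6 where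
  toFun := serreDerivative 4 (E₄ : ℍ → ℂ)
  slash_action_eq' := fun _ ⟨γ, hγ⟩ ↦ hγ ▸ S4_slash γ
  holo' := serreDerivative_mdifferentiable 4 E4_mdiff
  bdd_at_cusps' {c} hc := by
    rw [Subgroup.IsArithmetic.isCusp_iff_isCusp_SL2Z] at hc
    rw [OnePoint.isBoundedAt_iff_forall_SL2Z hc]
    intro γ _
    rw [S4_slash γ]
    exact S4_bdd

lemma S4_eq : ∃ c : ℂ, ∀ z : ℍ, serreDerivative 4 (E₄ : ℍ → ℂ) z = c * E₆ z := by
  obtain ⟨c, hc⟩ : ∃ c : ℂ, c • E₆ = S4 :=
    (finrank_eq_one_iff_of_nonzero' E₆ (E_ne_zero _ ⟨3, rfl⟩)).mp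
      (Module.rank_eq_one_iff_finrank_eq_one.mp levelOne_weight_six_rank_one) _
  refine ⟨c, fun z => ?_⟩
  have := congrArg (fun f : ModularForm 𝒮ℒ 6 => f z) hc
  exact this.symm

lemma deriv_disc (z : ℍ) :
    HasDerivAt (fun w => ModularForm.discriminant (ofComplex w))
      (2 * π * I * E2 z * ModularForm.discriminant z) z := by
  have h1 : DifferentiableAt ℂ ModularForm.eta z := differentiableAt_eta_of_mem_upperHalfPlaneSet z.2
  have h0 : ModularForm.eta z ≠ 0 := by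
    intro h
    have := discriminant_ne_zero z
    rw [ModularForm.discriminant, h] at this
    simp at this
  have h2 := logDeriv_eta_eq_E2 z
  rw [logDeriv_apply, div_eq_iff h0] at h2
  have h3 := h1.hasDerivAt.pow 24
  rw [h2] at h3
  refine (h3.congr_of_eventuallyEq ?_).congr_deriv ?_
  · filter_upwards [isOpen_upperHalfPlaneSet.mem_nhds z.2] with w hw
    simp [ModularForm.discriminant, ofComplex_apply_of_im_pos hw]
  · rw [ModularForm.discriminant]
    push_cast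
    ring

lemma hasDerivAt_J : ∃ c : ℂ, ∀ z : ℍ, HasDerivAt J
    (c * (E₄ z ^ 2 * E₆ z / ModularForm.discriminant z)) z := by
  obtain ⟨c, hc⟩ := S4_eq
  refine ⟨2 * π * I * 3 * c, fun z => ?_⟩
  have hd := deriv_disc z
  have hE : HasDerivAt ((E₄ : ℍ → ℂ) ∘ ofComplex) (deriv ((E₄ : ℍ → ℂ) ∘ ofComplex) z) z :=
    (mdifferentiableAt_iff.mp (E4_mdiff z)).hasDerivAt
  have hcz := hc z
  rw [serreDerivative, normalizedDerivOfComplex] at hcz
  have h2pi : (2 * π * I : ℂ) ≠ 0 := by simp [Real.pi_ne_zero]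
  have hE' : deriv ((E₄ : ℍ → ℂ) ∘ ofComplex) z =
      2 * π * I * (c * E₆ z + 4 * 12⁻¹ * E2 z * E₄ z) := by
    field_simp at hcz
    rw [← sub_eq_zero] at hcz ⊢
    linear_combination hcz / 12
  rw [hE'] at hE
  have hΔ : ModularForm.discriminant (ofComplex (z : ℂ)) ≠ 0 := discriminant_ne_zero _
  have key := (hE.pow 3).div hd hΔ
  refine key.congr_deriv ?_
  have hΔ' := discriminant_ne_zero z
  simp only [Function.comp_apply, ofComplex_apply, Pi.pow_apply]
  field_simp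
  ring

lemma not_const (κ : ℂ) : ¬ ∀ z : ℍ, E₄ z ^ 3 = κ * ModularForm.discriminant z := by
  intro h
  have h1 : Tendsto (fun z : ℍ => κ * ModularForm.discriminant z) atImInfty (𝓝 0) := by
    have h := (discriminant_isZeroAtImInfty : Tendsto _ _ _).const_mul κ
    simpa using h
  have h2 : IsZeroAtImInfty (E₄ : ℍ → ℂ) := by
    have h3 : Tendsto (fun z : ℍ => (E₄ z) ^ 3) atImInfty (𝓝 0) := by
      exact h1.congr (fun z => (h z).symm)
    have h4 : Tendsto (fun z : ℍ => ‖E₄ z‖ ^ 3) atImInfty (𝓝 0) := by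
      simpa using h3.norm
    have h5 : Tendsto (fun z : ℍ => ‖E₄ z‖) atImInfty (𝓝 0) := by
      have := h4.rpow_const (p := 1 / 3) (Or.inr (by norm_num))
      rw [Real.zero_rpow (by norm_num)] at this
      refine this.congr (fun z => ?_)
      rw [← Real.rpow_natCast, ← Real.rpow_mul (norm_nonneg _)]
      norm_num
    exact tendsto_zero_iff_norm_tendsto_zero.mpr h5
  have h3 := E_qExpansion_coeff_zero (k := 4) (by norm_num) ⟨2, rfl⟩
  have h4 : (qExpansion 1 (E₄ : ℍ → ℂ)).coeff 0 = valueAtInfty (E₄ : ℍ → ℂ) :=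
    UpperHalfPlane.qExpansion_coeff_zero one_pos
      (ModularFormClass.analyticAt_cuspFunction_zero E₄ one_pos one_mem_strictPeriods_SL)
      (SlashInvariantFormClass.periodic_comp_ofComplex E₄ one_mem_strictPeriods_SL)
  rw [h2.valueAtInfty_eq_zero] at h4
  exact one_ne_zero (h3.symm.trans h4)

end DER_

open DER_ in
theorem p_DER : T_DER := by
  obtain ⟨c, hc⟩ := hasDerivAt_J
  intro z hz h0 h1728
  have hcne : c ≠ 0 := by
    rintro rfl
    have hconst : ∀ w : ℍ, J w = J (UpperHalfPlane.I : ℍ) := by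
      intro w
      refine isOpen_upperHalfPlaneSet.is_const_of_deriv_eq_zero
        (convex_halfSpace_im_gt 0).isPreconnected (fun x hx => ?_) (fun x hx => ?_) w.2
        (UpperHalfPlane.I : ℍ).2
      · exact (hc ⟨x, hx⟩).differentiableAt.differentiableWithinAt
      · simpa using (hc ⟨x, hx⟩).deriv
    refine not_const (J (UpperHalfPlane.I : ℍ)) (fun w => ?_)
    rw [← hconst w]
    simp only [J, ofComplex_apply]
    rw [div_mul_cancel₀ _ (discriminant_ne_zero w)]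
  have hd := (hc ⟨z, hz⟩).deriv
  have hJ : J z = E₄ (⟨z, hz⟩ : ℍ) ^ 3 / ModularForm.discriminant (⟨z, hz⟩ : ℍ) := by
    simp only [J, ofComplex_apply_of_im_pos hz]
  have hΔ := discriminant_ne_zero (⟨z, hz⟩ : ℍ)
  have h4 : E₄ (⟨z, hz⟩ : ℍ) ≠ 0 := by
    intro h
    exact h0 (by rw [hJ, h]; simp)
  have h6 : E₆ (⟨z, hz⟩ : ℍ) ≠ 0 := by
    intro h
    apply h1728
    rw [hJ]
    have h5 := discriminant_eq_E₄_cube_sub_E₆_sq (⟨z, hz⟩ : ℍ)
    rw [h] at h5
    rw [div_eq_iff hΔ, h5]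
    ring
  have : deriv J z = c * (E₄ (⟨z, hz⟩ : ℍ) ^ 2 * E₆ (⟨z, hz⟩ : ℍ) /
      ModularForm.discriminant (⟨z, hz⟩ : ℍ)) := hd
  rw [this]
  exact mul_ne_zero hcne (div_ne_zero (mul_ne_zero (pow_ne_zero _ h4) h6) hΔ)

end SSM
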