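import Mathlib

/-!
# MP_d74fca_nt, part IV: modular functions over `ℂ` (helper58): definitions
-/

open Polynomial

namespace SSM

/-- the modular invariant `j = E₄³/Δ`, as a function on `ℂ` (meaningful for `0 < im z`) -/
noncomputable def J (z : ℂ) : ℂ :=
  ModularForm.E₄ (UpperHalfPlane.ofComplex z) ^ 3 /
    ModularForm.discriminant (UpperHalfPlane.ofComplex z)

/-- `q_M = e^{2πiz/M}` -/
noncomputable def qq (M : ℕ) (z : ℂ) : ℂ := Complex.exp (2 * Real.pi * Complex.I * z / M)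

/-- `f(z) q_M^N = ∑ a_n q_M^n` for `0 < im z`, with all `a_n` in `R` -/
def HasExp (R : Set ℂ) (M N : ℕ) (f : ℂ → ℂ) : Prop :=
  ∃ a : ℕ → ℂ, (∀ n, a n ∈ R) ∧
    ∀ z : ℂ, 0 < z.im → HasSum (fun n : ℕ => a n * qq M z ^ n) (f z * qq M z ^ N)

/-- the integers in `ℂ` -/
noncomputable def ZZ : Subring ℂ := (Int.castRingHom ℂ).range

/-- the algebraic integers in `ℂ` -/
noncomputable def OO : Subring ℂ := (integralClosure ℤ ℂ).toSubring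

/-- prime ideals above `ℓ` in the ring of algebraic integers, as subgroups of `ℂ` -/
structure PrimeOver (ℓ : ℕ) (I : AddSubgroup ℂ) : Prop where
  le : ∀ x ∈ I, x ∈ OO
  mul_mem : ∀ x ∈ OO, ∀ y ∈ I, x * y ∈ I
  prime : ∀ x ∈ OO, ∀ y ∈ OO, x * y ∈ I → x ∈ I ∨ y ∈ I
  mem : (ℓ : ℂ) ∈ I
  one : (1 : ℂ) ∉ I

/-- triples ((a, d), b) with a d = m, 0 ≤ b < d, i.e. the matrices (a b; 0 d) -/
def TT (m : ℕ) : Finset ((ℕ × ℕ) × ℕ) :=
  (m.divisorsAntidiagonal ×ˢ Finset.range m).filter (fun x => x.2 < x.1.2)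

/-- z ↦ (a z + b)/d for g = ((a, d), b) -/
noncomputable def act (g : (ℕ × ℕ) × ℕ) (z : ℂ) : ℂ := (g.1.1 * z + g.2) / g.1.2

/-- evaluation of the inner variable of `F ∈ ℤ[Y][X]` at `Y = y` -/
noncomputable def inn (y : ℂ) (F : ℤ[X][X]) : ℂ[X] := F.map (aeval y : ℤ[X] →ₐ[ℤ] ℂ).toRingHom

/-- `F ∈ ℤ[Y][X]` is the modular polynomial of level `m`: `F(X, j(z)) = ∏_{g ∈ TT m} (X - j(g z))` -/
def IsMP (m : ℕ) (F : ℤ[X][X]) : Prop :=
  F.Monic ∧ ∀ z : ℂ, 0 < z.im → inn (J z) F = ∏ g ∈ TT m, (X - C (J (act g z)))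

/-- the polynomial `F(X, X)` -/
noncomputable def diag (F : ℤ[X][X]) : ℤ[X] := F.eval X

/-- `t` is fixed by an integral matrix of trace `0` and determinant `D`, i.e. `√-D` is an
endomorphism of the lattice `ℤ + ℤ t` -/
def CMt (D : ℕ) (t : ℂ) : Prop :=
  0 < t.im ∧ ∃ α β γ : ℤ, 0 < α ∧ α * γ - β ^ 2 = D ∧ (α : ℂ) * t ^ 2 + 2 * β * t + γ = 0

/-- number of divisors `e` of `D` with `e^2 > D` -/
def kk (D : ℕ) : ℕ := (D.divisors.filter (fun e => D < e ^ 2)).card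

/-- number of divisors `e` of `D` with `1 < e^2/D < η^2` -/
noncomputable def near (D : ℕ) (η : ℝ) : ℕ :=
  (D.divisors.filter (fun e => D < e ^ 2 ∧ (e : ℝ) ^ 2 < η ^ 2 * D)).card

/-- the properties of the polynomial `P_D` -/
structure IsPD (D : ℕ) (P : ℤ[X]) : Prop where
  monic : P.Monic
  pos : 0 < P.natDegree
  even : Even P.natDegree
  simple : (P.map (Int.castRingHom ℂ)).roots.Nodup
  roots : ∀ x : ℂ, aeval x P = 0 ↔ ∃ t : ℂ, CMt D t ∧ J t = x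
  nz : ∀ x : ℂ, aeval x P = 0 → x ≠ 0 ∧ x ≠ 1728
  sq : ∀ ℓ : ℕ, ℓ.Prime → ℓ ∣ D → ∃ Q : (ZMod ℓ)[X], P.map (Int.castRingHom (ZMod ℓ)) = Q ^ 2
  sgn : ∃ (F : ℤ[X][X]) (R : ℤ[X]), IsMP D F ∧ R.Monic ∧ diag F = C ((-1) ^ kk D) * P * R ^ 2

end SSM
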