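import Pool.Agent.SSM.Targets

/-!
# MP_d74fca_nt, part IV: EIS, Eisenstein series and lattice sums
-/

open Polynomial

namespace SSM

namespace EIS_

open EisensteinSeries in
lemma key (L : PeriodPair) (z : ℂ) (hz : 0 < z.im) (h1 : L.ω₁ = 1) (h2 : L.ω₂ = z) {k : ℕ}
    (hk : 3 ≤ k) :
    L.G k = 2 * riemannZeta k * ModularForm.E hk (UpperHalfPlane.ofComplex z) := by
  have hE : ModularForm.E hk (UpperHalfPlane.ofComplex z) =
      (1 / 2 : ℂ) * eisensteinSeries (N := 1) 0 k (UpperHalfPlane.ofComplex z) := by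
    rw [show ModularForm.E hk (UpperHalfPlane.ofComplex z) =
      (1 / 2 : ℂ) • eisensteinSeriesSIF (N := 1) 0 k (UpperHalfPlane.ofComplex z) from rfl,
      eisensteinSeriesSIF_apply 0 k, smul_eq_mul]
  rw [hE]
  have hs := tsum_eisSummand_eq_riemannZeta_mul_eisensteinSeries hk (UpperHalfPlane.ofComplex z)
  have hG : L.G k = ∑' v : Fin 2 → ℤ, eisSummand k v (UpperHalfPlane.ofComplex z) := by
    rw [PeriodPair.G]
    rw [← (L.latticeEquivProd.toEquiv.symm).tsum_eq
      (fun l : L.lattice => ((l : ℂ) ^ k)⁻¹)]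
    rw [← (Equiv.prodComm ℤ ℤ).tsum_eq
      (fun x : ℤ × ℤ => (((L.latticeEquivProd.toEquiv.symm x : L.lattice) : ℂ) ^ k)⁻¹)]
    rw [← (finTwoArrowEquiv ℤ).tsum_eq]
    refine tsum_congr fun v => ?_
    have h3 : ((L.latticeEquivProd.toEquiv.symm (Equiv.prodComm ℤ ℤ (finTwoArrowEquiv ℤ v)) :
        L.lattice) : ℂ) = v 0 * z + v 1 := by
      have h4 := L.latticeEquiv_symm_apply (Equiv.prodComm ℤ ℤ (finTwoArrowEquiv ℤ v))
      refine h4.trans ?_
      rw [h1, h2]
      simp [finTwoArrowEquiv]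
      ring
    rw [h3, eisSummand, UpperHalfPlane.ofComplex_apply_of_im_pos hz, zpow_neg, zpow_natCast]
  rw [hG, hs]
  ring

end EIS_

theorem p_EIS : T_EIS := by
  intro L z hz h1 h2
  refine ⟨?_, ?_⟩
  · have := EIS_.key L z hz h1 h2 (k := 4) (by norm_num)
    simpa using this
  · have := EIS_.key L z hz h1 h2 (k := 6) (by norm_num)
    simpa using this

end SSM
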