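import Pool.Agent.SSM.Targets

/-!
# MP_d74fca_nt, part IV: `0` and `1728` are no roots of `F_D(X,X)` (job SSM-ELL)
-/

open Polynomial

namespace SSM

namespace ELL_

lemma aeval_diag (y : ℂ) (F : ℤ[X][X]) : aeval y (diag F) = (inn y F).eval y := by
  unfold diag inn
  rw [eval_map]
  have h := Polynomial.hom_eval₂ F (RingHom.id _) (aeval y : ℤ[X] →ₐ[ℤ] ℂ).toRingHom X
  simpa using h

lemma act_im (D : ℕ) (g : (ℕ × ℕ) × ℕ) (hg : g ∈ TT D) (z : ℂ) (hz : 0 < z.im) :
    0 < (act g z).im ∧ g.1.1 * g.1.2 = D ∧ 0 < g.1.2 := by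
  unfold TT at hg
  rw [Finset.mem_filter, Finset.mem_product, Nat.mem_divisorsAntidiagonal] at hg
  obtain ⟨⟨⟨h1, h2⟩, h3⟩, h4⟩ := hg
  have ha : 0 < g.1.1 := Nat.pos_of_ne_zero fun h => h2 (by rw [← h1, h, zero_mul])
  have hd : 0 < g.1.2 := Nat.pos_of_ne_zero fun h => h2 (by rw [← h1, h, mul_zero])
  refine ⟨?_, h1, hd⟩
  unfold act
  have e : ((g.1.1 : ℂ) * z + g.2) / g.1.2 = (((g.1.2 : ℝ)⁻¹ : ℝ) : ℂ) * (((g.1.1 : ℝ) : ℂ) * z + ((g.2 : ℝ) : ℂ)) := by
    push_cast
    rw [div_eq_mul_inv]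
    ring
  rw [e, Complex.im_ofReal_mul, Complex.add_im, Complex.im_ofReal_mul, Complex.ofReal_im, add_zero]
  have h5 : (0:ℝ) < g.1.1 := by exact_mod_cast ha
  have h6 : (0:ℝ) < g.1.2 := by exact_mod_cast hd
  positivity

/-- a root gives an integral matrix of determinant `D` fixing `z` -/
lemma root_matrix (hINJ : T_INJ) (D : ℕ) (F : ℤ[X][X]) (hF : IsMP D F) (z : ℂ)
    (hz : 0 < z.im) (h : aeval (J z) (diag F) = 0) :
    ∃ x y u v : ℤ, x * v - y * u = D ∧ (u : ℂ) * z ^ 2 + (v - x) * z - y = 0 := by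
  rw [aeval_diag, hF.2 z hz, eval_prod, Finset.prod_eq_zero_iff] at h
  obtain ⟨g, hg, h0⟩ := h
  rw [eval_sub, eval_X, eval_C, sub_eq_zero] at h0
  obtain ⟨him, hdet, hd⟩ := act_im D g hg z hz
  obtain ⟨a, b, c, d, h1, h2⟩ := hINJ (act g z) z him hz h0.symm
  have hd' : (g.1.2 : ℂ) ≠ 0 := by exact_mod_cast hd.ne'
  have hden : (c : ℂ) * act g z + d ≠ 0 := by
    intro h3
    rw [h3, div_zero] at h2
    rw [h2] at hz
    simp at hz
  rw [eq_div_iff hden] at h2
  have hact : act g z * g.1.2 = g.1.1 * z + g.2 := by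
    unfold act
    field_simp
  refine ⟨a * g.1.1, a * g.2 + b * g.1.2, c * g.1.1, c * g.2 + d * g.1.2, ?_, ?_⟩
  · have h4 : ((g.1.1 : ℤ)) * g.1.2 = D := by exact_mod_cast hdet
    linear_combination (a * d - b * c) * h4 + (D : ℤ) * h1
  · push_cast
    linear_combination (g.1.2 : ℂ) * h2 + (a - c * z) * hact

lemma mod_four (D : ℕ) (hD : 24 ∣ D + 1) (a b : ℤ) (h : a ^ 2 + b ^ 2 = D) : False := by
  obtain ⟨k, hk⟩ := hD
  have h1 : (a ^ 2 + b ^ 2 + 1 : ℤ) = 24 * k := by
    rw [h]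
    exact_mod_cast hk
  have h2 : ((a ^ 2 + b ^ 2 + 1 : ℤ) : ZMod 4) = 0 := by
    rw [h1]
    push_cast
    have : (24 : ZMod 4) = 0 := by decide
    rw [this, zero_mul]
  push_cast at h2
  generalize (a : ZMod 4) = a' at h2
  generalize (b : ZMod 4) = b' at h2
  revert h2
  revert a' b'
  decide

lemma mod_three (D : ℕ) (hD : 24 ∣ D + 1) (a b : ℤ) (h : a ^ 2 + a * b + b ^ 2 = D) : False := by
  obtain ⟨k, hk⟩ := hD
  have h1 : (a ^ 2 + a * b + b ^ 2 + 1 : ℤ) = 24 * k := by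
    rw [h]
    exact_mod_cast hk
  have h2 : ((a ^ 2 + a * b + b ^ 2 + 1 : ℤ) : ZMod 3) = 0 := by
    rw [h1]
    push_cast
    have : (24 : ZMod 3) = 0 := by decide
    rw [this, zero_mul]
  push_cast at h2
  generalize (a : ZMod 3) = a' at h2
  generalize (b : ZMod 3) = b' at h2
  revert h2
  revert a' b'
  decide

end ELL_

theorem p_ELL (hINJ : T_INJ) (hSPE : T_SPE) : T_ELL := by
  intro D F hD hF
  have hD0 : 0 < D := by
    rcases Nat.eq_zero_or_pos D with h | h
    · subst h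
      exact absurd (Nat.le_of_dvd (by norm_num) hD) (by norm_num)
    · exact h
  obtain ⟨s1, s2, -⟩ := hSPE
  constructor
  · intro h
    have h' : aeval (J ((1 + Real.sqrt 3 * Complex.I) / 2)) (diag F) = 0 := by
      rw [s2]
      exact h
    have hz : 0 < ((1 + Real.sqrt 3 * Complex.I) / 2 : ℂ).im := by
      simp
    obtain ⟨x, y, u, v, h1, h2⟩ := ELL_.root_matrix hINJ D F hF _ hz h'
    have hs : (Real.sqrt 3 : ℂ) ^ 2 = 3 := by
      have := Real.sq_sqrt (show (0:ℝ) ≤ 3 by norm_num)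
      exact_mod_cast this
    have hr : ((1 + Real.sqrt 3 * Complex.I) / 2 : ℂ) ^ 2 =
        ((1 + Real.sqrt 3 * Complex.I) / 2 : ℂ) - 1 := by
      have hI := Complex.I_sq
      linear_combination (Complex.I ^ 2 / 4) * hs + (3 / 4) * hI
    rw [hr] at h2
    have him := congrArg Complex.im h2
    have hre := congrArg Complex.re h2
    simp at him hre
    have h3 : (0:ℝ) < Real.sqrt 3 := Real.sqrt_pos.mpr (by norm_num)
    have e1 : (u : ℝ) + (v - x) = 0 := by
      have h4 : ((u : ℝ) + (v - x)) * (Real.sqrt 3 / 2) = 0 := by linarith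
      rcases mul_eq_zero.mp h4 with h5 | h5
      · exact h5
      · linarith
    have e2 : (y : ℝ) = -u := by linarith
    have e3 : x = u + v := by
      have : (x : ℝ) = u + v := by linarith
      exact_mod_cast this
    have e4 : y = -u := by exact_mod_cast e2
    apply ELL_.mod_three D hD u v
    rw [← h1, e3, e4]
    ring
  · intro h
    have h' : aeval (J Complex.I) (diag F) = 0 := by
      rw [s1]
      exact h
    have hz : 0 < Complex.I.im := by simp
    obtain ⟨x, y, u, v, h1, h2⟩ := ELL_.root_matrix hINJ D F hF _ hz h'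
    rw [Complex.I_sq] at h2
    have him := congrArg Complex.im h2
    have hre := congrArg Complex.re h2
    simp at him hre
    have e3 : x = v := by
      have : (x : ℝ) = v := by linarith
      exact_mod_cast this
    have e4 : y = -u := by
      have : (y : ℝ) = -u := by linarith
      exact_mod_cast this
    apply ELL_.mod_four D hD v u
    rw [← h1, e3, e4]
    ring

end SSM
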