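import Pool.Agent.SSM.Targets

/-! # SSM: elementary symmetric functions have algebraic integer expansions -/

open Polynomial

namespace SSM

namespace ESM_

/-- the additive group of the algebraic integers -/
noncomputable def OA : AddSubgroup ℂ := OO.toAddSubgroup

lemma mem_OA {x : ℂ} : x ∈ OA ↔ x ∈ OO := Iff.rfl

lemma int_mem (n : ℤ) : (n : ℂ) ∈ OO := by
  unfold OO
  exact isIntegral_algebraMap (R := ℤ) (A := ℂ) (x := n)

lemma hasExp_J (h1 : T_JEX) : HasExp OA 1 1 J := by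
  obtain ⟨c, -, hc⟩ := h1
  exact ⟨fun n => (c n : ℂ), fun n => int_mem (c n), hc⟩

lemma hasExp_act (h1 : T_JEX) (h2 : T_RNG) {m : ℕ} (hm : 1 ≤ m) {g : (ℕ × ℕ) × ℕ}
    (hg : g ∈ TT m) : HasExp OA m (m * m) (fun z => J (act g z)) := by
  obtain ⟨r1, -, -, -, r5, -, r7, -⟩ := h2
  unfold TT at hg
  simp only [Finset.mem_filter, Finset.mem_product, Nat.mem_divisorsAntidiagonal] at hg
  obtain ⟨⟨⟨had, -⟩, -⟩, -⟩ := hg
  have ha : 1 ≤ g.1.1 := by
    rcases Nat.eq_zero_or_pos g.1.1 with h | h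
    · rw [h, zero_mul] at had; omega
    · exact h
  have hd : 1 ≤ g.1.2 := by
    rcases Nat.eq_zero_or_pos g.1.2 with h | h
    · rw [h, mul_zero] at had; omega
    · exact h
  have e1 : HasExp OA (1 * g.1.2) (1 * g.1.1) (fun z => J ((g.1.1 * z + g.2) / g.1.2)) :=
    r7 OA 1 1 g.1.1 g.2 g.1.2 J le_rfl ha hd (fun x hx y hy => OO.mul_mem hx hy) (hasExp_J h1)
  have e2 := r5 OA (1 * g.1.2) (1 * g.1.1) g.1.1 _ (by omega) ha e1
  have e3 : 1 * g.1.2 * g.1.1 = m := by rw [one_mul, mul_comm]; exact had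
  rw [e3] at e2
  have ham : g.1.1 ≤ m := by
    rw [← had]
    exact Nat.le_mul_of_pos_right _ hd
  exact r1 OA m (1 * g.1.1 * g.1.1) (m * m) _ e2 (by
    rw [one_mul]
    exact Nat.mul_le_mul ham ham)

/-- all coefficients have expansions -/
def PE (m N : ℕ) (F : ℂ → ℂ[X]) : Prop := ∀ k : ℕ, HasExp OA m N (fun z => (F z).coeff k)

lemma hasExp_sum (h2 : T_RNG) {ι : Type} (s : Finset ι) (m N : ℕ) (f : ι → ℂ → ℂ)
    (h : ∀ i ∈ s, HasExp OA m N (f i)) : HasExp OA m N (fun z => ∑ i ∈ s, f i z) := by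
  obtain ⟨r1, r2, -, -, -, r6, -, -⟩ := h2
  classical
  induction s using Finset.induction_on with
  | empty =>
    simp only [Finset.sum_empty]
    exact r1 OA m 0 N _ (r6 OA m 0 (OA.zero_mem)) (Nat.zero_le _)
  | insert i s hi ih =>
    simp only [Finset.sum_insert hi]
    exact r2 OA m N _ _ (h i (Finset.mem_insert_self i s))
      (ih fun j hj => h j (Finset.mem_insert_of_mem hj))

lemma PE_mul (h2 : T_RNG) {m N N' : ℕ} {F G : ℂ → ℂ[X]} (hF : PE m N F) (hG : PE m N' G) :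
    PE m (N + N') (fun z => F z * G z) := by
  intro k
  simp only [coeff_mul]
  apply hasExp_sum h2
  intro x _
  exact h2.2.2.2.1 OA OA OA m N N' _ _ (fun x hx y hy => OO.mul_mem hx hy) (hF x.1) (hG x.2)

lemma PE_one (h2 : T_RNG) (m : ℕ) : PE m 0 (fun _ => 1) := by
  intro k
  obtain ⟨-, -, -, -, -, r6, -, -⟩ := h2
  apply r6
  rw [mem_OA, coeff_one]
  split_ifs
  · exact OO.one_mem
  · exact OO.zero_mem

lemma PE_lin (h1 : T_JEX) (h2 : T_RNG) {m : ℕ} (hm : 1 ≤ m) {g : (ℕ × ℕ) × ℕ}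
    (hg : g ∈ TT m) : PE m (m * m) (fun z => X - C (J (act g z))) := by
  intro k
  have hJ := hasExp_act h1 h2 hm hg
  obtain ⟨r1, r2, r3, -, -, r6, -, -⟩ := h2
  have hc : ∀ x : ℂ, x ∈ OA → HasExp OA m (m * m) (fun _ => x) := fun x hx =>
    r1 OA m 0 (m * m) _ (r6 OA m x hx) (Nat.zero_le _)
  by_cases hk0 : k = 0
  · subst hk0
    have e : (fun z => (X - C (J (act g z)) : ℂ[X]).coeff 0) = fun z => - J (act g z) := by
      funext z
      simp
    rw [e]
    exact r3 OA m (m * m) _ hJ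
  · have e : (fun z => (X - C (J (act g z)) : ℂ[X]).coeff k) =
        fun _ => if k = 1 then (1 : ℂ) else 0 := by
      funext z
      rw [coeff_sub, coeff_X, coeff_C, if_neg hk0, sub_zero]
      simp only [eq_comm]
    rw [e]
    apply hc
    split_ifs
    · exact OO.one_mem
    · exact OO.zero_mem

lemma PE_prod (h1 : T_JEX) (h2 : T_RNG) {m : ℕ} (hm : 1 ≤ m) (s : Finset ((ℕ × ℕ) × ℕ))
    (hs : s ⊆ TT m) : ∃ N : ℕ, PE m N (fun z => ∏ g ∈ s, (X - C (J (act g z)))) := by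
  classical
  induction s using Finset.induction_on with
  | empty =>
    refine ⟨0, ?_⟩
    simp only [Finset.prod_empty]
    exact PE_one h2 m
  | insert g s hg ih =>
    obtain ⟨N, hN⟩ := ih fun x hx => hs (Finset.mem_insert_of_mem hx)
    refine ⟨m * m + N, ?_⟩
    simp only [Finset.prod_insert hg]
    exact PE_mul h2 (PE_lin h1 h2 hm (hs (Finset.mem_insert_self g s))) hN

end ESM_

open ESM_ in
theorem p_ESM (h1 : T_JEX) (h2 : T_RNG) (h3 : T_PER) (h4 : T_PRM) : T_ESM := by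
  intro m k hm
  obtain ⟨N, hN⟩ := PE_prod h1 h2 hm (TT m) (Finset.Subset.refl _)
  refine ⟨N, ?_⟩
  have h5 := h3 OA m N (fun z => (∏ g ∈ TT m, (X - C (J (act g z)))).coeff k) hm (by
    intro z hz
    have h6 := h4 m hm 1 1 0 1 (by norm_num) z hz
    have h7 : ((((1 : ℤ) : ℂ) * z + ((1 : ℤ) : ℂ)) / (((0 : ℤ) : ℂ) * z + ((1 : ℤ) : ℂ))) =
        z + 1 := by
      push_cast
      ring
    rw [h7] at h6
    simp only [h6]) (hN k)
  exact h5

end SSM
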