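import Pool.Agent.SSM.Targets

/-!
# MP_d74fca_nt, part IV: every orbit meets the fundamental domain (job SSM-FUN, helper60)
-/

open Polynomial

namespace SSM

theorem p_FUN : T_FUN := by
  intro z hz
  obtain ⟨g, hg⟩ := ModularGroup.exists_smul_mem_fd (⟨z, hz⟩ : UpperHalfPlane)
  have hdet : g 0 0 * g 1 1 - g 0 1 * g 1 0 = 1 := by
    have := Matrix.det_fin_two (g : Matrix (Fin 2) (Fin 2) ℤ)
    rw [← this]; exact g.2
  have hc : ((g • (⟨z, hz⟩ : UpperHalfPlane) : UpperHalfPlane) : ℂ) =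
      ((g 0 0 : ℂ) * z + (g 0 1 : ℂ)) / ((g 1 0 : ℂ) * z + (g 1 1 : ℂ)) := by
    rw [UpperHalfPlane.coe_specialLinearGroup_apply]
    simp
  obtain ⟨h1, h2⟩ := hg
  refine ⟨g 0 0, g 0 1, g 1 0, g 1 1, hdet, ?_, ?_, ?_⟩
  · rw [← hc]; exact (g • (⟨z, hz⟩ : UpperHalfPlane)).im_pos
  · rw [← hc]; exact h2
  · rw [← hc]
    rw [Complex.normSq_eq_norm_sq] at h1
    nlinarith [norm_nonneg ((g • (⟨z, hz⟩ : UpperHalfPlane) : UpperHalfPlane) : ℂ)]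

end SSM
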