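import Pool.Agent.SSM.Targets

/-!
# HNF: Hermite normal form
-/

namespace SSM

namespace HNF_

lemma mem_TT {m : ℕ} {g : (ℕ × ℕ) × ℕ} :
    g ∈ TT m ↔ (g.1.1 * g.1.2 = m ∧ m ≠ 0) ∧ g.2 < m ∧ g.2 < g.1.2 := by
  unfold TT
  rw [Finset.mem_filter, Finset.mem_product, Nat.mem_divisorsAntidiagonal, Finset.mem_range]
  tauto

lemma exist (m : ℕ) (hm : 1 ≤ m) (x y z w : ℤ) (h : x * w - y * z = m) :
    ∃ g ∈ TT m, ∃ a b c d : ℤ, a * d - b * c = 1 ∧
    x = a * g.1.1 ∧ y = a * g.2 + b * g.1.2 ∧ z = c * g.1.1 ∧ w = c * g.2 + d * g.1.2 := by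
  have hm' : (0 : ℤ) < m := by exact_mod_cast hm
  set g0 : ℕ := Int.gcd x z with hg0
  have hpos : 0 < g0 := by
    rcases Nat.eq_zero_or_pos g0 with h0 | h0
    · exfalso
      rw [hg0, Int.gcd_eq_zero_iff] at h0
      rw [h0.1, h0.2] at h
      simp at h
      omega
    · exact h0
  obtain ⟨a, ha⟩ : (g0 : ℤ) ∣ x := Int.gcd_dvd_left ..
  obtain ⟨c, hc⟩ : (g0 : ℤ) ∣ z := Int.gcd_dvd_right ..
  set u := Int.gcdA x z with hu
  set v := Int.gcdB x z with hv
  have hbez : (g0 : ℤ) = x * u + z * v := Int.gcd_eq_gcd_ab x z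
  have hg0' : (0 : ℤ) < g0 := by exact_mod_cast hpos
  have h1 : a * u + c * v = 1 := by
    have : (g0 : ℤ) * (a * u + c * v) = g0 * 1 := by
      calc (g0 : ℤ) * (a * u + c * v) = (g0 * a) * u + (g0 * c) * v := by ring
        _ = x * u + z * v := by rw [← ha, ← hc]
        _ = g0 * 1 := by rw [← hbez, mul_one]
    exact mul_left_cancel₀ hg0'.ne' this
  set y' : ℤ := u * y + v * w with hy'
  set w' : ℤ := a * w - c * y with hw'
  have hgw : (g0 : ℤ) * w' = m := by
    rw [hw', ← h]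
    calc (g0 : ℤ) * (a * w - c * y) = (g0 * a) * w - y * (g0 * c) := by ring
      _ = x * w - y * z := by rw [← ha, ← hc]
  have hw0 : 0 < w' := by
    by_contra hcon
    have : (g0 : ℤ) * w' ≤ 0 := mul_nonpos_of_nonneg_of_nonpos hg0'.le (not_lt.1 hcon)
    omega
  set r : ℤ := y' % w' with hr
  set k : ℤ := y' / w' with hk
  have hrk : y' = r + k * w' := by
    rw [hr, hk]
    have := Int.emod_add_mul_ediv y' w'
    linarith
  have hr0 : 0 ≤ r := Int.emod_nonneg _ hw0.ne'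
  have hr1 : r < w' := Int.emod_lt_of_pos _ hw0
  have hwm : w' ≤ m := by
    rw [← hgw]
    nlinarith
  refine ⟨((g0, w'.toNat), r.toNat), ?_, a, a * k - v, c, c * k + u, ?_, ?_, ?_, ?_, ?_⟩
  · rw [mem_TT]
    refine ⟨⟨?_, by omega⟩, ?_, ?_⟩
    · have : ((g0 * w'.toNat : ℕ) : ℤ) = m := by
        push_cast
        rw [Int.toNat_of_nonneg hw0.le, hgw]
      exact_mod_cast this
    · simp only
      omega
    · simp only
      omega
  · linear_combination h1
  · simp only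
    rw [ha]
    ring
  · simp only
    rw [Int.toNat_of_nonneg hr0, Int.toNat_of_nonneg hw0.le]
    have e1 : a * y' - v * w' = y := by
      rw [hy', hw']
      linear_combination y * h1
    linear_combination -e1 + a * hrk
  · simp only
    rw [hc]
    ring
  · simp only
    rw [Int.toNat_of_nonneg hr0, Int.toNat_of_nonneg hw0.le]
    have e1 : c * y' + u * w' = w := by
      rw [hy', hw']
      linear_combination w * h1
    linear_combination -e1 + c * hrk

lemma uniq (m : ℕ) (g : (ℕ × ℕ) × ℕ) (hg : g ∈ TT m) (h : (ℕ × ℕ) × ℕ) (hh : h ∈ TT m)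
    (a b c d : ℤ) (hdet : a * d - b * c = 1)
    (h1 : (h.1.1 : ℤ) = a * g.1.1) (h2 : (h.2 : ℤ) = a * g.2 + b * g.1.2)
    (h3 : (0 : ℤ) = c * g.1.1) (h4 : (h.1.2 : ℤ) = c * g.2 + d * g.1.2) : h = g := by
  rw [mem_TT] at hg hh
  obtain ⟨⟨hg1, hm0⟩, hg2, hg3⟩ := hg
  obtain ⟨⟨hh1, -⟩, hh2, hh3⟩ := hh
  have ga : 0 < g.1.1 := Nat.pos_of_ne_zero (by rintro h0; rw [h0, zero_mul] at hg1; omega)
  have ha : 0 < h.1.1 := Nat.pos_of_ne_zero (by rintro h0; rw [h0, zero_mul] at hh1; omega)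
  have ga' : (0 : ℤ) < g.1.1 := by exact_mod_cast ga
  have ha' : (0 : ℤ) < h.1.1 := by exact_mod_cast ha
  have hc : c = 0 := by
    rcases mul_eq_zero.1 h3.symm with h5 | h5
    · exact h5
    · omega
  subst hc
  have hdet' : a * d = 1 := by linarith
  have ha1 : a = 1 := by
    rcases Int.eq_one_or_neg_one_of_mul_eq_one hdet' with h5 | h5
    · exact h5
    · rw [h5] at h1
      omega
  subst ha1
  have hd1 : d = 1 := by linarith
  subst hd1
  have e1 : h.1.1 = g.1.1 := by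
    have : (h.1.1 : ℤ) = g.1.1 := by linarith
    exact_mod_cast this
  have e2 : h.1.2 = g.1.2 := by
    have : (h.1.2 : ℤ) = g.1.2 := by linarith
    exact_mod_cast this
  have hb : b = 0 := by
    have k1 : (g.2 : ℤ) < g.1.2 := by exact_mod_cast hg3
    have k2 : (h.2 : ℤ) < g.1.2 := by rw [← e2]; exact_mod_cast hh3
    have k3 : (0 : ℤ) ≤ g.2 := by positivity
    have k4 : (0 : ℤ) ≤ h.2 := by positivity
    have k5 : (0 : ℤ) < g.1.2 := by omega
    rcases lt_trichotomy b 0 with h5 | h5 | h5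
    · nlinarith
    · exact h5
    · nlinarith
  subst hb
  have e3 : h.2 = g.2 := by
    have : (h.2 : ℤ) = g.2 := by linarith
    exact_mod_cast this
  exact Prod.ext (Prod.ext e1 e2) e3

end HNF_

theorem p_HNF : T_HNF := fun m hm =>
  ⟨fun x y z w h => HNF_.exist m hm x y z w h,
    fun g hg h hh a b c d hdet h1 h2 h3 h4 => HNF_.uniq m g hg h hh a b c d hdet h1 h2 h3 h4⟩

end SSM
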