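import Pool.Agent.SSM.Targets

/-!
# MP_d74fca_nt, part IV: INJ, the function `J` separates the orbits of `SL₂(ℤ)`
-/

set_option autoImplicit false

open Polynomial

namespace SSM

namespace INJ_

/-- two pairs `(E₄, E₆)` with the same `J` differ by a scaling -/
lemma exists_scale (a b a' b' : ℂ) (h : a ^ 3 - b ^ 2 ≠ 0) (h' : a' ^ 3 - b' ^ 2 ≠ 0)
    (e : a ^ 3 * b' ^ 2 = a' ^ 3 * b ^ 2) :
    ∃ l : ℂ, l ≠ 0 ∧ a' = l ^ 4 * a ∧ b' = l ^ 6 * b := by
  by_cases ha : a = 0
  · have hb : b ≠ 0 := by rintro rfl; apply h; rw [ha]; ring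
    have ha' : a' = 0 := by
      have : a' ^ 3 * b ^ 2 = 0 := by rw [← e, ha]; ring
      rcases mul_eq_zero.1 this with h1 | h1
      · exact pow_eq_zero_iff (by norm_num) |>.1 h1
      · exact absurd (pow_eq_zero_iff (by norm_num) |>.1 h1) hb
    have hb' : b' ≠ 0 := by rintro rfl; apply h'; rw [ha']; ring
    obtain ⟨l, hl⟩ := IsAlgClosed.exists_pow_nat_eq (b' / b) (n := 6) (by norm_num)
    refine ⟨l, ?_, ?_, ?_⟩
    · rintro rfl
      rw [zero_pow (by norm_num)] at hl
      exact (div_ne_zero hb' hb) hl.symm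
    · rw [ha, ha']; ring
    · rw [hl]; field_simp
  by_cases hb : b = 0
  · have hb' : b' = 0 := by
      have : a ^ 3 * b' ^ 2 = 0 := by rw [e, hb]; ring
      rcases mul_eq_zero.1 this with h1 | h1
      · exact absurd (pow_eq_zero_iff (by norm_num) |>.1 h1) ha
      · exact pow_eq_zero_iff (by norm_num) |>.1 h1
    have ha' : a' ≠ 0 := by rintro rfl; apply h'; rw [hb']; ring
    obtain ⟨l, hl⟩ := IsAlgClosed.exists_pow_nat_eq (a' / a) (n := 4) (by norm_num)
    refine ⟨l, ?_, ?_, ?_⟩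
    · rintro rfl
      rw [zero_pow (by norm_num)] at hl
      exact (div_ne_zero ha' ha) hl.symm
    · rw [hl]; field_simp
    · rw [hb, hb']; ring
  have ha' : a' ≠ 0 := by
    rintro rfl
    have : a ^ 3 * b' ^ 2 = 0 := by rw [e]; ring
    rcases mul_eq_zero.1 this with h1 | h1
    · exact ha (pow_eq_zero_iff (by norm_num) |>.1 h1)
    · apply h'; rw [h1]; ring
  have hb' : b' ≠ 0 := by
    rintro rfl
    have : a' ^ 3 * b ^ 2 = 0 := by rw [← e]; ring
    rcases mul_eq_zero.1 this with h1 | h1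
    · exact ha' (pow_eq_zero_iff (by norm_num) |>.1 h1)
    · exact hb (pow_eq_zero_iff (by norm_num) |>.1 h1)
  obtain ⟨l, hl⟩ := IsAlgClosed.exists_pow_nat_eq ((b' / b) / (a' / a)) (n := 2) (by norm_num)
  have e1 : (a' / a) ^ 3 = (b' / b) ^ 2 := by
    field_simp
    linear_combination -e
  have hu : a' / a ≠ 0 := div_ne_zero ha' ha
  have hv : b' / b ≠ 0 := div_ne_zero hb' hb
  have h4 : l ^ 4 = a' / a := by
    have : l ^ 4 = (l ^ 2) ^ 2 := by ring
    rw [this, hl, div_pow, ← e1]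
    field_simp
  have h6 : l ^ 6 = b' / b := by
    have : l ^ 6 = (l ^ 2) ^ 3 := by ring
    rw [this, hl, div_pow, e1]
    field_simp
  refine ⟨l, ?_, ?_, ?_⟩
  · rintro rfl
    rw [zero_pow (by norm_num)] at h4
    exact hu h4.symm
  · rw [h4]; field_simp
  · rw [h6]; field_simp

/-- the period pair `(c, c z)` -/
noncomputable def pp (c z : ℂ) (hc : c ≠ 0) (hz : 0 < z.im) : PeriodPair where
  ω₁ := c
  ω₂ := c * z
  indep := by
    rw [LinearIndependent.pair_iff]
    intro s t hst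
    have h1 : c * ((s : ℂ) + t * z) = 0 := by
      rw [← hst, Complex.real_smul, Complex.real_smul]; ring
    have h2 : (s : ℂ) + t * z = 0 := (mul_eq_zero.1 h1).resolve_left hc
    have h3 := congrArg Complex.im h2
    have h4 := congrArg Complex.re h2
    simp at h3 h4
    have ht : t = 0 := h3.resolve_right hz.ne'
    rw [ht] at h4
    simp at h4
    exact ⟨h4, ht⟩

lemma G_eq (L : PeriodPair) (n : ℕ) :
    L.G n = ∑' x : ℤ × ℤ, ((x.1 * L.ω₁ + x.2 * L.ω₂) ^ n)⁻¹ := by
  rw [PeriodPair.G, ← L.latticeEquivProd.symm.toEquiv.tsum_eq]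
  refine tsum_congr fun x => ?_
  simp [PeriodPair.latticeEquiv_symm_apply]

lemma G_scale (c z : ℂ) (hc : c ≠ 0) (hz : 0 < z.im) (n : ℕ) :
    (pp c z hc hz).G n = (c ^ n)⁻¹ * (pp 1 z one_ne_zero hz).G n := by
  rw [G_eq, G_eq, ← tsum_mul_left]
  refine tsum_congr fun x => ?_
  simp only [pp]
  rw [← mul_inv, ← mul_pow]
  congr 2
  ring

end INJ_

open INJ_

/-- INJ -/
theorem p_INJ (h_EIS : T_EIS) (h_LAT : T_LAT) : T_INJ := by
  intro z w hz hw hJ
  -- the scaling
  set τ := UpperHalfPlane.ofComplex z with hτ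
  set σ := UpperHalfPlane.ofComplex w with hσ
  have hD1 := ModularForm.discriminant_ne_zero τ
  have hD2 := ModularForm.discriminant_ne_zero σ
  have e1 := ModularForm.discriminant_eq_E₄_cube_sub_E₆_sq τ
  have e2 := ModularForm.discriminant_eq_E₄_cube_sub_E₆_sq σ
  have hJ' : ModularForm.E₄ τ ^ 3 / ModularForm.discriminant τ =
      ModularForm.E₄ σ ^ 3 / ModularForm.discriminant σ := hJ
  rw [div_eq_div_iff hD1 hD2, e1, e2] at hJ'
  rw [e1] at hD1
  rw [e2] at hD2
  obtain ⟨l, hl, h4, h6⟩ := exists_scale (ModularForm.E₄ τ) (ModularForm.E₆ τ) (ModularForm.E₄ σ)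
    (ModularForm.E₆ σ) (fun h => hD1 (by rw [h]; simp)) (fun h => hD2 (by rw [h]; simp))
    (by linear_combination (-1728) * hJ')
  have hl' : l⁻¹ ≠ 0 := inv_ne_zero hl
  obtain ⟨z4, z6⟩ := h_EIS (pp 1 z one_ne_zero hz) z hz rfl (one_mul z)
  obtain ⟨w4, w6⟩ := h_EIS (pp 1 w one_ne_zero hw) w hw rfl (one_mul w)
  have hlat := h_LAT (pp l⁻¹ z hl' hz) (pp 1 w one_ne_zero hw)
    (by rw [G_scale, z4, w4, ← hτ, ← hσ, h4, inv_pow, inv_inv]; ring)
    (by rw [G_scale, z6, w6, ← hτ, ← hσ, h6, inv_pow, inv_inv]; ring)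
  have m1 : (1 : ℂ) ∈ (pp l⁻¹ z hl' hz).lattice := by
    rw [hlat]; exact (pp 1 w one_ne_zero hw).ω₁_mem_lattice
  have m2 : w ∈ (pp l⁻¹ z hl' hz).lattice := by
    rw [hlat]
    have := (pp 1 w one_ne_zero hw).ω₂_mem_lattice
    simpa [pp] using this
  have m3 : l⁻¹ ∈ (pp 1 w one_ne_zero hw).lattice := by
    rw [← hlat]; exact (pp l⁻¹ z hl' hz).ω₁_mem_lattice
  have m4 : l⁻¹ * z ∈ (pp 1 w one_ne_zero hw).lattice := by
    rw [← hlat]; exact (pp l⁻¹ z hl' hz).ω₂_mem_lattice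
  obtain ⟨d, c, e3⟩ := PeriodPair.mem_lattice.1 m1
  obtain ⟨b, a, e4⟩ := PeriodPair.mem_lattice.1 m2
  obtain ⟨p, q, e5⟩ := PeriodPair.mem_lattice.1 m3
  obtain ⟨r, s, e6⟩ := PeriodPair.mem_lattice.1 m4
  simp only [pp] at e3 e4 e5 e6
  have f1 : ((d * p + c * r : ℤ) : ℂ) + ((d * q + c * s : ℤ) : ℂ) * w = 1 := by
    push_cast
    linear_combination e3 + d * e5 + c * e6
  have f2 : ((b * p + a * r : ℤ) : ℂ) + ((b * q + a * s : ℤ) : ℂ) * w = w := by
    push_cast
    linear_combination e4 + b * e5 + a * e6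
  have key : ∀ x y : ℤ, (x : ℂ) + y * w = 0 → x = 0 ∧ y = 0 := by
    intro x y hxy
    have h3 := congrArg Complex.im hxy
    have h4 := congrArg Complex.re hxy
    simp at h3 h4
    have hy : y = 0 := h3.resolve_right hw.ne'
    rw [hy] at h4
    simp at h4
    exact ⟨h4, hy⟩
  have g1 := key (d * p + c * r - 1) (d * q + c * s) (by push_cast at f1 ⊢; linear_combination f1)
  have g2 := key (b * p + a * r) (b * q + a * s - 1) (by push_cast at f2 ⊢; linear_combination f2)
  have hdet : (a * d - b * c) * (s * p - r * q) = 1 := by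
    obtain ⟨g11, g12⟩ := g1
    obtain ⟨g21, g22⟩ := g2
    have i1 : d * p + c * r = 1 := by linarith
    have i2 : b * q + a * s = 1 := by linarith
    have : (a * d - b * c) * (s * p - r * q) =
      (b * q + a * s) * (d * p + c * r) - (b * p + a * r) * (d * q + c * s) := by ring
    rw [this, g12, i1, i2]; ring
  -- `l = c z + d`, `w l = a z + b`
  have hl1 : l = c * z + d := by
    have : l * (d * l⁻¹ + c * (l⁻¹ * z)) = l := by rw [e3]; ring
    rw [← this]
    field_simp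
    ring
  have hw1 : w * l = a * z + b := by
    rw [← e4]
    field_simp
    ring
  have hw2 : w = (a * z + b) / (c * z + d) := by
    rw [← hw1, ← hl1]
    field_simp
  have him : w.im * (l.re ^ 2 + l.im ^ 2) = ((a * d - b * c : ℤ) : ℝ) * z.im := by
    have r1 := congrArg Complex.re hl1
    have r2 := congrArg Complex.im hl1
    have r3 := congrArg Complex.re hw1
    have r4 := congrArg Complex.im hw1
    simp at r1 r2 r3 r4
    push_cast
    linear_combination l.re * r4 - l.im * r3 + (a * z.im) * r1 - (a * z.re + b) * r2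
  have hpos : 0 < w.im * (l.re ^ 2 + l.im ^ 2) := by
    apply mul_pos hw
    have : Complex.normSq l = l.re ^ 2 + l.im ^ 2 := by rw [Complex.normSq_apply]; ring
    rw [← this]
    exact Complex.normSq_pos.2 hl
  rw [him] at hpos
  have hdp : (0 : ℝ) < ((a * d - b * c : ℤ) : ℝ) := by
    by_contra hcon
    exact absurd hpos (not_lt.2 (mul_nonpos_of_nonpos_of_nonneg (not_lt.1 hcon) hz.le))
  have hdp' : 0 < a * d - b * c := by exact_mod_cast hdp
  refine ⟨a, b, c, d, ?_, hw2⟩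
  rcases Int.eq_one_or_neg_one_of_mul_eq_one hdet with h | h
  · exact h
  · omega

end SSM
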