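import Pool.Agent.SSM.Targets

/-!
# MP_d74fca_nt, part IV, INV: holomorphy, modularity, conjugation of `J` (helper76, for helper58)
-/

open Polynomial
open scoped MatrixGroups

namespace SSM

namespace INV_

lemma J_eq (z : UpperHalfPlane) : J (z : ℂ) = ModularForm.E₄ z ^ 3 / ModularForm.discriminant z := by
  unfold J
  rw [UpperHalfPlane.ofComplex_apply]

lemma holo : DifferentiableOn ℂ J {z : ℂ | 0 < z.im} := by
  have h1 : DifferentiableOn ℂ ((ModularForm.E₄ : UpperHalfPlane → ℂ) ∘ UpperHalfPlane.ofComplex)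
      {z : ℂ | 0 < z.im} :=
    UpperHalfPlane.mdifferentiable_iff.mp (ModularFormClass.holo ModularForm.E₄)
  have h2 : DifferentiableOn ℂ (ModularForm.discriminant ∘ UpperHalfPlane.ofComplex)
      {z : ℂ | 0 < z.im} :=
    UpperHalfPlane.mdifferentiable_iff.mp CuspForm.discriminant.holo'
  exact (h1.pow 3).div h2 (fun z _ => ModularForm.discriminant_ne_zero _)

lemma E4_smul (γ : SL(2, ℤ)) (z : UpperHalfPlane) :
    ModularForm.E₄ (γ • z) = (UpperHalfPlane.denom γ z) ^ 4 * ModularForm.E₄ z := by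
  have h := SlashInvariantForm.slash_action_eqn'' (ModularForm.E₄)
    (γ := (γ : GL (Fin 2) ℝ)) (MonoidHom.mem_range.mpr ⟨γ, rfl⟩) z
  exact_mod_cast h

lemma Delta_smul (γ : SL(2, ℤ)) (z : UpperHalfPlane) :
    ModularForm.discriminant (γ • z) = (UpperHalfPlane.denom γ z) ^ 12 * ModularForm.discriminant z := by
  have h := SlashInvariantForm.slash_action_eqn'' (CuspForm.discriminant)
    (γ := (γ : GL (Fin 2) ℝ)) (MonoidHom.mem_range.mpr ⟨γ, rfl⟩) z
  exact_mod_cast h

lemma J_smul (γ : SL(2, ℤ)) (z : UpperHalfPlane) : J ((γ • z : UpperHalfPlane) : ℂ) = J (z : ℂ) := by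
  rw [J_eq, J_eq, E4_smul, Delta_smul]
  have hd : UpperHalfPlane.denom γ z ≠ 0 := UpperHalfPlane.denom_ne_zero _ z
  have hD := ModularForm.discriminant_ne_zero z
  field_simp

lemma mob (a b c d : ℤ) (h : a * d - b * c = 1) (z : ℂ) (hz : 0 < z.im) :
    0 < ((a * z + b) / (c * z + d)).im ∧ (c * z + d) ≠ 0 ∧
      J ((a * z + b) / (c * z + d)) = J z := by
  let γ : SL(2, ℤ) := ⟨!![a, b; c, d], by rw [Matrix.det_fin_two_of]; exact h⟩
  let w : UpperHalfPlane := ⟨z, hz⟩
  have h1 : ((γ • w : UpperHalfPlane) : ℂ) = (a * z + b) / (c * z + d) := by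
    rw [UpperHalfPlane.coe_specialLinearGroup_apply]
    simp [γ, w]
  have h2 : (c * z + d : ℂ) ≠ 0 := by
    have h3 := UpperHalfPlane.denom_ne_zero (γ : GL (Fin 2) ℝ) w
    intro h4
    apply h3
    rw [ModularGroup.denom_apply, ← h4]
    simp [γ, w]
  refine ⟨?_, h2, ?_⟩
  · rw [← h1]
    exact (γ • w).im_pos
  · rw [← h1, J_smul]

/-- reflection -/
noncomputable def refl (z : UpperHalfPlane) : UpperHalfPlane :=
  ⟨-(starRingEnd ℂ (z : ℂ)), by simpa using z.im_pos⟩

lemma exp_refl (z : UpperHalfPlane) :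
    Complex.exp (2 * Real.pi * Complex.I * (refl z : ℂ)) =
      starRingEnd ℂ (Complex.exp (2 * Real.pi * Complex.I * (z : ℂ))) := by
  rw [← Complex.exp_conj]
  congr 1
  simp only [refl, map_mul, Complex.conj_I, Complex.conj_ofReal, map_ofNat]
  ring

lemma E_refl {k : ℕ} (hk : 3 ≤ k) (hk2 : Even k) (z : UpperHalfPlane) :
    ModularForm.E hk (refl z) = starRingEnd ℂ (ModularForm.E hk z) := by
  rw [EisensteinSeries.q_expansion_bernoulli hk hk2, EisensteinSeries.q_expansion_bernoulli hk hk2,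
    exp_refl]
  rw [map_sub, map_mul, Complex.conj_tsum]
  simp [map_ofNat]

lemma Delta_refl (z : UpperHalfPlane) :
    ModularForm.discriminant (refl z) = starRingEnd ℂ (ModularForm.discriminant z) := by
  rw [ModularForm.discriminant_eq_E₄_cube_sub_E₆_sq, ModularForm.discriminant_eq_E₄_cube_sub_E₆_sq]
  rw [map_div₀, map_sub, map_pow, map_pow]
  rw [E_refl _ ⟨2, rfl⟩, E_refl _ ⟨3, rfl⟩, map_ofNat]

end INV_

open INV_ in
theorem p_INV : T_INV := by
  refine ⟨holo, mob, ?_, ?_⟩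
  · intro z hz
    obtain ⟨-, -, h1⟩ := mob 1 1 0 1 (by norm_num) z hz
    obtain ⟨h2, -, h3⟩ := mob 0 (-1) 1 0 (by norm_num) z hz
    refine ⟨?_, ?_, ?_⟩
    · simpa using h1
    · simpa using h2
    · simpa using h3
  · intro z hz
    have h1 : (-(starRingEnd ℂ z)) = ((refl ⟨z, hz⟩ : UpperHalfPlane) : ℂ) := rfl
    have h2 : J z = J ((⟨z, hz⟩ : UpperHalfPlane) : ℂ) := rfl
    rw [h1, h2, J_eq, J_eq, map_div₀, map_pow, Delta_refl, E_refl _ ⟨2, rfl⟩]

end SSM
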