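import Pool.Agent.SSM.Targets

/-!
# MP_d74fca_nt, part IV: JAC, an inert prime with odd valuation
-/

set_option autoImplicit false

open scoped NumberTheorySymbols

namespace SSM

namespace JAC_

theorem eq_one (a : ℤ) (b : ℕ) (h : ∀ p : ℕ, p.Prime → p ∣ b → ¬ (p : ℤ) ∣ a ∧
    ∃ x : ZMod p, (a : ZMod p) = x ^ 2) : J(a | b) = 1 := by
  unfold jacobiSym
  apply List.prod_eq_one
  intro x hx
  rw [List.mem_pmap] at hx
  obtain ⟨p, hp, rfl⟩ := hx
  have hpp := Nat.prime_of_mem_primeFactorsList hp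
  haveI : Fact p.Prime := ⟨hpp⟩
  obtain ⟨h1, x, hx⟩ := h p hpp (Nat.dvd_of_mem_primeFactorsList hp)
  have ha : (a : ZMod p) ≠ 0 := by
    intro h0
    exact h1 ((ZMod.intCast_zmod_eq_zero_iff_dvd a p).1 h0)
  rw [legendreSym.eq_one_iff p ha]
  exact ⟨x, by rw [hx, sq]⟩

theorem odd_val (a : ℤ) (n : ℕ) (hn : n ≠ 0) (h : J(a | n) = -1) :
    ∃ p : ℕ, p.Prime ∧ Odd (padicValNat p n) ∧ J(a | p) = -1 := by
  obtain ⟨s, m, hsm, hs⟩ := Nat.sq_mul_squarefree n
  have hm0 : m ≠ 0 := by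
    rintro rfl
    apply hn
    rw [← hsm]
    simp
  have hs0 : s ≠ 0 := by
    rintro rfl
    exact not_squarefree_zero hs
  have h1 : J(a | m) * J(a | m) * J(a | s) = -1 := by
    haveI : NeZero m := ⟨hm0⟩
    haveI : NeZero s := ⟨hs0⟩
    rw [← jacobiSym.mul_right, ← jacobiSym.mul_right, ← sq, hsm, h]
  have h2 : J(a | s) = -1 := by
    rcases jacobiSym.trichotomy a m with h3 | h3 | h3 <;> rw [h3] at h1 <;> linarith
  obtain ⟨p, hp, hps, hJ⟩ := jacobiSym.eq_neg_one_at_prime_divisor_of_eq_neg_one h2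
  refine ⟨p, hp, ?_, hJ⟩
  haveI : Fact p.Prime := ⟨hp⟩
  rw [← hsm, padicValNat.mul (pow_ne_zero 2 hm0) hs0, padicValNat.pow m]
  have h5 : padicValNat p s = 1 := by
    have h6 := (Nat.squarefree_iff_factorization_le_one hs0).1 hs p
    rw [Nat.factorization_def s hp] at h6
    have h7 := one_le_padicValNat_of_dvd hs0 hps
    omega
  rw [h5]
  exact ⟨_, rfl⟩

end JAC_

open JAC_ in
theorem p_JAC : T_JAC := by
  intro D N hD h8 hN h
  have hD0 : D ≠ 0 := by
    rintro rfl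
    exact not_squarefree_zero hD
  have hD8 : D % 8 = 7 := by omega
  have hDo : Odd D := Nat.odd_iff.2 (by omega)
  have hM0 : N.natAbs ≠ 0 := by omega
  obtain ⟨e, n, hno, hn⟩ := Nat.exists_eq_two_pow_mul_odd hM0
  have hn0 : n ≠ 0 := by
    rintro rfl
    simp at hno
  have hNe : N = (-1) * ((2 : ℤ) ^ e * (n : ℤ)) := by
    have h1 : (N.natAbs : ℤ) = -N := by omega
    rw [hn] at h1
    push_cast at h1
    linarith
  have h1 : J(N | D) = 1 := eq_one N D h
  have h2 : J(-1 | D) = -1 := by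
    rw [jacobiSym.at_neg_one hDo, ZMod.χ₄_nat_three_mod_four (by omega)]
  have h3 : J(2 | D) = 1 := by
    rw [jacobiSym.at_two hDo]
    have : (D : ZMod 8) = 7 := by
      rw [← ZMod.natCast_mod, hD8]
      rfl
    rw [this]
    decide
  have h4 : J((n : ℤ) | D) = -1 := by
    rw [hNe, jacobiSym.mul_left, jacobiSym.mul_left, jacobiSym.pow_left, h2, h3, one_pow] at h1
    linarith
  have h5 : J(-(D : ℤ) | n) = -1 := by
    rw [neg_eq_neg_one_mul, jacobiSym.mul_left, jacobiSym.at_neg_one hno]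
    rcases Nat.odd_mod_four_iff.1 (Nat.odd_iff.1 hno) with h6 | h6
    · rw [ZMod.χ₄_nat_one_mod_four h6, one_mul,
        jacobiSym.quadratic_reciprocity_one_mod_four' hDo h6, h4]
    · rw [ZMod.χ₄_nat_three_mod_four h6,
        jacobiSym.quadratic_reciprocity_three_mod_four (by omega) h6, h4]
      norm_num
  obtain ⟨p, hp, hodd, hJ⟩ := odd_val _ n hn0 h5
  haveI : Fact p.Prime := ⟨hp⟩
  have hpn : p ∣ n := by
    by_contra hc
    rw [padicValNat.eq_zero_of_not_dvd hc] at hodd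
    simp at hodd
  have hp2 : p ≠ 2 := by
    rintro rfl
    rw [Nat.odd_iff] at hno
    omega
  refine ⟨p, hp, hp2, ?_, ?_⟩
  · intro x hx
    have h7 := ZMod.nonsquare_iff_jacobiSym_eq_neg_one.1 hJ
    apply h7
    push_cast
    exact ⟨x, by rw [← hx, sq]⟩
  · rw [padicValInt, hn, padicValNat.mul (by positivity) hn0, padicValNat.pow 2]
    have h9 : padicValNat p 2 = 0 := by
      apply padicValNat.eq_zero_of_not_dvd
      intro hd
      exact hp2 ((Nat.prime_dvd_prime_iff_eq hp Nat.prime_two).1 hd)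
    rw [h9, mul_zero, zero_add]
    exact hodd

end SSM
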