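import Pool.Agent.SSM.Targets

/-!
# JBD: growth of `J`
-/

open Polynomial

namespace SSM

namespace JBD_

theorem norm_qq (z : ℂ) : ‖qq 1 z‖ = Real.exp (-(2 * Real.pi * z.im)) := by
  unfold qq
  rw [Complex.norm_exp]
  congr 1
  simp

theorem qq_inv (z : ℂ) : Complex.exp (-(2 * Real.pi * Complex.I * z)) = (qq 1 z)⁻¹ := by
  unfold qq
  rw [← Complex.exp_neg]
  congr 1
  simp

theorem growth (h : T_JEX) : ∃ C : ℝ, 0 < C ∧ ∀ z : ℂ, 1 / 2 ≤ z.im →
    ‖J z‖ ≤ C * Real.exp (2 * Real.pi * z.im) ∧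
    ‖J z - Complex.exp (-(2 * Real.pi * Complex.I * z))‖ ≤ C := by
  obtain ⟨c, hc0, hc⟩ := h
  have hz0 : (0 : ℝ) < (((1 / 2 : ℝ) : ℂ) * Complex.I).im := by simp
  have h0 := hc (((1 / 2 : ℝ) : ℂ) * Complex.I) hz0
  set q0 : ℝ := Real.exp (-(2 * Real.pi * (1 / 2))) with hq0
  have hq0pos : 0 < q0 := Real.exp_pos _
  have hn0 : ‖qq 1 (((1 / 2 : ℝ) : ℂ) * Complex.I)‖ = q0 := by
    rw [norm_qq]
    congr 1
    simp
  have hS : Summable (fun n : ℕ => |(c n : ℝ)| * q0 ^ n) := by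
    have h1 := h0.summable.norm
    refine h1.congr (fun n => ?_)
    rw [norm_mul, norm_pow, hn0, Complex.norm_intCast]
  have hS1 : Summable (fun n : ℕ => |(c (n + 1) : ℝ)| * q0 ^ n) := by
    have h1 := ((summable_nat_add_iff 1).2 hS).mul_left q0⁻¹
    refine h1.congr (fun n => ?_)
    rw [pow_succ]
    field_simp
  have hS0 : 0 ≤ ∑' n : ℕ, |(c (n + 1) : ℝ)| * q0 ^ n :=
    tsum_nonneg fun n => by positivity
  have key : ∀ z : ℂ, 1 / 2 ≤ z.im → ‖J z - Complex.exp (-(2 * Real.pi * Complex.I * z))‖ ≤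
      ∑' n : ℕ, |(c (n + 1) : ℝ)| * q0 ^ n := by
    intro z hz
    have hzpos : 0 < z.im := by linarith
    have h1 := hc z hzpos
    have hq : qq 1 z ≠ 0 := Complex.exp_ne_zero _
    have hqn : ‖qq 1 z‖ ≤ q0 := by
      rw [norm_qq, hq0]
      apply Real.exp_le_exp.2
      have := Real.pi_pos
      nlinarith
    have h2 := (hasSum_nat_add_iff' 1).2 h1
    have h3 := h2.mul_left (qq 1 z)⁻¹
    have h4 : HasSum (fun n : ℕ => (c (n + 1) : ℂ) * qq 1 z ^ n)
        (J z - Complex.exp (-(2 * Real.pi * Complex.I * z))) := by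
      have e1 : (fun i : ℕ => (qq 1 z)⁻¹ * ((c (i + 1) : ℂ) * qq 1 z ^ (i + 1))) =
          fun n : ℕ => (c (n + 1) : ℂ) * qq 1 z ^ n := by
        funext n
        rw [pow_succ]
        field_simp
      have e2 : (qq 1 z)⁻¹ * (J z * qq 1 z ^ 1 -
          ∑ i ∈ Finset.range 1, (c i : ℂ) * qq 1 z ^ i) =
          J z - Complex.exp (-(2 * Real.pi * Complex.I * z)) := by
        rw [qq_inv]
        simp only [Finset.sum_range_one, hc0, pow_one, pow_zero]
        push_cast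
        field_simp
      rw [e1, e2] at h3
      exact h3
    rw [← h4.tsum_eq]
    refine tsum_of_norm_bounded hS1.hasSum (fun n => ?_)
    rw [norm_mul, norm_pow, Complex.norm_intCast]
    exact mul_le_mul_of_nonneg_left (pow_le_pow_left₀ (norm_nonneg _) hqn n) (abs_nonneg _)
  refine ⟨(∑' n : ℕ, |(c (n + 1) : ℝ)| * q0 ^ n) + 1, by linarith, fun z hz => ⟨?_, ?_⟩⟩
  · have h1 := key z hz
    have h2 : ‖Complex.exp (-(2 * Real.pi * Complex.I * z))‖ =
        Real.exp (2 * Real.pi * z.im) := by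
      rw [qq_inv, norm_inv, norm_qq, ← Real.exp_neg, neg_neg]
    have h3 : ‖J z‖ ≤ ‖J z - Complex.exp (-(2 * Real.pi * Complex.I * z))‖ +
        ‖Complex.exp (-(2 * Real.pi * Complex.I * z))‖ := by
      have := norm_add_le (J z - Complex.exp (-(2 * Real.pi * Complex.I * z)))
        (Complex.exp (-(2 * Real.pi * Complex.I * z)))
      rwa [sub_add_cancel] at this
    have h4 : 1 ≤ Real.exp (2 * Real.pi * z.im) := by
      rw [Real.one_le_exp_iff]
      have := Real.pi_pos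
      nlinarith
    rw [h2] at h3
    nlinarith
  · have := key z hz
    linarith

end JBD_

open JBD_ in
theorem p_JBD (h : T_JEX) : T_JBD := by
  obtain ⟨C, hC, hb⟩ := growth h
  refine ⟨⟨C, hC, hb⟩, ?_⟩
  intro h' P hP
  by_contra hne
  -- a bound for the roots
  obtain ⟨R, hR⟩ : ∃ R : ℝ, ∀ x ∈ P.roots.toFinset, ‖x‖ ≤ R := by
    obtain ⟨R, hR⟩ := (P.roots.toFinset.finite_toSet.image (fun x : ℂ => ‖x‖)).bddAbove
    exact ⟨R, fun x hx => hR ⟨x, hx, rfl⟩⟩
  set y : ℝ := max (h' + 1) (max 1 (R + C)) with hy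
  have hy1 : h' < y := lt_of_lt_of_le (by linarith) (le_max_left _ _)
  have hy2 : 1 ≤ y := (le_max_left _ _).trans (le_max_right _ _)
  have hy3 : R + C ≤ y := (le_max_right _ _).trans (le_max_right _ _)
  have him : ((y : ℂ) * Complex.I).im = y := by simp
  have h1 := hP ((y : ℂ) * Complex.I) (by rw [him]; linarith) (by rw [him]; exact hy1)
  have h2 : J ((y : ℂ) * Complex.I) ∈ P.roots.toFinset := by
    rw [Multiset.mem_toFinset, mem_roots hne]
    exact h1
  have h3 := hR _ h2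
  have h4 := (hb ((y : ℂ) * Complex.I) (by rw [him]; linarith)).2
  have h5 : ‖Complex.exp (-(2 * Real.pi * Complex.I * ((y : ℂ) * Complex.I)))‖ =
      Real.exp (2 * Real.pi * y) := by
    rw [qq_inv, norm_inv, norm_qq, him, ← Real.exp_neg, neg_neg]
  have h6 : ‖Complex.exp (-(2 * Real.pi * Complex.I * ((y : ℂ) * Complex.I)))‖ ≤
      ‖J ((y : ℂ) * Complex.I)‖ + C := by
    have h7 := norm_sub_norm_le (Complex.exp (-(2 * Real.pi * Complex.I * ((y : ℂ) * Complex.I))))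
      (J ((y : ℂ) * Complex.I))
    rw [norm_sub_rev] at h7
    linarith
  rw [h5] at h6
  have h8 : 2 * Real.pi * y + 1 ≤ Real.exp (2 * Real.pi * y) := Real.add_one_le_exp _
  have h9 : y ≤ 2 * Real.pi * y := by
    have := Real.pi_gt_three
    nlinarith
  linarith

end SSM
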