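import Pool.Agent.SSM.Targets

/-!
# JEX: integral `q`-expansion of `q J`
-/

set_option autoImplicit false

open UpperHalfPlane ModularForm ModularFormClass EisensteinSeries Function Filter Topology
open scoped MatrixGroups Manifold ArithmeticFunction.sigma

namespace SSM

namespace JEX_

/-! ### integral power series -/

/-- `∑ σ_k(n) X^n`, `n ≥ 1` -/
noncomputable def sg (k : ℕ) : PowerSeries ℤ :=
  PowerSeries.mk fun n => if n = 0 then 0 else (ArithmeticFunction.sigma k n : ℤ)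

/-- `E₄` -/
noncomputable def e4 : PowerSeries ℤ := 1 + 240 * sg 3

/-- `E₆` -/
noncomputable def e6 : PowerSeries ℤ := 1 - 504 * sg 5

theorem dvd_aux (d : ℤ) : (12 : ℤ) ∣ 5 * d ^ 3 + 7 * d ^ 5 := by
  have h : ∀ x : ZMod 12, 5 * x ^ 3 + 7 * x ^ 5 = 0 := by decide
  have h1 := h (d : ZMod 12)
  refine (ZMod.intCast_zmod_eq_zero_iff_dvd _ 12).1 ?_
  push_cast
  exact h1

theorem sg_dvd (n : ℕ) : (12 : ℤ) ∣
    5 * (if n = 0 then 0 else (ArithmeticFunction.sigma 3 n : ℤ)) +
    7 * (if n = 0 then 0 else (ArithmeticFunction.sigma 5 n : ℤ)) := by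
  split_ifs with h
  · simp
  · rw [ArithmeticFunction.sigma_apply, ArithmeticFunction.sigma_apply]
    push_cast
    rw [Finset.mul_sum, Finset.mul_sum, ← Finset.sum_add_distrib]
    exact Finset.dvd_sum fun d _ => dvd_aux _

/-- `(5 A + 7 B)/12` -/
theorem exists_W : ∃ W : PowerSeries ℤ, 5 * sg 3 + 7 * sg 5 = 12 * W := by
  choose w hw using sg_dvd
  refine ⟨PowerSeries.mk w, ?_⟩
  ext n
  have e5 : (5 : PowerSeries ℤ) = PowerSeries.C 5 := rfl
  have e7 : (7 : PowerSeries ℤ) = PowerSeries.C 7 := rfl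
  have e12 : (12 : PowerSeries ℤ) = PowerSeries.C 12 := rfl
  rw [e5, e7, e12, map_add, PowerSeries.coeff_C_mul, PowerSeries.coeff_C_mul,
    PowerSeries.coeff_C_mul, PowerSeries.coeff_mk]
  unfold sg
  rw [PowerSeries.coeff_mk, PowerSeries.coeff_mk]
  exact hw n

theorem exists_D : ∃ D : PowerSeries ℤ, e4 ^ 3 - e6 ^ 2 = 1728 * D ∧
    PowerSeries.constantCoeff D = 0 := by
  obtain ⟨W, hW⟩ := exists_W
  have h0 : ∀ k, PowerSeries.constantCoeff (sg k) = 0 := by
    intro k
    rw [← PowerSeries.coeff_zero_eq_constantCoeff_apply]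
    unfold sg
    rw [PowerSeries.coeff_mk]
    simp
  have hW0 : PowerSeries.constantCoeff W = 0 := by
    have := congrArg PowerSeries.constantCoeff hW
    have e12 : (12 : PowerSeries ℤ) = PowerSeries.C 12 := rfl
    rw [map_add, map_mul, map_mul, map_mul, h0, h0, e12, PowerSeries.constantCoeff_C] at this
    omega
  refine ⟨W + 100 * sg 3 ^ 2 + 8000 * sg 3 ^ 3 - 147 * sg 5 ^ 2, ?_, ?_⟩
  · have : e4 ^ 3 - e6 ^ 2 = 144 * (5 * sg 3 + 7 * sg 5) + 1728 * (100 * sg 3 ^ 2 +
        8000 * sg 3 ^ 3 - 147 * sg 5 ^ 2) := by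
      unfold e4 e6
      ring
    rw [this, hW]
    ring
  · simp only [map_sub, map_add, map_mul, map_pow, h0, hW0]
    simp

/-! ### `q`-expansions -/

theorem map_e4 : e4.map (Int.castRingHom ℂ) = qExpansion 1 E₄ := by
  ext n
  rw [PowerSeries.coeff_map, E_qExpansion_coeff _ ⟨2, rfl⟩]
  have hb : bernoulli 4 = -1 / 30 := by decide +kernel
  have e240 : (240 : PowerSeries ℤ) = PowerSeries.C 240 := rfl
  unfold e4 sg
  rw [e240, map_add, PowerSeries.coeff_C_mul, PowerSeries.coeff_mk, PowerSeries.coeff_one]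
  by_cases h : n = 0
  · simp [h]
  · simp only [h, if_false, hb]
    push_cast
    norm_num

theorem map_e6 : e6.map (Int.castRingHom ℂ) = qExpansion 1 E₆ := by
  ext n
  rw [PowerSeries.coeff_map, E_qExpansion_coeff _ ⟨3, rfl⟩]
  have hb : bernoulli 6 = 1 / 42 := by decide +kernel
  have e504 : (504 : PowerSeries ℤ) = PowerSeries.C 504 := rfl
  unfold e6 sg
  rw [e504, map_sub, PowerSeries.coeff_C_mul, PowerSeries.coeff_mk, PowerSeries.coeff_one]
  by_cases h : n = 0
  · simp [h]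
  · simp only [h, if_false, hb]
    push_cast
    norm_num

/-! ### the functions -/


/-- `q` on the upper half plane -/
noncomputable def Q : ℍ → ℂ := fun τ => Periodic.qParam 1 τ

/-- `q E₄³/Δ` -/
noncomputable def g : ℍ → ℂ := fun τ => Periodic.qParam 1 τ * E₄ τ ^ 3 / discriminant τ

theorem per_Q : Periodic (Q ∘ ofComplex) (1 : ℝ) := by
  intro w
  by_cases hw : 0 < w.im
  · have h1 : 0 < (w + (1 : ℝ)).im := by simpa using hw
    simp only [Function.comp_apply, ofComplex_apply_of_im_pos h1, ofComplex_apply_of_im_pos hw, Q]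
    have h2 := Complex.exp_periodic (2 * Real.pi * Complex.I * w)
    have h3 : 2 * Real.pi * Complex.I * (w + ((1 : ℝ) : ℂ)) / ((1 : ℝ) : ℂ) =
        2 * Real.pi * Complex.I * w + 2 * Real.pi * Complex.I := by
      push_cast
      ring
    have h4 : 2 * Real.pi * Complex.I * w / ((1 : ℝ) : ℂ) = 2 * Real.pi * Complex.I * w := by
      push_cast
      ring
    unfold Periodic.qParam
    rw [h3, h4, h2]
  · have h1 : (w + (1 : ℝ)).im ≤ 0 := by simpa using hw
    simp only [Function.comp_apply, ofComplex_apply_of_im_nonpos h1,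
      ofComplex_apply_of_im_nonpos (not_lt.1 hw)]

theorem hol_Q : DifferentiableOn ℂ (Q ∘ ofComplex) {z | 0 < z.im} := by
  have h : DifferentiableOn ℂ (fun z : ℂ => Periodic.qParam 1 z) {z | 0 < z.im} := by
    unfold Periodic.qParam
    fun_prop
  refine h.congr fun z hz => ?_
  simp only [Function.comp_apply, ofComplex_apply_of_im_pos hz, Q]

theorem mdiff_Q : MDiff Q := UpperHalfPlane.mdifferentiable_iff.2 hol_Q

theorem bdd_Q : IsBoundedAtImInfty Q :=
  (qParam_tendsto_atImInfty zero_lt_one).isBigO_one ℝ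

theorem per_g : Periodic (g ∘ ofComplex) (1 : ℝ) := by
  intro w
  have h1 := per_Q w
  have h2 := SlashInvariantFormClass.periodic_comp_ofComplex E₄ one_mem_strictPeriods_SL w
  have h3 := SlashInvariantFormClass.periodic_comp_ofComplex CuspForm.discriminant
    one_mem_strictPeriods_SL w
  simp only [Function.comp_apply, Q, g, CuspForm.coe_discriminant] at h1 h2 h3 ⊢
  rw [h1, h2, h3]

theorem hol_g : DifferentiableOn ℂ (g ∘ ofComplex) {z | 0 < z.im} := by
  have h2 := UpperHalfPlane.mdifferentiable_iff.1 (ModularFormClass.holo E₄)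
  have h3 := UpperHalfPlane.mdifferentiable_iff.1 (ModularFormClass.holo CuspForm.discriminant)
  have h4 := (hol_Q.mul (h2.pow 3)).div h3 (fun z _ => discriminant_ne_zero _)
  exact h4

theorem mdiff_g : MDiff g := UpperHalfPlane.mdifferentiable_iff.2 hol_g

theorem g_eq (τ : ℍ) : g τ = E₄ τ ^ 3 * (∏' n, (1 - eta_q n τ) ^ 24)⁻¹ := by
  have h := discriminant_eq_q_prod τ
  have h0 : Periodic.qParam 1 τ ≠ 0 := Periodic.qParam_ne_zero _
  unfold g
  rw [h, mul_div_mul_left _ _ h0, div_eq_mul_inv]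

theorem bdd_g : IsBoundedAtImInfty g := by
  have h1 : IsBoundedAtImInfty (E₄ : ℍ → ℂ) := ModularFormClass.bdd_at_infty E₄
  have h2 : IsBoundedAtImInfty (fun τ : ℍ => (∏' n, (1 - eta_q n τ) ^ 24)⁻¹) :=
    (tendsto_atImInfty_tprod_one_sub_eta_q_pow.inv₀ one_ne_zero).isBigO_one ℝ
  have h3 : g = (E₄ : ℍ → ℂ) * (E₄ : ℍ → ℂ) * (E₄ : ℍ → ℂ) *
      (fun τ : ℍ => (∏' n, (1 - eta_q n τ) ^ 24)⁻¹) := by
    funext τ
    rw [g_eq]
    simp only [Pi.mul_apply]
    ring
  rw [h3]
  exact ((h1.mul h1).mul h1).mul h2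

theorem an_Q : AnalyticAt ℂ (cuspFunction 1 Q) 0 :=
  analyticAt_cuspFunction_zero one_pos per_Q mdiff_Q bdd_Q

theorem an_g : AnalyticAt ℂ (cuspFunction 1 g) 0 :=
  analyticAt_cuspFunction_zero one_pos per_g mdiff_g bdd_g

theorem an_4 : AnalyticAt ℂ (cuspFunction 1 (E₄ : ℍ → ℂ)) 0 :=
  ModularFormClass.analyticAt_cuspFunction_zero E₄ one_pos one_mem_strictPeriods_SL

theorem an_6 : AnalyticAt ℂ (cuspFunction 1 (E₆ : ℍ → ℂ)) 0 :=
  ModularFormClass.analyticAt_cuspFunction_zero E₆ one_pos one_mem_strictPeriods_SL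

theorem an_D : AnalyticAt ℂ (cuspFunction 1 (discriminant : ℍ → ℂ)) 0 :=
  ModularFormClass.analyticAt_cuspFunction_zero CuspForm.discriminant one_pos
    one_mem_strictPeriods_SL

theorem an_mul {f h : ℍ → ℂ} (hf : AnalyticAt ℂ (cuspFunction 1 f) 0)
    (hh : AnalyticAt ℂ (cuspFunction 1 h) 0) : AnalyticAt ℂ (cuspFunction 1 (f * h)) 0 := by
  rw [cuspFunction_mul hf.continuousAt hh.continuousAt]
  exact hf.mul hh

theorem exp_Q : qExpansion 1 Q = PowerSeries.X := by
  ext n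
  have h : ∀ τ : ℍ, HasSum (fun m : ℕ => (if m = 1 then (1 : ℂ) else 0) • Periodic.qParam 1 τ ^ m) (Q τ) := by
    intro τ
    have h1 := hasSum_single (f := fun m : ℕ => (if m = 1 then (1 : ℂ) else 0) • Periodic.qParam 1 τ ^ m) 1
      (fun m hm => by simp [hm])
    simpa [Q] using h1
  let _ : FunLike (ℍ → ℂ) ℍ ℂ := ⟨fun f => f, fun _ _ h => h⟩
  have h2 := UpperHalfPlane.qExpansion_coeff_unique (F := ℍ → ℂ) Q one_pos an_Q h n
  rw [PowerSeries.coeff_X]
  exact h2.symm

theorem exp_D {D : PowerSeries ℤ} (hD : e4 ^ 3 - e6 ^ 2 = 1728 * D) :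
    qExpansion 1 (discriminant : ℍ → ℂ) = D.map (Int.castRingHom ℂ) := by
  have h1 : (1728 : ℂ) • (discriminant : ℍ → ℂ) = (E₄ : ℍ → ℂ) * (E₄ : ℍ → ℂ) * (E₄ : ℍ → ℂ) -
      (E₆ : ℍ → ℂ) * (E₆ : ℍ → ℂ) := by
    funext τ
    simp only [Pi.smul_apply, Pi.sub_apply, Pi.mul_apply, smul_eq_mul,
      discriminant_eq_E₄_cube_sub_E₆_sq]
    ring
  have h2 := congrArg (qExpansion 1) h1
  rw [UpperHalfPlane.qExpansion_smul an_D, UpperHalfPlane.qExpansion_sub
    (an_mul (an_mul an_4 an_4) an_4) (an_mul an_6 an_6),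
    UpperHalfPlane.qExpansion_mul (an_mul an_4 an_4) an_4,
    UpperHalfPlane.qExpansion_mul an_4 an_4, UpperHalfPlane.qExpansion_mul an_6 an_6,
    ← map_e4, ← map_e6] at h2
  have h3 := congrArg (PowerSeries.map (Int.castRingHom ℂ)) hD
  rw [map_sub, map_pow, map_pow, map_mul, map_ofNat] at h3
  have h4 : (1728 : ℂ) • qExpansion 1 (discriminant : ℍ → ℂ) =
      (1728 : ℂ) • D.map (Int.castRingHom ℂ) := by
    rw [h2]
    have e : (1728 : PowerSeries ℂ) = PowerSeries.C 1728 := rfl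
    rw [PowerSeries.smul_eq_C_mul, ← e, ← h3]
    ring
  exact smul_right_injective _ (by norm_num : (1728 : ℂ) ≠ 0) h4

theorem exp_g : ∃ c : PowerSeries ℤ, PowerSeries.constantCoeff c = 1 ∧
    qExpansion 1 g = c.map (Int.castRingHom ℂ) := by
  obtain ⟨D, hD, hD0⟩ := exists_D
  have h1 : g * (discriminant : ℍ → ℂ) = Q * ((E₄ : ℍ → ℂ) * (E₄ : ℍ → ℂ) * (E₄ : ℍ → ℂ)) := by
    funext τ
    have h0 := discriminant_ne_zero τ
    simp only [Pi.mul_apply, g, Q]
    field_simp
  have h2 := congrArg (qExpansion 1) h1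
  rw [UpperHalfPlane.qExpansion_mul an_g an_D, UpperHalfPlane.qExpansion_mul an_Q
    (an_mul (an_mul an_4 an_4) an_4), UpperHalfPlane.qExpansion_mul (an_mul an_4 an_4) an_4,
    UpperHalfPlane.qExpansion_mul an_4 an_4, exp_Q, ← map_e4, exp_D hD] at h2
  obtain ⟨V, hV⟩ := PowerSeries.X_dvd_iff.2 hD0
  have hV1 : PowerSeries.constantCoeff V = 1 := by
    have h3 := discriminant_qExpansion_coeff_one
    rw [exp_D hD, PowerSeries.coeff_map, hV, PowerSeries.coeff_succ_X_mul] at h3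
    rw [← PowerSeries.coeff_zero_eq_constantCoeff_apply]
    rw [eq_intCast] at h3
    exact_mod_cast h3
  obtain ⟨V', hV'⟩ : ∃ V' : PowerSeries ℤ, V * V' = 1 := by
    have hu : IsUnit V := by
      rw [PowerSeries.isUnit_iff_constantCoeff, hV1]
      exact isUnit_one
    exact hu.exists_right_inv
  have hV'1 : PowerSeries.constantCoeff V' = 1 := by
    have h3 := congrArg PowerSeries.constantCoeff hV'
    rw [map_mul, hV1, one_mul, map_one] at h3
    exact h3
  have he : PowerSeries.constantCoeff e4 = 1 := by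
    have e240 : (240 : PowerSeries ℤ) = PowerSeries.C 240 := rfl
    rw [← PowerSeries.coeff_zero_eq_constantCoeff_apply]
    unfold e4 sg
    rw [e240, map_add, PowerSeries.coeff_C_mul, PowerSeries.coeff_mk]
    simp
  refine ⟨e4 * e4 * e4 * V', ?_, ?_⟩
  · simp only [map_mul, he, hV'1, mul_one]
  · rw [hV, map_mul, PowerSeries.map_X] at h2
    have h3 : PowerSeries.X * (qExpansion 1 g * V.map (Int.castRingHom ℂ)) =
        PowerSeries.X * (e4.map (Int.castRingHom ℂ) * e4.map (Int.castRingHom ℂ) *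
          e4.map (Int.castRingHom ℂ)) := by
      rw [← h2]
      ring
    have h4 := mul_left_cancel₀ PowerSeries.X_ne_zero h3
    have h5 : V.map (Int.castRingHom ℂ) * V'.map (Int.castRingHom ℂ) = 1 := by
      rw [← map_mul, hV', map_one]
    rw [map_mul, map_mul, map_mul, ← h4, mul_assoc, h5, mul_one]

end JEX_

open JEX_ in
/-- JEX: the `q`-expansion of `q J` has integral coefficients -/
theorem p_JEX : T_JEX := by
  obtain ⟨c, hc, hg⟩ := exp_g
  refine ⟨fun n => PowerSeries.coeff n c, ?_, ?_⟩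
  · rw [← hc, ← PowerSeries.coeff_zero_eq_constantCoeff_apply]
  · intro z hz
    have h := UpperHalfPlane.hasSum_qExpansion one_pos per_g mdiff_g bdd_g ⟨z, hz⟩
    have hq : Periodic.qParam 1 z = qq 1 z := by
      unfold Periodic.qParam qq
      push_cast
      rfl
    have hg' : g ⟨z, hz⟩ = J z * qq 1 z ^ 1 := by
      unfold g J
      rw [ofComplex_apply_of_im_pos hz]
      rw [← hq, pow_one]
      ring
    have h2 : (fun m : ℕ => (PowerSeries.coeff m) (qExpansion 1 g) •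
        Periodic.qParam 1 ((⟨z, hz⟩ : ℍ) : ℂ) ^ m) =
        fun n : ℕ => ((PowerSeries.coeff n c : ℤ) : ℂ) * qq 1 z ^ n := by
      funext m
      rw [hg, PowerSeries.coeff_map, smul_eq_mul, eq_intCast, ← hq]
    rw [← hg', ← h2]
    exact h

end SSM
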