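import Pool.Agent.SSM.Targets

/-!
# MP_d74fca_nt, part IV, KR0: prime ideals of the ring of algebraic integers over a prime
-/

set_option autoImplicit false

open Polynomial

namespace SSM

namespace KR0_

/-- the ring of algebraic integers -/
abbrev S : Subalgebra ℤ ℂ := integralClosure ℤ ℂ

theorem not_unit (ℓ : ℕ) (hℓ : ℓ.Prime) : (ℓ : S) ∈ nonunits S := by
  intro h
  obtain ⟨u, hu⟩ := h.exists_right_inv
  have h1 : ((ℓ : S) : ℂ) * (u : ℂ) = 1 := by
    have := congrArg (fun s : S => (s : ℂ)) hu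
    simpa using this
  have h2 : IsIntegral ℤ (u : ℂ) := u.2
  have hℓ0 : (ℓ : ℂ) ≠ 0 := by exact_mod_cast hℓ.ne_zero
  have h3 : (u : ℂ) = algebraMap ℚ ℂ ((ℓ : ℚ)⁻¹) := by
    have : (ℓ : ℂ) * (u : ℂ) = 1 := by simpa using h1
    rw [map_inv₀]
    simp only [map_natCast]
    exact (eq_inv_of_mul_eq_one_right this)
  rw [h3] at h2
  have h4 : IsIntegral ℤ ((ℓ : ℚ)⁻¹) :=
    (isIntegral_algebraMap_iff (algebraMap ℚ ℂ).injective).1 h2
  obtain ⟨z, hz⟩ := IsIntegrallyClosed.isIntegral_iff.1 h4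
  have h5 : (z : ℚ) * ℓ = 1 := by
    have : (z : ℚ) = (ℓ : ℚ)⁻¹ := by simpa using hz
    rw [this]
    exact inv_mul_cancel₀ (by exact_mod_cast hℓ.ne_zero)
  have h6 : z * (ℓ : ℤ) = 1 := by exact_mod_cast h5
  have h7 : IsUnit (ℓ : ℤ) := IsUnit.of_mul_eq_one z (by rw [mul_comm]; exact h6)
  rw [Int.isUnit_iff] at h7
  have := hℓ.two_le
  omega

end KR0_

open KR0_ in
theorem p_KR0 : T_KR0 := by
  intro ℓ hℓ
  obtain ⟨m, hm, hℓm⟩ := exists_max_ideal_of_mem_nonunits (not_unit ℓ hℓ)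
  have hm' : m.IsMaximal := hm
  let I : AddSubgroup ℂ := m.toAddSubgroup.map (S.val : S →+ ℂ)
  have hI : ∀ s : S, (s : ℂ) ∈ I ↔ s ∈ m := by
    intro s
    constructor
    · rintro ⟨t, ht, hts⟩
      have : t = s := Subtype.ext hts
      rw [← this]
      exact ht
    · intro hs
      exact ⟨s, hs, rfl⟩
  have hIO : ∀ x ∈ I, x ∈ OO := by
    rintro x ⟨t, _, rfl⟩
    exact t.2
  have hone : (1 : S) ∉ m := (Ideal.ne_top_iff_one m).1 hm.ne_top
  have hint : ∀ n : ℤ, (n : ℂ) ∈ I ↔ (ℓ : ℤ) ∣ n := by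
    intro n
    have h1 : ((n : S) : ℂ) = (n : ℂ) := by simp
    rw [← h1, hI]
    constructor
    · intro h
      by_contra hnd
      have hcop : IsCoprime (ℓ : ℤ) n :=
        (Nat.prime_iff_prime_int.1 hℓ).coprime_iff_not_dvd.2 hnd
      obtain ⟨u, v, huv⟩ := hcop
      apply hone
      have h2 : ((u : S) * (ℓ : S) + (v : S) * (n : S)) = 1 := by exact_mod_cast congrArg (Int.cast : ℤ → S) huv
      rw [← h2]
      exact m.add_mem (m.mul_mem_left _ hℓm) (m.mul_mem_left _ h)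
    · rintro ⟨k, rfl⟩
      have h2 : (((ℓ : ℤ) * k : ℤ) : S) = (k : S) * (ℓ : S) := by push_cast; ring
      rw [h2]
      exact m.mul_mem_left _ hℓm
  refine ⟨I, ⟨hIO, ?_, ?_, ?_, ?_⟩, hint, ?_⟩
  · intro x hx y hy
    have h1 := (hI ⟨y, hIO y hy⟩).1 hy
    exact (hI (⟨x, hx⟩ * ⟨y, hIO y hy⟩)).2 (m.mul_mem_left _ h1)
  · intro x hx y hy hxy
    have h1 := (hI (⟨x, hx⟩ * ⟨y, hy⟩)).1 hxy
    rcases hm.isPrime.mem_or_mem h1 with h | h
    · exact Or.inl ((hI ⟨x, hx⟩).2 h)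
    · exact Or.inr ((hI ⟨y, hy⟩).2 h)
  · have h1 := (hint ℓ).2 (dvd_refl _)
    simpa using h1
  · intro h
    have h1 := (hint 1).1 (by simpa using h)
    have h2 := Int.le_of_dvd one_pos h1
    have := hℓ.two_le
    omega
  · intro ζ hζ
    have hζi : IsIntegral ℤ ζ := by
      apply IsIntegral.of_pow hℓ.pos
      rw [hζ]
      exact isIntegral_one
    have h1 : IsIntegral ℤ (1 - ζ) := isIntegral_one.sub hζi
    let z : S := ⟨ζ, hζi⟩
    have hz : z ^ ℓ = 1 := Subtype.ext hζ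
    have h2 : (((1 : S) - z : S) : ℂ) = 1 - ζ := rfl
    rw [← h2, hI]
    have hF : Fact ℓ.Prime := ⟨hℓ⟩
    have hch : CharP (S ⧸ m) ℓ := by
      constructor
      intro n
      have h4 : ((n : ℕ) : S ⧸ m) = Ideal.Quotient.mk m (n : S) := by simp
      rw [h4, Ideal.Quotient.eq_zero_iff_mem, ← hI]
      have h5 : (((n : ℕ) : S) : ℂ) = (((n : ℤ)) : ℂ) := by simp
      rw [h5, hint]
      exact Int.natCast_dvd_natCast
    rw [← Ideal.Quotient.eq_zero_iff_mem]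
    have h3 : (Ideal.Quotient.mk m (1 - z)) ^ ℓ = 0 := by
      rw [map_sub, map_one, sub_pow_char, one_pow, ← map_pow, hz, map_one, sub_self]
    exact eq_zero_of_pow_eq_zero h3

end SSM
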