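import Pool.Agent.SSM.Targets

/-!
# MP_d74fca_nt, part IV, KR1: `J(ℓ z) ≡ J(z)^ℓ` modulo `ℓ`
-/

set_option autoImplicit false

open PowerSeries

namespace SSM

namespace KR1_

/-- powers of a power series in `q` -/
theorem pow_hasSum (c : ℕ → ℤ) (q s : ℂ) (h : HasSum (fun n => (c n : ℂ) * q ^ n) s) (k : ℕ) :
    HasSum (fun n => ((PowerSeries.coeff n ((PowerSeries.mk c) ^ k) : ℤ) : ℂ) * q ^ n) (s ^ k) := by
  induction k with
  | zero =>
    have h1 := hasSum_ite_eq (0 : ℕ) (1 : ℂ)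
    rw [pow_zero]
    refine h1.congr_fun ?_
    intro n
    rw [PowerSeries.coeff_one]
    split_ifs with hn
    · subst hn
      simp
    · simp
  | succ k ih =>
    have hn1 : Summable fun n => ‖((PowerSeries.coeff n ((PowerSeries.mk c) ^ k) : ℤ) : ℂ) * q ^ n‖ :=
      summable_norm_iff.2 ih.summable
    have hn2 : Summable fun n => ‖(c n : ℂ) * q ^ n‖ := summable_norm_iff.2 h.summable
    have e1 := tsum_mul_tsum_eq_tsum_sum_antidiagonal_of_summable_norm hn1 hn2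
    have e2 := summable_norm_sum_mul_antidiagonal_of_summable_norm hn1 hn2
    have e3 := (summable_norm_iff.1 e2).hasSum
    rw [← e1, ih.tsum_eq, h.tsum_eq, ← pow_succ] at e3
    refine e3.congr_fun ?_
    intro n
    rw [pow_succ, PowerSeries.coeff_mul]
    push_cast
    rw [Finset.sum_mul]
    refine Finset.sum_congr rfl fun x hx => ?_
    have hx := Finset.HasAntidiagonal.mem_antidiagonal.1 hx
    rw [PowerSeries.coeff_mk, ← hx, pow_add]
    ring

/-- Frobenius -/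
theorem frob (ℓ : ℕ) (hℓ : ℓ.Prime) (c : ℕ → ℤ) (n : ℕ) :
    (ℓ : ℤ) ∣ (if ℓ ∣ n then c (n / ℓ) else 0) - PowerSeries.coeff n ((PowerSeries.mk c) ^ ℓ) := by
  have : Fact ℓ.Prime := ⟨hℓ⟩
  rw [← ZMod.intCast_zmod_eq_zero_iff_dvd]
  have h1 : ((PowerSeries.mk c).map (Int.castRingHom (ZMod ℓ))) ^ ℓ =
      PowerSeries.expand ℓ hℓ.ne_zero ((PowerSeries.mk c).map (Int.castRingHom (ZMod ℓ))) := by
    have h2 := MvPowerSeries.map_frobenius_expand (σ := Unit) (R := ZMod ℓ) ℓ hℓ.ne_zero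
      (f := (PowerSeries.mk c).map (Int.castRingHom (ZMod ℓ)))
    rw [ZMod.frobenius_zmod] at h2
    refine h2.symm.trans ?_
    change MvPowerSeries.map (RingHom.id _) _ = _
    rw [MvPowerSeries.map_id]
    rfl
  have h3 : ((PowerSeries.coeff n ((PowerSeries.mk c) ^ ℓ) : ℤ) : ZMod ℓ) =
      PowerSeries.coeff n (((PowerSeries.mk c).map (Int.castRingHom (ZMod ℓ))) ^ ℓ) := by
    rw [← map_pow, PowerSeries.coeff_map]
    rfl
  rw [Int.cast_sub, h3, h1, PowerSeries.coeff_expand]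
  split_ifs with h
  · rw [PowerSeries.coeff_map, PowerSeries.coeff_mk]
    simp
  · simp

end KR1_

open KR1_ in
theorem p_KR1 (hJ : T_JEX) : T_KR1 := by
  intro ℓ hℓ I hI
  obtain ⟨c, _, hc⟩ := hJ
  refine ⟨ℓ, fun n => (((if ℓ ∣ n then c (n / ℓ) else 0) -
    PowerSeries.coeff n ((PowerSeries.mk c) ^ ℓ) : ℤ) : ℂ), fun n => ?_, fun z hz => ?_⟩
  · obtain ⟨m, hm⟩ := frob ℓ hℓ c n
    change (((if ℓ ∣ n then c (n / ℓ) else 0) -
      PowerSeries.coeff n ((PowerSeries.mk c) ^ ℓ) : ℤ) : ℂ) ∈ I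
    rw [hm]
    push_cast
    rw [mul_comm]
    refine hI.mul_mem _ ?_ _ hI.mem
    exact isIntegral_algebraMap (R := ℤ) (A := ℂ) (x := m)
  · have hℓ0 : (0 : ℝ) < ℓ := by exact_mod_cast hℓ.pos
    have hz' : 0 < ((ℓ : ℂ) * z).im := by
      simp only [Complex.mul_im, Complex.natCast_re, Complex.natCast_im, zero_mul, add_zero]
      positivity
    have hq : qq 1 ((ℓ : ℂ) * z) = qq 1 z ^ ℓ := by
      unfold qq
      rw [← Complex.exp_nat_mul]
      congr 1
      push_cast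
      ring
    have h1 := hc _ hz'
    rw [hq, pow_one] at h1
    have h2 := pow_hasSum c (qq 1 z) _ (hc z hz) ℓ
    -- reindex
    have hinj : Function.Injective (fun n : ℕ => ℓ * n) := fun a b h =>
      Nat.eq_of_mul_eq_mul_left hℓ.pos h
    have h3 : HasSum (fun n => (((if ℓ ∣ n then c (n / ℓ) else 0) : ℤ) : ℂ) * qq 1 z ^ n)
        (J ((ℓ : ℂ) * z) * qq 1 z ^ ℓ) := by
      rw [← hinj.hasSum_iff]
      · refine h1.congr_fun ?_
        intro n
        simp only [Function.comp_apply, dvd_mul_right, if_true]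
        rw [Nat.mul_div_cancel_left _ hℓ.pos, pow_mul]
      · intro x hx
        have : ¬ ℓ ∣ x := by
          rintro ⟨m, rfl⟩
          exact hx ⟨m, rfl⟩
        simp [this]
    have h4 := h3.sub h2
    have e : (J ((ℓ : ℂ) * z) - J z ^ ℓ) * qq 1 z ^ ℓ =
        J ((ℓ : ℂ) * z) * qq 1 z ^ ℓ - (J z * qq 1 z ^ 1) ^ ℓ := by
      rw [pow_one, mul_pow]
      ring
    change HasSum _ ((J ((ℓ : ℂ) * z) - J z ^ ℓ) * qq 1 z ^ ℓ)
    rw [e]
    refine h4.congr_fun ?_
    intro n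
    push_cast
    ring

end SSM
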