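import Pool.Agent.SSM.Targets

/-!
# MP_d74fca_nt, part IV, KR2: `J((z+c)/ℓ) ≡ J(z/ℓ)` (helper76, for helper58)
-/

open Polynomial

namespace SSM

namespace KR2_

lemma int_mem_OO (n : ℤ) : (n : ℂ) ∈ OO := intCast_mem OO n

lemma eta_pow (ℓ k : ℕ) (hℓ : ℓ ≠ 0) :
    Complex.exp (2 * Real.pi * Complex.I * k / ℓ) ^ ℓ = 1 := by
  rw [← Complex.exp_nat_mul]
  have h : (ℓ : ℂ) * (2 * Real.pi * Complex.I * k / ℓ) = k * (2 * Real.pi * Complex.I) := by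
    have : (ℓ : ℂ) ≠ 0 := by exact_mod_cast hℓ
    field_simp
  rw [h, Complex.exp_nat_mul_two_pi_mul_I]

lemma qq_shift (ℓ k : ℕ) (z : ℂ) :
    qq 1 ((z + k) / ℓ) = qq ℓ z * Complex.exp (2 * Real.pi * Complex.I * k / ℓ) := by
  unfold qq
  rw [← Complex.exp_add]
  congr 1
  push_cast
  ring

lemma qq_div (ℓ : ℕ) (z : ℂ) : qq 1 (z / ℓ) = qq ℓ z := by
  unfold qq
  congr 1
  push_cast
  ring

lemma im_div (ℓ : ℕ) (hℓ : ℓ ≠ 0) (z : ℂ) (hz : 0 < z.im) : 0 < (z / ℓ).im := by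
  have : (z / ℓ).im = z.im / ℓ := by
    rw [Complex.div_natCast_im]
  rw [this]
  exact div_pos hz (by exact_mod_cast Nat.pos_of_ne_zero hℓ)

end KR2_

open KR2_ in
theorem p_KR2 (h_JEX : T_JEX) : T_KR2 := by
  intro ℓ hℓ I hI hζ k
  obtain ⟨c, -, hc⟩ := h_JEX
  have hℓ0 : ℓ ≠ 0 := hℓ.ne_zero
  set η : ℂ := Complex.exp (2 * Real.pi * Complex.I * k / ℓ) with hη
  have hη1 : η ^ ℓ = 1 := eta_pow ℓ k hℓ0
  refine ⟨1, fun n => (c n : ℂ) * (η ^ (ℓ - 1 + n) - 1), ?_, ?_⟩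
  · intro n
    have h1 : 1 - η ^ (ℓ - 1 + n) ∈ I := by
      apply hζ
      rw [← pow_mul, mul_comm, pow_mul, hη1, one_pow]
    have h2 : η ^ (ℓ - 1 + n) - 1 ∈ I := by
      have h3 := I.neg_mem h1
      rwa [neg_sub] at h3
    exact hI.mul_mem _ (int_mem_OO _) _ h2
  · intro z hz
    have hz1 : 0 < (z / ℓ).im := im_div ℓ hℓ0 z hz
    have hz2 : 0 < ((z + k) / ℓ).im := by
      apply im_div ℓ hℓ0
      simpa using hz
    have h1 := hc _ hz1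
    have h2 := hc _ hz2
    rw [qq_div] at h1
    rw [qq_shift, ← hη] at h2
    have h3 := h2.mul_left (η ^ (ℓ - 1))
    have h4 := h3.sub h1
    have hηp : η ^ (ℓ - 1) * η = 1 := by
      rw [← pow_succ, Nat.sub_add_cancel hℓ.one_le, hη1]
    have e1 : (fun n : ℕ => η ^ (ℓ - 1) * ((c n : ℂ) * (qq ℓ z * η) ^ n) - (c n : ℂ) * qq ℓ z ^ n) =
        fun n : ℕ => (c n : ℂ) * (η ^ (ℓ - 1 + n) - 1) * qq ℓ z ^ n := by
      funext n
      rw [mul_pow, pow_add]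
      ring
    have e2 : η ^ (ℓ - 1) * (J ((z + k) / ℓ) * (qq ℓ z * η) ^ 1) - J (z / ℓ) * qq ℓ z ^ 1 =
        (J ((z + k) / ℓ) - J (z / ℓ)) * qq ℓ z ^ 1 := by
      linear_combination (J ((z + k) / ℓ) * qq ℓ z) * hηp
    rw [e1, e2] at h4
    exact h4

end SSM
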