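import Pool.Agent.SSM.Targets

/-!
# MP_d74fca_nt, part IV: Kronecker's congruence (helper58)
-/

open Polynomial

namespace SSM

namespace KRO_

/-! ### index sets -/

lemma prod_TT {β : Type*} [CommMonoid β] (M : ℕ) (φ : (ℕ × ℕ) × ℕ → β) :
    ∏ x ∈ TT M, φ x = ∏ p ∈ M.divisorsAntidiagonal, ∏ b ∈ Finset.range p.2, φ (p, b) := by
  unfold TT
  rw [Finset.prod_filter, Finset.prod_product]
  refine Finset.prod_congr rfl fun p hp => ?_
  rw [← Finset.prod_filter]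
  refine Finset.prod_congr ?_ fun _ _ => rfl
  ext b
  have hp' := Nat.mem_divisorsAntidiagonal.mp hp
  have h1 : p.2 ≤ M := by
    have : p.2 ∣ M := ⟨p.1, by rw [← hp'.1]; ring⟩
    exact Nat.le_of_dvd (Nat.pos_of_ne_zero hp'.2) this
  simp only [Finset.mem_filter, Finset.mem_range]
  omega

lemma prod_dA {β : Type*} [CommMonoid β] {ℓ m : ℕ} (hℓ : ℓ.Prime) (hm : 1 ≤ m) (hlm : ¬ ℓ ∣ m)
    (ψ : ℕ × ℕ → β) :
    ∏ p ∈ (ℓ * m).divisorsAntidiagonal, ψ p =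
      (∏ p ∈ m.divisorsAntidiagonal, ψ (ℓ * p.1, p.2)) *
        ∏ p ∈ m.divisorsAntidiagonal, ψ (p.1, ℓ * p.2) := by
  classical
  have e : (ℓ * m).divisorsAntidiagonal =
      (m.divisorsAntidiagonal.image (fun p => (ℓ * p.1, p.2))) ∪
        (m.divisorsAntidiagonal.image (fun p => (p.1, ℓ * p.2))) := by
    ext ⟨x, y⟩
    simp only [Nat.mem_divisorsAntidiagonal, Finset.mem_union, Finset.mem_image, Prod.mk.injEq,
      Prod.exists]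
    constructor
    · rintro ⟨h1, h2⟩
      have h3 : ℓ ∣ x * y := ⟨m, h1⟩
      rcases (Nat.Prime.dvd_mul hℓ).mp h3 with ⟨k, hk⟩ | ⟨k, hk⟩
      · left
        refine ⟨k, y, ⟨?_, by omega⟩, hk.symm, rfl⟩
        have : ℓ * (k * y) = ℓ * m := by rw [← h1, hk]; ring
        exact Nat.eq_of_mul_eq_mul_left hℓ.pos this
      · right
        refine ⟨x, k, ⟨?_, by omega⟩, rfl, hk.symm⟩
        have : ℓ * (x * k) = ℓ * m := by rw [← h1, hk]; ring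
        exact Nat.eq_of_mul_eq_mul_left hℓ.pos this
    · rintro (⟨a, b, ⟨h1, h2⟩, h3, h4⟩ | ⟨a, b, ⟨h1, h2⟩, h3, h4⟩)
      · subst h3 h4
        exact ⟨by rw [← h1]; ring, Nat.mul_ne_zero hℓ.ne_zero h2⟩
      · subst h3 h4
        exact ⟨by rw [← h1]; ring, Nat.mul_ne_zero hℓ.ne_zero h2⟩
  have hd : Disjoint (m.divisorsAntidiagonal.image (fun p => (ℓ * p.1, p.2)))
      (m.divisorsAntidiagonal.image (fun p => (p.1, ℓ * p.2))) := by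
    rw [Finset.disjoint_left]
    rintro ⟨x, y⟩ h1 h2
    simp only [Finset.mem_image, Nat.mem_divisorsAntidiagonal, Prod.mk.injEq, Prod.exists] at h1 h2
    obtain ⟨a, b, ⟨h1, h3⟩, h4, h5⟩ := h1
    obtain ⟨a', b', ⟨h6, h7⟩, h8, h9⟩ := h2
    apply hlm
    rw [← h1, h5, ← h9]
    exact ⟨a * b', by ring⟩
  rw [e, Finset.prod_union hd, Finset.prod_image, Finset.prod_image]
  · rintro ⟨a, b⟩ _ ⟨c, d⟩ _ h
    simp only [Prod.mk.injEq] at h ⊢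
    exact ⟨h.1, Nat.eq_of_mul_eq_mul_left hℓ.pos h.2⟩
  · rintro ⟨a, b⟩ _ ⟨c, d⟩ _ h
    simp only [Prod.mk.injEq] at h ⊢
    exact ⟨Nat.eq_of_mul_eq_mul_left hℓ.pos h.1, h.2⟩

lemma prod_range_cop {β : Type*} [CommMonoid β] {ℓ d : ℕ} (hd : 1 ≤ d) (hc : Nat.Coprime ℓ d)
    (φ : ℕ → β) : ∏ b ∈ Finset.range d, φ b = ∏ b ∈ Finset.range d, φ (ℓ * b % d) := by
  symm
  have hinj : Set.InjOn (fun b => ℓ * b % d) (Finset.range d : Set ℕ) := by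
    intro x hx y hy h
    simp only [Finset.coe_range, Set.mem_Iio] at hx hy
    have h1 : ℓ * x ≡ ℓ * y [MOD d] := h
    have h2 : x ≡ y [MOD d] := Nat.ModEq.cancel_left_of_coprime (by
      rw [Nat.coprime_comm] at hc; exact hc) h1
    exact Nat.ModEq.eq_of_lt_of_lt h2 hx hy
  refine Finset.prod_nbij (fun b => ℓ * b % d) ?_ hinj ?_ (fun _ _ => rfl)
  · intro b _
    exact Finset.mem_range.mpr (Nat.mod_lt _ hd)
  · exact Finset.surjOn_of_injOn_of_card_le _ (fun b _ => Finset.mem_coe.mpr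
      (Finset.mem_range.mpr (Nat.mod_lt _ hd))) hinj le_rfl

lemma prod_range_mul' {β : Type*} [CommMonoid β] (ℓ d : ℕ) (hd : 1 ≤ d) (φ : ℕ → β) :
    ∏ b ∈ Finset.range (ℓ * d), φ b =
      ∏ b ∈ Finset.range d, ∏ c ∈ Finset.range ℓ, φ (b + d * c) := by
  rw [← Finset.prod_product']
  refine Finset.prod_nbij' (fun b => (b % d, b / d)) (fun x => x.1 + d * x.2) ?_ ?_ ?_ ?_ ?_
  · intro b hb
    simp only [Finset.mem_product, Finset.mem_range] at hb ⊢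
    exact ⟨Nat.mod_lt _ hd, Nat.div_lt_of_lt_mul (by rwa [mul_comm] at hb)⟩
  · rintro ⟨b, c⟩ hb
    simp only [Finset.mem_product, Finset.mem_range] at hb ⊢
    calc b + d * c < d + d * c := by omega
      _ = (c + 1) * d := by ring
      _ ≤ ℓ * d := Nat.mul_le_mul_right _ hb.2
  · intro b _
    exact Nat.mod_add_div b d
  · rintro ⟨b, c⟩ hb
    simp only [Finset.mem_product, Finset.mem_range] at hb
    simp only [Prod.mk.injEq]
    constructor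
    · rw [Nat.add_mul_mod_self_left, Nat.mod_eq_of_lt hb.1]
    · rw [Nat.add_mul_div_left _ _ hd, Nat.div_eq_of_lt hb.1, zero_add]
  · intro b _
    simp only [Nat.mod_add_div]

/-! ### the ring of expansions -/

variable (hR : T_RNG)

include hR

lemma common {A : AddSubgroup ℂ} {M N M' N' : ℕ} {f g : ℂ → ℂ} (hM : 1 ≤ M) (hM' : 1 ≤ M')
    (hf : HasExp A M N f) (hg : HasExp A M' N' g) :
    ∃ K L : ℕ, 1 ≤ K ∧ HasExp A K L f ∧ HasExp A K L g := by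
  have h1 := hR.2.2.2.2.1 A M N M' f hM hM' hf
  have h2 := hR.2.2.2.2.1 A M' N' M g hM' hM hg
  rw [mul_comm M' M] at h2
  refine ⟨M * M', max (N * M') (N' * M), Nat.mul_pos hM hM', ?_, ?_⟩
  · exact hR.1 _ _ _ _ _ h1 (le_max_left _ _)
  · exact hR.1 _ _ _ _ _ h2 (le_max_right _ _)

lemma mulc {A B D : AddSubgroup ℂ} {M N M' N' : ℕ} {f g : ℂ → ℂ} (hM : 1 ≤ M) (hM' : 1 ≤ M')
    (hp : ∀ x ∈ A, ∀ y ∈ B, x * y ∈ D)
    (hf : HasExp A M N f) (hg : HasExp B M' N' g) :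
    ∃ K L : ℕ, 1 ≤ K ∧ HasExp D K L (fun z => f z * g z) := by
  have h1 := hR.2.2.2.2.1 A M N M' f hM hM' hf
  have h2 := hR.2.2.2.2.1 B M' N' M g hM' hM hg
  rw [mul_comm M' M] at h2
  exact ⟨M * M', _, Nat.mul_pos hM hM', hR.2.2.2.1 A B D _ _ _ f g hp h1 h2⟩

/-- the ring of functions with an expansion over the algebraic integers -/
def S : Subring (ℂ → ℂ) where
  carrier := {f | ∃ M N : ℕ, 1 ≤ M ∧ HasExp OO.toAddSubgroup M N f}
  mul_mem' := by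
    rintro f g ⟨M, N, hM, hf⟩ ⟨M', N', hM', hg⟩
    exact mulc hR hM hM' (fun x hx y hy => OO.mul_mem hx hy) hf hg
  one_mem' := ⟨1, 0, le_rfl, hR.2.2.2.2.2.1 _ 1 1 OO.one_mem⟩
  add_mem' := by
    rintro f g ⟨M, N, hM, hf⟩ ⟨M', N', hM', hg⟩
    obtain ⟨K, L, hK, h1, h2⟩ := common hR hM hM' hf hg
    exact ⟨K, L, hK, hR.2.1 _ _ _ _ _ h1 h2⟩
  zero_mem' := ⟨1, 0, le_rfl, hR.2.2.2.2.2.1 _ 1 0 OO.zero_mem⟩
  neg_mem' := by
    rintro f ⟨M, N, hM, hf⟩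
    exact ⟨M, N, hM, hR.2.2.1 _ _ _ _ hf⟩

/-- the ideal of expansions with coefficients in `I` -/
def JI {ℓ : ℕ} {I : AddSubgroup ℂ} (hI : PrimeOver ℓ I) : Ideal (S hR) where
  carrier := {f | ∃ M N : ℕ, 1 ≤ M ∧ HasExp I M N (f : ℂ → ℂ)}
  add_mem' := by
    rintro f g ⟨M, N, hM, hf⟩ ⟨M', N', hM', hg⟩
    obtain ⟨K, L, hK, h1, h2⟩ := common hR hM hM' hf hg
    exact ⟨K, L, hK, hR.2.1 _ _ _ _ _ h1 h2⟩
  zero_mem' := ⟨1, 0, le_rfl, hR.2.2.2.2.2.1 _ 1 0 I.zero_mem⟩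
  smul_mem' := by
    rintro ⟨f, ⟨M, N, hM, hf⟩⟩ g ⟨M', N', hM', hg⟩
    exact mulc hR hM hM' (fun x hx y hy => hI.mul_mem x hx y hy) hf hg

variable {ℓ : ℕ} {I : AddSubgroup ℂ} (hI : PrimeOver ℓ I)

open Classical in
/-- class of a function -/
noncomputable def cl (f : ℂ → ℂ) : (S hR) ⧸ (JI hR hI) :=
  if h : f ∈ S hR then Ideal.Quotient.mk _ ⟨f, h⟩ else 0

lemma cl_of_mem {f : ℂ → ℂ} (h : f ∈ S hR) :
    cl hR hI f = Ideal.Quotient.mk (JI hR hI) ⟨f, h⟩ := by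
  simp [cl, h]

lemma cl_eq {f g : ℂ → ℂ} (hf : f ∈ S hR) (hg : g ∈ S hR) {M N : ℕ} (hM : 1 ≤ M)
    (h : HasExp I M N (fun z => f z - g z)) : cl hR hI f = cl hR hI g := by
  rw [cl_of_mem hR hI hf, cl_of_mem hR hI hg, Ideal.Quotient.eq]
  exact ⟨M, N, hM, h⟩

lemma cl_pow {f : ℂ → ℂ} (hf : f ∈ S hR) (n : ℕ) :
    cl hR hI (fun z => f z ^ n) = cl hR hI f ^ n := by
  have h1 : (fun z => f z ^ n) ∈ S hR := (S hR).pow_mem hf n
  rw [cl_of_mem hR hI hf, cl_of_mem hR hI h1, ← map_pow]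
  rfl

omit hR in
lemma J_exp (hJ : T_JEX) : HasExp OO.toAddSubgroup 1 1 J := by
  obtain ⟨c, _, hc⟩ := hJ
  refine ⟨fun n => (c n : ℂ), fun n => ?_, hc⟩
  exact intCast_mem OO (c n)

lemma act_exp {A : AddSubgroup ℂ} (hA : ∀ x ∈ OO, ∀ y ∈ A, x * y ∈ A) {M N a b d : ℕ} {f : ℂ → ℂ}
    (hM : 1 ≤ M) (ha : 1 ≤ a) (hd : 1 ≤ d) (hf : HasExp A M N f) :
    HasExp A (M * d) (N * a) (fun z => f ((a * z + b) / d)) :=
  hR.2.2.2.2.2.2.1 A M N a b d f hM ha hd hA hf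

lemma act_mem (hJ : T_JEX) {a b d : ℕ} (ha : 1 ≤ a) (hd : 1 ≤ d) :
    (fun z : ℂ => J ((a * z + b) / d)) ∈ S hR :=
  ⟨1 * d, 1 * a, by omega, act_exp hR (fun x hx y hy => OO.mul_mem hx hy) le_rfl ha hd (J_exp hJ)⟩

omit hR in
lemma TT_pos {m : ℕ} {g : (ℕ × ℕ) × ℕ} (hg : g ∈ TT m) : 1 ≤ g.1.1 ∧ 1 ≤ g.1.2 := by
  simp only [TT, Finset.mem_filter, Finset.mem_product, Nat.mem_divisorsAntidiagonal] at hg
  obtain ⟨⟨⟨h1, h2⟩, _⟩, _⟩ := hg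
  constructor
  · exact Nat.pos_of_ne_zero fun h => h2 (by rw [← h1, h, zero_mul])
  · exact Nat.pos_of_ne_zero fun h => h2 (by rw [← h1, h, mul_zero])

lemma J_mem (hJ : T_JEX) : J ∈ S hR := ⟨1, 1, le_rfl, J_exp hJ⟩

lemma prod_cl (hJ : T_JEX) {m : ℕ} {F : ℤ[X][X]} (hF : IsMP m F) :
    ∏ g ∈ TT m, (X - C (cl hR hI (fun z => J (act g z)))) =
      F.map (aeval (cl hR hI J) : ℤ[X] →ₐ[ℤ] _).toRingHom := by
  classical
  set js : ((ℕ × ℕ) × ℕ) → S hR := fun g =>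
    if h : (fun z => J (act g z)) ∈ S hR then ⟨_, h⟩ else 0 with hjs
  set mk := Ideal.Quotient.mk (JI hR hI) with hmk
  set PS : (S hR)[X] := ∏ g ∈ TT m, (X - C (js g)) with hPS
  set JS : S hR := ⟨J, J_mem hR hJ⟩ with hJS
  set QS : (S hR)[X] := F.map (aeval JS : ℤ[X] →ₐ[ℤ] _).toRingHom with hQS
  have hmem : ∀ g ∈ TT m, (fun z => J (act g z)) ∈ S hR := by
    intro g hg
    obtain ⟨h1, h2⟩ := TT_pos hg
    exact act_mem hR hJ h1 h2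
  have e1 : PS.map mk = ∏ g ∈ TT m, (X - C (cl hR hI (fun z => J (act g z)))) := by
    rw [hPS, Polynomial.map_prod]
    refine Finset.prod_congr rfl fun g hg => ?_
    rw [Polynomial.map_sub, map_X, map_C, cl_of_mem hR hI (hmem g hg)]
    simp only [hjs, hmem g hg, dif_pos, hmk]
  have e2 : QS.map mk = F.map (aeval (cl hR hI J) : ℤ[X] →ₐ[ℤ] _).toRingHom := by
    rw [hQS, Polynomial.map_map]
    congr 1
    refine Polynomial.ringHom_ext' (RingHom.ext_int _ _) ?_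
    simp only [hJS, hmk, RingHom.coe_comp, Function.comp_apply, AlgHom.toRingHom_eq_coe,
      RingHom.coe_coe, aeval_X]
    exact (cl_of_mem hR hI (J_mem hR hJ)).symm
  rw [← e1, ← e2]
  ext k
  rw [coeff_map, coeff_map, hmk, Ideal.Quotient.eq]
  refine ⟨1, 0, le_rfl, ?_⟩
  refine hR.2.2.2.2.2.2.2 I 1 0 (fun _ => 0) _ ?_ (hR.2.2.2.2.2.1 _ 1 0 I.zero_mem)
  intro z hz
  set ev : S hR →+* ℂ := (Pi.evalRingHom (fun _ : ℂ => ℂ) z).comp (S hR).subtype with hev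
  have e3 : PS.map ev = ∏ g ∈ TT m, (X - C (J (act g z))) := by
    rw [hPS, Polynomial.map_prod]
    refine Finset.prod_congr rfl fun g hg => ?_
    rw [Polynomial.map_sub, map_X, map_C]
    simp only [hjs, hmem g hg, dif_pos, hev]
    rfl
  have e4 : QS.map ev = inn (J z) F := by
    rw [hQS, Polynomial.map_map, inn]
    congr 1
    refine Polynomial.ringHom_ext' (RingHom.ext_int _ _) ?_
    simp [hev, hJS]
  have e5 : ev (PS.coeff k) = ev (QS.coeff k) := by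
    rw [← coeff_map, ← coeff_map, e3, e4, hF.2 z hz]
  have e6 : ((PS.coeff k : S hR) : ℂ → ℂ) z = ((QS.coeff k : S hR) : ℂ → ℂ) z := e5
  show (0 : ℂ) = ((PS.coeff k : S hR) : ℂ → ℂ) z - ((QS.coeff k : S hR) : ℂ → ℂ) z
  rw [e6, sub_self]

/-- the quotient ring has characteristic `ℓ` -/
lemma charB (hℓ : ℓ.Prime) (hn : ∀ n : ℤ, (n : ℂ) ∈ I ↔ (ℓ : ℤ) ∣ n) (h3 : T_KR3) :
    CharP ((S hR) ⧸ (JI hR hI)) ℓ := by
  have hnt : Nontrivial ((S hR) ⧸ (JI hR hI)) := by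
    rw [Ideal.Quotient.nontrivial_iff, Ne, Ideal.eq_top_iff_one]
    rintro ⟨M, N, hM, h⟩
    have h4 := h3 ℓ hℓ I hn 1 M N hM (by
      refine hR.2.2.2.2.2.2.2 I M N _ _ ?_ h
      intro z _
      simp) 0
    rw [coeff_one_zero] at h4
    have h5 := Int.le_of_dvd one_pos h4
    have h6 := hℓ.two_le
    omega
  rw [CharP.charP_iff_prime_eq_zero hℓ]
  have h1 : ((ℓ : S hR) : S hR) ∈ JI hR hI := by
    refine ⟨1, 0, le_rfl, ?_⟩
    exact hR.2.2.2.2.2.1 I 1 (ℓ : ℂ) hI.mem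
  have h2 := Ideal.Quotient.eq_zero_iff_mem.mpr h1
  rwa [map_natCast] at h2

omit hR in
lemma J_per (hV : T_INV) {z : ℂ} (hz : 0 < z.im) (n : ℕ) : J (z + n) = J z := by
  induction n with
  | zero => simp
  | succ n ih =>
    have h1 : 0 < (z + n).im := by simpa using hz
    rw [Nat.cast_succ, ← add_assoc, (hV.2.2.1 _ h1).1, ih]

omit hR in
lemma im_act {a b d : ℕ} (ha : 1 ≤ a) (hd : 1 ≤ d) {z : ℂ} (hz : 0 < z.im) :
    0 < ((a * z + b) / d : ℂ).im := by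
  have h1 : ((a * z + b) / d : ℂ).im = a * z.im / d := by
    have : ((a * z + b) / d : ℂ) = ((a / d : ℝ) : ℂ) * z + ((b / d : ℝ) : ℂ) := by
      push_cast
      ring
    rw [this, Complex.add_im, Complex.im_ofReal_mul, Complex.ofReal_im]
    ring
  rw [h1]
  have : (0 : ℝ) < a := by exact_mod_cast ha
  have : (0 : ℝ) < d := by exact_mod_cast hd
  positivity

/-- type 1 -/
lemma type1 (hJ : T_JEX) (hV : T_INV) (hℓ : ℓ.Prime) (h1 : T_KR1) {a d b : ℕ} (ha : 1 ≤ a)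
    (hd : 1 ≤ d) :
    cl hR hI (fun z => J (act ((ℓ * a, d), ℓ * b % d) z)) =
      cl hR hI (fun z => J (act ((a, d), b) z)) ^ ℓ := by
  obtain ⟨N, hN⟩ := h1 ℓ hℓ I hI
  have m1 : (fun z => J (act ((a, d), b) z)) ∈ S hR := act_mem hR hJ ha hd
  have m2 : (fun z => J (act ((ℓ * a, d), ℓ * b % d) z)) ∈ S hR := by
    have := act_mem hR hJ (a := ℓ * a) (b := ℓ * b % d) (Nat.mul_pos hℓ.pos ha) hd
    exact this
  rw [← cl_pow hR hI m1]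
  refine cl_eq hR hI m2 ((S hR).pow_mem m1 ℓ) (M := 1 * d) (N := N * a) (by omega) ?_
  refine hR.2.2.2.2.2.2.2 I _ _ _ _ ?_ (act_exp hR (b := b) hI.mul_mem le_rfl ha hd hN)
  intro z hz
  have hd' : (d : ℂ) ≠ 0 := by exact_mod_cast (by omega : d ≠ 0)
  have e1 : (ℓ : ℂ) * ((a * z + b) / d) = act ((ℓ * a, d), ℓ * b % d) z + (ℓ * b / d : ℕ) := by
    simp only [act]
    have e2 : ((ℓ * b : ℕ) : ℂ) = (ℓ * b % d : ℕ) + d * (ℓ * b / d : ℕ) := by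
      exact_mod_cast (Nat.mod_add_div (ℓ * b) d).symm
    push_cast at e2 ⊢
    field_simp
    linear_combination e2
  have e3 : 0 < (act ((ℓ * a, d), ℓ * b % d) z).im := by
    have := im_act (a := ℓ * a) (b := ℓ * b % d) (d := d) (Nat.mul_pos hℓ.pos ha) hd hz
    exact this
  show J ((ℓ : ℂ) * ((a * z + b) / d)) - _ = _
  rw [e1, J_per hV e3]
  rfl

/-- type 2 -/
lemma type2 (hJ : T_JEX) (hℓ : ℓ.Prime) (h1 : T_KR1) (h2 : T_KR2)
    (hζ : ∀ ζ : ℂ, ζ ^ ℓ = 1 → 1 - ζ ∈ I) {a d b : ℕ} (ha : 1 ≤ a) (hd : 1 ≤ d) :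
    ∃ w : (S hR) ⧸ (JI hR hI), w ^ ℓ = cl hR hI (fun z => J (act ((a, d), b) z)) ∧
      ∀ c : ℕ, cl hR hI (fun z => J (act ((a, ℓ * d), b + d * c) z)) = w := by
  have hℓ1 : 1 ≤ ℓ := hℓ.pos
  have hℓd : 1 ≤ ℓ * d := Nat.mul_pos hℓ.pos hd
  have hd' : (d : ℂ) ≠ 0 := by exact_mod_cast (by omega : d ≠ 0)
  have hℓ' : (ℓ : ℂ) ≠ 0 := by exact_mod_cast hℓ.ne_zero
  have m0 : (fun z => J (act ((a, d), b) z)) ∈ S hR := act_mem hR hJ ha hd
  have m1 : (fun z : ℂ => J ((a * z + b) / (ℓ * d : ℕ))) ∈ S hR := act_mem hR hJ ha hℓd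
  refine ⟨cl hR hI (fun z : ℂ => J ((a * z + b) / (ℓ * d : ℕ))), ?_, ?_⟩
  · rw [← cl_pow hR hI m1]
    obtain ⟨N, hN⟩ := h1 ℓ hℓ I hI
    symm
    refine cl_eq hR hI m0 ((S hR).pow_mem m1 ℓ) (M := 1 * (ℓ * d)) (N := N * a) (by omega) ?_
    refine hR.2.2.2.2.2.2.2 I _ _ _ _ ?_ (act_exp hR (b := b) hI.mul_mem le_rfl ha hℓd hN)
    intro z hz
    have e1 : (ℓ : ℂ) * ((a * z + b) / (ℓ * d : ℕ)) = act ((a, d), b) z := by
      simp only [act]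
      push_cast
      field_simp
    show J ((ℓ : ℂ) * ((a * z + b) / (ℓ * d : ℕ))) - _ = _
    rw [e1]
  · intro c
    obtain ⟨N, hN⟩ := h2 ℓ hℓ I hI hζ c
    have m2 : (fun z => J (act ((a, ℓ * d), b + d * c) z)) ∈ S hR := act_mem hR hJ ha hℓd
    refine cl_eq hR hI m2 m1 (M := ℓ * d) (N := N * a) hℓd ?_
    refine hR.2.2.2.2.2.2.2 I _ _ _ _ ?_ (act_exp hR (b := b) hI.mul_mem hℓ1 ha hd hN)
    intro z hz
    have e1 : (((a * z + b) / d : ℂ) + c) / ℓ = act ((a, ℓ * d), b + d * c) z := by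
      simp only [act]
      push_cast
      field_simp
      ring
    have e2 : ((a * z + b) / d : ℂ) / ℓ = (a * z + b) / (ℓ * d : ℕ) := by
      push_cast
      field_simp
    show J ((((a * z + b) / d : ℂ) + c) / ℓ) - J (((a * z + b) / d : ℂ) / ℓ) = _
    rw [e1, e2]

omit hR in
lemma abs {B : Type*} [CommRing B] {ℓ : ℕ} [hfact : Fact ℓ.Prime] [CharP B ℓ] {m : ℕ}
    (hm : 1 ≤ m) (hlm : ¬ ℓ ∣ m) {F G : ℤ[X][X]} (j : B) (v : (ℕ × ℕ) × ℕ → B)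
    (eF : ∏ g ∈ TT m, (X - C (v g)) = F.map (aeval j : ℤ[X] →ₐ[ℤ] B).toRingHom)
    (eG : ∏ g ∈ TT (ℓ * m), (X - C (v g)) = G.map (aeval j : ℤ[X] →ₐ[ℤ] B).toRingHom)
    (t1 : ∀ a d b : ℕ, 1 ≤ a → 1 ≤ d → v ((ℓ * a, d), ℓ * b % d) = v ((a, d), b) ^ ℓ)
    (t2 : ∀ a d b : ℕ, 1 ≤ a → 1 ≤ d → ∃ w : B, w ^ ℓ = v ((a, d), b) ∧
      ∀ c : ℕ, v ((a, ℓ * d), b + d * c) = w) :
    (G - (expand ℤ[X] ℓ F) * (F.map (expand ℤ ℓ).toRingHom)).map
      (aeval j : ℤ[X] →ₐ[ℤ] B).toRingHom = 0 := by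
  have hℓ : ℓ.Prime := hfact.out
  have e1 : ∏ g ∈ TT (ℓ * m), (X - C (v g)) =
      (∏ g ∈ TT m, (X - C (v g ^ ℓ))) * ∏ g ∈ TT m, (X ^ ℓ - C (v g)) := by
    rw [prod_TT, prod_dA hℓ hm hlm, prod_TT, prod_TT]
    congr 1
    · refine Finset.prod_congr rfl fun p hp => ?_
      have hp' := Nat.mem_divisorsAntidiagonal.mp hp
      have ha : 1 ≤ p.1 := Nat.pos_of_ne_zero fun h => hp'.2 (by rw [← hp'.1, h, zero_mul])
      have hd : 1 ≤ p.2 := Nat.pos_of_ne_zero fun h => hp'.2 (by rw [← hp'.1, h, mul_zero])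
      have hcop : Nat.Coprime ℓ p.2 := by
        rw [Nat.Prime.coprime_iff_not_dvd hℓ]
        intro h
        exact hlm (h.trans ⟨p.1, by rw [← hp'.1]; ring⟩)
      rw [prod_range_cop hd hcop]
      refine Finset.prod_congr rfl fun b _ => ?_
      rw [t1 p.1 p.2 b ha hd]
    · refine Finset.prod_congr rfl fun p hp => ?_
      have hp' := Nat.mem_divisorsAntidiagonal.mp hp
      have ha : 1 ≤ p.1 := Nat.pos_of_ne_zero fun h => hp'.2 (by rw [← hp'.1, h, zero_mul])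
      have hd : 1 ≤ p.2 := Nat.pos_of_ne_zero fun h => hp'.2 (by rw [← hp'.1, h, mul_zero])
      rw [prod_range_mul' ℓ p.2 hd]
      refine Finset.prod_congr rfl fun b _ => ?_
      obtain ⟨w, hw, hw'⟩ := t2 p.1 p.2 b ha hd
      rw [← hw, Finset.prod_congr rfl (fun c _ => by rw [hw' c]), Finset.prod_const,
        Finset.card_range, sub_pow_char, C_pow]
  have e2 : ∏ g ∈ TT m, (X - C (v g ^ ℓ)) =
      (F.map (expand ℤ ℓ).toRingHom).map (aeval j : ℤ[X] →ₐ[ℤ] B).toRingHom := by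
    have e3 : ∏ g ∈ TT m, (X - C (v g ^ ℓ)) =
        (∏ g ∈ TT m, (X - C (v g))).map (frobenius B ℓ) := by
      rw [Polynomial.map_prod]
      refine Finset.prod_congr rfl fun g _ => ?_
      rw [Polynomial.map_sub, map_X, map_C, frobenius_def]
    rw [e3, eF, Polynomial.map_map, Polynomial.map_map]
    congr 1
    refine Polynomial.ringHom_ext' (RingHom.ext_int _ _) ?_
    simp only [RingHom.coe_comp, Function.comp_apply, AlgHom.toRingHom_eq_coe,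
      RingHom.coe_coe, aeval_X, frobenius_def, expand_X, map_pow]
  have e4 : ∏ g ∈ TT m, (X ^ ℓ - C (v g)) =
      (expand ℤ[X] ℓ F).map (aeval j : ℤ[X] →ₐ[ℤ] B).toRingHom := by
    have e5 : ∏ g ∈ TT m, (X ^ ℓ - C (v g)) =
        expand B ℓ (∏ g ∈ TT m, (X - C (v g))) := by
      rw [map_prod]
      refine Finset.prod_congr rfl fun g _ => ?_
      rw [map_sub, expand_X, expand_C]
    rw [e5, eF, map_expand]
  rw [Polynomial.map_sub, Polynomial.map_mul, ← e2, ← e4, ← eG, e1, mul_comm, sub_self]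

lemma fin (hJ : T_JEX) (h3 : T_KR3) (hℓ : ℓ.Prime) (hn : ∀ n : ℤ, (n : ℂ) ∈ I ↔ (ℓ : ℤ) ∣ n)
    {K0 : ℤ[X][X]}
    (h : K0.map (aeval (cl hR hI J) : ℤ[X] →ₐ[ℤ] ((S hR) ⧸ (JI hR hI))).toRingHom = 0) :
    ∃ K : ℤ[X][X], K0 = C (C (ℓ : ℤ)) * K := by
  have e7 : ∀ k i, (ℓ : ℤ) ∣ (K0.coeff k).coeff i := by
    intro k
    have e8 : (aeval (cl hR hI J) : ℤ[X] →ₐ[ℤ] ((S hR) ⧸ (JI hR hI))).toRingHom
        (K0.coeff k) = 0 := by
      rw [← coeff_map, h, coeff_zero]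
    have e9 : (aeval (⟨J, J_mem hR hJ⟩ : S hR) : ℤ[X] →ₐ[ℤ] _).toRingHom (K0.coeff k) ∈
        JI hR hI := by
      rw [← Ideal.Quotient.eq_zero_iff_mem, ← e8]
      have : (Ideal.Quotient.mk (JI hR hI)).comp
          (aeval (⟨J, J_mem hR hJ⟩ : S hR) : ℤ[X] →ₐ[ℤ] _).toRingHom =
          (aeval (cl hR hI J) : ℤ[X] →ₐ[ℤ] _).toRingHom := by
        refine Polynomial.ringHom_ext' (RingHom.ext_int _ _) ?_
        simp only [RingHom.coe_comp, Function.comp_apply, AlgHom.toRingHom_eq_coe,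
          RingHom.coe_coe, aeval_X]
        exact (cl_of_mem hR hI (J_mem hR hJ)).symm
      exact congrArg (fun φ : ℤ[X] →+* ((S hR) ⧸ (JI hR hI)) => φ (K0.coeff k)) this
    obtain ⟨M, N, hM, hMN⟩ := e9
    refine h3 ℓ hℓ I hn (K0.coeff k) M N hM ?_
    refine hR.2.2.2.2.2.2.2 I M N _ _ ?_ hMN
    intro z hz
    have : ((Pi.evalRingHom (fun _ : ℂ => ℂ) z).comp (S hR).subtype).comp
        (aeval (⟨J, J_mem hR hJ⟩ : S hR) : ℤ[X] →ₐ[ℤ] _).toRingHom =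
        (aeval (J z) : ℤ[X] →ₐ[ℤ] ℂ).toRingHom := by
      refine Polynomial.ringHom_ext' (RingHom.ext_int _ _) ?_
      simp
    exact congrArg (fun φ : ℤ[X] →+* ℂ => φ (K0.coeff k)) this
  have e10 : C (C (ℓ : ℤ)) ∣ K0 := by
    rw [C_dvd_iff_dvd_coeff]
    intro k
    rw [C_dvd_iff_dvd_coeff]
    exact e7 k
  exact e10

end KRO_

open KRO_ in
theorem p_KRO (hJ : T_JEX) (hR : T_RNG) (h0 : T_KR0) (h1 : T_KR1) (h2 : T_KR2) (h3 : T_KR3)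
    (hV : T_INV) : T_KRO := by
  intro ℓ m hℓ hm hlm F G hF hG
  obtain ⟨I, hI, hn, hζ⟩ := h0 ℓ hℓ
  have hch := charB hR hI hℓ hn h3
  have hfact : Fact ℓ.Prime := ⟨hℓ⟩
  have e6 := abs (B := (S hR) ⧸ (JI hR hI)) hm hlm (cl hR hI J)
    (fun g => cl hR hI (fun z => J (act g z))) (prod_cl hR hI hJ hF) (prod_cl hR hI hJ hG)
    (fun a d b ha hd => type1 hR hI hJ hV hℓ h1 ha hd)
    (fun a d b ha hd => type2 hR hI hJ hℓ h1 h2 hζ ha hd)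
  obtain ⟨K, hK⟩ := fin hR hI hJ h3 hℓ hn e6
  exact ⟨K, by rw [← hK]; ring⟩

end SSM
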