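import Pool.Agent.SSM.Targets

/-!
# MP_d74fca_nt, part IV, target LAT: a lattice is determined by its invariants

The difference `h` of the two Weierstrass functions is analytic at `0`.  The first order
differential equations give `z h' (A' + B') = h (4 (A ^ 2 + A B + B ^ 2) - g₂ z ^ 4)` with
`A (0) = B (0) = 1`, `A' (0) = B' (0) = - 2`, so if `h` had order `n` at `0`, then
`- 4 n = 12`, which is absurd.  Hence the two functions agree near `0`, so they agree outside
the two lattices, and then they have the same poles.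
-/

open scoped Topology
open Filter

namespace SSM

namespace LAT_

/-- the Weierstrass function and its regular part -/
lemma P_eq (L : PeriodPair) (z : ℂ) :
    L.weierstrassP z = 1 / z ^ 2 + L.weierstrassPExcept 0 z := by
  have h := L.weierstrassPExcept_add 0 z
  simp only [ZeroMemClass.coe_zero, sub_zero] at h
  rw [← h]
  simp
  ring

/-- the derivative of the Weierstrass function and its regular part -/
lemma dP_eq (L : PeriodPair) (z : ℂ) :
    L.derivWeierstrassP z = L.derivWeierstrassPExcept 0 z - 2 / z ^ 3 := by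
  have h := L.derivWeierstrassPExcept_sub 0 z
  simp only [ZeroMemClass.coe_zero, sub_zero] at h
  rw [← h]

/-- near `0` there is no other point of the lattice -/
lemma near (L : PeriodPair) : ∀ᶠ z in 𝓝[≠] (0 : ℂ), z ∉ L.lattice := by
  have h := L.compl_lattice_sdiff_singleton_mem_nhds 0
  filter_upwards [mem_nhdsWithin_of_mem_nhds h, self_mem_nhdsWithin] with z hz hz0 hzL
  exact hz ⟨hzL, hz0⟩

/-- the derivative of the regular part -/
lemma deriv_eq (L : PeriodPair) : ∀ᶠ z in 𝓝 (0 : ℂ),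
    HasDerivAt (L.weierstrassPExcept 0) (L.derivWeierstrassPExcept 0 z) z := by
  have h := L.compl_lattice_sdiff_singleton_mem_nhds 0
  filter_upwards [h] with z hz
  rw [← L.eqOn_deriv_weierstrassPExcept_derivWeierstrassPExcept 0 hz]
  exact ((L.differentiableOn_weierstrassPExcept 0).differentiableAt
    (L.isOpen_compl_lattice_sdiff.mem_nhds hz)).hasDerivAt

/-- the differential equation without denominators -/
lemma ode (L : PeriodPair) : ∀ᶠ z in 𝓝[≠] (0 : ℂ),
    (z ^ 3 * L.derivWeierstrassPExcept 0 z - 2) ^ 2 =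
      4 * (z ^ 2 * L.weierstrassPExcept 0 z + 1) ^ 3
        - L.g₂ * z ^ 4 * (z ^ 2 * L.weierstrassPExcept 0 z + 1) - L.g₃ * z ^ 6 := by
  filter_upwards [near L, self_mem_nhdsWithin] with z hz hz0
  have hz0' : z ≠ 0 := hz0
  have h := L.derivWeierstrassP_sq z hz
  rw [P_eq, dP_eq] at h
  have h1 : z ^ 3 * L.derivWeierstrassPExcept 0 z - 2 =
      z ^ 3 * (L.derivWeierstrassPExcept 0 z - 2 / z ^ 3) := by
    field_simp
  have h2 : z ^ 2 * L.weierstrassPExcept 0 z + 1 =
      z ^ 2 * (1 / z ^ 2 + L.weierstrassPExcept 0 z) := by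
    field_simp
    ring
  rw [h1, h2, mul_pow, h]
  ring

/-- the difference of the regular parts vanishes near `0` -/
lemma main (L L' : PeriodPair) (h4 : L.G 4 = L'.G 4) (h6 : L.G 6 = L'.G 6) :
    ∀ᶠ z in 𝓝 (0 : ℂ), L.weierstrassPExcept 0 z - L'.weierstrassPExcept 0 z = 0 := by
  have hg2 : L'.g₂ = L.g₂ := by simp [PeriodPair.g₂, h4]
  have hg3 : L'.g₃ = L.g₃ := by simp [PeriodPair.g₃, h6]
  have hanL := L.analyticAt_weierstrassPExcept 0
  have hanL' := L'.analyticAt_weierstrassPExcept 0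
  have hdL := L.analyticAt_derivWeierstrassPExcept 0
  have hdL' := L'.analyticAt_derivWeierstrassPExcept 0
  have hf := hanL.sub hanL'
  by_contra hcon
  obtain ⟨n, u, hu, hu0, hev⟩ := hf.exists_eventuallyEq_pow_smul_nonzero_iff.2 hcon
  simp only [sub_zero, smul_eq_mul] at hev
  -- the derivative of the difference
  have hder : ∀ᶠ z in 𝓝 (0 : ℂ),
      L.derivWeierstrassPExcept 0 z - L'.derivWeierstrassPExcept 0 z =
        n * z ^ (n - 1) * u z + z ^ n * deriv u z := by
    filter_upwards [deriv_eq L, deriv_eq L', hev.eventually_nhds, hu.eventually_analyticAt]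
      with z h1 h2 h3 h4
    have h5 : HasDerivAt (fun z => z ^ n * u z) (n * z ^ (n - 1) * u z + z ^ n * deriv u z) z :=
      (hasDerivAt_pow n z).mul h4.differentiableAt.hasDerivAt
    have h6 := h1.sub h2
    exact (h6.congr_of_eventuallyEq (h3.mono fun w hw => hw.symm)).unique h5
  have key : (fun z => ((n : ℂ) * u z + z * deriv u z) *
      ((z ^ 3 * L.derivWeierstrassPExcept 0 z - 2) + (z ^ 3 * L'.derivWeierstrassPExcept 0 z - 2)))
      =ᶠ[𝓝[≠] (0 : ℂ)] (fun z => u z * (4 * ((z ^ 2 * L.weierstrassPExcept 0 z + 1) ^ 2 +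
        (z ^ 2 * L.weierstrassPExcept 0 z + 1) * (z ^ 2 * L'.weierstrassPExcept 0 z + 1) +
        (z ^ 2 * L'.weierstrassPExcept 0 z + 1) ^ 2) - L.g₂ * z ^ 4)) := by
    filter_upwards [ode L, ode L', mem_nhdsWithin_of_mem_nhds hder, mem_nhdsWithin_of_mem_nhds hev,
      self_mem_nhdsWithin] with z h1 h2 h3 h4 h5
    have hz0 : z ≠ 0 := h5
    have h3' : z * (L.derivWeierstrassPExcept 0 z - L'.derivWeierstrassPExcept 0 z) =
        z ^ n * (n * u z + z * deriv u z) := by
      rw [h3]
      rcases Nat.eq_zero_or_pos n with hn | hn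
      · subst hn
        simp
      · obtain ⟨m, rfl⟩ : ∃ m, n = m + 1 := ⟨n - 1, by omega⟩
        simp only [Nat.add_sub_cancel]
        ring
    have h4' : L.weierstrassPExcept 0 z - L'.weierstrassPExcept 0 z = z ^ n * u z := h4
    rw [hg2, hg3] at h2
    have hne : z ^ 2 * z ^ n ≠ 0 := mul_ne_zero (pow_ne_zero _ hz0) (pow_ne_zero _ hz0)
    apply mul_left_cancel₀ hne
    generalize L.weierstrassPExcept 0 z = a at *
    generalize L'.weierstrassPExcept 0 z = b at *
    generalize L.derivWeierstrassPExcept 0 z = a' at *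
    generalize L'.derivWeierstrassPExcept 0 z = b' at *
    linear_combination h1 - h2 - (z ^ 2 * ((z ^ 3 * a' - 2) + (z ^ 3 * b' - 2))) * h3' +
      (z ^ 2 * (4 * ((z ^ 2 * a + 1) ^ 2 + (z ^ 2 * a + 1) * (z ^ 2 * b + 1) +
        (z ^ 2 * b + 1) ^ 2) - L.g₂ * z ^ 4)) * h4'
  have hc1 : ContinuousAt (fun z => ((n : ℂ) * u z + z * deriv u z) *
      ((z ^ 3 * L.derivWeierstrassPExcept 0 z - 2) + (z ^ 3 * L'.derivWeierstrassPExcept 0 z - 2)))
      0 := by
    have e1 := hu.continuousAt
    have e2 := hu.deriv.continuousAt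
    have e3 := hdL.continuousAt
    have e4 := hdL'.continuousAt
    fun_prop
  have hc2 : ContinuousAt (fun z => u z * (4 * ((z ^ 2 * L.weierstrassPExcept 0 z + 1) ^ 2 +
        (z ^ 2 * L.weierstrassPExcept 0 z + 1) * (z ^ 2 * L'.weierstrassPExcept 0 z + 1) +
        (z ^ 2 * L'.weierstrassPExcept 0 z + 1) ^ 2) - L.g₂ * z ^ 4)) 0 := by
    have e1 := hu.continuousAt
    have e3 := hanL.continuousAt
    have e4 := hanL'.continuousAt
    fun_prop
  have hlim := tendsto_nhds_unique_of_eventuallyEq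
    (hc1.tendsto.mono_left nhdsWithin_le_nhds) (hc2.tendsto.mono_left nhdsWithin_le_nhds) key
  simp only [ne_eq, OfNat.ofNat_ne_zero, not_false_eq_true, zero_pow, zero_mul, mul_zero,
    zero_add, add_zero, zero_sub, sub_zero, one_pow, mul_one] at hlim
  have h7 : ((n : ℂ) + 3) * u 0 = 0 := by linear_combination (-1 / 4) * hlim
  rcases mul_eq_zero.1 h7 with h8 | h8
  · have h9 : ((n + 3 : ℕ) : ℂ) = 0 := by push_cast; exact h8
    rw [Nat.cast_eq_zero] at h9
    omega
  · exact hu0 h8

/-- a lattice is countable -/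
lemma count (L : PeriodPair) : (L.lattice : Set ℂ).Countable := by
  have h : Countable L.lattice := L.latticeEquivProd.toEquiv.countable_iff.2 inferInstance
  exact Set.countable_coe_iff.1 h

/-- the two functions agree outside the lattices -/
lemma agree (L L' : PeriodPair) (h4 : L.G 4 = L'.G 4) (h6 : L.G 6 = L'.G 6) (z : ℂ)
    (hz : z ∉ L.lattice) (hz' : z ∉ L'.lattice) : L.weierstrassP z = L'.weierstrassP z := by
  have hcount : ((L.lattice : Set ℂ) ∪ (L'.lattice : Set ℂ)).Countable := by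
    exact (count L).union (count L')
  set U : Set ℂ := ((L.lattice : Set ℂ) ∪ (L'.lattice : Set ℂ))ᶜ with hU
  have hconn : IsPreconnected U :=
    (hcount.isPathConnected_compl_of_one_lt_rank (by simp)).isConnected.isPreconnected
  have hsub : U ⊆ (L.lattice : Set ℂ)ᶜ := fun w hw hw' => hw (Or.inl hw')
  have hsub' : U ⊆ (L'.lattice : Set ℂ)ᶜ := fun w hw hw' => hw (Or.inr hw')
  have hanP : AnalyticOnNhd ℂ L.weierstrassP U := L.analyticOnNhd_weierstrassP.mono hsub
  have hanQ : AnalyticOnNhd ℂ L'.weierstrassP U := L'.analyticOnNhd_weierstrassP.mono hsub'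
  -- near `0` the two functions agree
  have hev : ∀ᶠ w in 𝓝 (0 : ℂ), L.weierstrassP w = L'.weierstrassP w := by
    filter_upwards [main L L' h4 h6] with w hw
    rw [P_eq, P_eq, sub_eq_zero.1 hw]
  obtain ⟨w, hw, hwU⟩ : ∃ w, (∀ᶠ v in 𝓝 w, L.weierstrassP v = L'.weierstrassP v) ∧ w ∈ U := by
    have h1 : ∀ᶠ w in 𝓝[≠] (0 : ℂ), (∀ᶠ v in 𝓝 w, L.weierstrassP v = L'.weierstrassP v) ∧
        w ∈ U := by
      filter_upwards [mem_nhdsWithin_of_mem_nhds hev.eventually_nhds, near L, near L']
        with w h1 h2 h3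
      exact ⟨h1, fun h4 => h4.elim h2 h3⟩
    exact h1.exists
  have hzU : z ∈ U := fun h => h.elim hz hz'
  exact hanP.eqOn_of_preconnected_of_eventuallyEq hanQ hconn hwU hw hzU

/-- one inclusion -/
lemma incl (L L' : PeriodPair) (h4 : L.G 4 = L'.G 4) (h6 : L.G 6 = L'.G 6) :
    L.lattice ≤ L'.lattice := by
  intro l hl
  by_contra hl'
  have hQ : ContinuousAt L'.weierstrassP l :=
    (L'.analyticOnNhd_weierstrassP l hl').continuousAt
  have h1 : ∀ᶠ z in 𝓝[≠] l, z ∉ L.lattice := by
    filter_upwards [mem_nhdsWithin_of_mem_nhds (L.compl_lattice_sdiff_singleton_mem_nhds l),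
      self_mem_nhdsWithin] with z hz hz0 hzL
    exact hz ⟨hzL, hz0⟩
  have h2 : ∀ᶠ z in 𝓝[≠] l, z ∉ L'.lattice :=
    mem_nhdsWithin_of_mem_nhds (L'.isClosed_lattice.isOpen_compl.mem_nhds hl')
  have hE := L.analyticAt_weierstrassPExcept l
  have h3 : (fun z => (z - l) ^ 2 * L'.weierstrassP z) =ᶠ[𝓝[≠] l]
      (fun z => (z - l) ^ 2 * L.weierstrassPExcept l z + 1 - (z - l) ^ 2 / l ^ 2) := by
    filter_upwards [h1, h2, self_mem_nhdsWithin] with z hz1 hz2 hz0
    have hz0' : z ≠ l := hz0
    rw [← agree L L' h4 h6 z hz1 hz2, ← L.ite_eq_one_sub_sq_mul_weierstrassP l hl z, if_neg hz0']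
  have hc1 : ContinuousAt (fun z => (z - l) ^ 2 * L'.weierstrassP z) l := by fun_prop
  have hc2 : ContinuousAt
      (fun z => (z - l) ^ 2 * L.weierstrassPExcept l z + 1 - (z - l) ^ 2 / l ^ 2) l := by
    have e1 := hE.continuousAt
    have e2 : ContinuousAt (fun z => (z - l) ^ 2 / l ^ 2) l :=
      ContinuousAt.div_const (by fun_prop) _
    fun_prop
  have hlim := tendsto_nhds_unique_of_eventuallyEq
    (hc1.tendsto.mono_left nhdsWithin_le_nhds) (hc2.tendsto.mono_left nhdsWithin_le_nhds) h3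
  simp at hlim

end LAT_

/-- a lattice is determined by `G 4` and `G 6` -/
theorem p_LAT : T_LAT := by
  intro L L' h4 h6
  exact le_antisymm (LAT_.incl L L' h4 h6) (LAT_.incl L' L h4.symm h6.symm)

end SSM
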