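import Pool.Agent.SSM.Targets

/-!
# MP_d74fca_nt, part IV: LDC, degree and leading coefficient of `F_D(X,X)`
-/

open Polynomial

namespace SSM

namespace LDC_

open Filter Topology

/-- real exponential, seen in `ℂ` -/
noncomputable def ex (t : ℝ) : ℂ := ((Real.exp t : ℝ) : ℂ)

lemma ex_add (s t : ℝ) : ex (s + t) = ex s * ex t := by
  unfold ex
  rw [Real.exp_add, Complex.ofReal_mul]

lemma ex_zero : ex 0 = 1 := by
  unfold ex
  rw [Real.exp_zero, Complex.ofReal_one]

lemma norm_ex (t : ℝ) : ‖ex t‖ = Real.exp t := by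
  unfold ex
  rw [Complex.norm_real, Real.norm_of_nonneg (Real.exp_pos _).le]

lemma ex_tendsto {s : ℝ} (hs : 0 < s) :
    Tendsto (fun y : ℝ => ex (-(2 * Real.pi * y * s))) atTop (𝓝 0) := by
  have h1 : Tendsto (fun y : ℝ => -(2 * Real.pi * y * s)) atTop atBot := by
    apply tendsto_neg_atTop_atBot.comp
    apply Tendsto.atTop_mul_const hs
    apply Tendsto.const_mul_atTop (by positivity) tendsto_id
  have h2 := (Complex.continuous_ofReal.tendsto 0).comp (Real.tendsto_exp_atBot.comp h1)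
  rw [Complex.ofReal_zero] at h2
  exact h2

/-- a function which is `exp (2π r y) u + O(1)`, divided by `exp (2π s y)` -/
lemma lim_ {h : ℝ → ℂ} {r s C y0 : ℝ} {u : ℂ} (hs : 0 < s) (hrs : r ≤ s)
    (hb : ∀ y : ℝ, y0 ≤ y → ‖h y - ex (2 * Real.pi * y * r) * u‖ ≤ C) :
    Tendsto (fun y : ℝ => h y * ex (-(2 * Real.pi * y * s))) atTop
      (𝓝 (if r = s then u else 0)) := by
  have h1 : Tendsto (fun y : ℝ => (h y - ex (2 * Real.pi * y * r) * u) *
      ex (-(2 * Real.pi * y * s))) atTop (𝓝 0) := by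
    have h2 : Tendsto (fun y : ℝ => C * ‖ex (-(2 * Real.pi * y * s))‖) atTop (𝓝 0) := by
      have := (tendsto_norm_zero.comp (ex_tendsto hs)).const_mul C
      rw [mul_zero] at this
      exact this
    refine squeeze_zero_norm' ?_ h2
    filter_upwards [eventually_ge_atTop y0] with y hy
    rw [norm_mul]
    exact mul_le_mul_of_nonneg_right (hb y hy) (norm_nonneg _)
  have h3 : Tendsto (fun y : ℝ => u * ex (-(2 * Real.pi * y * (s - r)))) atTop
      (𝓝 (if r = s then u else 0)) := by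
    split_ifs with hh
    · subst hh
      simp only [sub_self, mul_zero, neg_zero, ex_zero, mul_one]
      exact tendsto_const_nhds
    · have := (ex_tendsto (sub_pos.2 (lt_of_le_of_ne hrs hh))).const_mul u
      rw [mul_zero] at this
      exact this
  have h4 := h1.add h3
  rw [zero_add] at h4
  refine h4.congr fun y => ?_
  have h5 : ex (-(2 * Real.pi * y * (s - r))) =
      ex (2 * Real.pi * y * r) * ex (-(2 * Real.pi * y * s)) := by
    rw [← ex_add]
    congr 1
    ring
  rw [h5]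
  ring

lemma prod_TT {A : Type*} [CommMonoid A] (m : ℕ) (f : (ℕ × ℕ) × ℕ → A) :
    ∏ g ∈ TT m, f g = ∏ x ∈ m.divisorsAntidiagonal, ∏ b ∈ Finset.range x.2, f (x, b) := by
  rw [TT, Finset.prod_filter, Finset.prod_product]
  refine Finset.prod_congr rfl fun x hx => ?_
  rw [← Finset.prod_filter]
  refine Finset.prod_congr ?_ fun _ _ => rfl
  ext b
  simp only [Finset.mem_filter, Finset.mem_range]
  obtain ⟨h1, h2⟩ := Nat.mem_divisorsAntidiagonal.1 hx
  have hx1 : x.1 ≠ 0 := by
    rintro h0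
    rw [h0, zero_mul] at h1
    exact h2 h1.symm
  have h3 : x.2 ≤ m := by
    rw [← h1]
    exact Nat.le_mul_of_pos_left _ (Nat.pos_of_ne_zero hx1)
  constructor
  · exact fun h => h.2
  · exact fun h => ⟨lt_of_lt_of_le h h3, h⟩

lemma sum_TT {A : Type*} [AddCommMonoid A] (m : ℕ) (f : (ℕ × ℕ) × ℕ → A) :
    ∑ g ∈ TT m, f g = ∑ x ∈ m.divisorsAntidiagonal, ∑ b ∈ Finset.range x.2, f (x, b) := by
  rw [TT, Finset.sum_filter, Finset.sum_product]
  refine Finset.sum_congr rfl fun x hx => ?_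
  rw [← Finset.sum_filter]
  refine Finset.sum_congr ?_ fun _ _ => rfl
  ext b
  simp only [Finset.mem_filter, Finset.mem_range]
  obtain ⟨h1, h2⟩ := Nat.mem_divisorsAntidiagonal.1 hx
  have hx1 : x.1 ≠ 0 := by
    rintro h0
    rw [h0, zero_mul] at h1
    exact h2 h1.symm
  have h3 : x.2 ≤ m := by
    rw [← h1]
    exact Nat.le_mul_of_pos_left _ (Nat.pos_of_ne_zero hx1)
  constructor
  · exact fun h => h.2
  · exact fun h => ⟨lt_of_lt_of_le h h3, h⟩

lemma prod_root (k : ℕ) : ∏ b ∈ Finset.range (k + 1),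
    (-Complex.exp (-(2 * Real.pi * Complex.I * b / (k + 1 : ℕ)))) = -1 := by
  have h1 : ∏ b ∈ Finset.range (k + 1),
      (-Complex.exp (-(2 * Real.pi * Complex.I * b / (k + 1 : ℕ)))) =
      (-1) ^ (k + 1) * ∏ b ∈ Finset.range (k + 1),
      (Complex.exp (-(2 * Real.pi * Complex.I * b / (k + 1 : ℕ)))) := by
    rw [Finset.prod_congr rfl fun b _ => neg_eq_neg_one_mul _, Finset.prod_mul_distrib,
      Finset.prod_const, Finset.card_range]
  rw [h1, ← Complex.exp_sum]
  have h2 : ∑ b ∈ Finset.range (k + 1), (-(2 * Real.pi * Complex.I * b / (k + 1 : ℕ)) : ℂ) =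
      k * (-(Real.pi * Complex.I)) := by
    have h3 : (∑ b ∈ Finset.range (k + 1), (b : ℂ)) * 2 = (k + 1) * k := by
      have := Finset.sum_range_id_mul_two (k + 1)
      have h4 : (((∑ b ∈ Finset.range (k + 1), b) * 2 : ℕ) : ℂ) = ((k + 1) * (k + 1 - 1) : ℕ) := by
        rw [this]
      rw [Nat.add_sub_cancel] at h4
      push_cast at h4
      exact h4
    have h5 : ((k : ℂ) + 1) ≠ 0 := Nat.cast_add_one_ne_zero k
    have h6 : ∑ b ∈ Finset.range (k + 1), (-(2 * Real.pi * Complex.I * b / (k + 1 : ℕ)) : ℂ) =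
        -(2 * Real.pi * Complex.I / (k + 1)) * ∑ b ∈ Finset.range (k + 1), (b : ℂ) := by
      rw [Finset.mul_sum]
      refine Finset.sum_congr rfl fun b _ => ?_
      push_cast
      ring
    rw [h6]
    field_simp
    linear_combination (-1 : ℂ) * h3
  rw [h2, Complex.exp_nat_mul, Complex.exp_neg, Complex.exp_pi_mul_I, inv_neg, inv_one,
    ← pow_add]
  have h7 : k + 1 + k = 2 * k + 1 := by ring
  rw [h7, pow_succ, pow_mul]
  norm_num

lemma ex_sum {ι : Type*} (t : Finset ι) (f : ι → ℝ) : ∏ i ∈ t, ex (f i) = ex (∑ i ∈ t, f i) := by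
  classical
  induction t using Finset.induction_on with
  | empty => simp [ex_zero]
  | insert i t hi ih => rw [Finset.prod_insert hi, Finset.sum_insert hi, ih, ex_add]

lemma aeval_diag (w : ℂ) (F : ℤ[X][X]) : aeval w (diag F) = (inn w F).eval w := by
  have h1 : (inn w F).eval w = eval₂ (aeval w : ℤ[X] →ₐ[ℤ] ℂ).toRingHom
      ((aeval w : ℤ[X] →ₐ[ℤ] ℂ).toRingHom X) F := by
    rw [inn, eval_map]
    congr 1
    simp
  rw [h1, eval₂_at_apply]
  rfl

lemma poly_lim (P : ℤ[X]) (h : ℝ → ℂ)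
    (hh : Tendsto (fun y : ℝ => h y * ex (-(2 * Real.pi * y * 1))) atTop (𝓝 1)) :
    Tendsto (fun y : ℝ => aeval (h y) P * ex (-(2 * Real.pi * y * P.natDegree))) atTop
      (𝓝 (P.leadingCoeff : ℂ)) := by
  have h1 : ∀ y : ℝ, aeval (h y) P * ex (-(2 * Real.pi * y * P.natDegree)) =
      ∑ i ∈ Finset.range (P.natDegree + 1), (P.coeff i : ℂ) *
        ((h y * ex (-(2 * Real.pi * y * 1))) ^ i *
          ex (-(2 * Real.pi * y * ((P.natDegree : ℝ) - i)))) := by
    intro y
    rw [aeval_eq_sum_range, Finset.sum_mul]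
    refine Finset.sum_congr rfl fun i _ => ?_
    have h2 : ∀ k : ℕ, (ex (-(2 * Real.pi * y * 1))) ^ k = ex (-(2 * Real.pi * y * k)) := by
      intro k
      induction k with
      | zero => simp [ex_zero]
      | succ k ih =>
        rw [pow_succ, ih, ← ex_add]
        congr 1
        push_cast
        ring
    have h5 : ex (-(2 * Real.pi * y * P.natDegree)) =
        ex (-(2 * Real.pi * y * i)) * ex (-(2 * Real.pi * y * ((P.natDegree : ℝ) - i))) := by
      rw [← ex_add]
      congr 1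
      ring
    rw [mul_pow, h2, zsmul_eq_mul, h5]
    ring
  simp_rw [h1]
  have h3 : (P.leadingCoeff : ℂ) = ∑ i ∈ Finset.range (P.natDegree + 1), (P.coeff i : ℂ) *
      (1 ^ i * (if (i : ℝ) = P.natDegree then 1 else 0)) := by
    rw [Finset.sum_range_succ, Finset.sum_eq_zero, zero_add]
    · rw [if_pos rfl, one_pow, mul_one, mul_one]
      rfl
    · intro i hi
      have : (i : ℝ) ≠ P.natDegree := by
        have := Finset.mem_range.1 hi
        exact_mod_cast this.ne
      rw [if_neg this]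
      ring
  rw [h3]
  refine tendsto_finsetSum _ fun i hi => ?_
  refine Tendsto.const_mul _ (Tendsto.mul (hh.pow i) ?_)
  split_ifs with hc
  · rw [hc]
    simp only [sub_self, mul_zero, neg_zero, ex_zero]
    exact tendsto_const_nhds
  · apply ex_tendsto
    have h4 : i ≤ P.natDegree := Nat.lt_succ_iff.1 (Finset.mem_range.1 hi)
    have h5 : (i : ℝ) ≤ P.natDegree := by exact_mod_cast h4
    exact sub_pos.2 (lt_of_le_of_ne h5 hc)

/-- comparison of two normalisations -/
lemma cmp_ {A : ℝ → ℂ} {n m : ℕ} {c e : ℂ} (he : e ≠ 0)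
    (h1 : Tendsto (fun y : ℝ => A y * ex (-(2 * Real.pi * y * n))) atTop (𝓝 c))
    (h2 : Tendsto (fun y : ℝ => A y * ex (-(2 * Real.pi * y * m))) atTop (𝓝 e)) : m ≤ n := by
  by_contra hlt
  push Not at hlt
  have h3 : (0:ℝ) < (m:ℝ) - n := by
    have : (n:ℝ) < m := by exact_mod_cast hlt
    linarith
  have h4 := h1.mul (ex_tendsto h3)
  rw [mul_zero] at h4
  refine he (tendsto_nhds_unique h2 (h4.congr fun y => ?_))
  rw [mul_assoc, ← ex_add]
  congr 2
  ring

/-- the exponent belonging to a pair -/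
noncomputable def ss (x : ℕ × ℕ) : ℝ := max 1 ((x.1 : ℝ) / x.2)

lemma sum_ss (D : ℕ) (hD : ¬ IsSquare D) : ∑ g ∈ TT D, ss g.1 =
    ((2 * ∑ e ∈ D.divisors.filter (fun e => D < e ^ 2), e : ℕ) : ℝ) := by
  rw [sum_TT]
  simp only [Finset.sum_const, Finset.card_range, nsmul_eq_mul]
  have h1 : ∀ x ∈ D.divisorsAntidiagonal, (x.2 : ℝ) * ss x =
      (if D < x.1 ^ 2 then (x.1 : ℝ) else 0) + (if D < x.2 ^ 2 then (x.2 : ℝ) else 0) := by
    intro x hx
    obtain ⟨h2, h3⟩ := Nat.mem_divisorsAntidiagonal.1 hx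
    have hx1 : 0 < x.1 := by
      rcases Nat.eq_zero_or_pos x.1 with h0 | h0
      · rw [h0, zero_mul] at h2; exact absurd h2.symm h3
      · exact h0
    have hx2 : 0 < x.2 := by
      rcases Nat.eq_zero_or_pos x.2 with h0 | h0
      · rw [h0, mul_zero] at h2; exact absurd h2.symm h3
      · exact h0
    have hne : x.1 ≠ x.2 := by
      intro h0
      apply hD
      rw [← h2, h0]
      exact ⟨x.2, rfl⟩
    have hx2' : (0:ℝ) < x.2 := by exact_mod_cast hx2
    rcases lt_or_gt_of_ne hne with hlt | hlt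
    · have h4 : ¬ D < x.1 ^ 2 := by
        rw [← h2]
        have : x.1 ^ 2 ≤ x.1 * x.2 := by nlinarith
        omega
      have h5 : D < x.2 ^ 2 := by
        rw [← h2]
        nlinarith
      rw [if_neg h4, if_pos h5, ss, max_eq_left]
      · ring
      · rw [div_le_one hx2']
        exact_mod_cast hlt.le
    · have h4 : D < x.1 ^ 2 := by
        rw [← h2]
        nlinarith
      have h5 : ¬ D < x.2 ^ 2 := by
        rw [← h2]
        have : x.2 ^ 2 ≤ x.1 * x.2 := by nlinarith
        omega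
      rw [if_pos h4, if_neg h5, ss, max_eq_right]
      · field_simp
        ring
      · rw [one_le_div hx2']
        exact_mod_cast hlt.le
  rw [Finset.sum_congr rfl h1, Finset.sum_add_distrib]
  rw [Nat.sum_divisorsAntidiagonal (f := fun i _ => if D < i ^ 2 then (i : ℝ) else 0),
    Nat.sum_divisorsAntidiagonal' (f := fun _ i => if D < i ^ 2 then (i : ℝ) else 0)]
  rw [← Finset.sum_filter]
  push_cast
  ring

end LDC_

open LDC_ Filter Topology in
theorem p_LDC (h1 : T_JBD) : T_LDC := by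
  intro D F hD1 hD hF
  obtain ⟨⟨C, hC, hJ⟩, -⟩ := h1
  set h0 : ℝ → ℂ := fun y => J (y * Complex.I) with hh0
  have b0 : ∀ y : ℝ, 1 ≤ y → ‖h0 y - ex (2 * Real.pi * y * 1) * 1‖ ≤ C := by
    intro y hy
    have h2 : (1:ℝ) / 2 ≤ ((y : ℂ) * Complex.I).im := by
      simp
      linarith
    have h3 := (hJ _ h2).2
    have h4 : Complex.exp (-(2 * Real.pi * Complex.I * ((y : ℂ) * Complex.I))) =
        ex (2 * Real.pi * y * 1) := by
      unfold ex
      rw [Complex.ofReal_exp]
      congr 1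
      push_cast
      linear_combination (-(2 * (Real.pi : ℂ) * y)) * Complex.I_mul_I
    rw [h4] at h3
    rw [mul_one]
    exact h3
  have l0 : ∀ s : ℝ, 1 ≤ s → Tendsto (fun y : ℝ => h0 y * ex (-(2 * Real.pi * y * s))) atTop
      (𝓝 (if 1 = s then 1 else 0)) := fun s hs => lim_ (by linarith) hs b0
  -- facts about the members of `TT D`
  have mem : ∀ g ∈ TT D, 0 < g.1.1 ∧ 0 < g.1.2 ∧ g.1.1 * g.1.2 = D ∧ g.1.1 ≠ g.1.2 ∧
      g.1.2 ≤ D := by
    intro g hg
    have h2 := (Finset.mem_product.1 (Finset.mem_filter.1 hg).1).1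
    obtain ⟨h3, h4⟩ := Nat.mem_divisorsAntidiagonal.1 h2
    have hx1 : 0 < g.1.1 := by
      rcases Nat.eq_zero_or_pos g.1.1 with h0 | h0
      · rw [h0, zero_mul] at h3; exact absurd h3.symm h4
      · exact h0
    have hx2 : 0 < g.1.2 := by
      rcases Nat.eq_zero_or_pos g.1.2 with h0 | h0
      · rw [h0, mul_zero] at h3; exact absurd h3.symm h4
      · exact h0
    refine ⟨hx1, hx2, h3, ?_, ?_⟩
    · intro h0
      apply hD
      rw [← h3, h0]
      exact ⟨g.1.2, rfl⟩
    · rw [← h3]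
      exact Nat.le_mul_of_pos_left _ hx1
  set u : (ℕ × ℕ) × ℕ → ℂ := fun g =>
    Complex.exp (-(2 * Real.pi * Complex.I * g.2 / (g.1.2 : ℕ))) with hu
  have bg : ∀ g ∈ TT D, ∀ y : ℝ, (D : ℝ) ≤ y →
      ‖J (act g (y * Complex.I)) - ex (2 * Real.pi * y * ((g.1.1 : ℝ) / g.1.2)) * u g‖ ≤ C := by
    intro g hg y hy
    obtain ⟨m1, m2, m3, m4, m5⟩ := mem g hg
    have m2' : (0:ℝ) < g.1.2 := by exact_mod_cast m2
    have m2c : (g.1.2 : ℂ) ≠ 0 := by exact_mod_cast m2.ne'
    have h2 : act g (y * Complex.I) = ((g.2 : ℝ) / g.1.2 : ℝ) +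
        ((g.1.1 : ℝ) / g.1.2 * y : ℝ) * Complex.I := by
      unfold act
      push_cast
      field_simp
      ring
    have h3 : (1:ℝ) / 2 ≤ (act g (y * Complex.I)).im := by
      rw [h2]
      simp only [Complex.add_im, Complex.ofReal_im, Complex.mul_im, Complex.ofReal_re,
        Complex.I_im, mul_one, Complex.I_re, mul_zero, add_zero, zero_add]
      have h4 : (1:ℝ) ≤ g.1.1 := by exact_mod_cast m1
      have h5 : (g.1.2 : ℝ) ≤ y := le_trans (by exact_mod_cast m5) hy
      have h6 : (1:ℝ) ≤ (g.1.1 : ℝ) / g.1.2 * y := by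
        rw [div_mul_eq_mul_div, one_le_div m2']
        nlinarith
      linarith
    have h4 := (hJ _ h3).2
    have h5 : Complex.exp (-(2 * Real.pi * Complex.I * act g (y * Complex.I))) =
        ex (2 * Real.pi * y * ((g.1.1 : ℝ) / g.1.2)) * u g := by
      rw [h2]
      unfold ex
      rw [hu, Complex.ofReal_exp, ← Complex.exp_add]
      congr 1
      push_cast
      field_simp
      linear_combination (-((g.1.1 : ℂ) * y)) * Complex.I_sq
    rw [h5] at h4
    exact h4
  -- limits of the factors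
  have fac : ∀ g ∈ TT D, Tendsto (fun y : ℝ => (h0 y - J (act g (y * Complex.I))) *
      ex (-(2 * Real.pi * y * ss g.1))) atTop (𝓝 (if D < g.1.1 ^ 2 then - u g else 1)) := by
    intro g hg
    obtain ⟨m1, m2, m3, m4, m5⟩ := mem g hg
    have m2' : (0:ℝ) < g.1.2 := by exact_mod_cast m2
    have hs1 : 1 ≤ ss g.1 := le_max_left _ _
    have hs2 : (g.1.1 : ℝ) / g.1.2 ≤ ss g.1 := le_max_right _ _
    have h2 := (l0 _ hs1).sub (lim_ (by linarith) hs2 (bg g hg))
    have h3 : ((if 1 = ss g.1 then (1:ℂ) else 0) - (if (g.1.1 : ℝ) / g.1.2 = ss g.1 then u g else 0))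
        = if D < g.1.1 ^ 2 then - u g else 1 := by
      rcases lt_or_gt_of_ne m4 with hlt | hlt
      · have h4 : ¬ D < g.1.1 ^ 2 := by
          rw [← m3]
          have : g.1.1 ^ 2 ≤ g.1.1 * g.1.2 := by nlinarith
          omega
        have h5 : (g.1.1 : ℝ) / g.1.2 < 1 := by
          rw [div_lt_one m2']
          exact_mod_cast hlt
        have h6 : ss g.1 = 1 := max_eq_left h5.le
        rw [h6, if_pos rfl, if_neg h5.ne, if_neg h4, sub_zero]
      · have h4 : D < g.1.1 ^ 2 := by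
          rw [← m3]
          nlinarith
        have h5 : 1 < (g.1.1 : ℝ) / g.1.2 := by
          rw [one_lt_div m2']
          exact_mod_cast hlt
        have h6 : ss g.1 = (g.1.1 : ℝ) / g.1.2 := max_eq_right h5.le
        rw [h6, if_pos rfl, if_neg h5.ne, if_pos h4, zero_sub]
    rw [h3] at h2
    refine h2.congr fun y => ?_
    ring
  -- the product
  have hprod := tendsto_finsetProd (TT D) fac
  have hlim : ∏ g ∈ TT D, (if D < g.1.1 ^ 2 then - u g else 1) = (-1 : ℂ) ^ kk D := by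
    rw [prod_TT]
    have h2 : ∀ x ∈ D.divisorsAntidiagonal, ∏ b ∈ Finset.range x.2,
        (if D < ((x, b) : (ℕ × ℕ) × ℕ).1.1 ^ 2 then - u (x, b) else 1) =
        if D < x.1 ^ 2 then (-1 : ℂ) else 1 := by
      intro x hx
      split_ifs with hc
      · obtain ⟨h3, h4⟩ := Nat.mem_divisorsAntidiagonal.1 hx
        have hx2 : x.2 ≠ 0 := by
          rintro h0
          rw [h0, mul_zero] at h3
          exact h4 h3.symm
        obtain ⟨k, hk⟩ := Nat.exists_eq_succ_of_ne_zero hx2
        have h5 := prod_root k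
        rw [hu]
        simp only []
        rw [hk]
        exact h5
      · simp
    rw [Finset.prod_congr rfl h2,
      Nat.prod_divisorsAntidiagonal (f := fun i _ => if D < i ^ 2 then (-1 : ℂ) else 1),
      ← Finset.prod_filter, Finset.prod_const, kk]
  rw [hlim] at hprod
  have hA : Tendsto (fun y : ℝ => aeval (h0 y) (diag F) *
      ex (-(2 * Real.pi * y * ((2 * ∑ e ∈ D.divisors.filter (fun e => D < e ^ 2), e : ℕ) : ℝ))))
      atTop (𝓝 ((-1 : ℂ) ^ kk D)) := by
    refine hprod.congr' ?_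
    filter_upwards [eventually_gt_atTop (0:ℝ)] with y hy
    rw [Finset.prod_mul_distrib, ex_sum]
    congr 1
    · rw [aeval_diag, hF.2 (y * Complex.I) (by simpa using hy), eval_prod]
      refine Finset.prod_congr rfl fun g _ => ?_
      rw [eval_sub, eval_X, eval_C]
    · congr 1
      rw [Finset.sum_neg_distrib, ← Finset.mul_sum, sum_ss D hD]
  have hB := poly_lim (diag F) h0 (by
    have := l0 1 le_rfl
    rw [if_pos rfl] at this
    exact this)
  have hne : ((-1 : ℂ) ^ kk D) ≠ 0 := pow_ne_zero _ (by norm_num)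
  have hP : diag F ≠ 0 := by
    intro h2
    rw [h2] at hA
    simp only [map_zero, zero_mul] at hA
    exact hne (tendsto_nhds_unique tendsto_const_nhds hA).symm
  have hlc : ((diag F).leadingCoeff : ℂ) ≠ 0 := by
    exact_mod_cast leadingCoeff_ne_zero.2 hP
  have e1 := cmp_ hne hB hA
  have e2 := cmp_ hlc hA hB
  have e3 := le_antisymm e2 e1
  refine ⟨e3, ?_⟩
  rw [← e3] at hA
  have h4 := tendsto_nhds_unique hB hA
  exact_mod_cast h4

end SSM
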