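import Pool.Agent.SSM.Targets

/-! MPI: existence of the modular polynomial. -/

open Polynomial

namespace SSM

namespace MPI_

/-- `f` is a rational polynomial in `J` -/
def Pq (f : ℂ → ℂ) : Prop := ∃ B : ℚ[X], ∀ z : ℂ, 0 < z.im → f z = aeval (J z) B

lemma Pq.mul {f g : ℂ → ℂ} (hf : Pq f) (hg : Pq g) : Pq (fun z => f z * g z) := by
  obtain ⟨B, hB⟩ := hf
  obtain ⟨D, hD⟩ := hg
  refine ⟨B * D, fun z hz => ?_⟩
  show f z * g z = _
  rw [map_mul, hB z hz, hD z hz]

lemma Pq.sum {ι : Type*} (s : Finset ι) {f : ι → ℂ → ℂ} (hf : ∀ i ∈ s, Pq (f i)) :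
    Pq (fun z => ∑ i ∈ s, f i z) := by
  classical
  induction s using Finset.induction_on with
  | empty => exact ⟨0, fun z _ => by simp⟩
  | insert i s hi ih =>
    obtain ⟨B, hB⟩ := hf i (Finset.mem_insert_self i s)
    obtain ⟨D, hD⟩ := ih fun j hj => hf j (Finset.mem_insert_of_mem hj)
    refine ⟨B + D, fun z hz => ?_⟩
    show ∑ j ∈ insert i s, f j z = _
    rw [map_add, Finset.sum_insert hi, hB z hz, ← hD z hz]

lemma Pq.const (q : ℚ) : Pq (fun _ => (q : ℂ)) :=
  ⟨C q, fun z _ => by simp⟩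

/-- polynomials with coefficients in `ZZ` -/
lemma lift_int (P : ℂ[X]) (h : ∀ n, ∃ a : ℤ, (a : ℂ) = P.coeff n) :
    ∃ Q : ℤ[X], Q.map (Int.castRingHom ℂ) = P := by
  have : P ∈ Polynomial.lifts (Int.castRingHom ℂ) := by
    rw [Polynomial.lifts_iff_coeff_lifts]
    intro n
    obtain ⟨a, ha⟩ := h n
    exact ⟨a, by simpa using ha⟩
  rwa [Polynomial.mem_lifts] at this

lemma aeval_of_map {Q : ℤ[X]} {P : ℂ[X]} (h : Q.map (Int.castRingHom ℂ) = P) (x : ℂ) :
    aeval x Q = P.eval x := by
  rw [← h, eval_map, aeval_def]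
  rfl

/-- the values -/
noncomputable def vals (m : ℕ) (z : ℂ) : Multiset ℂ := (TT m).val.map fun g => J (act g z)

lemma prod_eq (m : ℕ) (z : ℂ) : ∏ g ∈ TT m, (X - C (J (act g z))) =
    ((vals m z).map fun a => X - C a).prod := by
  unfold vals
  rw [Multiset.map_map]
  rfl

lemma card_vals (m : ℕ) (z : ℂ) : Multiset.card (vals m z) = (TT m).card := by
  unfold vals
  rw [Multiset.card_map]
  rfl

lemma psum_eq (m k : ℕ) (z : ℂ) :
    ∑ g ∈ TT m, J (act g z) ^ k = ((vals m z).map fun a => a ^ k).sum := by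
  unfold vals
  rw [Multiset.map_map]
  rfl

/-- Newton's identities for a multiset -/
lemma newton (s : Multiset ℂ) (k : ℕ) : (k : ℂ) * s.esymm k = (-1) ^ (k + 1) *
    ∑ a ∈ Finset.HasAntidiagonal.antidiagonal k with a.1 < k, (-1) ^ a.1 * s.esymm a.1 *
      (s.map fun t => t ^ a.2).sum := by
  classical
  obtain ⟨l, rfl⟩ := Quot.exists_rep s
  set f : Fin l.length → ℂ := fun i => l.get i with hf
  have h1 : (Finset.univ.val.map f : Multiset ℂ) = (l : Multiset ℂ) := by
    rw [hf]
    simp [Fin.univ_val_map]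
  have h := congrArg (MvPolynomial.aeval f)
    (MvPolynomial.mul_esymm_eq_sum (Fin l.length) ℤ k)
  simp only [map_mul, map_natCast, map_pow, map_neg, map_one, map_sum] at h
  simp only [MvPolynomial.aeval_esymm_eq_multiset_esymm, h1] at h
  have h2 : ∀ j : ℕ, MvPolynomial.aeval f (MvPolynomial.psum (Fin l.length) ℤ j) =
      ((l : Multiset ℂ).map fun t => t ^ j).sum := by
    intro j
    rw [← h1, Multiset.map_map, MvPolynomial.psum, map_sum]
    simp only [map_pow, MvPolynomial.aeval_X]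
    rfl
  simp only [h2] at h
  exact h

lemma esymm_Pq (m : ℕ) (hp : ∀ k, Pq (fun z => ((vals m z).map fun a => a ^ k).sum)) (k : ℕ) :
    Pq (fun z => (vals m z).esymm k) := by
  induction k using Nat.strong_induction_on with
  | _ k ih =>
    rcases Nat.eq_zero_or_pos k with hk | hk
    · subst hk
      refine ⟨1, fun z _ => ?_⟩
      simp [Multiset.esymm]
    · have hk0 : (k : ℂ) ≠ 0 := by exact_mod_cast hk.ne'
      have h : Pq (fun z => ((((k : ℚ)⁻¹ * (-1) ^ (k + 1) : ℚ)) : ℂ) *
          ∑ a ∈ (Finset.HasAntidiagonal.antidiagonal k).filter (fun a : ℕ × ℕ => a.1 < k),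
            (((-1) ^ a.1 : ℚ) : ℂ) * (vals m z).esymm a.1 *
            ((vals m z).map fun t => t ^ a.2).sum) := by
        refine (Pq.const _).mul (Pq.sum _ fun a ha => ?_)
        rw [Finset.mem_filter] at ha
        exact ((Pq.const _).mul (ih a.1 ha.2)).mul (hp a.2)
      obtain ⟨B, hB⟩ := h
      refine ⟨B, fun z hz => ?_⟩
      rw [← hB z hz]
      have hn := newton (vals m z) k
      have : (vals m z).esymm k = (k : ℂ)⁻¹ * ((k : ℂ) * (vals m z).esymm k) := by
        field_simp
      show (vals m z).esymm k = _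
      rw [this, hn]
      push_cast
      ring

end MPI_

open MPI_ in
theorem p_MPI (hESM : T_ESM) (hPSM : T_PSM) (hPOL : T_POL) (hJBD : T_JBD) (hPRM : T_PRM) :
    T_MPI := by
  intro m hm
  set n := (TT m).card with hn
  -- invariance under `-1/z`
  have hinv : ∀ z : ℂ, 0 < z.im → ((vals m (-1 / z)).map fun a => X - C a).prod =
      ((vals m z).map fun a => X - C a).prod := by
    intro z hz
    have h := hPRM m hm 0 (-1) 1 0 (by norm_num) z hz
    rw [← prod_eq, ← prod_eq, ← h]
    congr! 5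
    push_cast
    ring
  have hvals : ∀ z : ℂ, 0 < z.im → vals m (-1 / z) = vals m z := by
    intro z hz
    have h := congrArg Polynomial.roots (hinv z hz)
    rwa [Polynomial.roots_multiset_prod_X_sub_C, Polynomial.roots_multiset_prod_X_sub_C] at h
  -- power sums
  have hp : ∀ k, Pq (fun z => ((vals m z).map fun a => a ^ k).sum) := by
    intro k
    obtain ⟨N, hN⟩ := hPSM m k hm
    obtain ⟨P, hP, _, hP2⟩ := hPOL ZZ _ N hN (by
      intro z hz
      rw [psum_eq, psum_eq, hvals z hz])
    obtain ⟨Q, hQ⟩ := lift_int P (fun n => by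
      obtain ⟨a, ha⟩ := hP n
      exact ⟨a, by simpa using ha⟩)
    refine ⟨Q.map (Int.castRingHom ℚ), fun z hz => ?_⟩
    have h := hP2 z hz
    rw [psum_eq] at h
    show ((vals m z).map fun a => a ^ k).sum = _
    rw [h, ← aeval_of_map hQ, aeval_def, aeval_def, eval₂_map]
    congr 1
  have he := esymm_Pq m hp
  -- coefficients
  have hc : ∀ k, ∃ a : ℤ[X], ∀ z : ℂ, 0 < z.im →
      (∏ g ∈ TT m, (X - C (J (act g z)))).coeff k = aeval (J z) a := by
    intro k
    by_cases hk : k ≤ n
    · obtain ⟨N, hN⟩ := hESM m k hm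
      obtain ⟨P, hP, _, hP2⟩ := hPOL OO _ N hN (by
        intro z hz
        rw [prod_eq, prod_eq, hinv z hz])
      obtain ⟨B, hB'⟩ := he (n - k)
      have hB : ∀ z : ℂ, 0 < z.im → (vals m z).esymm (n - k) = aeval (J z) B := hB'
      -- `P` is rational
      have hPB : P = ((C ((-1) ^ (n - k)) * B).map (algebraMap ℚ ℂ)) := by
        rw [← sub_eq_zero]
        refine hJBD.2 0 _ fun z hz _ => ?_
        rw [eval_sub, ← hP2 z hz, prod_eq, Multiset.prod_X_sub_C_coeff _ (by
          rw [card_vals]; exact hk), card_vals, ← hn, hB z hz, eval_map_algebraMap, map_mul,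
          aeval_C]
        simp
      obtain ⟨Q, hQ⟩ := lift_int P (fun i => by
        have h1 : P.coeff i = algebraMap ℚ ℂ ((C ((-1) ^ (n - k)) * B).coeff i) := by
          conv_lhs => rw [hPB]
          rw [coeff_map]
        have h2 : IsIntegral ℤ (P.coeff i) := hP i
        rw [h1] at h2
        have h3 : IsIntegral ℤ ((C ((-1) ^ (n - k)) * B).coeff i) :=
          (isIntegral_algebraMap_iff (algebraMap ℚ ℂ).injective).1 h2
        obtain ⟨a, ha⟩ := IsIntegrallyClosed.isIntegral_iff.1 h3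
        refine ⟨a, ?_⟩
        rw [h1, ← ha]
        simp)
      exact ⟨Q, fun z hz => by rw [aeval_of_map hQ, ← hP2 z hz]⟩
    · refine ⟨0, fun z hz => ?_⟩
      rw [map_zero, prod_eq]
      apply coeff_eq_zero_of_natDegree_lt
      rw [natDegree_multiset_prod_X_sub_C_eq_card, card_vals]
      omega
  choose a ha using hc
  set F : ℤ[X][X] := X ^ n + ∑ k ∈ Finset.range n, C (a k) * X ^ k with hF
  have hdeg : (∑ k ∈ Finset.range n, C (a k) * X ^ k : ℤ[X][X]).degree < n := by
    rw [degree_lt_iff_coeff_zero]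
    intro i hi
    rw [finsetSum_coeff]
    refine Finset.sum_eq_zero fun k hk => ?_
    rw [coeff_C_mul_X_pow, if_neg]
    have := Finset.mem_range.1 hk
    omega
  refine ⟨F, monic_X_pow_add hdeg, fun z hz => ?_⟩
  ext k
  unfold inn
  rw [coeff_map, hF, coeff_add, coeff_X_pow, finsetSum_coeff]
  simp only [coeff_C_mul_X_pow]
  rw [Finset.sum_ite_eq]
  rcases lt_trichotomy k n with hk | hk | hk
  · rw [if_neg hk.ne, if_pos (Finset.mem_range.2 hk), zero_add, ha k z hz]
    rfl
  · subst hk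
    rw [if_pos rfl, if_neg (by simp), add_zero, map_one, prod_eq]
    have h1 : (((vals m z).map fun a => X - C a).prod).Monic :=
      monic_multiset_prod_of_monic _ _ fun a _ => monic_X_sub_C a
    have h2 := h1.coeff_natDegree
    rw [natDegree_multiset_prod_X_sub_C_eq_card, card_vals] at h2
    exact h2.symm
  · rw [if_neg hk.ne', if_neg (by simp; omega), add_zero, map_zero, prod_eq]
    symm
    apply coeff_eq_zero_of_natDegree_lt
    rw [natDegree_multiset_prod_X_sub_C_eq_card, card_vals]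
    exact hk

end SSM
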