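import Pool.Agent.SSM.Targets

/-!
# MP_d74fca_nt, part IV (job MUL): multiplicity of `J t` as a root of `F_D(X, X)`
-/

open Polynomial Filter Topology

namespace SSM

namespace MUL_

/-- analytic order of a nonzero polynomial -/
theorem order_poly (A : ℂ[X]) (hA : A ≠ 0) (x : ℂ) :
    analyticOrderAt (fun z => A.eval z) x = A.rootMultiplicity x := by
  obtain ⟨B, hB, hBx⟩ := Polynomial.exists_eq_pow_rootMultiplicity_mul_and_not_dvd A hA x
  have hBx' : B.eval x ≠ 0 := by
    intro h
    exact hBx (Polynomial.dvd_iff_isRoot.mpr h)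
  set n := A.rootMultiplicity x with hn
  have h1 : (fun z : ℂ => A.eval z) = (fun z : ℂ => (z - x)) ^ n * (fun z : ℂ => B.eval z) := by
    funext z
    conv_lhs => rw [hB]
    simp
  have haB : AnalyticAt ℂ (fun z : ℂ => B.eval z) x :=
    (Polynomial.differentiable B).analyticAt x
  have hal : AnalyticAt ℂ (fun z : ℂ => z - x) x := by fun_prop
  rw [h1, analyticOrderAt_mul (hal.pow n) haB, analyticOrderAt_pow hal,
    haB.analyticOrderAt_eq_zero.mpr hBx']
  have h2 : analyticOrderAt (fun z : ℂ => z - x) x = 1 := by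
    apply AnalyticAt.analyticOrderAt_eq_one_of_zero_deriv_ne_zero hal (by simp)
    simp
  rw [h2]
  simp

/-- analytic order of a finite product -/
theorem order_prod {ι : Type} (s : Finset ι) (f : ι → ℂ → ℂ) (t : ℂ)
    (h : ∀ i ∈ s, AnalyticAt ℂ (f i) t) :
    analyticOrderAt (fun z => ∏ i ∈ s, f i z) t = ∑ i ∈ s, analyticOrderAt (f i) t := by
  classical
  induction s using Finset.induction_on with
  | empty =>
    simp only [Finset.prod_empty, Finset.sum_empty]
    rw [AnalyticAt.analyticOrderAt_eq_zero analyticAt_const]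
    exact one_ne_zero
  | insert a s ha ih =>
    have h1 : (fun z => ∏ i ∈ insert a s, f i z) = f a * (fun z => ∏ i ∈ s, f i z) := by
      funext z
      rw [Finset.prod_insert ha]
      rfl
    have h2 : AnalyticAt ℂ (fun z => ∏ i ∈ s, f i z) t :=
      Finset.analyticAt_fun_prod s (fun i hi => h i (Finset.mem_insert_of_mem hi))
    rw [h1, analyticOrderAt_mul (h a (Finset.mem_insert_self a s)) h2, Finset.sum_insert ha,
      ih (fun i hi => h i (Finset.mem_insert_of_mem hi))]

theorem TT_pos (D : ℕ) (a d b : ℕ) (hg : ((a, d), b) ∈ TT D) : 0 < a ∧ 0 < d ∧ a * d = D := by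
  simp only [TT, Finset.mem_filter, Finset.mem_product, Nat.mem_divisorsAntidiagonal,
    Finset.mem_range] at hg
  obtain ⟨⟨⟨h1, h2⟩, h3⟩, h4⟩ := hg
  exact ⟨Nat.pos_of_ne_zero (by rintro rfl; simp at h1; exact h2 h1.symm),
    Nat.pos_of_ne_zero (by rintro rfl; simp at h1; exact h2 h1.symm), h1⟩

theorem act_eq (a d b : ℕ) (hd : 0 < d) (z : ℂ) :
    act ((a, d), b) z = (((a : ℝ) / d : ℝ) : ℂ) * z + (((b : ℝ) / d : ℝ) : ℂ) := by
  simp only [act]
  push_cast
  field_simp

theorem act_im_eq (a d b : ℕ) (hd : 0 < d) (z : ℂ) :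
    (act ((a, d), b) z).im = ((a : ℝ) / d) * z.im := by
  rw [act_eq a d b hd, Complex.add_im, Complex.im_ofReal_mul, Complex.ofReal_im, add_zero]

theorem act_im (D : ℕ) (g : (ℕ × ℕ) × ℕ) (hg : g ∈ TT D) (z : ℂ) (hz : 0 < z.im) :
    0 < (act g z).im := by
  obtain ⟨⟨a, d⟩, b⟩ := g
  obtain ⟨ha, hd, -⟩ := TT_pos D a d b hg
  rw [act_im_eq a d b hd]
  positivity

theorem act_deriv (a d b : ℕ) (hd : 0 < d) (z : ℂ) :
    HasDerivAt (act ((a, d), b)) (((a : ℝ) / d : ℝ) : ℂ) z := by
  have h1 : act ((a, d), b) =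
      fun z => (((a : ℝ) / d : ℝ) : ℂ) * z + (((b : ℝ) / d : ℝ) : ℂ) := by
    funext z
    exact act_eq a d b hd z
  rw [h1]
  simpa using ((hasDerivAt_id z).const_mul (((a : ℝ) / d : ℝ) : ℂ)).add_const
    (((b : ℝ) / d : ℝ) : ℂ)

theorem J_an (h_INV : T_INV) (z : ℂ) (hz : 0 < z.im) : AnalyticAt ℂ J z :=
  h_INV.1.analyticAt ((isOpen_lt continuous_const Complex.continuous_im).mem_nhds hz)

theorem factor_deriv (h_INV : T_INV) (h_INJ : T_INJ) (h_DER : T_DER) (D : ℕ)
    (hsq : ¬ IsSquare D) (g : (ℕ × ℕ) × ℕ) (hg : g ∈ TT D) (t : ℂ) (ht : 0 < t.im)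
    (h0 : J t ≠ 0) (h1 : J t ≠ 1728) (hgt : J (act g t) = J t) :
    deriv (fun z => J z - J (act g z)) t ≠ 0 := by
  have hw := act_im D g hg t ht
  obtain ⟨a', b', c', d', hdet, htw⟩ := h_INJ (act g t) t hw ht hgt
  obtain ⟨⟨a, d⟩, b⟩ := g
  obtain ⟨ha, hd, had⟩ := TT_pos D a d b hg
  set w := act ((a, d), b) t with hwd
  obtain ⟨-, hu0, -⟩ := h_INV.2.1 a' b' c' d' hdet w hw
  set u : ℂ := (c' : ℂ) * w + d' with hu
  have hwim : w.im = ((a : ℝ) / d) * t.im := act_im_eq a d b hd t
  -- derivative of `σ` at `w`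
  have hσ : HasDerivAt (fun z : ℂ => ((a' : ℂ) * z + b') / ((c' : ℂ) * z + d')) (1 / u ^ 2) w := by
    have e1 : HasDerivAt (fun z : ℂ => (a' : ℂ) * z + b') (a' : ℂ) w := by
      simpa using ((hasDerivAt_id w).const_mul (a' : ℂ)).add_const (b' : ℂ)
    have e2 : HasDerivAt (fun z : ℂ => (c' : ℂ) * z + d') (c' : ℂ) w := by
      simpa using ((hasDerivAt_id w).const_mul (c' : ℂ)).add_const (d' : ℂ)
    have e3 := e1.div e2 hu0
    have e4 : (a' : ℂ) * d' - b' * c' = 1 := by exact_mod_cast hdet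
    have e5 : ((a' : ℂ) * (c' * w + d') - (a' * w + b') * c') / ((c' : ℂ) * w + d') ^ 2 =
        1 / u ^ 2 := by
      rw [← hu]
      congr 1
      rw [hu]
      linear_combination e4
    rw [← e5]
    exact e3
  have hJt : HasDerivAt J (deriv J t) t := (J_an h_INV t ht).differentiableAt.hasDerivAt
  have hJw : HasDerivAt J (deriv J w) w := (J_an h_INV w hw).differentiableAt.hasDerivAt
  have hcomp : HasDerivAt (fun z : ℂ => J (((a' : ℂ) * z + b') / ((c' : ℂ) * z + d')))
      (deriv J t * (1 / u ^ 2)) w := by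
    have hJt' : HasDerivAt J (deriv J t) (((a' : ℂ) * w + b') / ((c' : ℂ) * w + d')) := by
      rw [← htw]; exact hJt
    exact HasDerivAt.comp w hJt' hσ
  have hev : (fun z : ℂ => J (((a' : ℂ) * z + b') / ((c' : ℂ) * z + d'))) =ᶠ[𝓝 w] J := by
    filter_upwards [(isOpen_lt continuous_const Complex.continuous_im).mem_nhds hw] with z hz
    exact (h_INV.2.1 a' b' c' d' hdet z hz).2.2
  have hJw' : deriv J w = deriv J t * (1 / u ^ 2) :=
    hJw.unique (hcomp.congr_of_eventuallyEq hev.symm)
  have hfac : HasDerivAt (fun z => J (act ((a, d), b) z))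
      (deriv J w * (((a : ℝ) / d : ℝ) : ℂ)) t := by
    have hJw2 : HasDerivAt J (deriv J w) (act ((a, d), b) t) := hJw
    exact HasDerivAt.comp t hJw2 (act_deriv a d b hd t)
  have htot := hJt.sub hfac
  rw [show (fun z => J z - J (act ((a, d), b) z)) = J - (fun z => J (act ((a, d), b) z)) from rfl,
    htot.deriv, hJw']
  -- the imaginary parts
  have him : t.im * Complex.normSq u = w.im := by
    have e1 : t * u = (a' : ℂ) * w + b' := by
      rw [htw]
      field_simp
    have e2 : t * (u * starRingEnd ℂ u) = ((a' : ℂ) * w + b') * starRingEnd ℂ u := by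
      rw [← e1]; ring
    rw [Complex.mul_conj] at e2
    have e3 := congrArg Complex.im e2
    rw [Complex.im_mul_ofReal, Complex.mul_im] at e3
    rw [e3]
    have e4 : (a' : ℝ) * d' - b' * c' = 1 := by exact_mod_cast hdet
    simp only [hu, map_add, map_mul, Complex.add_re, Complex.add_im, Complex.mul_re,
      Complex.mul_im, Complex.intCast_re, Complex.intCast_im, Complex.conj_re, Complex.conj_im,
      map_intCast]
    linear_combination w.im * e4
  have hnorm : Complex.normSq u = (a : ℝ) / d := by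
    rw [hwim] at him
    have : t.im * (Complex.normSq u - (a : ℝ) / d) = 0 := by linarith
    rcases mul_eq_zero.mp this with h | h
    · exact absurd h ht.ne'
    · linarith
  intro hzero
  have hzero' : deriv J t * (1 - (((a : ℝ) / d : ℝ) : ℂ) / u ^ 2) = 0 := by
    rw [← hzero]; ring
  rcases mul_eq_zero.mp hzero' with h | h
  · exact h_DER t ht h0 h1 h
  · have hu2 : u ^ 2 = ((Complex.normSq u : ℝ) : ℂ) := by
      rw [hnorm]
      have h3 : (((a : ℝ) / d : ℝ) : ℂ) / u ^ 2 = 1 := (sub_eq_zero.mp h).symm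
      rw [div_eq_one_iff_eq (pow_ne_zero 2 hu0)] at h3
      exact h3.symm
    rw [← Complex.mul_conj] at hu2
    have hu3 : u = starRingEnd ℂ u := by
      have : u * (u - starRingEnd ℂ u) = 0 := by linear_combination hu2
      rcases mul_eq_zero.mp this with h | h
      · exact absurd h hu0
      · exact sub_eq_zero.mp h
    have hu4 : u.im = 0 := by
      have := Complex.conj_eq_iff_im.mp hu3.symm
      exact this
    have hc : (c' : ℝ) * w.im = 0 := by
      rw [← hu4, hu]
      simp
    have hc0 : c' = 0 := by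
      rcases mul_eq_zero.mp hc with h | h
      · exact_mod_cast h
      · exact absurd h hw.ne'
    subst hc0
    have hd1 : d' = 1 ∨ d' = -1 := by
      have h5 : a' * d' = 1 := by linarith
      exact Int.eq_one_or_neg_one_of_mul_eq_one (by rw [mul_comm]; exact h5)
    have hn1 : Complex.normSq u = 1 := by
      rw [hu]
      rcases hd1 with h | h <;> simp [h]
    rw [hn1] at hnorm
    have h6 : (a : ℝ) = d := by
      field_simp at hnorm
      exact hnorm.symm
    have h7 : a = d := by exact_mod_cast h6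
    apply hsq
    rw [← had, h7]
    exact ⟨d, rfl⟩

end MUL_

theorem p_MUL (h_INV : T_INV) (h_INJ : T_INJ) (h_DER : T_DER) : T_MUL := by
  classical
  intro D F t hD hsq hF ht h0 h1
  set A : ℂ[X] := (diag F).map (Int.castRingHom ℂ) with hA
  have hval : ∀ z : ℂ, 0 < z.im → A.eval (J z) = ∏ g ∈ TT D, (J z - J (act g z)) := by
    intro z hz
    have e1 : A.eval (J z) = (inn (J z) F).eval (J z) := by
      rw [hA, diag, inn, Polynomial.eval_map, Polynomial.eval_map]
      have e2 : (aeval (J z) : ℤ[X] →ₐ[ℤ] ℂ).toRingHom (F.eval X) =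
          F.eval₂ (aeval (J z) : ℤ[X] →ₐ[ℤ] ℂ).toRingHom
            ((aeval (J z) : ℤ[X] →ₐ[ℤ] ℂ).toRingHom X) := by
        rw [Polynomial.eval₂_hom]
      have e3 : (aeval (J z) : ℤ[X] →ₐ[ℤ] ℂ).toRingHom X = J z := by simp
      rw [e3] at e2
      rw [← e2]
      simp [Polynomial.aeval_def]
    rw [e1, hF.2 z hz, Polynomial.eval_prod]
    simp
  have hJa := MUL_.J_an h_INV t ht
  have hfa : ∀ g ∈ TT D, AnalyticAt ℂ (fun z => J z - J (act g z)) t := by
    intro g hg
    refine hJa.sub ?_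
    have e1 : AnalyticAt ℂ (act g) t := by
      unfold act
      fun_prop
    exact AnalyticAt.fun_comp (MUL_.J_an h_INV _ (MUL_.act_im D g hg t ht)) e1
  have hord : ∀ g ∈ TT D, analyticOrderAt (fun z => J z - J (act g z)) t =
      if J (act g t) = J t then 1 else 0 := by
    intro g hg
    split_ifs with h
    · exact (hfa g hg).analyticOrderAt_eq_one_of_zero_deriv_ne_zero (by simp [h])
        (MUL_.factor_deriv h_INV h_INJ h_DER D hsq g hg t ht h0 h1 h)
    · rw [(hfa g hg).analyticOrderAt_eq_zero]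
      exact sub_ne_zero.mpr (fun h' => h h'.symm)
  have hright : analyticOrderAt (fun z => ∏ g ∈ TT D, (J z - J (act g z))) t =
      (({g ∈ TT D | J (act g t) = J t}.card : ℕ) : ℕ∞) := by
    rw [MUL_.order_prod (TT D) (fun g z => J z - J (act g z)) t hfa,
      Finset.sum_congr rfl hord, Finset.sum_ite]
    simp
  have hcong : (fun z => A.eval (J z)) =ᶠ[𝓝 t] (fun z => ∏ g ∈ TT D, (J z - J (act g z))) := by
    filter_upwards [(isOpen_lt continuous_const Complex.continuous_im).mem_nhds ht] with z hz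
    exact hval z hz
  have hleft : analyticOrderAt (fun z => A.eval (J z)) t =
      (({g ∈ TT D | J (act g t) = J t}.card : ℕ) : ℕ∞) := by
    rw [analyticOrderAt_congr hcong, hright]
  have hA0 : A ≠ 0 := by
    intro h
    rw [h] at hleft
    have : analyticOrderAt (fun z : ℂ => (0 : ℂ[X]).eval (J z)) t = ⊤ := by
      rw [analyticOrderAt_eq_top]
      exact Filter.Eventually.of_forall (fun z => by simp)
    rw [this] at hleft
    exact ENat.natCast_ne_top _ hleft.symm
  have hApoly : AnalyticAt ℂ (fun z : ℂ => A.eval z) (J t) :=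
    (Polynomial.differentiable A).analyticAt (J t)
  have hcomp := AnalyticAt.analyticOrderAt_comp (f := fun z : ℂ => A.eval z) (g := J) (z₀ := t)
    hApoly hJa
  rw [hJa.analyticOrderAt_sub_eq_one_of_deriv_ne_zero (h_DER t ht h0 h1), mul_one,
    MUL_.order_poly A hA0 (J t)] at hcomp
  have hcomp' : analyticOrderAt (fun z => A.eval (J z)) t =
      ((A.rootMultiplicity (J t) : ℕ) : ℕ∞) := hcomp
  rw [hleft] at hcomp'
  exact_mod_cast hcomp'.symm

end SSM
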