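import Pool.Agent.SSM.Targets

/-!
# MP_d74fca_nt, part IV: NVN, at most one `P_D` vanishes at a given point
-/

set_option autoImplicit false

open Polynomial

namespace SSM

namespace NVN_

theorem sqfree_unique {A B D D' : ℕ} (hA : A ≠ 0) (hB : B ≠ 0) (hD : Squarefree D)
    (hD' : Squarefree D') (h : A ^ 2 * D = B ^ 2 * D') : D = D' := by
  have hD0 : D ≠ 0 := by
    rintro rfl
    exact not_squarefree_zero hD
  have hD0' : D' ≠ 0 := by
    rintro rfl
    exact not_squarefree_zero hD'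
  apply Nat.eq_of_factorization_eq hD0 hD0'
  intro p
  have h1 := congrArg (fun n => n.factorization p) h
  rw [Nat.factorization_mul (pow_ne_zero 2 hA) hD0, Nat.factorization_mul (pow_ne_zero 2 hB) hD0',
    Nat.factorization_pow, Nat.factorization_pow] at h1
  simp only [Finsupp.coe_add, Finsupp.coe_smul, Pi.add_apply, Pi.smul_apply, smul_eq_mul] at h1
  have h2 := (Nat.squarefree_iff_factorization_le_one hD0).1 hD p
  have h3 := (Nat.squarefree_iff_factorization_le_one hD0').1 hD' p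
  omega

theorem real_lin {t : ℂ} (ht : 0 < t.im) {u v : ℤ} (h : (u : ℂ) * t + v = 0) : u = 0 ∧ v = 0 := by
  have h1 : ((u : ℂ) * t + v).im = 0 := by rw [h, Complex.zero_im]
  have h2 : (u : ℝ) * t.im = 0 := by
    simpa [Complex.add_im, Complex.mul_im] using h1
  have h3 : u = 0 := by
    rcases mul_eq_zero.1 h2 with h4 | h4
    · exact_mod_cast h4
    · exact absurd h4 ht.ne'
  refine ⟨h3, ?_⟩
  rw [h3] at h
  simpa using h

end NVN_

open NVN_ in
theorem p_NVN (hINJ : T_INJ) : T_NVN := by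
  intro x D D' P P' hD hD' hP hP' hx hx'
  obtain ⟨t, ⟨ht, α, β, γ, hα, hdet, hq⟩, hJ⟩ := (hP.roots x).1 hx
  obtain ⟨t', ⟨ht', α', β', γ', hα', hdet', hq'⟩, hJ'⟩ := (hP'.roots x).1 hx'
  obtain ⟨a, b, c, d, hdet0, hw⟩ := hINJ t t' ht ht' (hJ.trans hJ'.symm)
  have hcd : (c : ℂ) * t + d ≠ 0 := by
    intro h
    obtain ⟨rfl, rfl⟩ := real_lin ht h
    simp at hdet0
  have hw' : t' * ((c : ℂ) * t + d) = a * t + b := by
    rw [hw, div_mul_cancel₀ _ hcd]
  set A : ℤ := α' * a ^ 2 + 2 * β' * a * c + γ' * c ^ 2 with hAdef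
  set B : ℤ := α' * a * b + β' * (a * d + b * c) + γ' * c * d with hBdef
  set C' : ℤ := α' * b ^ 2 + 2 * β' * b * d + γ' * d ^ 2 with hCdef
  have h1 : (A : ℂ) * t ^ 2 + 2 * B * t + C' = 0 := by
    have h2 : ((α' : ℂ) * t' ^ 2 + 2 * β' * t' + γ') * ((c : ℂ) * t + d) ^ 2 = 0 := by
      rw [hq', zero_mul]
    have h3 : ((α' : ℂ) * t' ^ 2 + 2 * β' * t' + γ') * ((c : ℂ) * t + d) ^ 2 =
        α' * (t' * ((c : ℂ) * t + d)) ^ 2 + 2 * β' * (t' * ((c : ℂ) * t + d)) * ((c : ℂ) * t + d) +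
          γ' * ((c : ℂ) * t + d) ^ 2 := by ring
    rw [h3, hw'] at h2
    rw [← h2, hAdef, hBdef, hCdef]
    push_cast
    ring
  have h2 : A * C' - B ^ 2 = D' := by
    rw [← hdet']
    have h3 : A * C' - B ^ 2 = (α' * γ' - β' ^ 2) * (a * d - b * c) ^ 2 := by
      rw [hAdef, hBdef, hCdef]
      ring
    rw [h3, hdet0]
    ring
  have h3 : ((2 * (A * β - α * B) : ℤ) : ℂ) * t + ((A * γ - α * C' : ℤ) : ℂ) = 0 := by
    have h4 : (A : ℂ) * ((α : ℂ) * t ^ 2 + 2 * β * t + γ) -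
        α * ((A : ℂ) * t ^ 2 + 2 * B * t + C') = 0 := by
      rw [hq, h1]
      ring
    rw [← h4]
    push_cast
    ring
  obtain ⟨h4, h5⟩ := real_lin ht h3
  have h6 : A * β = α * B := by omega
  have h7 : A * γ = α * C' := by omega
  have h8 : A ^ 2 * (D : ℤ) = α ^ 2 * (D' : ℤ) := by
    rw [← hdet, ← h2]
    have h9 : A ^ 2 * (α * γ - β ^ 2) = α * A * (A * γ) - (A * β) ^ 2 := by ring
    rw [h9, h7, h6]
    ring
  have hD0' : D' ≠ 0 := by
    rintro rfl
    exact not_squarefree_zero hD'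
  have hA0 : A ≠ 0 := by
    intro h
    rw [h] at h2
    have h9 : (0 : ℤ) < D' := by omega
    nlinarith [sq_nonneg B]
  apply sqfree_unique (A := A.natAbs) (B := α.natAbs) (Int.natAbs_ne_zero.2 hA0)
    (Int.natAbs_ne_zero.2 hα.ne') hD hD'
  zify
  rw [sq_abs, sq_abs]
  exact h8

end SSM
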