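import Pool.Agent.SSM.Targets

/-!
# MP_d74fca_nt, part IV: output (OUT)
-/

open Polynomial

namespace SSM

lemma OUT_hvF {F : Type*} [Field F] (A : F[X]) (n : ℕ) (hn : A.natDegree ≤ n) (r s : F)
    (hs : s ≠ 0) :
    ∑ i ∈ Finset.range (n + 1), A.coeff i * r ^ i * s ^ (n - i) = s ^ n * A.eval (r / s) := by
  rw [Polynomial.eval_eq_sum_range' (Nat.lt_succ_of_le hn), Finset.mul_sum]
  refine Finset.sum_congr rfl fun i hi => ?_
  have hi' : i ≤ n := Nat.lt_succ_iff.mp (Finset.mem_range.mp hi)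
  have h1 : s ^ n = s ^ (n - i) * s ^ i := by
    rw [← pow_add]
    congr 1
    omega
  rw [div_pow, h1]
  field_simp

/-- the value modulo a prime is a square -/
lemma OUT_sq {F : Type*} [Field F] (S : F[X]) (n : ℕ) (hn : (S ^ 2).natDegree = n) (r s : F) :
    ∃ x : F, ∑ i ∈ Finset.range (n + 1), (S ^ 2).coeff i * r ^ i * s ^ (n - i) = x ^ 2 := by
  have hdeg : n = 2 * S.natDegree := by rw [← hn, natDegree_pow]
  by_cases hs : s = 0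
  · refine ⟨S.leadingCoeff * r ^ S.natDegree, ?_⟩
    rw [Finset.sum_eq_single n]
    · have h1 : (S ^ 2).coeff n = S.leadingCoeff ^ 2 := by
        rw [← hn, coeff_natDegree, leadingCoeff_pow]
      rw [h1, Nat.sub_self, pow_zero, hdeg]
      ring
    · intro i hi hin
      have hi' : i ≤ n := Nat.lt_succ_iff.mp (Finset.mem_range.mp hi)
      rw [hs, zero_pow (by omega), mul_zero]
    · intro h
      exact absurd (Finset.mem_range.mpr (Nat.lt_succ_self n)) h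
  · refine ⟨s ^ S.natDegree * S.eval (r / s), ?_⟩
    rw [OUT_hvF _ n hn.le r s hs, eval_pow, hdeg]
    ring

lemma OUT_hvR (Q : ℤ[X]) (r s : ℤ) (hs : s ≠ 0) :
    ((SSP.hv Q r s : ℤ) : ℝ) = (s : ℝ) ^ Q.natDegree * aeval ((r : ℝ) / s) Q := by
  have hs' : (s : ℝ) ≠ 0 := by exact_mod_cast hs
  have h := OUT_hvF (Q.map (Int.castRingHom ℝ)) Q.natDegree natDegree_map_le (r : ℝ) s hs'
  have e : ((SSP.hv Q r s : ℤ) : ℝ) = ∑ i ∈ Finset.range (Q.natDegree + 1),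
      (Q.map (Int.castRingHom ℝ)).coeff i * (r : ℝ) ^ i * (s : ℝ) ^ (Q.natDegree - i) := by
    unfold SSP.hv
    push_cast
    refine Finset.sum_congr rfl fun i _ => ?_
    rw [coeff_map]
    simp
  rw [e, h, eval_map, aeval_def]
  rfl

lemma OUT_hvZ (Q : ℤ[X]) (hQ : Q.Monic) (r s : ℤ) (ℓ : ℕ) (hℓ : ℓ.Prime) (S : (ZMod ℓ)[X])
    (hS : Q.map (Int.castRingHom (ZMod ℓ)) = S ^ 2) :
    ∃ x : ZMod ℓ, ((SSP.hv Q r s : ℤ) : ZMod ℓ) = x ^ 2 := by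
  have : Fact ℓ.Prime := ⟨hℓ⟩
  have hn : (S ^ 2).natDegree = Q.natDegree := by
    rw [← hS]
    exact hQ.natDegree_map _
  obtain ⟨x, hx⟩ := OUT_sq S Q.natDegree hn (r : ZMod ℓ) (s : ZMod ℓ)
  refine ⟨x, ?_⟩
  rw [← hx, ← hS]
  unfold SSP.hv
  push_cast
  refine Finset.sum_congr rfl fun i _ => ?_
  rw [coeff_map]
  simp

theorem p_OUT (h_CMP : T_CMP) (h_PSG : T_PSG) (h_NVN : T_NVN) (h_SIZ : T_SIZ) (h_JAC : T_JAC) :
    T_OUT := by
  intro r s hs hrs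
  have hs' : (s : ℝ) ≠ 0 := by exact_mod_cast hs
  have hx : (r : ℝ) / s ≠ 1728 := by
    intro h
    rw [div_eq_iff hs'] at h
    exact hrs (by exact_mod_cast h)
  obtain ⟨B, ρ, hρ, hP⟩ := h_PSG ((r : ℝ) / s) hx
  refine ⟨B, ρ, hρ, ?_⟩
  intro ε hε
  obtain ⟨D₁, hD₁⟩ := h_SIZ ((r : ℝ) / s) (ε / 2) (by linarith)
  -- the exceptional discriminant
  obtain ⟨D₂, hD₂⟩ : ∃ D₂ : ℕ, ∀ (D : ℕ) (P : ℤ[X]), D₂ ≤ D → Squarefree D → IsPD D P →
      aeval (((r : ℝ) / s : ℝ) : ℂ) P ≠ 0 := by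
    by_cases hex : ∃ (D : ℕ) (P : ℤ[X]), Squarefree D ∧ IsPD D P ∧
        aeval (((r : ℝ) / s : ℝ) : ℂ) P = 0
    · obtain ⟨D, P, h1, h2, h3⟩ := hex
      refine ⟨D + 1, ?_⟩
      intro D' P' hD' h1' h2' h3'
      have := h_NVN _ D D' P P' h1 h1' h2 h2' h3 h3'
      omega
    · refine ⟨0, ?_⟩
      intro D P _ h1 h2 h3
      exact hex ⟨D, P, h1, h2, h3⟩
  -- the size
  obtain ⟨D₃, hD₃⟩ : ∃ D₃ : ℕ, ∀ D : ℕ, D₃ ≤ D →
      (D : ℝ) ^ (1 / 2 + ε / 2) * (1 + Real.log |(s : ℝ)|) ≤ (D : ℝ) ^ (1 / 2 + ε) := by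
    have h1 : Filter.Tendsto (fun D : ℕ => (D : ℝ) ^ (ε / 2)) Filter.atTop Filter.atTop :=
      (tendsto_rpow_atTop (by linarith)).comp tendsto_natCast_atTop_atTop
    obtain ⟨D₃, h3⟩ := Filter.eventually_atTop.mp
      (h1.eventually_ge_atTop (1 + Real.log |(s : ℝ)|))
    refine ⟨D₃ + 1, ?_⟩
    intro D hD
    have hDpos : (0 : ℝ) < D := by
      have : 0 < D := by omega
      exact_mod_cast this
    have h4 := h3 D (by omega)
    have h5 : (D : ℝ) ^ (1 / 2 + ε) = (D : ℝ) ^ (1 / 2 + ε / 2) * (D : ℝ) ^ (ε / 2) := by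
      rw [← Real.rpow_add hDpos]
      congr 1
      ring
    rw [h5]
    exact mul_le_mul_of_nonneg_left h4 (Real.rpow_nonneg hDpos.le _)
  refine ⟨max D₁ (max D₂ D₃), ?_⟩
  intro D hD hAdm
  have hDD₁ : D₁ ≤ D := le_trans (le_max_left _ _) hD
  have hDD₂ : D₂ ≤ D := le_trans (le_trans (le_max_left _ _) (le_max_right _ _)) hD
  have hDD₃ : D₃ ≤ D := le_trans (le_trans (le_max_right _ _) (le_max_right _ _)) hD
  obtain ⟨hsq, h24, _⟩ := id hAdm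
  obtain ⟨Q, hQ⟩ := h_CMP D hsq h24
  have hroot : aeval (((r : ℝ) / s : ℝ) : ℂ) Q ≠ 0 := hD₂ D Q hDD₂ hsq hQ
  have hrootR : aeval ((r : ℝ) / s) Q ≠ 0 := by
    intro h
    apply hroot
    have h2 : aeval (((r : ℝ) / s : ℝ) : ℂ) Q = ((aeval ((r : ℝ) / s) Q : ℝ) : ℂ) := by
      rw [← Complex.coe_algebraMap, aeval_algebraMap_apply]
    rw [h2, h]
    simp
  have hneg : aeval ((r : ℝ) / s) Q < 0 := lt_of_le_of_ne (hP D Q hAdm hQ) hrootR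
  have hspos : 0 < (s : ℝ) ^ Q.natDegree := hQ.even.pow_pos hs'
  have hvR := OUT_hvR Q r s hs
  have hvneg : SSP.hv Q r s < 0 := by
    have : ((SSP.hv Q r s : ℤ) : ℝ) < 0 := by
      rw [hvR]
      exact mul_neg_of_pos_of_neg hspos hneg
    exact_mod_cast this
  refine ⟨Q, hQ.monic, hQ.pos, ?_, ne_of_lt hvneg, ?_, ?_⟩
  · intro x hx
    obtain ⟨h1, h2⟩ := hQ.nz x hx
    exact ⟨h1, h2, (hQ.roots x).mp hx⟩
  · obtain ⟨hs1, hs2⟩ := hD₁ D Q hDD₁ hQ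
    rw [hvR, abs_mul, abs_pow]
    have habs : 1 ≤ |(s : ℝ)| := by
      have : (1 : ℤ) ≤ |s| := Int.one_le_abs hs
      exact_mod_cast this
    have hlog : 0 ≤ Real.log |(s : ℝ)| := Real.log_nonneg habs
    have h1 : |(s : ℝ)| ^ Q.natDegree = Real.exp (Q.natDegree * Real.log |(s : ℝ)|) := by
      rw [Real.exp_nat_mul, Real.exp_log (by linarith)]
    rw [h1]
    calc Real.exp (Q.natDegree * Real.log |(s : ℝ)|) * |aeval ((r : ℝ) / s) Q|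
        ≤ Real.exp ((D : ℝ) ^ (1 / 2 + ε / 2) * Real.log |(s : ℝ)|) *
            Real.exp ((D : ℝ) ^ (1 / 2 + ε / 2)) := by
          refine mul_le_mul (Real.exp_le_exp.mpr (mul_le_mul_of_nonneg_right hs2 hlog)) hs1
            (abs_nonneg _) (Real.exp_pos _).le
      _ = Real.exp ((D : ℝ) ^ (1 / 2 + ε / 2) * (1 + Real.log |(s : ℝ)|)) := by
          rw [← Real.exp_add]
          congr 1
          ring
      _ ≤ Real.exp ((D : ℝ) ^ (1 / 2 + ε)) := Real.exp_le_exp.mpr (hD₃ D hDD₃)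
  · by_cases hex : ∃ ℓ : ℕ, ℓ.Prime ∧ ℓ ∣ D ∧ (ℓ : ℤ) ∣ SSP.hv Q r s
    · exact Or.inl hex
    · right
      refine h_JAC D (SSP.hv Q r s) hsq (by omega) hvneg ?_
      intro ℓ hℓ hℓD
      refine ⟨fun h => hex ⟨ℓ, hℓ, hℓD, h⟩, ?_⟩
      obtain ⟨S, hS⟩ := hQ.sq ℓ hℓ hℓD
      exact OUT_hvZ Q hQ.monic r s ℓ hℓ S hS

end SSM
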