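import Pool.Agent.SSM.Targets

/-!
# MP_d74fca_nt, part IV: parity of the multiplicities (T_PAR)
-/

set_option autoImplicit false

open Polynomial

namespace SSM

namespace PAR_

/-- the matrix `(x y; z w) = σ g` has determinant `D` and fixes `t` -/
def R (D : ℕ) (t : ℂ) (g : (ℕ × ℕ) × ℕ) (x y z w : ℤ) : Prop :=
  g ∈ TT D ∧ x * w - y * z = D ∧ (x : ℂ) * t + y = t * (z * t + w) ∧
    ∃ a b c d : ℤ, a * d - b * c = 1 ∧
      x = a * g.1.1 ∧ y = a * g.2 + b * g.1.2 ∧ z = c * g.1.1 ∧ w = c * g.2 + d * g.1.2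

variable {D : ℕ} {t : ℂ}

lemma R_neg {g : (ℕ × ℕ) × ℕ} {x y z w : ℤ} (h : R D t g x y z w) :
    R D t g (-x) (-y) (-z) (-w) := by
  obtain ⟨h1, h2, h3, a, b, c, d, h4, h5, h6, h7, h8⟩ := h
  refine ⟨h1, by linear_combination h2, ?_, -a, -b, -c, -d, by linear_combination h4, ?_, ?_, ?_, ?_⟩
  · push_cast
    linear_combination -h3
  · rw [h5]; ring
  · rw [h6]; ring
  · rw [h7]; ring
  · rw [h8]; ring

lemma R_unique (hD : 1 ≤ D) (hHNF : T_HNF) {g h : (ℕ × ℕ) × ℕ} {x y z w : ℤ}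
    (hg : R D t g x y z w) (hh : R D t h x y z w) : h = g := by
  obtain ⟨g1, -, -, a, b, c, d, g4, g5, g6, g7, g8⟩ := hg
  obtain ⟨h1, -, -, a', b', c', d', h4, h5, h6, h7, h8⟩ := hh
  refine (hHNF D hD).2 g g1 h h1 (d' * a - b' * c) (d' * b - b' * d) (-c' * a + a' * c)
    (-c' * b + a' * d) ?_ ?_ ?_ ?_ ?_
  · linear_combination (a' * d' - b' * c') * g4 + h4
  · linear_combination (-(h.1.1 : ℤ)) * h4 - d' * h5 + d' * g5 + b' * h7 - b' * g7
  · linear_combination (-(h.2 : ℤ)) * h4 - d' * h6 + d' * g6 + b' * h8 - b' * g8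
  · linear_combination c' * h5 - c' * g5 - a' * h7 + a' * g7
  · linear_combination (-(h.1.2 : ℤ)) * h4 + c' * h6 - c' * g6 - a' * h8 + a' * g8

lemma im_lin {t : ℂ} (ht : 0 < t.im) {z w : ℤ} (h : (z : ℂ) * t + w = 0) : z = 0 ∧ w = 0 := by
  have h1 := congrArg Complex.im h
  have h2 := congrArg Complex.re h
  simp only [Complex.add_im, Complex.mul_im, Complex.intCast_re, Complex.intCast_im, zero_mul,
    add_zero, Complex.zero_im, Complex.add_re, Complex.mul_re, sub_zero, Complex.zero_re] at h1 h2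
  have hz : (z : ℝ) = 0 := by
    rcases mul_eq_zero.1 h1 with h3 | h3
    · exact h3
    · exact absurd h3 ht.ne'
  have hz' : z = 0 := by exact_mod_cast hz
  refine ⟨hz', ?_⟩
  rw [hz, zero_mul, zero_add] at h2
  exact_mod_cast h2

lemma R_ne (hD : 1 ≤ D) (ht : 0 < t.im) {g : (ℕ × ℕ) × ℕ} {x y z w : ℤ}
    (h : R D t g x y z w) : (z : ℂ) * t + w ≠ 0 := by
  intro h0
  obtain ⟨h1, h2⟩ := im_lin ht h0
  have h3 := h.2.1
  rw [h1, h2] at h3
  simp at h3
  omega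

lemma R_sign (hD : 1 ≤ D) (ht : 0 < t.im) (hJ0 : J t ≠ 0) (hJ1 : J t ≠ 1728) (hSPE : T_SPE)
    {g : (ℕ × ℕ) × ℕ} {x y z w x' y' z' w' : ℤ}
    (h : R D t g x y z w) (h' : R D t g x' y' z' w') :
    (x' = x ∧ y' = y ∧ z' = z ∧ w' = w) ∨ (x' = -x ∧ y' = -y ∧ z' = -z ∧ w' = -w) := by
  have hl := R_ne hD ht h
  have hl' := R_ne hD ht h'
  obtain ⟨-, -, g3, a, b, c, d, g4, g5, g6, g7, g8⟩ := h
  obtain ⟨-, -, h3, a', b', c', d', h4, h5, h6, h7, h8⟩ := h'
  have e1 : x' = (a' * d - b' * c) * x + (-a' * b + b' * a) * z := by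
    rw [h5, g5, g7]; linear_combination (-(a' * (g.1.1 : ℤ))) * g4
  have e2 : y' = (a' * d - b' * c) * y + (-a' * b + b' * a) * w := by
    rw [h6, g6, g8]; linear_combination (-(a' * (g.2 : ℤ)) - b' * (g.1.2 : ℤ)) * g4
  have e3 : z' = (c' * d - d' * c) * x + (-c' * b + d' * a) * z := by
    rw [h7, g5, g7]; linear_combination (-(c' * (g.1.1 : ℤ))) * g4
  have e4 : w' = (c' * d - d' * c) * y + (-c' * b + d' * a) * w := by
    rw [h8, g6, g8]; linear_combination (-(c' * (g.2 : ℤ)) - d' * (g.1.2 : ℤ)) * g4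
  have e5 : (a' * d - b' * c) * (-c' * b + d' * a) - (-a' * b + b' * a) * (c' * d - d' * c) = 1 := by
    linear_combination (a * d - b * c) * h4 + g4
  have c1 : (x' : ℂ) = ((a' * d - b' * c : ℤ) : ℂ) * x + ((-a' * b + b' * a : ℤ) : ℂ) * z := by
    exact_mod_cast e1
  have c2 : (y' : ℂ) = ((a' * d - b' * c : ℤ) : ℂ) * y + ((-a' * b + b' * a : ℤ) : ℂ) * w := by
    exact_mod_cast e2
  have c3 : (z' : ℂ) = ((c' * d - d' * c : ℤ) : ℂ) * x + ((-c' * b + d' * a : ℤ) : ℂ) * z := by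
    exact_mod_cast e3
  have c4 : (w' : ℂ) = ((c' * d - d' * c : ℤ) : ℂ) * y + ((-c' * b + d' * a : ℤ) : ℂ) * w := by
    exact_mod_cast e4
  have f1 : (((c' * d - d' * c : ℤ) : ℂ) * t + ((-c' * b + d' * a : ℤ) : ℂ)) * (z * t + w)
      = z' * t + w' := by
    rw [c3, c4]; linear_combination (-((c' * d - d' * c : ℤ) : ℂ)) * g3
  have f2 : (((a' * d - b' * c : ℤ) : ℂ) * t + ((-a' * b + b' * a : ℤ) : ℂ)) * (z * t + w)
      = (z' * t + w') * t := by
    have : ((a' * d - b' * c : ℤ) : ℂ) * (x * t + y) + ((-a' * b + b' * a : ℤ) : ℂ) * (z * t + w)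
        = t * (z' * t + w') := by
      rw [← h3, c1, c2]; ring
    linear_combination this - ((a' * d - b' * c : ℤ) : ℂ) * g3
  have f3 : (((c' * d - d' * c : ℤ) : ℂ) * t + ((-c' * b + d' * a : ℤ) : ℂ)) ≠ 0 := by
    intro h0
    rw [h0, zero_mul] at f1
    exact hl' f1.symm
  have f4 : (((a' * d - b' * c : ℤ) : ℂ) * t + ((-a' * b + b' * a : ℤ) : ℂ))
      / (((c' * d - d' * c : ℤ) : ℂ) * t + ((-c' * b + d' * a : ℤ) : ℂ)) = t := by
    rw [div_eq_iff f3]
    refine mul_right_cancel₀ hl ?_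
    rw [f2, ← f1]; ring
  obtain ⟨k1, k2, k3, k4⟩ := hSPE.2.2.2.2 t ht hJ0 hJ1 _ _ _ _ e5 f4
  rcases k4 with k4 | k4
  · left
    rw [k4] at k3
    rw [e1, e2, e3, e4, k1, k2, k4, ← k3]
    refine ⟨by ring, by ring, by ring, by ring⟩
  · right
    rw [k4] at k3
    rw [e1, e2, e3, e4, k1, k2, k4, ← k3]
    refine ⟨by ring, by ring, by ring, by ring⟩

lemma TT_mem {g : (ℕ × ℕ) × ℕ} (hg : g ∈ TT D) : g.1.1 * g.1.2 = D ∧ D ≠ 0 := by
  unfold TT at hg
  rw [Finset.mem_filter, Finset.mem_product, Nat.mem_divisorsAntidiagonal] at hg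
  exact hg.1.1

lemma act_im (ht : 0 < t.im) {g : (ℕ × ℕ) × ℕ} (hg : g ∈ TT D) : 0 < (act g t).im := by
  obtain ⟨h1, h2⟩ := TT_mem hg
  have h3 : 0 < g.1.1 := Nat.pos_of_ne_zero fun h => h2 (by rw [← h1, h, zero_mul])
  have h4 : 0 < g.1.2 := Nat.pos_of_ne_zero fun h => h2 (by rw [← h1, h, mul_zero])
  have h3' : (0:ℝ) < g.1.1 := by exact_mod_cast h3
  have h4' : (0:ℝ) < g.1.2 := by exact_mod_cast h4
  unfold act
  rw [Complex.div_natCast_im]
  simp only [Complex.add_im, Complex.mul_im, Complex.natCast_re, Complex.natCast_im, zero_mul,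
    add_zero]
  positivity

lemma act_mul {g : (ℕ × ℕ) × ℕ} (hg : g ∈ TT D) (t : ℂ) :
    (g.1.2 : ℂ) ≠ 0 ∧ act g t * g.1.2 = g.1.1 * t + g.2 := by
  obtain ⟨h1, h2⟩ := TT_mem hg
  have h4 : g.1.2 ≠ 0 := fun h => h2 (by rw [← h1, h, mul_zero])
  have h4' : (g.1.2 : ℂ) ≠ 0 := by exact_mod_cast h4
  refine ⟨h4', ?_⟩
  unfold act
  field_simp

lemma R_exists (ht : 0 < t.im) (hINV : T_INV) (hINJ : T_INJ) {g : (ℕ × ℕ) × ℕ} (hg : g ∈ TT D)
    (hJ : J (act g t) = J t) : ∃ x y z w, R D t g x y z w := by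
  obtain ⟨a, b, c, d, h1, h2⟩ := hINJ _ t (act_im ht hg) ht hJ
  obtain ⟨g0, g1⟩ := act_mul hg t
  have h3 := (hINV.2.1 a b c d h1 _ (act_im ht hg)).2.1
  rw [eq_div_iff h3] at h2
  refine ⟨a * g.1.1, a * g.2 + b * g.1.2, c * g.1.1, c * g.2 + d * g.1.2, hg, ?_, ?_, a, b, c, d,
    h1, rfl, rfl, rfl, rfl⟩
  · have h4 : ((g.1.1 : ℤ)) * g.1.2 = D := by exact_mod_cast (TT_mem hg).1
    linear_combination (g.1.1 : ℤ) * g.1.2 * h1 + h4
  · push_cast
    linear_combination (-(g.1.2 : ℂ)) * h2 + (-a + t * c) * g1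

lemma R_J (hD : 1 ≤ D) (ht : 0 < t.im) (hINV : T_INV) {g : (ℕ × ℕ) × ℕ} {x y z w : ℤ}
    (h : R D t g x y z w) : g ∈ TT D ∧ J (act g t) = J t := by
  have hne := R_ne hD ht h
  obtain ⟨h1, -, h3, a, b, c, d, h4, h5, h6, h7, h8⟩ := h
  refine ⟨h1, ?_⟩
  obtain ⟨g0, g1⟩ := act_mul h1 t
  obtain ⟨-, k2, k3⟩ := hINV.2.1 a b c d h4 _ (act_im ht h1)
  rw [← k3]
  congr 1
  rw [div_eq_iff k2]
  refine mul_right_cancel₀ g0 ?_
  have c1 : (x : ℂ) = a * g.1.1 := by exact_mod_cast h5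
  have c2 : (y : ℂ) = a * g.2 + b * g.1.2 := by exact_mod_cast h6
  have c3 : (z : ℂ) = c * g.1.1 := by exact_mod_cast h7
  have c4 : (w : ℂ) = c * g.2 + d * g.1.2 := by exact_mod_cast h8
  rw [c1, c2, c3, c4] at h3
  linear_combination h3 + (a - t * c) * g1

lemma R_hnf (hD : 1 ≤ D) (hHNF : T_HNF) {x y z w : ℤ} (h1 : x * w - y * z = D)
    (h2 : (x : ℂ) * t + y = t * (z * t + w)) : ∃ g, R D t g x y z w := by
  obtain ⟨g, hg, h⟩ := (hHNF D hD).1 x y z w h1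
  exact ⟨g, hg, h1, h2, h⟩

/-- the involution as a relation -/
def T (D : ℕ) (t : ℂ) (g h : (ℕ × ℕ) × ℕ) : Prop :=
  ∃ x y z w : ℤ, R D t g x y z w ∧ R D t h w (-y) (-z) x

lemma T_symm {g h : (ℕ × ℕ) × ℕ} (H : T D t g h) : T D t h g := by
  obtain ⟨x, y, z, w, h1, h2⟩ := H
  refine ⟨w, -y, -z, x, h2, ?_⟩
  rw [neg_neg, neg_neg]
  exact h1

lemma T_unique (hD : 1 ≤ D) (ht : 0 < t.im) (hJ0 : J t ≠ 0) (hJ1 : J t ≠ 1728) (hSPE : T_SPE)
    (hHNF : T_HNF) {g h h' : (ℕ × ℕ) × ℕ} (H : T D t g h) (H' : T D t g h') : h' = h := by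
  obtain ⟨x, y, z, w, h1, h2⟩ := H
  obtain ⟨x', y', z', w', h1', h2'⟩ := H'
  rcases R_sign hD ht hJ0 hJ1 hSPE h1 h1' with ⟨e1, e2, e3, e4⟩ | ⟨e1, e2, e3, e4⟩
  · rw [e1, e2, e3, e4] at h2'
    exact R_unique hD hHNF h2 h2'
  · rw [e1, e2, e3, e4] at h2'
    have h3 := R_neg h2'
    rw [neg_neg, neg_neg, neg_neg, neg_neg] at h3
    exact R_unique hD hHNF h2 h3

lemma T_exists (hD : 1 ≤ D) (ht : 0 < t.im) (hINV : T_INV) (hINJ : T_INJ)
    (hHNF : T_HNF) {g : (ℕ × ℕ) × ℕ} (hg : g ∈ TT D) (hJ : J (act g t) = J t) :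
    ∃ h, T D t g h := by
  obtain ⟨x, y, z, w, h⟩ := R_exists ht hINV hINJ hg hJ
  obtain ⟨k, hk⟩ := R_hnf (t := t) hD hHNF (x := w) (y := -y) (z := -z) (w := x)
    (by linear_combination h.2.1) (by push_cast; linear_combination -h.2.2.1)
  exact ⟨k, x, y, z, w, h, hk⟩

/-- trace zero matrices with the same fixed point -/
lemma trace_zero (hD : 1 ≤ D) (ht : 0 < t.im) {x y z x' y' z' : ℤ}
    (h1 : x * (-x) - y * z = D) (h2 : (x : ℂ) * t + y = t * (z * t + ((-x : ℤ) : ℂ)))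
    (h1' : x' * (-x') - y' * z' = D)
    (h2' : (x' : ℂ) * t + y' = t * (z' * t + ((-x' : ℤ) : ℂ))) :
    (x' = x ∧ y' = y ∧ z' = z) ∨ (x' = -x ∧ y' = -y ∧ z' = -z) := by
  have e : ((2 * (x * z' - x' * z) : ℤ) : ℂ) * t + ((y * z' - y' * z : ℤ) : ℂ) = 0 := by
    push_cast at h2 h2' ⊢
    linear_combination (z' : ℂ) * h2 - (z : ℂ) * h2'
  obtain ⟨e1, e2⟩ := im_lin ht e
  have e1' : x * z' - x' * z = 0 := by omega
  have hz2 : (z' - z) * (z' + z) = 0 := by
    have hDz : (D : ℤ) * ((z' - z) * (z' + z)) = 0 := by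
      have p1 : (D : ℤ) * z' ^ 2 = D * z ^ 2 := by
        calc (D : ℤ) * z' ^ 2 = (x * (-x) - y * z) * z' ^ 2 := by rw [h1]
          _ = (x' * (-x') - y' * z') * z ^ 2 := by
              linear_combination (-(x * z' + x' * z)) * e1' - z * z' * e2
          _ = D * z ^ 2 := by rw [h1']
      linear_combination p1
    rcases mul_eq_zero.1 hDz with h3 | h3
    · exfalso
      have : D = 0 := by exact_mod_cast h3
      omega
    · exact h3
  have hz : z ≠ 0 := by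
    intro h0
    rw [h0] at h2 h1
    have e3 : ((2 * x : ℤ) : ℂ) * t + (y : ℂ) = 0 := by
      push_cast at h2 ⊢
      linear_combination h2
    obtain ⟨e4, e5⟩ := im_lin ht e3
    have e6 : x = 0 := by omega
    rw [e6, e5] at h1
    simp at h1
    omega
  rcases mul_eq_zero.1 hz2 with h3 | h3
  · left
    have h4 : z' = z := by linarith
    subst h4
    refine ⟨?_, ?_, rfl⟩
    · exact mul_right_cancel₀ hz (by linarith)
    · exact mul_right_cancel₀ hz (by linarith)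
  · right
    have h4 : z' = -z := by linarith
    subst h4
    refine ⟨?_, ?_, rfl⟩
    · exact mul_right_cancel₀ hz (by linarith)
    · exact mul_right_cancel₀ hz (by linarith)

end PAR_

open PAR_

theorem p_PAR (hINV : T_INV) (hSPE : T_SPE) (hINJ : T_INJ) (hHNF : T_HNF) : T_PAR := by
  classical
  intro D t hD1 hsq ht hJ0 hJ1
  have hD : 1 ≤ D := hD1.le
  set S := {g ∈ TT D | J (act g t) = J t} with hS
  have hSmem : ∀ g, g ∈ S ↔ g ∈ TT D ∧ J (act g t) = J t := fun g => by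
    rw [hS, Finset.mem_filter]
  have hex : ∀ g ∈ S, ∃ h, T D t g h := fun g hg =>
    T_exists hD ht hINV hINJ hHNF ((hSmem g).1 hg).1 ((hSmem g).1 hg).2
  let ι : (ℕ × ℕ) × ℕ → (ℕ × ℕ) × ℕ := fun g => if h : ∃ k, T D t g k then h.choose else g
  have hι : ∀ g ∈ S, T D t g (ι g) := by
    intro g hg
    have := hex g hg
    simp only [ι, dif_pos this]
    exact this.choose_spec
  have huniq : ∀ {g h h' : (ℕ × ℕ) × ℕ}, T D t g h → T D t g h' → h' = h :=
    fun H H' => T_unique hD ht hJ0 hJ1 hSPE hHNF H H'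
  have hιS : ∀ g ∈ S, ι g ∈ S := by
    intro g hg
    obtain ⟨x, y, z, w, h1, h2⟩ := hι g hg
    exact (hSmem _).2 (R_J hD ht hINV h2)
  have hιι : ∀ g ∈ S, ι (ι g) = g := fun g hg =>
    huniq (T_symm (hι g hg)) (hι _ (hιS g hg))
  -- fixed points have trace zero
  have hfix : ∀ g ∈ S, ι g = g → ∃ x y z : ℤ, R D t g x y z (-x) := by
    intro g hg hgg
    obtain ⟨x, y, z, w, h1, h2⟩ := hι g hg
    rw [hgg] at h2
    rcases R_sign hD ht hJ0 hJ1 hSPE h1 h2 with ⟨e1, e2, e3, e4⟩ | ⟨e1, e2, e3, e4⟩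
    · exfalso
      have hy : y = 0 := by omega
      have hz : z = 0 := by omega
      have h3 := h1.2.1
      rw [hy, hz, e1] at h3
      refine hsq ⟨x.natAbs, ?_⟩
      zify
      rw [abs_mul_abs_self]
      linarith
    · rw [e1] at h1
      exact ⟨x, y, z, h1⟩
  have hfix' : ∀ g, ∀ x y z : ℤ, R D t g x y z (-x) → ι g = g ∧ g ∈ S := by
    intro g x y z h
    have hgS : g ∈ S := (hSmem _).2 (R_J hD ht hINV h)
    refine ⟨?_, hgS⟩
    have h0 := R_neg h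
    rw [neg_neg] at h0
    have h1 : T D t g g := ⟨x, y, z, -x, h, h0⟩
    exact huniq h1 (hι g hgS)
  have hone : ∀ g h, (∃ x y z : ℤ, R D t g x y z (-x)) → (∃ x y z : ℤ, R D t h x y z (-x)) →
      h = g := by
    rintro g h ⟨x, y, z, hg⟩ ⟨x', y', z', hh⟩
    rcases trace_zero hD ht hg.2.1 hg.2.2.1 hh.2.1 hh.2.2.1 with ⟨e1, e2, e3⟩ | ⟨e1, e2, e3⟩
    · rw [e1, e2, e3] at hh
      exact R_unique hD hHNF hg hh
    · rw [e1, e2, e3] at hh
      have h3 := R_neg hh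
      simp only [neg_neg] at h3
      exact R_unique hD hHNF hg h3
  -- parity
  have hpar : ((S.filter fun g => ι g ≠ g).card : ZMod 2) = 0 := by
    have h1 : ∑ g ∈ S.filter (fun g => ι g ≠ g), (1 : ZMod 2) = 0 := by
      refine Finset.sum_involution (fun g _ => ι g) (fun _ _ => by decide) ?_ ?_ ?_
      · intro g hg _
        exact (Finset.mem_filter.1 hg).2
      · intro g hg
        obtain ⟨h2, h3⟩ := Finset.mem_filter.1 hg
        refine Finset.mem_filter.2 ⟨hιS g h2, ?_⟩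
        rw [hιι g h2]
        exact fun h => h3 h.symm
      · intro g hg
        exact hιι g (Finset.mem_filter.1 hg).1
    rw [Finset.sum_const, nsmul_eq_mul, mul_one] at h1
    exact h1
  have heven : Even (S.filter fun g => ι g ≠ g).card := by
    rw [even_iff_two_dvd, ← ZMod.natCast_eq_zero_iff]
    exact hpar
  have hsplit : S.card = (S.filter fun g => ι g = g).card + (S.filter fun g => ι g ≠ g).card :=
    (Finset.card_filter_add_card_filter_not (s := S) (fun g => ι g = g)).symm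
  have hle : (S.filter fun g => ι g = g).card ≤ 1 := by
    rw [Finset.card_le_one]
    intro g hg h hh
    obtain ⟨a1, a2⟩ := Finset.mem_filter.1 hg
    obtain ⟨b1, b2⟩ := Finset.mem_filter.1 hh
    exact (hone g h (hfix g a1 a2) (hfix h b1 b2)).symm
  rw [hsplit, Nat.odd_add]
  constructor
  · intro h
    have h1 : Odd (S.filter fun g => ι g = g).card := h.2 heven
    have h2 : 0 < (S.filter fun g => ι g = g).card := h1.pos
    obtain ⟨g, hg⟩ := Finset.card_pos.1 h2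
    obtain ⟨a1, a2⟩ := Finset.mem_filter.1 hg
    obtain ⟨x, y, z, hR⟩ := hfix g a1 a2
    have k1 := hR.2.1
    have k2 := hR.2.2.1
    have hz : z ≠ 0 := by
      intro h0
      rw [h0] at k1 k2
      have e3 : ((2 * x : ℤ) : ℂ) * t + (y : ℂ) = 0 := by
        push_cast at k2 ⊢
        linear_combination k2
      obtain ⟨e4, e5⟩ := im_lin ht e3
      have e6 : x = 0 := by omega
      rw [e6, e5] at k1
      simp at k1
      omega
    rcases lt_or_gt_of_ne hz with hneg | hpos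
    · refine ⟨ht, -z, x, y, by linarith, by linear_combination k1, ?_⟩
      push_cast at k2 ⊢
      linear_combination k2
    · refine ⟨ht, z, -x, -y, hpos, by linear_combination k1, ?_⟩
      push_cast at k2 ⊢
      linear_combination -k2
  · rintro ⟨-, α, β, γ, hα, h1, h2⟩
    obtain ⟨g, hg⟩ := R_hnf (t := t) hD hHNF (x := -β) (y := -γ) (z := α) (w := β)
      (by linear_combination h1) (by push_cast; linear_combination -h2)
    have hg' : R D t g (-β) (-γ) α (- -β) := by rw [neg_neg]; exact hg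
    obtain ⟨c1, c2⟩ := hfix' g _ _ _ hg'
    have h3 : 0 < (S.filter fun g => ι g = g).card :=
      Finset.card_pos.2 ⟨g, Finset.mem_filter.2 ⟨c2, c1⟩⟩
    have h4 : (S.filter fun g => ι g = g).card = 1 := by omega
    rw [h4]
    exact ⟨fun _ => heven, fun _ => odd_one⟩

end SSM
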