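import Pool.Agent.SSM.Targets

/-!
# MP_d74fca_nt, part IV (helper58): expansions of functions of period one (helper4)
-/

namespace SSM

namespace PER_

lemma qq_ne (M : ℕ) (z : ℂ) : qq M z ≠ 0 := Complex.exp_ne_zero _

lemma qq_one_eq (M : ℕ) (hM : 1 ≤ M) (z : ℂ) : qq 1 z = qq M z ^ M := by
  unfold qq
  rw [← Complex.exp_nat_mul]
  have hM' : (M : ℂ) ≠ 0 := by
    exact_mod_cast (by omega : M ≠ 0)
  congr 1
  field_simp
  simp

lemma qq_add_one (M : ℕ) (z : ℂ) :
    qq M (z + 1) = Complex.exp (2 * Real.pi * Complex.I / M) * qq M z := by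
  unfold qq
  rw [← Complex.exp_add]
  congr 1
  ring

end PER_

open PER_ in
theorem p_PER (h1 : T_UNX) : T_PER := by
  intro A M N f hM hf hexp
  obtain ⟨a, haA, ha⟩ := hexp
  set ζ : ℂ := Complex.exp (2 * Real.pi * Complex.I / M) with hζ
  have hprim : IsPrimitiveRoot ζ M := Complex.isPrimitiveRoot_exp M (by omega)
  -- the relation
  have hrel : (fun n => a n * ζ ^ n) = fun n => ζ ^ N * a n := by
    refine h1 M _ _ (fun z => ζ ^ N * (f z * qq M z ^ N)) hM ?_ ?_
    · intro z hz
      have h2 := ha (z + 1) (by simpa using hz)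
      rw [hf z hz, qq_add_one] at h2
      have h3 : f z * (ζ * qq M z) ^ N = ζ ^ N * (f z * qq M z ^ N) := by
        rw [mul_pow]; ring
      rw [← hζ, h3] at h2
      have h4 : (fun n => a n * ζ ^ n * qq M z ^ n) = fun n => a n * (ζ * qq M z) ^ n := by
        funext n
        rw [mul_pow]; ring
      rw [h4]
      exact h2
    · intro z hz
      have h2 := (ha z hz).mul_left (ζ ^ N)
      have h4 : (fun n => ζ ^ N * a n * qq M z ^ n) = fun n => ζ ^ N * (a n * qq M z ^ n) := by
        funext n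
        ring
      rw [h4]
      exact h2
  -- support of the coefficients
  have hsup : ∀ n, a n ≠ 0 → M ∣ n + (M - 1) * N := by
    intro n hn
    have h2 : a n * ζ ^ n = ζ ^ N * a n := congrFun hrel n
    have h3 : ζ ^ n = ζ ^ N := by
      have h4 : a n * ζ ^ n = a n * ζ ^ N := by rw [h2]; ring
      exact mul_left_cancel₀ hn h4
    have h5 : n ≡ N [MOD M] := by
      have hζ0 : ζ ≠ 0 := hprim.ne_zero (by omega)
      have h6 : ζ ^ ((n : ℤ) - (N : ℤ)) = 1 := by
        rw [zpow_sub₀ hζ0, zpow_natCast, zpow_natCast, h3, div_self (pow_ne_zero _ hζ0)]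
      have h7 := (hprim.zpow_eq_one_iff_dvd _).mp h6
      have h8 : (n : ℤ) ≡ (N : ℤ) [ZMOD (M : ℤ)] := (Int.modEq_iff_dvd.mpr h7).symm
      exact (Int.natCast_modEq_iff).mp h8
    have h7 : n + (M - 1) * N ≡ N + (M - 1) * N [MOD M] := h5.add_right _
    have h8 : N + (M - 1) * N = M * N := by
      obtain ⟨m, rfl⟩ : ∃ m, M = m + 1 := ⟨M - 1, by omega⟩
      simp only [Nat.add_sub_cancel]
      ring
    rw [h8] at h7
    have h9 : M * N ≡ 0 [MOD M] := (Nat.modEq_zero_iff_dvd).mpr ⟨N, rfl⟩
    exact (Nat.modEq_zero_iff_dvd).mp (h7.trans h9)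
  have hM0 : 0 < M := hM
  refine ⟨fun k => if (M - 1) * N ≤ M * k then a (M * k - (M - 1) * N) else 0, ?_, ?_⟩
  · intro k
    simp only
    split_ifs
    · exact haA _
    · exact A.zero_mem
  · intro z hz
    have h2 : HasSum (fun n => a n * qq M z ^ (n + (M - 1) * N)) (f z * qq 1 z ^ N) := by
      have h3 := (ha z hz).mul_right (qq M z ^ ((M - 1) * N))
      have h4 : f z * qq M z ^ N * qq M z ^ ((M - 1) * N) = f z * qq 1 z ^ N := by
        rw [qq_one_eq M hM z, ← pow_mul, mul_assoc, ← pow_add]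
        congr 2
        obtain ⟨m, rfl⟩ : ∃ m, M = m + 1 := ⟨M - 1, by omega⟩
        simp only [Nat.add_sub_cancel]
        ring
      rw [h4] at h3
      have h5 : (fun n => a n * qq M z ^ (n + (M - 1) * N)) =
          fun n => a n * qq M z ^ n * qq M z ^ ((M - 1) * N) := by
        funext n
        rw [pow_add]; ring
      rw [h5]
      exact h3
    set g : ℕ → ℂ := fun n => a n * qq M z ^ (n + (M - 1) * N) with hg
    have hga : ∀ n, g n ≠ 0 → a n ≠ 0 := by
      intro n hn h0
      apply hn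
      simp only [hg]
      rw [h0, zero_mul]
    refine (hasSum_iff_hasSum_of_ne_zero_bij (g := g)
      (fun n : Function.support g => ((n : ℕ) + (M - 1) * N) / M) ?_ ?_ ?_).mpr h2
    · intro n n' hnn
      have d1 := hsup n (hga n n.2)
      have d2 := hsup n' (hga n' n'.2)
      have h6 : ((n : ℕ) + (M - 1) * N) / M = ((n' : ℕ) + (M - 1) * N) / M := hnn
      have h7 : (n : ℕ) + (M - 1) * N = (n' : ℕ) + (M - 1) * N := by
        rw [← Nat.div_mul_cancel d1, ← Nat.div_mul_cancel d2, h6]
      apply Subtype.ext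
      omega
    · intro k hk
      rw [Function.mem_support] at hk
      change (if (M - 1) * N ≤ M * k then a (M * k - (M - 1) * N) else 0) * qq 1 z ^ k ≠ 0 at hk
      by_cases hle : (M - 1) * N ≤ M * k
      · rw [if_pos hle] at hk
        have hne : a (M * k - (M - 1) * N) ≠ 0 := left_ne_zero_of_mul hk
        refine ⟨⟨M * k - (M - 1) * N, ?_⟩, ?_⟩
        · rw [Function.mem_support]
          exact mul_ne_zero hne (pow_ne_zero _ (qq_ne M z))
        · change (M * k - (M - 1) * N + (M - 1) * N) / M = k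
          rw [Nat.sub_add_cancel hle, Nat.mul_div_cancel_left _ hM0]
      · rw [if_neg hle, zero_mul] at hk
        exact absurd rfl hk
    · intro n
      have d1 := hsup n (hga n n.2)
      obtain ⟨k, hk⟩ := d1
      change (if (M - 1) * N ≤ M * (((n : ℕ) + (M - 1) * N) / M) then
        a (M * (((n : ℕ) + (M - 1) * N) / M) - (M - 1) * N) else 0) *
        qq 1 z ^ (((n : ℕ) + (M - 1) * N) / M) = a n * qq M z ^ ((n : ℕ) + (M - 1) * N)
      rw [hk, Nat.mul_div_cancel_left _ hM0, ← hk, if_pos (Nat.le_add_left _ _),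
        Nat.add_sub_cancel, hk, qq_one_eq M hM z, ← pow_mul]

end SSM
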