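import Pool.Agent.SSM.Targets

/-!
# MP_d74fca_nt, part IV, POL: modular functions are polynomials in `J` (helper36, for helper58)
-/

open Polynomial
open scoped MatrixGroups UpperHalfPlane Manifold ModularForm

namespace SSM

namespace POL_

lemma qq_ne (z : ℂ) : qq 1 z ≠ 0 := Complex.exp_ne_zero _

lemma qq_add_one (z : ℂ) : qq 1 (z + 1) = qq 1 z := by
  unfold qq
  rw [Complex.exp_eq_exp_iff_exists_int]
  exact ⟨1, by push_cast; ring⟩

lemma norm_qq (z : ℂ) : ‖qq 1 z‖ = Real.exp (-(2 * Real.pi * z.im)) := by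
  unfold qq
  rw [Complex.norm_exp]
  congr 1
  simp

/-- Cauchy product of two power series in `q` -/
lemma mul_hasSum {a b : ℕ → ℂ} {q A B : ℂ} (ha : HasSum (fun n => a n * q ^ n) A)
    (hb : HasSum (fun n => b n * q ^ n) B) :
    HasSum (fun n => (∑ p ∈ Finset.HasAntidiagonal.antidiagonal n, a p.1 * b p.2) * q ^ n)
      (A * B) := by
  have h1 := summable_norm_sum_mul_antidiagonal_of_summable_norm ha.summable.norm hb.summable.norm
  have h2 := tsum_mul_tsum_eq_tsum_sum_antidiagonal_of_summable_norm ha.summable.norm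
    hb.summable.norm
  have h3 := h1.of_norm.hasSum
  rw [← h2, ha.tsum_eq, hb.tsum_eq] at h3
  have e : (fun n => (∑ p ∈ Finset.HasAntidiagonal.antidiagonal n, a p.1 * b p.2) * q ^ n) =
      fun n => ∑ p ∈ Finset.HasAntidiagonal.antidiagonal n, a p.1 * q ^ p.1 * (b p.2 * q ^ p.2) := by
    funext n
    rw [Finset.sum_mul]
    refine Finset.sum_congr rfl fun p hp => ?_
    rw [← Finset.HasAntidiagonal.mem_antidiagonal.1 hp, pow_add]
    ring
  rw [e]
  exact h3

/-- powers of `J` -/
lemma J_pow (h_JEX : T_JEX) (k : ℕ) : ∃ e : ℕ → ℤ, e 0 = 1 ∧ ∀ z : ℂ, 0 < z.im →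
    HasSum (fun n : ℕ => (e n : ℂ) * qq 1 z ^ n) (J z ^ k * qq 1 z ^ k) := by
  obtain ⟨c, hc0, hc⟩ := h_JEX
  induction k with
  | zero =>
    refine ⟨fun n => if n = 0 then 1 else 0, by simp, fun z _ => ?_⟩
    have := hasSum_ite_eq (0 : ℕ) (1 : ℂ)
    simp only [pow_zero, mul_one]
    convert this using 2 with n
    by_cases hn : n = 0
    · simp [hn]
    · simp [hn]
  | succ k ih =>
    obtain ⟨e, he0, he⟩ := ih
    refine ⟨fun n => ∑ p ∈ Finset.HasAntidiagonal.antidiagonal n, e p.1 * c p.2,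
      by simp [he0, hc0], ?_⟩
    intro z hz
    have h1 := mul_hasSum (he z hz) (hc z hz)
    have e1 : J z ^ k * qq 1 z ^ k * (J z * qq 1 z ^ 1) = J z ^ (k + 1) * qq 1 z ^ (k + 1) := by
      ring
    rw [e1] at h1
    convert h1 using 3 with n
    push_cast
    rfl

/-- lowering the order of the pole -/
lemma lower {b : ℕ → ℂ} {N : ℕ} {g : ℂ → ℂ} (hb0 : b 0 = 0)
    (h : ∀ z : ℂ, 0 < z.im → HasSum (fun n : ℕ => b n * qq 1 z ^ n) (g z * qq 1 z ^ (N + 1))) :
    ∀ z : ℂ, 0 < z.im → HasSum (fun n : ℕ => b (n + 1) * qq 1 z ^ n) (g z * qq 1 z ^ N) := by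
  intro z hz
  have h1 := (hasSum_nat_add_iff' (f := fun n : ℕ => b n * qq 1 z ^ n) 1).2 (h z hz)
  have h2 := h1.mul_left (qq 1 z)⁻¹
  have hq := qq_ne z
  have e1 : (fun n : ℕ => b (n + 1) * qq 1 z ^ n) =
      fun n : ℕ => (qq 1 z)⁻¹ * (b (n + 1) * qq 1 z ^ (n + 1)) := by
    funext n
    rw [pow_succ]
    field_simp
  have e2 : g z * qq 1 z ^ N = (qq 1 z)⁻¹ * (g z * qq 1 z ^ (N + 1) -
      ∑ i ∈ Finset.range 1, b i * qq 1 z ^ i) := by
    rw [Finset.range_one, Finset.sum_singleton, hb0]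
    field_simp
    ring
  rw [e1, e2]
  exact h2

/-- functions with an expansion without pole are holomorphic -/
lemma holo {a : ℕ → ℂ} {f : ℂ → ℂ}
    (h : ∀ z : ℂ, 0 < z.im → HasSum (fun n : ℕ => a n * qq 1 z ^ n) (f z)) :
    DifferentiableOn ℂ f {z : ℂ | 0 < z.im} := by
  intro z hz
  change 0 < z.im at hz
  have hU : IsOpen {w : ℂ | z.im / 2 < w.im} := isOpen_lt continuous_const Complex.continuous_im
  have hzU : z ∈ {w : ℂ | z.im / 2 < w.im} := by
    change z.im / 2 < z.im
    linarith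
  have ht : 0 < (((z.im / 2 : ℝ) : ℂ) * Complex.I).im := by simp; linarith
  have hs := (h _ ht).summable.norm
  have hd : DifferentiableOn ℂ (fun w : ℂ => ∑' n : ℕ, a n * qq 1 w ^ n)
      {w : ℂ | z.im / 2 < w.im} := by
    refine Complex.differentiableOn_tsum_of_summable_norm hs (fun n => ?_) hU ?_
    · have : Differentiable ℂ (fun w : ℂ => a n * qq 1 w ^ n) := by
        unfold qq
        fun_prop
      exact this.differentiableOn
    · intro n w hw
      change z.im / 2 < w.im at hw
      rw [norm_mul, norm_mul, norm_pow, norm_pow]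
      refine mul_le_mul_of_nonneg_left (pow_le_pow_left₀ (norm_nonneg _) ?_ n) (norm_nonneg _)
      rw [norm_qq, norm_qq]
      apply Real.exp_le_exp.2
      have e1 : (((z.im / 2 : ℝ) : ℂ) * Complex.I).im = z.im / 2 := by simp
      rw [e1]
      have := Real.pi_pos
      nlinarith
  have hd' : DifferentiableAt ℂ (fun w : ℂ => ∑' n : ℕ, a n * qq 1 w ^ n) z :=
    (hd z hzU).differentiableAt (hU.mem_nhds hzU)
  have he : f =ᶠ[nhds z] (fun w : ℂ => ∑' n : ℕ, a n * qq 1 w ^ n) := by
    filter_upwards [hU.mem_nhds hzU] with w hw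
    change z.im / 2 < w.im at hw
    exact (h w (by linarith)).tsum_eq.symm
  exact (hd'.congr_of_eventuallyEq he).differentiableWithinAt

open UpperHalfPlane in
/-- functions without pole are constant -/
lemma const {a : ℕ → ℂ} {f : ℂ → ℂ}
    (h : ∀ z : ℂ, 0 < z.im → HasSum (fun n : ℕ => a n * qq 1 z ^ n) (f z))
    (hS : ∀ z : ℂ, 0 < z.im → f (-1 / z) = f z) : ∃ c : ℂ, ∀ z : ℂ, 0 < z.im → f z = c := by
  have hT : ∀ z : ℂ, 0 < z.im → f (z + 1) = f z := by
    intro z hz
    have h1 := h (z + 1) (by simpa using hz)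
    rw [qq_add_one] at h1
    exact h1.unique (h z hz)
  set F : ℍ → ℂ := fun τ => f τ with hF
  have hFS : F ∣[(0 : ℤ)] ModularGroup.S = F := by
    ext τ
    rw [ModularForm.SL_slash_apply]
    have h1 : ((ModularGroup.S • τ : ℍ) : ℂ) = -1 / (τ : ℂ) := by
      rw [UpperHalfPlane.modular_S_smul]
      simp [neg_div]
    simp only [hF, h1, hS _ τ.im_pos]
    simp
  have hFT : F ∣[(0 : ℤ)] ModularGroup.T = F := by
    ext τ
    rw [ModularForm.SL_slash_apply]
    have h1 : ((ModularGroup.T • τ : ℍ) : ℂ) = (τ : ℂ) + 1 := by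
      rw [UpperHalfPlane.modular_T_smul]
      simp [add_comm]
    simp only [hF, h1, hT _ τ.im_pos]
    simp
  have hall := SlashInvariantForm.slash_action_generators_SL2Z hFS hFT
  have hbd : UpperHalfPlane.IsBoundedAtImInfty F := by
    refine UpperHalfPlane.isBoundedAtImInfty_of_hasSum_qExpansion (h := 1) (c := a) one_pos ?_
    intro τ
    have h1 := h τ τ.im_pos
    have e1 : qq 1 (τ : ℂ) = Function.Periodic.qParam 1 (τ : ℂ) := by
      unfold qq Function.Periodic.qParam
      simp
    simp only [smul_eq_mul, ← e1]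
    exact h1
  let G : ModularForm 𝒮ℒ 0 :=
    { toFun := F
      slash_action_eq' := by
        rintro A hA
        obtain ⟨A, rfl⟩ := hA
        exact hall A
      holo' := by
        rw [UpperHalfPlane.mdifferentiable_iff]
        refine (holo h).congr fun z hz => ?_
        simp [hF, UpperHalfPlane.ofComplex_apply_of_im_pos hz]
      bdd_at_cusps' := by
        intro c hc
        rw [Subgroup.IsArithmetic.isCusp_iff_isCusp_SL2Z] at hc
        rw [OnePoint.isBoundedAt_iff_forall_SL2Z hc]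
        intro γ _
        rw [hall]
        exact hbd }
  obtain ⟨c, hc⟩ := ModularFormClass.levelOne_weight_zero_const G
  refine ⟨c, fun z hz => ?_⟩
  have := congrFun hc ⟨z, hz⟩
  exact this

end POL_

open POL_ in
theorem p_POL (h_JEX : T_JEX) (h_INV : T_INV) (h_UNX : T_UNX) : T_POL := by
  intro R f N
  induction N generalizing f with
  | zero =>
    rintro ⟨a, haR, ha⟩ hS
    have ha' : ∀ z : ℂ, 0 < z.im → HasSum (fun n : ℕ => a n * qq 1 z ^ n) (f z) := by
      intro z hz
      simpa using ha z hz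
    obtain ⟨c, hc⟩ := const ha' hS
    have h1 : a = fun n => if n = 0 then c else 0 := by
      refine h_UNX 1 _ _ f le_rfl ha' ?_
      intro z hz
      have := hasSum_ite_eq (0 : ℕ) c
      rw [hc z hz]
      convert this using 2 with n
      by_cases hn : n = 0
      · simp [hn]
      · simp [hn]
    have h2 : c ∈ R := by
      have := haR 0
      rw [h1] at this
      simpa using this
    refine ⟨C c, ?_, by simp, fun z hz => by simp [hc z hz]⟩
    intro n
    rw [coeff_C]
    split_ifs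
    · exact h2
    · exact R.zero_mem
  | succ N ih =>
    rintro ⟨a, haR, ha⟩ hS
    obtain ⟨e, he0, he⟩ := J_pow h_JEX (N + 1)
    let g : ℂ → ℂ := fun z => f z - a 0 * J z ^ (N + 1)
    have hg : ∀ z : ℂ, 0 < z.im →
        HasSum (fun n : ℕ => (a n - a 0 * e n) * qq 1 z ^ n) (g z * qq 1 z ^ (N + 1)) := by
      intro z hz
      have h1 := (ha z hz).sub ((he z hz).mul_left (a 0))
      have e1 : (fun n : ℕ => (a n - a 0 * e n) * qq 1 z ^ n) =
          fun n : ℕ => a n * qq 1 z ^ n - a 0 * (e n * qq 1 z ^ n) := by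
        funext n; ring
      have e2 : g z * qq 1 z ^ (N + 1) =
          f z * qq 1 z ^ (N + 1) - a 0 * (J z ^ (N + 1) * qq 1 z ^ (N + 1)) := by
        simp only [g]; ring
      rw [e1, e2]
      exact h1
    have hg' := lower (by simp [he0]) hg
    obtain ⟨P, hP1, hP2, hP3⟩ := ih g ⟨fun n => a (n + 1) - a 0 * e (n + 1), fun n =>
        R.sub_mem (haR _) (R.mul_mem (haR 0) (intCast_mem R _)), hg'⟩ (by
          intro z hz
          simp only [g]
          rw [hS z hz, (h_INV.2.2.1 z hz).2.2])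
    refine ⟨P + C (a 0) * X ^ (N + 1), ?_, ?_, ?_⟩
    · intro n
      rw [coeff_add, coeff_C_mul, coeff_X_pow]
      refine R.add_mem (hP1 n) (R.mul_mem (haR 0) ?_)
      split_ifs
      · exact R.one_mem
      · exact R.zero_mem
    · refine (natDegree_add_le _ _).trans (max_le (hP2.trans (Nat.le_succ N)) ?_)
      exact (natDegree_C_mul_le _ _).trans (by simp)
    · intro z hz
      have := hP3 z hz
      simp only [g] at this
      rw [eval_add, ← this]
      simp

end SSM
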