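import Pool.Agent.SSM.Targets

/-!
# `SL₂(ℤ)` permutes the values `J (g z)`
-/

open Polynomial

namespace SSM

namespace PRM_

theorem mem_TT {m : ℕ} {g : (ℕ × ℕ) × ℕ} (h : g ∈ TT m) : g.1.1 * g.1.2 = m ∧ m ≠ 0 := by
  unfold TT at h
  rw [Finset.mem_filter, Finset.mem_product] at h
  exact Nat.mem_divisorsAntidiagonal.1 h.1.1

theorem pos_TT {m : ℕ} {g : (ℕ × ℕ) × ℕ} (h : g ∈ TT m) : 0 < g.1.1 ∧ 0 < g.1.2 := by
  obtain ⟨h1, h2⟩ := mem_TT h
  constructor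
  · rcases Nat.eq_zero_or_pos g.1.1 with h0 | h0
    · rw [h0, zero_mul] at h1
      exact absurd h1.symm h2
    · exact h0
  · rcases Nat.eq_zero_or_pos g.1.2 with h0 | h0
    · rw [h0, mul_zero] at h1
      exact absurd h1.symm h2
    · exact h0

theorem act_im {m : ℕ} {g : (ℕ × ℕ) × ℕ} (h : g ∈ TT m) {z : ℂ} (hz : 0 < z.im) :
    0 < (act g z).im := by
  obtain ⟨h1, h2⟩ := pos_TT h
  have h1' : (0 : ℝ) < g.1.1 := by exact_mod_cast h1
  have h2' : (0 : ℝ) < g.1.2 := by exact_mod_cast h2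
  have e : act g z = (((g.1.1 : ℝ) / (g.1.2 : ℝ) : ℝ) : ℂ) * z + (((g.2 : ℝ) / (g.1.2 : ℝ) : ℝ) : ℂ) := by
    unfold act
    push_cast
    ring
  rw [e, Complex.add_im, Complex.im_ofReal_mul, Complex.ofReal_im, add_zero]
  positivity

/-- the matrix of `g` -/
def mat (g : (ℕ × ℕ) × ℕ) : Matrix (Fin 2) (Fin 2) ℤ := !![(g.1.1 : ℤ), (g.2 : ℤ); 0, (g.1.2 : ℤ)]

/-- `g σ = σ' h` for some `σ'` in `SL₂(ℤ)` -/
def Rel (S : Matrix (Fin 2) (Fin 2) ℤ) (g h : (ℕ × ℕ) × ℕ) : Prop :=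
  ∃ S' : Matrix (Fin 2) (Fin 2) ℤ, S'.det = 1 ∧ mat g * S = S' * mat h

theorem exists_rel (hH : T_HNF) {m : ℕ} (hm : 1 ≤ m) (S : Matrix (Fin 2) (Fin 2) ℤ)
    (hS : S.det = 1) {g : (ℕ × ℕ) × ℕ} (hg : g ∈ TT m) : ∃ h ∈ TT m, Rel S g h := by
  obtain ⟨h1, h2⟩ := mem_TT hg
  have hdet : (mat g * S).det = m := by
    rw [Matrix.det_mul, hS, mul_one, mat, Matrix.det_fin_two_of]
    rw [mul_zero, sub_zero]
    exact_mod_cast h1
  rw [Matrix.det_fin_two] at hdet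
  obtain ⟨h, hh, a, b, c, d, h3, e1, e2, e3, e4⟩ := (hH m hm).1 _ _ _ _ hdet
  refine ⟨h, hh, !![a, b; c, d], ?_, ?_⟩
  · rw [Matrix.det_fin_two_of]
    exact h3
  · ext i j
    fin_cases i <;> fin_cases j
    · simpa [mat, Matrix.mul_apply] using e1
    · simpa [mat, Matrix.mul_apply] using e2
    · simpa [mat, Matrix.mul_apply] using e3
    · simpa [mat, Matrix.mul_apply] using e4

theorem rel_inj (hH : T_HNF) {m : ℕ} (hm : 1 ≤ m) (S : Matrix (Fin 2) (Fin 2) ℤ)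
    (hS : S.det = 1) {g g' h : (ℕ × ℕ) × ℕ} (hg : g ∈ TT m) (hg' : g' ∈ TT m)
    (h1 : Rel S g h) (h2 : Rel S g' h) : g = g' := by
  obtain ⟨S1, d1, e1⟩ := h1
  obtain ⟨S2, d2, e2⟩ := h2
  have hSa : S * S.adjugate = 1 := by rw [Matrix.mul_adjugate, hS, one_smul]
  have hS2 : S2.adjugate * S2 = 1 := by rw [Matrix.adjugate_mul, d2, one_smul]
  have e3 : mat h = S2.adjugate * (mat g' * S) := by
    rw [e2, ← Matrix.mul_assoc, hS2, Matrix.one_mul]
  have e4 : mat g = S1 * S2.adjugate * mat g' := by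
    calc mat g = mat g * (S * S.adjugate) := by rw [hSa, Matrix.mul_one]
      _ = (mat g * S) * S.adjugate := by rw [Matrix.mul_assoc]
      _ = S1 * (S2.adjugate * (mat g' * S)) * S.adjugate := by rw [e1, ← e3]
      _ = S1 * S2.adjugate * mat g' * (S * S.adjugate) := by simp only [Matrix.mul_assoc]
      _ = _ := by rw [hSa, Matrix.mul_one]
  set T := S1 * S2.adjugate with hT
  have dT : T.det = 1 := by
    rw [hT, Matrix.det_mul, d1, one_mul, Matrix.det_adjugate, d2]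
    simp
  rw [Matrix.det_fin_two] at dT
  have f1 := congrFun (congrFun e4 0) 0
  have f2 := congrFun (congrFun e4 0) 1
  have f3 := congrFun (congrFun e4 1) 0
  have f4 := congrFun (congrFun e4 1) 1
  simp only [mat, Matrix.mul_apply, Fin.sum_univ_two, Matrix.of_apply, Matrix.cons_val_zero,
    Matrix.cons_val_one, Matrix.cons_val', Matrix.cons_val_fin_one, mul_zero, add_zero] at f1 f2 f3 f4
  exact (hH m hm).2 g' hg' g hg _ _ _ _ dT f1 f2 f3 f4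

theorem J_rel (hI : T_INV) {m : ℕ} {a b c d : ℤ} (h1 : a * d - b * c = 1) {z : ℂ} (hz : 0 < z.im)
    {g h : (ℕ × ℕ) × ℕ} (hg : g ∈ TT m) (hh : h ∈ TT m) (hr : Rel !![a, b; c, d] g h) :
    J (act g ((a * z + b) / (c * z + d))) = J (act h z) := by
  obtain ⟨S', dS, e⟩ := hr
  rw [Matrix.det_fin_two] at dS
  have hd := (hI.2.1 a b c d h1 z hz).2.1
  obtain ⟨hw, hd', hJ⟩ := hI.2.1 _ _ _ _ dS (act h z) (act_im hh hz)
  rw [← hJ]
  congr 1
  have f1 := congrArg (Int.cast : ℤ → ℂ) (congrFun (congrFun e 0) 0)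
  have f2 := congrArg (Int.cast : ℤ → ℂ) (congrFun (congrFun e 0) 1)
  have f3 := congrArg (Int.cast : ℤ → ℂ) (congrFun (congrFun e 1) 0)
  have f4 := congrArg (Int.cast : ℤ → ℂ) (congrFun (congrFun e 1) 1)
  simp only [mat, Matrix.mul_apply, Fin.sum_univ_two, Matrix.of_apply, Matrix.cons_val_zero,
    Matrix.cons_val_one, Matrix.cons_val', Matrix.cons_val_fin_one, mul_zero, add_zero,
    zero_mul, zero_add] at f1 f2 f3 f4
  push_cast at f1 f2 f3 f4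
  have hg2 : (g.1.2 : ℂ) ≠ 0 := by exact_mod_cast (pos_TT hg).2.ne'
  have hh2 : (h.1.2 : ℂ) ≠ 0 := by exact_mod_cast (pos_TT hh).2.ne'
  have k1 : act g ((a * z + b) / (c * z + d)) =
      ((g.1.1 * a + g.2 * c) * z + (g.1.1 * b + g.2 * d)) / (g.1.2 * c * z + g.1.2 * d) := by
    have hgd : (g.1.2 : ℂ) * c * z + g.1.2 * d ≠ 0 := by
      rw [show (g.1.2 : ℂ) * c * z + g.1.2 * d = g.1.2 * (c * z + d) by ring]
      exact mul_ne_zero hg2 hd
    have e1 : ((c : ℂ) * z + d) * ((a * z + b) / (c * z + d)) = a * z + b := mul_div_cancel₀ _ hd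
    unfold act
    rw [div_eq_div_iff hg2 hgd]
    generalize ((a : ℂ) * z + b) / (c * z + d) = w at e1 ⊢
    linear_combination (g.1.1 : ℂ) * g.1.2 * e1
  have hd2 : ((S' 1 0 : ℤ) : ℂ) * (h.1.1 * z + h.2) + (S' 1 1 : ℤ) * h.1.2 ≠ 0 := by
    intro h0
    apply hd'
    unfold act
    field_simp
    linear_combination h0
  have k2 : (((S' 0 0 : ℤ) : ℂ) * act h z + (S' 0 1 : ℤ)) / ((S' 1 0 : ℤ) * act h z + (S' 1 1 : ℤ)) =
      (((S' 0 0 : ℤ) : ℂ) * (h.1.1 * z + h.2) + (S' 0 1 : ℤ) * h.1.2) /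
        ((S' 1 0 : ℤ) * (h.1.1 * z + h.2) + (S' 1 1 : ℤ) * h.1.2) := by
    rw [div_eq_div_iff hd' hd2]
    unfold act
    field_simp
  rw [k1, k2]
  congr 1
  · linear_combination z * f1 + f2
  · linear_combination z * f3 + f4

end PRM_

open PRM_ in
theorem p_PRM (hH : T_HNF) (hI : T_INV) : T_PRM := by
  intro m hm a b c d h1 z hz
  have hS : (!![a, b; c, d] : Matrix (Fin 2) (Fin 2) ℤ).det = 1 := by
    rw [Matrix.det_fin_two_of]
    exact h1
  choose! π hπ hr using fun g (hg : g ∈ TT m) => exists_rel hH hm _ hS hg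
  have hinj : Set.InjOn π (TT m : Set ((ℕ × ℕ) × ℕ)) := by
    intro g hg g' hg' e
    have hg1 : g ∈ TT m := hg
    have hg2 : g' ∈ TT m := hg'
    exact rel_inj hH hm _ hS hg1 hg2 (hr g hg1) (e ▸ hr g' hg2)
  have hmaps : Set.MapsTo π (TT m : Set ((ℕ × ℕ) × ℕ)) (TT m : Set ((ℕ × ℕ) × ℕ)) :=
    fun g hg => hπ g hg
  refine Finset.prod_nbij π hπ hinj (Finset.surjOn_of_injOn_of_card_le π hmaps hinj le_rfl) ?_
  intro g hg
  rw [J_rel hI h1 hz hg (hπ g hg) (hr g hg)]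

end SSM
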