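import Pool.Agent.SSM.Targets

/-!
# MP_d74fca_nt, part IV: PSG, the sign of `P_D(x)`
-/

set_option autoImplicit false

open Polynomial

namespace SSM

namespace PSG_

/-- a nonsquare `n` has `2 kk n` divisors -/
theorem card_divisors (n : ℕ) (hn : n ≠ 0) (hsq : ¬ IsSquare n) : n.divisors.card = 2 * kk n := by
  classical
  have h1 := Finset.card_filter_add_card_filter_not (s := n.divisors) (fun e => n < e ^ 2)
  have h2 : (n.divisors.filter (fun e => ¬ n < e ^ 2)).card = kk n := by
    unfold kk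
    refine Finset.card_nbij' (fun e => n / e) (fun e => n / e) ?_ ?_ ?_ ?_
    · intro e he
      rw [Finset.mem_coe, Finset.mem_filter, Nat.mem_divisors] at he ⊢
      obtain ⟨⟨hd, _⟩, hlt⟩ := he
      obtain ⟨k, rfl⟩ := hd
      have he0 : 0 < e := Nat.pos_of_ne_zero (by rintro rfl; simp at hn)
      have hk0 : 0 < k := Nat.pos_of_ne_zero (by rintro rfl; simp at hn)
      dsimp only
      rw [Nat.mul_div_cancel_left k he0]
      refine ⟨⟨Dvd.intro_left e rfl, hn⟩, ?_⟩
      have hne : e ≠ k := by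
        rintro rfl
        exact hsq ⟨e, rfl⟩
      have hle : e ≤ k := by
        by_contra hc
        push Not at hc
        apply hlt
        rw [sq]
        exact Nat.mul_lt_mul_of_pos_left hc he0
      have hlt2 : e < k := lt_of_le_of_ne hle hne
      rw [sq]
      exact Nat.mul_lt_mul_of_pos_right hlt2 hk0
    · intro e he
      rw [Finset.mem_coe, Finset.mem_filter, Nat.mem_divisors] at he ⊢
      obtain ⟨⟨hd, _⟩, hlt⟩ := he
      obtain ⟨k, rfl⟩ := hd
      have he0 : 0 < e := Nat.pos_of_ne_zero (by rintro rfl; simp at hn)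
      have hk0 : 0 < k := Nat.pos_of_ne_zero (by rintro rfl; simp at hn)
      dsimp only
      rw [Nat.mul_div_cancel_left k he0]
      refine ⟨⟨Dvd.intro_left e rfl, hn⟩, ?_⟩
      have hle : k < e := by
        by_contra hc
        push Not at hc
        rw [sq] at hlt
        have := Nat.mul_le_mul_left e hc
        omega
      rw [not_lt, sq]
      exact Nat.mul_le_mul_right k hle.le
    · intro e he
      rw [Finset.mem_coe, Finset.mem_filter, Nat.mem_divisors] at he
      exact Nat.div_div_self he.1.1 hn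
    · intro e he
      rw [Finset.mem_coe, Finset.mem_filter, Nat.mem_divisors] at he
      exact Nat.div_div_self he.1.1 hn
  rw [h2] at h1
  have h3 : (n.divisors.filter (fun e => n < e ^ 2)).card = kk n := rfl
  omega

theorem not_sq {n : ℕ} (hs : Squarefree n) (h1 : 1 < n) : ¬ IsSquare n := by
  rintro ⟨r, hr⟩
  have h2 := hs r ⟨1, by rw [hr, mul_one]⟩
  rw [Nat.isUnit_iff] at h2
  rw [h2] at hr
  omega

theorem kk_prime {D : ℕ} (hD : D.Prime) : kk D = 1 := by
  have h1 := card_divisors D hD.ne_zero (not_sq hD.prime.squarefree hD.one_lt)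
  rw [hD.divisors, Finset.card_pair hD.one_lt.ne] at h1
  omega

theorem kk_mul {a c : ℕ} (ha : a.Prime) (hc : 1 < c) (hs : Squarefree (a * c)) :
    Even (kk (a * c)) := by
  have hcop : Nat.Coprime a c := Nat.coprime_of_squarefree_mul hs
  have h1 := card_divisors (a * c) (mul_ne_zero ha.ne_zero (by omega))
    (not_sq hs (by nlinarith [ha.one_lt]))
  have h2 := card_divisors c (by omega) (not_sq (hs.squarefree_of_dvd (Dvd.intro_left a rfl)) hc)
  rw [hcop.card_divisors_mul, ha.divisors, Finset.card_pair ha.one_lt.ne, h2] at h1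
  exact ⟨kk c, by omega⟩

theorem near_prime {D : ℕ} (hD : D.Prime) {η : ℝ} (h : η ^ 2 < D) : near D η = 0 := by
  unfold near
  rw [Finset.card_eq_zero, Finset.filter_eq_empty_iff]
  intro e he
  rw [hD.divisors, Finset.mem_insert, Finset.mem_singleton] at he
  have h1 := hD.one_lt
  have h1' : (1 : ℝ) < D := by exact_mod_cast h1
  rintro ⟨h2, h3⟩
  rcases he with rfl | rfl
  · omega
  · nlinarith

/-- a divisor `> 1` of `D` is bigger than `B` -/
theorem big {B D e : ℕ} (hB : ∀ ℓ : ℕ, ℓ.Prime → ℓ ∣ D → B < ℓ) (hD : D ≠ 0) (he : e ∣ D)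
    (h1 : e ≠ 1) : B < e := by
  obtain ⟨p, hp, hpe⟩ := Nat.exists_prime_and_dvd h1
  have h2 := hB p hp (hpe.trans he)
  have h3 := Nat.le_of_dvd (Nat.pos_of_ne_zero (fun h => hD (Nat.eq_zero_of_zero_dvd (h ▸ he)))) hpe
  omega

theorem near_mul {B a c : ℕ} (ha : a.Prime) (hac : a < c)
    (hB : ∀ ℓ : ℕ, ℓ.Prime → ℓ ∣ a * c → B < ℓ) {ρ η : ℝ} (hρ : (c : ℝ) < ρ * a)
    (hρη : ρ ≤ η ^ 2) (hρ2 : ρ ≤ 2) (hB2 : 2 ≤ B) (hBη : 2 * η ^ 2 ≤ (B : ℝ) ^ 2) :
    near (a * c) η = 1 := by
  have ha0 := ha.pos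
  have hD0 : a * c ≠ 0 := mul_ne_zero ha.ne_zero (by omega)
  have haR : (0 : ℝ) < a := by exact_mod_cast ha0
  have hacR : (a : ℝ) < c := by exact_mod_cast hac
  have hcR : (0 : ℝ) < c := haR.trans hacR
  have hB2R : (2 : ℝ) ≤ B := by exact_mod_cast hB2
  have hc2 : (c : ℝ) < 2 * a := hρ.trans_le (mul_le_mul_of_nonneg_right hρ2 haR.le)
  have hcη : (c : ℝ) < η ^ 2 * a := hρ.trans_le (mul_le_mul_of_nonneg_right hρη haR.le)
  unfold near
  rw [Finset.card_eq_one]
  refine ⟨c, ?_⟩
  ext e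
  rw [Finset.mem_filter, Nat.mem_divisors, Finset.mem_singleton]
  constructor
  · rintro ⟨⟨hd, _⟩, h1, h2⟩
    have h1R : ((a : ℝ) * c) < (e : ℝ) ^ 2 := by exact_mod_cast h1
    push_cast at h2
    rcases (Nat.coprime_or_dvd_of_prime ha e) with hcop | hdvd
    · have hec : e ∣ c := (Nat.Coprime.symm hcop).dvd_of_dvd_mul_left hd
      obtain ⟨k, hk⟩ := hec
      by_cases hk1 : k = 1
      · rw [hk, hk1, mul_one]
      · exfalso
        have hkB : B < k := big hB hD0 (Dvd.dvd.mul_left (Dvd.intro_left e hk.symm) a) hk1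
        have hkR : (B : ℝ) < k := by exact_mod_cast hkB
        have hcR' : (c : ℝ) = e * k := by exact_mod_cast hk
        have he0 : (0 : ℝ) ≤ e := Nat.cast_nonneg e
        have h3 : (e : ℝ) * 2 ≤ c := by
          rw [hcR']
          exact mul_le_mul_of_nonneg_left (by linarith) he0
        have h4 : (c : ℝ) * c < 2 * (a * c) := by
          rw [← mul_assoc]
          exact mul_lt_mul_of_pos_right hc2 hcR
        nlinarith
    · exfalso
      obtain ⟨k, hk⟩ := hdvd
      have hkc : k ∣ c := by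
        rw [hk] at hd
        exact Nat.dvd_of_mul_dvd_mul_left ha0 hd
      have heR : (e : ℝ) = a * k := by exact_mod_cast hk
      by_cases hk1 : k = 1
      · rw [hk1] at heR
        rw [heR] at h1R
        push_cast at h1R
        nlinarith
      · have hkB : B < k := big hB hD0 (Dvd.dvd.mul_left hkc a) hk1
        have hkR : (B : ℝ) < k := by exact_mod_cast hkB
        have h3 : (B : ℝ) ^ 2 ≤ (k : ℝ) ^ 2 := by nlinarith
        have h5 : 2 * η ^ 2 * (a : ℝ) ^ 2 ≤ (e : ℝ) ^ 2 := by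
          rw [heR, mul_pow]
          nlinarith [sq_nonneg (a : ℝ)]
        have h6 : η ^ 2 * (a * c) ≤ η ^ 2 * (a * (2 * a)) := by
          apply mul_le_mul_of_nonneg_left _ (sq_nonneg η)
          apply mul_le_mul_of_nonneg_left hc2.le haR.le
        nlinarith
  · rintro rfl
    refine ⟨⟨Dvd.intro_left a rfl, hD0⟩, ?_, ?_⟩
    · nlinarith
    · push_cast
      rw [sq, ← mul_assoc]
      exact mul_lt_mul_of_pos_right hcη hcR

end PSG_

open PSG_ in
theorem p_PSG (hSGN : T_SGN) : T_PSG := by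
  intro x hx
  obtain ⟨δ, η₁, η₂, hδ, hη1, hη2, H⟩ := hSGN x hx
  obtain ⟨B, hB⟩ := exists_nat_ge (2 * η₂ ^ 2 + 2)
  refine ⟨B, min (η₁ ^ 2) 2, lt_min (by nlinarith) (by norm_num), ?_⟩
  intro D P hAdm hP
  obtain ⟨hs, h24, hBD, hBl, hcase⟩ := hAdm
  have hη2p : 1 < η₂ := hη1.trans_le hη2
  have hB2R : (2 : ℝ) ≤ B := by nlinarith
  have hB2 : 2 ≤ B := by exact_mod_cast hB2R
  have hDo : Odd D := Nat.odd_iff.2 (by omega)
  have hDsq : ¬ IsSquare D := not_sq hs (by omega)
  obtain ⟨F, R, hF, hR, hFPR⟩ := hP.sgn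
  -- the sign at points near `x` where `R` does not vanish
  have key : ∀ x' : ℝ, |x' - x| < δ → aeval x' R ≠ 0 → aeval x' P ≤ 0 := by
    intro x' hx' hR0
    obtain ⟨η, e1, e2, e3⟩ := H x' hx'
    have h1 := e3 D F hDo hDsq hF
    rw [hFPR] at h1
    simp only [map_mul, map_pow, aeval_C, algebraMap_int_eq, eq_intCast, Int.cast_pow, Int.cast_neg,
      Int.cast_one, map_neg, map_one] at h1
    have hR2 : 0 < (aeval x' R) ^ 2 := by positivity
    have hηη : η ^ 2 ≤ η₂ ^ 2 := by nlinarith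
    have hηη1 : η₁ ^ 2 ≤ η ^ 2 := by nlinarith
    have hsign : ((-1 : ℝ)) ^ near D η * (-1) ^ kk D = -1 := by
      rcases hcase with hDp | ⟨a, c, hD, ha, hac, hcρ⟩
      · rw [kk_prime hDp, near_prime hDp]
        · norm_num
        · have : (B : ℝ) < D := by exact_mod_cast hBD
          nlinarith
      · have hk := kk_mul ha (ha.one_lt.trans hac) (hD ▸ hs)
        rw [hD, near_mul ha hac (hD ▸ hBl) hcρ ((min_le_left _ _).trans hηη1) (min_le_right _ _)
          hB2 (by nlinarith), hk.neg_one_pow]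
        norm_num
    have h2 : 0 ≤ ((-1 : ℝ) ^ near D η * (-1) ^ kk D) * (aeval x' P * (aeval x' R) ^ 2) := by
      refine h1.trans (le_of_eq ?_)
      ring
    rw [hsign] at h2
    by_contra hc
    push Not at hc
    have := mul_pos hc hR2
    linarith
  by_contra hc
  push Not at hc
  have hcont : Continuous (fun y : ℝ => aeval y P) := Polynomial.continuous_aeval P
  have hev : ∀ᶠ y in nhds x, 0 < aeval y P :=
    (hcont.tendsto x).eventually_const_lt hc
  obtain ⟨r, hr, hball⟩ := Metric.eventually_nhds_iff_ball.1 hev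
  have hfin : {y : ℝ | aeval y R = 0}.Finite := by
    have hR0 : R.map (algebraMap ℤ ℝ) ≠ 0 := (hR.map _).ne_zero
    refine ((R.map (algebraMap ℤ ℝ)).roots.toFinset.finite_toSet).subset ?_
    intro y hy
    rw [Finset.mem_coe, Multiset.mem_toFinset, mem_roots hR0, IsRoot.def, eval_map_algebraMap]
    exact hy
  have hinf : (Set.Ioo x (x + min r δ)).Infinite := Set.Ioo_infinite (by
    have := lt_min hr hδ
    linarith)
  obtain ⟨y, hy, hyR⟩ := (hinf.sdiff hfin).nonempty
  have hd : |y - x| < min r δ := by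
    rw [abs_of_pos (by linarith [hy.1])]
    linarith [hy.2]
  have h1 := key y (hd.trans_le (min_le_right _ _)) hyR
  have h2 := hball y (by
    rw [Metric.mem_ball, Real.dist_eq]
    exact hd.trans_le (min_le_left _ _))
  linarith

end SSM
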