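import Pool.Agent.SSM.Targets

/-!
# MP_d74fca_nt, part IV: power sums have integral expansions (PSM)
-/

open Polynomial

namespace SSM

/-- reindexing along an injection of the exponents -/
theorem PSM_.reindex (a : ℕ → ℂ) (ha : ∀ n, a n ∈ ZZ) (φ : ℕ → ℕ)
    (hφ : Function.Injective φ) : ∃ a' : ℕ → ℂ, (∀ n, a' n ∈ ZZ) ∧ ∀ q s : ℂ,
      HasSum (fun n => a n * q ^ φ n) s → HasSum (fun n => a' n * q ^ n) s := by
  classical
  refine ⟨Function.extend φ a 0, fun n => ?_, fun q s hs => ?_⟩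
  · by_cases hn : ∃ m, φ m = n
    · obtain ⟨m, rfl⟩ := hn
      rw [hφ.extend_apply]
      exact ha m
    · rw [Function.extend_apply' _ _ _ hn]
      exact ZZ.zero_mem
  · have h0 : ∀ x ∉ Set.range φ, (fun n => Function.extend φ a 0 n * q ^ n) x = 0 := by
      intro x hx
      have hx' : ¬ ∃ m, φ m = x := hx
      simp only [Function.extend_apply' _ _ _ hx', Pi.zero_apply, zero_mul]
    rw [← hφ.hasSum_iff h0]
    refine hs.congr_fun ?_
    intro n
    simp only [Function.comp_apply, hφ.extend_apply]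

/-- powers of `J` -/
theorem PSM_.pow (hJ : T_JEX) (hR : T_RNG) (k : ℕ) : HasExp ZZ 1 k (fun z => J z ^ k) := by
  obtain ⟨_, _, _, h4, _, h6, _, h8⟩ := hR
  obtain ⟨c, _, hc⟩ := hJ
  have hJ' : HasExp ZZ 1 1 J := ⟨fun n => (c n : ℂ), fun n => ⟨c n, rfl⟩, hc⟩
  induction k with
  | zero =>
    have h := h6 ZZ.toAddSubgroup 1 1 ZZ.one_mem
    refine h8 ZZ.toAddSubgroup 1 0 _ _ ?_ h
    intro z _
    simp
  | succ k ih =>
    have h := h4 ZZ.toAddSubgroup ZZ.toAddSubgroup ZZ.toAddSubgroup 1 k 1 _ _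
      (fun x hx y hy => ZZ.mul_mem hx hy) ih hJ'
    refine h8 ZZ.toAddSubgroup 1 (k + 1) _ _ ?_ h
    intro z _
    simp only [pow_succ]

/-- orthogonality of roots of unity -/
theorem PSM_.orth (d n k : ℕ) (hd : 1 ≤ d) :
    ∑ b ∈ Finset.range d, ((Complex.exp (2 * Real.pi * Complex.I / d)) ^ n *
      ((Complex.exp (2 * Real.pi * Complex.I / d))⁻¹) ^ k) ^ b =
    if n % d = k % d then (d : ℂ) else 0 := by
  have hd0 : d ≠ 0 := by omega
  have hp := Complex.isPrimitiveRoot_exp d hd0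
  set ζ : ℂ := Complex.exp (2 * Real.pi * Complex.I / d) with hζ
  have hζ0 : ζ ≠ 0 := Complex.exp_ne_zero _
  have hiff : ζ ^ n * ζ⁻¹ ^ k = 1 ↔ n % d = k % d := by
    have h1 : ζ ^ n * ζ⁻¹ ^ k = 1 ↔ ζ ^ n = ζ ^ k := by
      rw [inv_pow]
      have : ζ ^ k ≠ 0 := pow_ne_zero _ hζ0
      rw [← div_eq_mul_inv, div_eq_one_iff_eq this]
    have h2 : ∀ i : ℕ, ζ ^ i = ζ ^ (i % d) := by
      intro i
      conv_lhs => rw [← Nat.mod_add_div i d]
      rw [pow_add, pow_mul, hp.pow_eq_one, one_pow, mul_one]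
    rw [h1, h2 n, h2 k]
    constructor
    · intro h
      exact hp.pow_inj (Nat.mod_lt _ (by omega)) (Nat.mod_lt _ (by omega)) h
    · intro h
      rw [h]
  split_ifs with h
  · rw [hiff.2 h]
    simp
  · have hne : ζ ^ n * ζ⁻¹ ^ k ≠ 1 := fun h' => h (hiff.1 h')
    have hd1 : (ζ ^ n * ζ⁻¹ ^ k) ^ d = 1 := by
      rw [mul_pow, ← pow_mul, ← pow_mul, mul_comm n d, mul_comm k d, pow_mul, pow_mul, inv_pow,
        hp.pow_eq_one]
      simp
    have h2 := geom_sum_mul (ζ ^ n * ζ⁻¹ ^ k) d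
    rw [hd1, sub_self] at h2
    rcases mul_eq_zero.1 h2 with h3 | h3
    · exact h3
    · exact absurd (sub_eq_zero.1 h3) hne

/-- the sum over `b` -/
theorem PSM_.inner (f : ℂ → ℂ) (k a d N : ℕ) (ha : 1 ≤ a) (hd : 1 ≤ d) (hN : a * (k / d) ≤ N)
    (hf : HasExp ZZ 1 k f) :
    HasExp ZZ 1 N (fun z => ∑ b ∈ Finset.range d, f ((a * z + b) / d)) := by
  obtain ⟨c, hc, hs⟩ := hf
  obtain ⟨a', ha', h'⟩ := PSM_.reindex (fun t => (d : ℂ) * c (k % d + d * t))
    (fun t => ZZ.mul_mem ⟨(d : ℤ), by simp⟩ (hc _)) (fun t => a * t + (N - a * (k / d)))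
    (fun x y h => by
      have h1 : a * x = a * y := by
        have : a * x + (N - a * (k / d)) = a * y + (N - a * (k / d)) := h
        omega
      exact Nat.eq_of_mul_eq_mul_left (by omega) h1)
  refine ⟨a', ha', fun z hz => h' _ _ ?_⟩
  set ζ : ℂ := Complex.exp (2 * Real.pi * Complex.I / d) with hζ
  set u : ℂ := qq d z with hu
  have hζ0 : ζ ≠ 0 := Complex.exp_ne_zero _
  have hu0 : u ≠ 0 := Complex.exp_ne_zero _
  have hdC : (d : ℂ) ≠ 0 := by exact_mod_cast (by omega : d ≠ 0)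
  have hq1 : qq 1 z = u ^ d := by
    rw [hu]
    unfold qq
    rw [← Complex.exp_nat_mul]
    congr 1
    push_cast
    field_simp
  have hw : ∀ b : ℕ, 0 < (((a : ℂ) * z + b) / d).im := by
    intro b
    have e : (((a : ℂ) * z + b) / d).im = (a : ℝ) * z.im / d := by
      rw [Complex.div_natCast_im]
      simp
    rw [e]
    have h1 : (0 : ℝ) < a := by exact_mod_cast (by omega : 0 < a)
    have h2 : (0 : ℝ) < d := by exact_mod_cast (by omega : 0 < d)
    positivity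
  have hqw : ∀ b : ℕ, qq 1 (((a : ℂ) * z + b) / d) = ζ ^ b * u ^ a := by
    intro b
    rw [hu, hζ]
    unfold qq
    rw [← Complex.exp_nat_mul, ← Complex.exp_nat_mul, ← Complex.exp_add]
    congr 1
    push_cast
    field_simp
    ring
  have hsb : ∀ b ∈ Finset.range d, HasSum
      (fun n : ℕ => c n * (u ^ (a * n) * (u⁻¹) ^ (a * k) * u ^ (d * N)) * (ζ ^ n * ζ⁻¹ ^ k) ^ b)
      (f (((a : ℂ) * z + b) / d) * (u ^ d) ^ N) := by
    intro b _
    have h := (hs _ (hw b)).mul_right ((ζ⁻¹ ^ b * u⁻¹ ^ a) ^ k * (u ^ d) ^ N)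
    rw [hqw] at h
    have e1 : f (((a : ℂ) * z + b) / d) * (ζ ^ b * u ^ a) ^ k *
        ((ζ⁻¹ ^ b * u⁻¹ ^ a) ^ k * (u ^ d) ^ N) = f (((a : ℂ) * z + b) / d) * (u ^ d) ^ N := by
      have e2 : (ζ ^ b * u ^ a) ^ k * (ζ⁻¹ ^ b * u⁻¹ ^ a) ^ k = 1 := by
        rw [← mul_pow, mul_mul_mul_comm, ← mul_pow, ← mul_pow, mul_inv_cancel₀ hζ0,
          mul_inv_cancel₀ hu0, one_pow, one_pow, one_mul, one_pow]
      calc f (((a : ℂ) * z + b) / d) * (ζ ^ b * u ^ a) ^ k *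
          ((ζ⁻¹ ^ b * u⁻¹ ^ a) ^ k * (u ^ d) ^ N)
          = f (((a : ℂ) * z + b) / d) * ((ζ ^ b * u ^ a) ^ k * (ζ⁻¹ ^ b * u⁻¹ ^ a) ^ k) *
            (u ^ d) ^ N := by ring
        _ = f (((a : ℂ) * z + b) / d) * (u ^ d) ^ N := by rw [e2, mul_one]
    rw [e1] at h
    refine h.congr_fun ?_
    intro n
    have e3 : (ζ ^ b * u ^ a) ^ n = (ζ ^ n) ^ b * u ^ (a * n) := by
      rw [mul_pow, ← pow_mul, ← pow_mul, ← pow_mul, mul_comm b n]
    have e4 : (ζ⁻¹ ^ b * u⁻¹ ^ a) ^ k = (ζ⁻¹ ^ k) ^ b * u⁻¹ ^ (a * k) := by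
      rw [mul_pow, ← pow_mul, ← pow_mul, ← pow_mul, mul_comm b k]
    rw [e3, e4, mul_pow, pow_mul u d N]
    ring
  have hsum := hasSum_sum hsb
  rw [← Finset.sum_mul] at hsum
  rw [hq1]
  have hinj : Function.Injective (fun t : ℕ => k % d + d * t) := by
    intro x y h
    have h1 : k % d + d * x = k % d + d * y := h
    exact Nat.eq_of_mul_eq_mul_left (by omega) (by omega : d * x = d * y)
  have hout : ∀ n ∉ Set.range (fun t : ℕ => k % d + d * t),
      (fun n : ℕ => ∑ b ∈ Finset.range d,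
        c n * (u ^ (a * n) * (u⁻¹) ^ (a * k) * u ^ (d * N)) * (ζ ^ n * ζ⁻¹ ^ k) ^ b) n = 0 := by
    intro n hn
    have hnk : ¬ n % d = k % d := by
      intro h
      apply hn
      refine ⟨n / d, ?_⟩
      show k % d + d * (n / d) = n
      rw [← h]
      exact Nat.mod_add_div n d
    show ∑ b ∈ Finset.range d,
        c n * (u ^ (a * n) * (u⁻¹) ^ (a * k) * u ^ (d * N)) * (ζ ^ n * ζ⁻¹ ^ k) ^ b = 0
    rw [← Finset.mul_sum, PSM_.orth d n k hd, if_neg hnk, mul_zero]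
  rw [← hinj.hasSum_iff hout] at hsum
  refine hsum.congr_fun ?_
  intro t
  show _ = ∑ b ∈ Finset.range d, c (k % d + d * t) * (u ^ (a * (k % d + d * t)) *
    (u⁻¹) ^ (a * k) * u ^ (d * N)) * (ζ ^ (k % d + d * t) * ζ⁻¹ ^ k) ^ b
  rw [← Finset.mul_sum, PSM_.orth d _ k hd, if_pos (by simp)]
  obtain ⟨e, he⟩ := Nat.exists_eq_add_of_le hN
  have h5 : N - a * (k / d) = e := by omega
  have h6 : a * (k % d + d * t) + d * N = a * k + d * (a * t + e) := by
    have h7 : k = k % d + d * (k / d) := (Nat.mod_add_div k d).symm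
    rw [he]
    conv_rhs => rw [h7]
    have h8 : (k % d + d * (k / d)) / d = k / d := by rw [Nat.mod_add_div]
    ring
  have h9 : u ^ (a * (k % d + d * t)) * u⁻¹ ^ (a * k) * u ^ (d * N) = (u ^ d) ^ (a * t + e) := by
    have h10 : u ^ (a * (k % d + d * t)) * u ^ (d * N) = u ^ (a * k) * (u ^ d) ^ (a * t + e) := by
      rw [← pow_add, h6, pow_add, pow_mul u d]
    have h11 : u ^ (a * k) ≠ 0 := pow_ne_zero _ hu0
    calc u ^ (a * (k % d + d * t)) * u⁻¹ ^ (a * k) * u ^ (d * N)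
        = u ^ (a * (k % d + d * t)) * u ^ (d * N) * u⁻¹ ^ (a * k) := by ring
      _ = u ^ (a * k) * (u ^ d) ^ (a * t + e) * u⁻¹ ^ (a * k) := by rw [h10]
      _ = (u ^ d) ^ (a * t + e) := by
        rw [inv_pow]
        field_simp
  rw [h9, h5]
  ring

/-- finite sums -/
theorem PSM_.finsum (hR : T_RNG) {ι : Type} (s : Finset ι) (N : ℕ) (F : ι → ℂ → ℂ)
    (h : ∀ i ∈ s, HasExp ZZ 1 N (F i)) : HasExp ZZ 1 N (fun z => ∑ i ∈ s, F i z) := by
  classical
  obtain ⟨h1, h2, _, _, _, h6, _, h8⟩ := hR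
  induction s using Finset.induction_on with
  | empty =>
    have h0 := h1 ZZ.toAddSubgroup 1 0 N _ (h6 ZZ.toAddSubgroup 1 0 ZZ.zero_mem) (Nat.zero_le N)
    refine h8 ZZ.toAddSubgroup 1 N _ _ ?_ h0
    intro z _
    simp
  | insert i s hi ih =>
    have ha := h2 ZZ.toAddSubgroup 1 N _ _ (h i (Finset.mem_insert_self i s))
      (ih (fun j hj => h j (Finset.mem_insert_of_mem hj)))
    refine h8 ZZ.toAddSubgroup 1 N _ _ ?_ ha
    intro z _
    rw [Finset.sum_insert hi]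

/-- splitting the sum over `TT m` -/
theorem PSM_.split (m : ℕ) (G : (ℕ × ℕ) × ℕ → ℂ) :
    ∑ g ∈ TT m, G g = ∑ p ∈ m.divisorsAntidiagonal, ∑ b ∈ Finset.range p.2, G (p, b) := by
  unfold TT
  rw [Finset.sum_filter, Finset.sum_product]
  refine Finset.sum_congr rfl fun p hp => ?_
  rw [← Finset.sum_filter]
  refine Finset.sum_congr ?_ fun b _ => rfl
  have hp' := Nat.mem_divisorsAntidiagonal.1 hp
  have h1 : p.2 ∣ m := ⟨p.1, by rw [← hp'.1]; ring⟩
  have h2 : p.2 ≤ m := Nat.le_of_dvd (Nat.pos_of_ne_zero hp'.2) h1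
  ext b
  simp only [Finset.mem_filter, Finset.mem_range]
  omega

theorem p_PSM (h_JEX : T_JEX) (h_RNG : T_RNG) : T_PSM := by
  intro m k hm
  refine ⟨k * m, ?_⟩
  have key : HasExp ZZ 1 (k * m) (fun z => ∑ p ∈ m.divisorsAntidiagonal,
      ∑ b ∈ Finset.range p.2, J ((p.1 * z + b) / p.2) ^ k) := by
    refine PSM_.finsum h_RNG m.divisorsAntidiagonal (k * m)
      (fun p z => ∑ b ∈ Finset.range p.2, J ((p.1 * z + b) / p.2) ^ k) ?_
    intro p hp
    have hp' := Nat.mem_divisorsAntidiagonal.1 hp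
    have h1 : 1 ≤ p.1 := by
      rcases Nat.eq_zero_or_pos p.1 with h | h
      · exfalso
        rw [h, zero_mul] at hp'
        exact hp'.2 hp'.1.symm
      · exact h
    have h2 : 1 ≤ p.2 := by
      rcases Nat.eq_zero_or_pos p.2 with h | h
      · exfalso
        rw [h, mul_zero] at hp'
        exact hp'.2 hp'.1.symm
      · exact h
    have h3 : p.1 * (k / p.2) ≤ k * m := by
      have h4 : p.1 ≤ m := Nat.le_of_dvd hm ⟨p.2, hp'.1.symm⟩
      calc p.1 * (k / p.2) ≤ m * k := Nat.mul_le_mul h4 (Nat.div_le_self _ _)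
        _ = k * m := mul_comm _ _
    exact PSM_.inner (fun z => J z ^ k) k p.1 p.2 (k * m) h1 h2 h3 (PSM_.pow h_JEX h_RNG k)
  refine h_RNG.2.2.2.2.2.2.2 ZZ.toAddSubgroup 1 (k * m) _ _ ?_ key
  intro z _
  rw [PSM_.split m (fun g => J (act g z) ^ k)]
  rfl

end SSM
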