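import Pool.Agent.SSM.Targets

/-! Roots of `P_D` and reduced forms. -/

namespace SSM

namespace RDS_

/-- transformation of the quadratic equation -/
theorem transform (α β γ a b c d t : ℂ) (hne : c * t + d ≠ 0)
    (h : α * t ^ 2 + 2 * β * t + γ = 0) :
    (α * d ^ 2 - 2 * β * c * d + γ * c ^ 2) * ((a * t + b) / (c * t + d)) ^ 2 +
      2 * (-(α * b * d) + β * (a * d + b * c) - γ * a * c) * ((a * t + b) / (c * t + d)) +
      (α * b ^ 2 - 2 * β * a * b + γ * a ^ 2) = 0 := by
  field_simp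
  linear_combination (a * d - b * c) ^ 2 * h

/-- square roots of `-D` with positive imaginary part -/
theorem sqrt_neg (D : ℕ) (w : ℂ) (hw : w ^ 2 = -(D : ℂ)) (him : 0 < w.im) :
    w = Real.sqrt D * Complex.I := by
  have h1 := congrArg Complex.re hw
  have h2 := congrArg Complex.im hw
  rw [pow_two] at h1 h2
  simp only [Complex.mul_re, Complex.mul_im, Complex.neg_re, Complex.natCast_re, Complex.neg_im,
    Complex.natCast_im, neg_zero] at h1 h2
  have h3 : w.re = 0 := by
    have h4 : 2 * (w.re * w.im) = 0 := by linarith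
    have h5 : w.re * w.im = 0 := by linarith
    rcases mul_eq_zero.1 h5 with h6 | h6
    · exact h6
    · exact absurd h6 him.ne'
  rw [h3] at h1
  have h4 : w.im = Real.sqrt D := by
    rw [eq_comm, Real.sqrt_eq_iff_mul_self_eq_of_pos him]
    linarith
  apply Complex.ext
  · simp [h3]
  · simp [h4]

end RDS_

open RDS_ in
theorem p_RDS (h : T_INV) (h' : T_FUN) : T_RDS := by
  intro D t hD hC
  obtain ⟨ht, α, β, γ, hα, hdisc, heq⟩ := hC
  obtain ⟨a, b, c, d, hdet, hu1, hu2, hu3⟩ := h' t ht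
  obtain ⟨-, hne, hJ⟩ := h.2.1 a b c d hdet t ht
  set u : ℂ := (a * t + b) / (c * t + d) with hu
  set A : ℤ := α * d ^ 2 - 2 * β * c * d + γ * c ^ 2 with hA
  set B : ℤ := -(α * b * d) + β * (a * d + b * c) - γ * a * c with hB
  set C : ℤ := α * b ^ 2 - 2 * β * a * b + γ * a ^ 2 with hCdef
  have hdetC : (a : ℂ) * d - b * c = 1 := by exact_mod_cast hdet
  have htr : (A : ℂ) * u ^ 2 + 2 * B * u + C = 0 := by
    have := transform α β γ a b c d t hne heq
    rw [hA, hB, hCdef, hu]
    push_cast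
    exact this
  have hDZ : (0 : ℤ) < D := by exact_mod_cast hD
  have hABC : A * C - B ^ 2 = D := by
    have h1 : A * C - B ^ 2 = (α * γ - β ^ 2) * (a * d - b * c) ^ 2 := by
      rw [hA, hB, hCdef]; ring
    rw [h1, hdet, hdisc]; ring
  have hαA : α * A = (α * d - β * c) ^ 2 + D * c ^ 2 := by
    rw [hA, ← hdisc]; ring
  have hA0 : 0 < A := by
    have h1 : 0 < α * A := by
      rw [hαA]
      by_cases hc : c = 0
      · have hd : d ≠ 0 := by
          rintro rfl
          rw [hc] at hdet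
          simp at hdet
        have h2 : α * d - β * c ≠ 0 := by
          rw [hc, mul_zero, sub_zero]
          exact mul_ne_zero hα.ne' hd
        positivity
      · positivity
    exact pos_of_mul_pos_right h1 hα.le
  have hC0 : 0 < C := by
    have h1 : 0 < A * C := by nlinarith [sq_nonneg B]
    exact pos_of_mul_pos_right h1 hA0.le
  -- the root
  have hw : ((A : ℂ) * u + B) ^ 2 = -(D : ℂ) := by
    have h1 : (A : ℂ) * C - B ^ 2 = D := by exact_mod_cast hABC
    linear_combination (A : ℂ) * htr - h1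
  have hwim : 0 < ((A : ℂ) * u + B).im := by
    have h1 : ((A : ℂ) * u + B).im = A * u.im := by simp
    rw [h1]
    have : (0 : ℝ) < A := by exact_mod_cast hA0
    positivity
  have hroot := sqrt_neg D _ hw hwim
  have hAC : (A : ℂ) ≠ 0 := by exact_mod_cast hA0.ne'
  have hAR : (0 : ℝ) < A := by exact_mod_cast hA0
  have hueq : u = (-(B : ℂ) + Real.sqrt D * Complex.I) / A := by
    rw [eq_div_iff hAC]
    linear_combination hroot
  have hre : (A : ℝ) * u.re = -B := by
    have h1 := congrArg Complex.re hroot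
    simp at h1
    linarith
  have him : (A : ℝ) * u.im = Real.sqrt D := by
    have h1 := congrArg Complex.im hroot
    simp at h1
    linarith
  have h2B : 2 * |B| ≤ A := by
    have h1 : 2 * |(B : ℝ)| ≤ A := by
      have h2 : |(B : ℝ)| = A * |u.re| := by
        rw [← abs_neg, ← hre, abs_mul, abs_of_pos hAR]
      rw [h2]
      nlinarith
    exact_mod_cast h1
  have hAleC : A ≤ C := by
    have h1 : (1 : ℝ) ≤ ‖u‖ ^ 2 := one_le_pow₀ hu3
    have h2 : ‖u‖ ^ 2 = u.re ^ 2 + u.im ^ 2 := by
      rw [← Complex.normSq_eq_norm_sq, Complex.normSq_apply]; ring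
    have h3 : (A : ℝ) ^ 2 * ‖u‖ ^ 2 = A * C := by
      have h4 : (A : ℝ) * C - B ^ 2 = D := by exact_mod_cast hABC
      have h5 : Real.sqrt D ^ 2 = D := Real.sq_sqrt (Nat.cast_nonneg D)
      rw [h2, mul_add, ← mul_pow, ← mul_pow, hre, him, h5]
      linarith
    have h4 : (A : ℝ) * A ≤ A * C := by
      rw [← h3]; nlinarith
    have h5 : (A : ℝ) ≤ C := le_of_mul_le_mul_left h4 hAR
    exact_mod_cast h5
  have hAn : ((A.toNat : ℕ) : ℤ) = A := Int.toNat_of_nonneg hA0.le
  have hCn : ((C.toNat : ℕ) : ℤ) = C := Int.toNat_of_nonneg hC0.le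
  refine ⟨A.toNat, B.natAbs, C.toNat, B, u, Int.natAbs_eq B, ?_, ?_, ?_, ?_, hJ, ?_⟩
  · omega
  · omega
  · zify
    rw [hAn]
    exact h2B
  · zify
    rw [hAn, hCn, sq_abs]
    linarith
  · rw [hueq]
    congr 1
    have : ((A.toNat : ℕ) : ℂ) = ((A.toNat : ℤ) : ℂ) := by push_cast; rfl
    rw [this, hAn]

end SSM
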