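import Pool.Agent.SSM.Targets

/-!
# RE1: `J` on the imaginary axis is real and increasing
-/

open Polynomial

namespace SSM

namespace RE1_

/-- a continuous injective function on `[1, ∞)` which tends to `∞` is increasing -/
theorem mono {f : ℝ → ℝ} (hc : ContinuousOn f (Set.Ici 1)) (hi : Set.InjOn f (Set.Ici 1))
    (ht : Filter.Tendsto f Filter.atTop Filter.atTop) : StrictMonoOn f (Set.Ici 1) := by
  intro y hy y' hy' hlt
  by_contra hcon
  push Not at hcon
  have hy1 : 1 ≤ y := hy
  have hy1' : 1 ≤ y' := hy'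
  obtain ⟨Y, hY1, hY2⟩ := ((ht.eventually_ge_atTop (f y)).and
    (Filter.eventually_ge_atTop y')).exists
  have hsub : Set.Icc y' Y ⊆ Set.Ici 1 := fun x hx => le_trans hy1' hx.1
  obtain ⟨ξ, hξ, he⟩ := intermediate_value_Icc hY2 (hc.mono hsub) ⟨hcon, hY1⟩
  have h1 : ξ = y := hi (hsub hξ) hy he
  have h2 := hξ.1
  linarith

theorem nonneg_form (c d : ℤ) (y : ℝ) (hy : 1 ≤ y) (h : ¬ (c = 0 ∧ d = 0)) :
    1 ≤ (c : ℝ) ^ 2 * y ^ 2 + (d : ℝ) ^ 2 := by
  have h1 : (1 : ℤ) ≤ c ^ 2 + d ^ 2 := by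
    by_contra hcon
    push Not at hcon
    apply h
    constructor <;> nlinarith [sq_nonneg c, sq_nonneg d]
  have h2 : (1 : ℝ) ≤ (c : ℝ) ^ 2 + (d : ℝ) ^ 2 := by exact_mod_cast h1
  have h3 : (1 : ℝ) ≤ y ^ 2 := by nlinarith
  nlinarith [sq_nonneg (c : ℝ)]

/-- the inequality behind the injectivity -/
theorem inj_le (hINV : T_INV) (hINJ : T_INJ) (y y' : ℝ) (hy : 1 ≤ y) (hy' : 0 < y')
    (h : J (y * Complex.I) = J (y' * Complex.I)) : y' ≤ y := by
  have hz : 0 < (y * Complex.I : ℂ).im := by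
    simp
    linarith
  have hw : 0 < (y' * Complex.I : ℂ).im := by
    simpa using hy'
  obtain ⟨a, b, c, d, hdet, heq⟩ := hINJ _ _ hz hw h
  have hne := (hINV.2.1 a b c d hdet _ hz).2.1
  have h1 : (y' * Complex.I : ℂ) * (c * (y * Complex.I) + d) = a * (y * Complex.I) + b := by
    rw [heq, div_mul_cancel₀ _ hne]
  have hre := congrArg Complex.re h1
  have him := congrArg Complex.im h1
  simp at hre him
  have hdetR : (a : ℝ) * d - b * c = 1 := by exact_mod_cast hdet
  have h2 : y' * ((c : ℝ) ^ 2 * y ^ 2 + (d : ℝ) ^ 2) = y := by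
    have e : y' * ((c : ℝ) ^ 2 * y ^ 2 + (d : ℝ) ^ 2) = (a * d - b * c) * y := by
      linear_combination (d : ℝ) * him - (c : ℝ) * y * hre
    rw [e, hdetR, one_mul]
  have h3 := nonneg_form c d y hy (by
    rintro ⟨rfl, rfl⟩
    simp at hdet)
  nlinarith

end RE1_

open RE1_ in
theorem p_RE1 (hINV : T_INV) (hINJ : T_INJ) (hSPE : T_SPE) (hJBD : T_JBD) : T_RE1 := by
  obtain ⟨hdiff, hmod, hgen, hconj⟩ := hINV
  have hreal : ∀ y : ℝ, 0 < y → J (y * Complex.I) = ((J (y * Complex.I)).re : ℂ) := by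
    intro y hy
    have h1 := hconj (y * Complex.I) (by simpa using hy)
    have h2 : -(starRingEnd ℂ) (y * Complex.I) = y * Complex.I := by simp
    rw [h2] at h1
    exact (Complex.conj_eq_iff_re.1 h1.symm).symm
  have hcont : ContinuousOn (fun y : ℝ => (J (y * Complex.I)).re) (Set.Ici 1) := by
    apply Complex.continuous_re.comp_continuousOn
    apply hdiff.continuousOn.comp (by fun_prop)
    intro y hy
    have hy1 : (1 : ℝ) ≤ y := hy
    simp
    linarith
  have hinj : Set.InjOn (fun y : ℝ => (J (y * Complex.I)).re) (Set.Ici 1) := by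
    intro y hy y' hy' h
    have hy1 : (1 : ℝ) ≤ y := hy
    have hy1' : (1 : ℝ) ≤ y' := hy'
    have h1 : J (y * Complex.I) = J (y' * Complex.I) := by
      rw [hreal y (by linarith), hreal y' (by linarith)]
      exact congrArg _ h
    exact le_antisymm (inj_le ⟨hdiff, hmod, hgen, hconj⟩ hINJ y' y hy1' (by linarith) h1.symm)
      (inj_le ⟨hdiff, hmod, hgen, hconj⟩ hINJ y y' hy1 (by linarith) h1)
  have hlim : Filter.Tendsto (fun y : ℝ => (J (y * Complex.I)).re) Filter.atTop Filter.atTop := by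
    obtain ⟨⟨C, hC, hb⟩, -⟩ := hJBD
    have hexp : Filter.Tendsto (fun y : ℝ => Real.exp (2 * Real.pi * y) - C) Filter.atTop
        Filter.atTop := by
      apply Filter.tendsto_atTop_add_const_right
      apply Real.tendsto_exp_atTop.comp
      exact Filter.tendsto_id.const_mul_atTop (by positivity)
    refine Filter.tendsto_atTop_mono' _ ?_ hexp
    filter_upwards [Filter.eventually_ge_atTop (1 : ℝ)] with y hy
    have h1 := (hb (y * Complex.I) (by simp; linarith)).2
    have h2 : Complex.exp (-(2 * Real.pi * Complex.I * (y * Complex.I))) =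
        ((Real.exp (2 * Real.pi * y) : ℝ) : ℂ) := by
      rw [Complex.ofReal_exp]
      congr 1
      push_cast
      linear_combination (-2 * (Real.pi : ℂ) * y) * Complex.I_mul_I
    rw [h2] at h1
    have h3 := (Complex.abs_re_le_norm _).trans h1
    rw [Complex.sub_re, Complex.ofReal_re, abs_le] at h3
    linarith [h3.1]
  refine ⟨fun y => (J (y * Complex.I)).re, ?_, mono hcont hinj hlim, hcont, ?_, hlim⟩
  · intro y hy
    refine ⟨hreal y hy, ?_⟩
    have h1 := (hgen (y * Complex.I) (by simpa using hy)).2.2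
    have h2 : (-1 / (y * Complex.I) : ℂ) = ((1 / y : ℝ) : ℂ) * Complex.I := by
      have hy0 : (y : ℂ) ≠ 0 := by exact_mod_cast hy.ne'
      push_cast
      field_simp
      rw [Complex.I_sq]
    rw [h2] at h1
    exact congrArg Complex.re h1
  · have h1 := hSPE.1
    simp only [Complex.ofReal_one, one_mul, h1]
    simp

end SSM
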