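import Pool.Agent.SSM.Targets

/-!
# MP_d74fca_nt, part IV: algebra of `q`-expansions (RNG)
-/

open Polynomial

namespace SSM

/-- reindexing along an injection of the exponents -/
theorem RNG_.reindex (A : AddSubgroup ℂ) (a : ℕ → ℂ) (ha : ∀ n, a n ∈ A) (φ : ℕ → ℕ)
    (hφ : Function.Injective φ) : ∃ a' : ℕ → ℂ, (∀ n, a' n ∈ A) ∧ ∀ q s : ℂ,
      HasSum (fun n => a n * q ^ φ n) s → HasSum (fun n => a' n * q ^ n) s := by
  classical
  refine ⟨Function.extend φ a 0, fun n => ?_, fun q s hs => ?_⟩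
  · by_cases hn : ∃ m, φ m = n
    · obtain ⟨m, rfl⟩ := hn
      rw [hφ.extend_apply]
      exact ha m
    · rw [Function.extend_apply' _ _ _ hn]
      exact A.zero_mem
  · have h0 : ∀ x ∉ Set.range φ, (fun n => Function.extend φ a 0 n * q ^ n) x = 0 := by
      intro x hx
      have hx' : ¬ ∃ m, φ m = x := hx
      simp only [Function.extend_apply' _ _ _ hx', Pi.zero_apply, zero_mul]
    rw [← hφ.hasSum_iff h0]
    refine hs.congr_fun ?_ 
    intro n
    simp only [Function.comp_apply, hφ.extend_apply]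

theorem RNG_.qq_ne (M : ℕ) (z : ℂ) : qq M z ≠ 0 := Complex.exp_ne_zero _

theorem RNG_.qq_mul (M k : ℕ) (hM : 1 ≤ M) (hk : 1 ≤ k) (z : ℂ) :
    qq M z = qq (M * k) z ^ k := by
  unfold qq
  rw [← Complex.exp_nat_mul]
  congr 1
  have h1 : (M : ℂ) ≠ 0 := by exact_mod_cast (by omega : M ≠ 0)
  have h2 : (k : ℂ) ≠ 0 := by exact_mod_cast (by omega : k ≠ 0)
  push_cast
  field_simp

/-- the root of unity -/
noncomputable def RNG_.zt (b D : ℕ) : ℂ := Complex.exp (2 * Real.pi * Complex.I * b / D)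

theorem RNG_.zt_pow (b D : ℕ) (hD : 1 ≤ D) : RNG_.zt b D ^ D = 1 := by
  unfold RNG_.zt
  rw [← Complex.exp_nat_mul]
  have h1 : (D : ℂ) ≠ 0 := by exact_mod_cast (by omega : D ≠ 0)
  have h2 : (D : ℂ) * (2 * Real.pi * Complex.I * b / D) = (b : ℤ) * (2 * Real.pi * Complex.I) := by
    push_cast
    field_simp
  rw [h2, Complex.exp_int_mul_two_pi_mul_I]

theorem RNG_.root_mem (x : ℂ) (D : ℕ) (hD : 1 ≤ D) (hx : x ^ D = 1) : x ∈ OO := by
  have h : IsIntegral ℤ x := by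
    refine IsIntegral.of_pow (n := D) (by omega) ?_
    rw [hx]
    exact isIntegral_one
  exact h

theorem RNG_.sum_add (A : AddSubgroup ℂ) (M N : ℕ) (f g : ℂ → ℂ) (hf : HasExp A M N f)
    (hg : HasExp A M N g) : HasExp A M N (fun z => f z + g z) := by
  obtain ⟨a, ha, hsa⟩ := hf
  obtain ⟨b, hb, hsb⟩ := hg
  refine ⟨fun n => a n + b n, fun n => A.add_mem (ha n) (hb n), fun z hz => ?_⟩
  have h := (hsa z hz).add (hsb z hz)
  rw [← add_mul] at h
  refine h.congr_fun ?_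
  intro n
  ring


theorem RNG_.sum_neg (A : AddSubgroup ℂ) (M N : ℕ) (f : ℂ → ℂ) (hf : HasExp A M N f) :
    HasExp A M N (fun z => - f z) := by
  obtain ⟨a, ha, hsa⟩ := hf
  refine ⟨fun n => - a n, fun n => A.neg_mem (ha n), fun z hz => ?_⟩
  have h := (hsa z hz).neg
  rw [← neg_mul] at h
  refine h.congr_fun ?_
  intro n
  ring

theorem RNG_.shift (A : AddSubgroup ℂ) (M N N' : ℕ) (f : ℂ → ℂ) (hf : HasExp A M N f)
    (hN : N ≤ N') : HasExp A M N' f := by
  obtain ⟨a, ha, hsa⟩ := hf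
  obtain ⟨k, rfl⟩ := Nat.exists_eq_add_of_le hN
  obtain ⟨a', ha', h'⟩ := RNG_.reindex A a ha (fun n => n + k) (fun x y h => by simpa using h)
  refine ⟨a', ha', fun z hz => h' _ _ ?_⟩
  have h := (hsa z hz).mul_right (qq M z ^ k)
  rw [mul_assoc, ← pow_add] at h
  refine h.congr_fun ?_
  intro n
  rw [pow_add, mul_assoc]

theorem RNG_.prod (A B D : AddSubgroup ℂ) (M N N' : ℕ) (f g : ℂ → ℂ)
    (hABD : ∀ x ∈ A, ∀ y ∈ B, x * y ∈ D) (hf : HasExp A M N f) (hg : HasExp B M N' g) :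
    HasExp D M (N + N') (fun z => f z * g z) := by
  obtain ⟨a, ha, hsa⟩ := hf
  obtain ⟨b, hb, hsb⟩ := hg
  refine ⟨fun n => ∑ kl ∈ Finset.HasAntidiagonal.antidiagonal n, a kl.1 * b kl.2,
    fun n => D.sum_mem fun kl _ => hABD _ (ha _) _ (hb _), fun z hz => ?_⟩
  have h1 := hsa z hz
  have h2 := hsb z hz
  have n1 : Summable (fun n => ‖a n * qq M z ^ n‖) := h1.summable.norm
  have n2 : Summable (fun n => ‖b n * qq M z ^ n‖) := h2.summable.norm
  have h3 := tsum_mul_tsum_eq_tsum_sum_antidiagonal_of_summable_norm n1 n2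
  have h4 := (summable_norm_sum_mul_antidiagonal_of_summable_norm n1 n2).of_norm
  have h5 := h4.hasSum
  rw [← h3, h1.tsum_eq, h2.tsum_eq] at h5
  have e : f z * g z * qq M z ^ (N + N') = f z * qq M z ^ N * (g z * qq M z ^ N') := by
    rw [pow_add]; ring
  simp only
  rw [e]
  refine h5.congr_fun ?_
  intro n
  rw [Finset.sum_mul]
  refine Finset.sum_congr rfl fun kl hkl => ?_
  have : kl.1 + kl.2 = n := by simpa using hkl
  rw [← this, pow_add]
  ring

theorem RNG_.expand (A : AddSubgroup ℂ) (M N k : ℕ) (f : ℂ → ℂ) (hM : 1 ≤ M) (hk : 1 ≤ k)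
    (hf : HasExp A M N f) : HasExp A (M * k) (N * k) f := by
  obtain ⟨a, ha, hsa⟩ := hf
  obtain ⟨a', ha', h'⟩ := RNG_.reindex A a ha (fun n => k * n)
    (fun x y h => Nat.eq_of_mul_eq_mul_left (by omega) h)
  refine ⟨a', ha', fun z hz => h' _ _ ?_⟩
  have h := hsa z hz
  rw [RNG_.qq_mul M k hM hk, ← pow_mul, mul_comm k N] at h
  refine h.congr_fun ?_
  intro n
  rw [pow_mul]

theorem RNG_.const (A : AddSubgroup ℂ) (M : ℕ) (x : ℂ) (hx : x ∈ A) :
    HasExp A M 0 (fun _ => x) := by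
  refine ⟨fun n => if n = 0 then x else 0, fun n => ?_, fun z _ => ?_⟩
  · by_cases hn : n = 0
    · simp only [hn, if_true]; exact hx
    · simp only [hn, if_false]; exact A.zero_mem
  · have := hasSum_single (f := fun n : ℕ => (if n = 0 then x else 0) * qq M z ^ n) 0
      (fun n hn => by simp only [hn, if_false, zero_mul])
    simpa using this

theorem RNG_.comp (A : AddSubgroup ℂ) (M N a b d : ℕ) (f : ℂ → ℂ) (hM : 1 ≤ M) (ha1 : 1 ≤ a)
    (hd : 1 ≤ d) (hA : ∀ x ∈ OO, ∀ y ∈ A, x * y ∈ A) (hf : HasExp A M N f) :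
    HasExp A (M * d) (N * a) (fun z => f ((a * z + b) / d)) := by
  obtain ⟨c, hc, hsc⟩ := hf
  have hMd : 1 ≤ M * d := Nat.one_le_iff_ne_zero.mpr (by positivity)
  have hz1 := RNG_.zt_pow b (M * d) hMd
  have hz0 : RNG_.zt b (M * d) ≠ 0 := Complex.exp_ne_zero _
  have hinv : (RNG_.zt b (M * d))⁻¹ ^ (M * d) = 1 := by rw [inv_pow, hz1, inv_one]
  have hmem : ∀ n, RNG_.zt b (M * d) ^ n * (RNG_.zt b (M * d))⁻¹ ^ N ∈ OO := fun n =>
    OO.mul_mem (OO.pow_mem (RNG_.root_mem _ _ hMd hz1) n)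
      (OO.pow_mem (RNG_.root_mem _ _ hMd hinv) N)
  obtain ⟨a', ha', h'⟩ := RNG_.reindex A
    (fun n => RNG_.zt b (M * d) ^ n * (RNG_.zt b (M * d))⁻¹ ^ N * c n)
    (fun n => hA _ (hmem n) _ (hc n)) (fun n => a * n)
    (fun x y h => Nat.eq_of_mul_eq_mul_left (by omega) h)
  refine ⟨a', ha', fun z hz => h' _ _ ?_⟩
  have hdC : (d : ℂ) ≠ 0 := by exact_mod_cast (by omega : d ≠ 0)
  have hMC : (M : ℂ) ≠ 0 := by exact_mod_cast (by omega : M ≠ 0)
  have hw : 0 < (((a : ℂ) * z + b) / d).im := by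
    have e : (((a : ℂ) * z + b) / d).im = (a : ℝ) * z.im / d := by
      rw [Complex.div_natCast_im]
      simp
    rw [e]
    have h1 : (0 : ℝ) < a := by exact_mod_cast (by omega : 0 < a)
    have h2 : (0 : ℝ) < d := by exact_mod_cast (by omega : 0 < d)
    positivity
  have h := hsc _ hw
  have hq : qq M (((a : ℂ) * z + b) / d) = RNG_.zt b (M * d) * qq (M * d) z ^ a := by
    unfold qq RNG_.zt
    rw [← Complex.exp_nat_mul, ← Complex.exp_add]
    congr 1
    push_cast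
    field_simp
    ring
  rw [hq] at h
  have h2 := h.mul_right ((RNG_.zt b (M * d))⁻¹ ^ N)
  have e1 : f (((a : ℂ) * z + b) / d) * (RNG_.zt b (M * d) * qq (M * d) z ^ a) ^ N *
      (RNG_.zt b (M * d))⁻¹ ^ N = f (((a : ℂ) * z + b) / d) * qq (M * d) z ^ (N * a) := by
    rw [mul_pow, ← pow_mul, inv_pow]
    have : RNG_.zt b (M * d) ^ N ≠ 0 := pow_ne_zero _ hz0
    field_simp
    rw [mul_comm a N]
  rw [e1] at h2
  refine h2.congr_fun ?_
  intro n
  rw [mul_pow, ← pow_mul]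
  ring

theorem p_RNG : T_RNG := by
  refine ⟨fun A M N N' f hf hN => RNG_.shift A M N N' f hf hN,
    fun A M N f g hf hg => RNG_.sum_add A M N f g hf hg,
    fun A M N f hf => RNG_.sum_neg A M N f hf,
    fun A B D M N N' f g h hf hg => RNG_.prod A B D M N N' f g h hf hg,
    fun A M N k f hM hk hf => RNG_.expand A M N k f hM hk hf,
    fun A M x hx => RNG_.const A M x hx,
    fun A M N a b d f hM ha hd hA hf => RNG_.comp A M N a b d f hM ha hd hA hf, ?_⟩
  intro A M N f g hfg hf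
  obtain ⟨a, ha, hsa⟩ := hf
  exact ⟨a, ha, fun z hz => by rw [← hfg z hz]; exact hsa z hz⟩

end SSM
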