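import Pool.Agent.SSM.Targets

/-!
# SG1: sign of `F_D(x,x)` for `x > 1728`
-/

open Polynomial

namespace SSM

namespace SG1_

/-- evaluation on the diagonal -/
theorem eval_inn (y : ℂ) (F : ℤ[X][X]) : (inn y F).eval y = aeval y (diag F) := by
  unfold inn diag
  have h : ((aeval y : ℤ[X] →ₐ[ℤ] ℂ).toRingHom) X = y := by
    simp
  have h2 := eval₂_at_apply (aeval y : ℤ[X] →ₐ[ℤ] ℂ).toRingHom (p := F) X
  rw [h] at h2
  rw [eval_map, h2]
  rfl

/-- the product over `TT m` -/
theorem prod_TT {m : ℕ} (h : (ℕ × ℕ) × ℕ → ℂ) :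
    ∏ g ∈ TT m, h g = ∏ p ∈ m.divisorsAntidiagonal, ∏ b ∈ Finset.range p.2, h (p, b) := by
  unfold TT
  rw [Finset.prod_filter, Finset.prod_product]
  refine Finset.prod_congr rfl fun p hp => ?_
  have hp' := Nat.mem_divisorsAntidiagonal.1 hp
  have hle : p.2 ≤ m := by
    have h1 : p.1 ≠ 0 := by
      intro h0
      rw [h0, zero_mul] at hp'
      exact hp'.2 hp'.1.symm
    calc p.2 ≤ p.1 * p.2 := Nat.le_mul_of_pos_left _ (Nat.pos_of_ne_zero h1)
      _ = m := hp'.1
  rw [← Finset.prod_filter]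
  refine Finset.prod_congr ?_ fun b _ => rfl
  ext b
  simp only [Finset.mem_filter, Finset.mem_range]
  omega

/-- products over symmetric ranges -/
theorem prod_symm (h : ℕ → ℂ) (k : ℕ)
    (hs : ∀ j, j < k → h (2 * k - j) = starRingEnd ℂ (h (j + 1))) :
    ∃ R : ℝ, 0 ≤ R ∧ ∏ b ∈ Finset.range (2 * k + 1), h b = h 0 * R := by
  refine ⟨∏ j ∈ Finset.range k, Complex.normSq (h (j + 1)),
    Finset.prod_nonneg fun _ _ => Complex.normSq_nonneg _, ?_⟩
  rw [Finset.prod_range_succ', mul_comm, two_mul, Finset.prod_range_add]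
  congr 1
  have e1 : ∏ j ∈ Finset.range k, h (k + j + 1) =
      ∏ j ∈ Finset.range k, starRingEnd ℂ (h (j + 1)) := by
    rw [← Finset.prod_range_reflect]
    refine Finset.prod_congr rfl fun j hj => ?_
    have hj' := Finset.mem_range.1 hj
    rw [← hs j hj']
    congr 1
    omega
  rw [e1, ← Finset.prod_mul_distrib, Complex.ofReal_prod]
  refine Finset.prod_congr rfl fun j _ => ?_
  rw [Complex.mul_conj]

/-- pairing of divisors -/
theorem prod_pair {D : ℕ} (hD : 0 < D) (hsq : ¬ IsSquare D) (U : ℕ → ℝ) :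
    ∏ e ∈ D.divisors, U e = ∏ e ∈ D.divisors.filter (fun e => D < e ^ 2), U e * U (D / e) := by
  rw [← Finset.prod_filter_mul_prod_filter_not D.divisors (fun e => D < e ^ 2),
    Finset.prod_mul_distrib]
  congr 1
  refine Finset.prod_nbij' (fun e => D / e) (fun e => D / e) ?_ ?_ ?_ ?_ ?_
  · intro e he
    rw [Finset.mem_filter, Nat.mem_divisors] at he ⊢
    obtain ⟨⟨⟨k, hk⟩, -⟩, h2⟩ := he
    have he0 : 0 < e := Nat.pos_of_ne_zero (by rintro rfl; simp at hk; omega)
    have hk0 : 0 < k := Nat.pos_of_ne_zero (by rintro rfl; simp at hk; omega)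
    have hdiv : D / e = k := by rw [hk]; exact Nat.mul_div_cancel_left k he0
    rw [hdiv]
    refine ⟨⟨⟨e, by rw [hk, mul_comm]⟩, hD.ne'⟩, ?_⟩
    have hle : e ≤ k := by
      by_contra hlt
      apply h2
      rw [hk, sq]
      exact Nat.mul_lt_mul_of_pos_left (not_le.1 hlt) he0
    have hne : e ≠ k := by
      rintro rfl
      exact hsq ⟨e, hk⟩
    have hlt : e < k := lt_of_le_of_ne hle hne
    rw [hk, sq]
    exact Nat.mul_lt_mul_of_pos_right hlt hk0
  · intro e he
    rw [Finset.mem_filter, Nat.mem_divisors] at he ⊢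
    obtain ⟨⟨⟨k, hk⟩, -⟩, h2⟩ := he
    have he0 : 0 < e := Nat.pos_of_ne_zero (by rintro rfl; simp at hk; omega)
    have hk0 : 0 < k := Nat.pos_of_ne_zero (by rintro rfl; simp at hk; omega)
    have hdiv : D / e = k := by rw [hk]; exact Nat.mul_div_cancel_left k he0
    rw [hdiv]
    refine ⟨⟨⟨e, by rw [hk, mul_comm]⟩, hD.ne'⟩, ?_⟩
    rw [hk, sq] at h2
    have hlt : k < e := lt_of_mul_lt_mul_left h2 (Nat.zero_le _)
    rw [hk, sq, not_lt]
    exact Nat.mul_le_mul_right k hlt.le
  · intro e he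
    rw [Finset.mem_filter, Nat.mem_divisors] at he
    exact Nat.div_div_self he.1.1 hD.ne'
  · intro e he
    rw [Finset.mem_filter, Nat.mem_divisors] at he
    exact Nat.div_div_self he.1.1 hD.ne'
  · intro e he
    rw [Finset.mem_filter, Nat.mem_divisors] at he
    rw [Nat.div_div_self he.1.1 hD.ne']

/-- the sign of the real product -/
theorem sign_prod {D : ℕ} (hD : 0 < D) (hsq : ¬ IsSquare D) (η : ℝ) (U : ℕ → ℝ)
    (h1 : ∀ e k : ℕ, e * k = D → k < e → (e : ℝ) ^ 2 < η ^ 2 * D → U e * U k ≤ 0)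
    (h2 : ∀ e k : ℕ, e * k = D → k < e → ¬ ((e : ℝ) ^ 2 < η ^ 2 * D) → 0 ≤ U e * U k) :
    0 ≤ (-1) ^ near D η * ∏ e ∈ D.divisors, U e := by
  classical
  rw [prod_pair hD hsq U]
  have e1 : ((-1 : ℝ)) ^ near D η = ∏ e ∈ D.divisors.filter (fun e => D < e ^ 2),
      (if (e : ℝ) ^ 2 < η ^ 2 * D then (-1 : ℝ) else 1) := by
    rw [Finset.prod_ite, Finset.prod_const_one, mul_one, Finset.prod_const, Finset.filter_filter]
    rfl
  rw [e1, ← Finset.prod_mul_distrib]
  refine Finset.prod_nonneg fun e he => ?_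
  rw [Finset.mem_filter, Nat.mem_divisors] at he
  obtain ⟨⟨⟨k, hk⟩, -⟩, h3⟩ := he
  have he0 : 0 < e := Nat.pos_of_ne_zero (by rintro rfl; simp at hk; omega)
  have hdiv : D / e = k := by rw [hk]; exact Nat.mul_div_cancel_left k he0
  rw [hk, sq] at h3
  have hlt : k < e := lt_of_mul_lt_mul_left h3 (Nat.zero_le _)
  rw [hdiv]
  split_ifs with h
  · have := h1 e k hk.symm hlt h
    linarith
  · have := h2 e k hk.symm hlt h
    linarith

end SG1_

open SG1_ in
theorem p_SG1 (hINV : T_INV) (hRE1 : T_RE1) : T_SG1 := by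
  intro D F η x hodd hsq hF hη hx
  obtain ⟨-, -, hper, hconj⟩ := hINV
  obtain ⟨f, hf, hmono, -, -, -⟩ := hRE1
  have hD : 0 < D := hodd.pos
  have hη0 : 0 < η := by linarith
  have hxf : x = f η := by
    have h1 := (hf η hη0).1
    rw [hx] at h1
    exact_mod_cast h1
  have him : 0 < ((η : ℂ) * Complex.I).im := by simpa using hη0
  -- the product formula
  have hprod : aeval (x : ℂ) (diag F) = ∏ g ∈ TT D, ((x : ℂ) - J (act g (η * Complex.I))) := by
    have h1 := hF.2 _ him
    have h2 := congrArg (fun P : ℂ[X] => P.eval (J (η * Complex.I))) h1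
    simp only [eval_inn, eval_prod, eval_sub, eval_X, eval_C] at h2
    rw [hx] at h2
    exact h2
  -- the inner products
  have hin : ∀ p ∈ D.divisorsAntidiagonal, ∃ R : ℝ, 0 ≤ R ∧
      ∏ b ∈ Finset.range p.2, ((x : ℂ) - J (act (p, b) (η * Complex.I))) =
        (((x - f (η * p.1 / p.2)) * R : ℝ) : ℂ) := by
    intro p hp
    obtain ⟨hp1, -⟩ := Nat.mem_divisorsAntidiagonal.1 hp
    have hp0 : 0 < p.1 := Nat.pos_of_ne_zero (by rintro h; rw [h, zero_mul] at hp1; omega)
    have hq0 : 0 < p.2 := Nat.pos_of_ne_zero (by rintro h; rw [h, mul_zero] at hp1; omega)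
    have hodd2 : Odd p.2 := by
      rw [← hp1] at hodd
      exact (Nat.odd_mul.1 hodd).2
    obtain ⟨k, hk⟩ := hodd2
    have hd0 : (p.2 : ℂ) ≠ 0 := by exact_mod_cast hq0.ne'
    have hpR : (0 : ℝ) < p.1 := by exact_mod_cast hp0
    have hqR : (0 : ℝ) < p.2 := by exact_mod_cast hq0
    obtain ⟨R, hR, hR2⟩ := prod_symm (fun b => (x : ℂ) - J (act (p, b) (η * Complex.I))) k (by
      intro j hj
      simp only [map_sub, Complex.conj_ofReal]
      congr 1
      set w : ℂ := act (p, j + 1) (η * Complex.I) with hw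
      have hwdef : w = (p.1 * (η * Complex.I) + ((j + 1 : ℕ) : ℂ)) / p.2 := by
        rw [hw]; rfl
      have hwim : 0 < w.im := by
        rw [hwdef]
        have e1 : ((p.1 : ℂ) * (η * Complex.I) + ((j + 1 : ℕ) : ℂ)) / p.2 =
            (((j + 1 : ℕ) / p.2 : ℝ) : ℂ) + ((p.1 * η / p.2 : ℝ) : ℂ) * Complex.I := by
          push_cast
          field_simp
          ring
        rw [e1]
        simp only [Complex.add_im, Complex.ofReal_im, Complex.mul_im, Complex.ofReal_re,
          Complex.I_im, Complex.I_re, mul_one, mul_zero, add_zero, zero_add]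
        positivity
      have hcim : 0 < (-(starRingEnd ℂ w)).im := by simpa using hwim
      rw [← hconj w hwim, ← (hper _ hcim).1]
      congr 1
      rw [hwdef]
      change ((p.1 : ℂ) * (η * Complex.I) + ((2 * k - j : ℕ) : ℂ)) / p.2 = _
      have hcast : ((2 * k - j : ℕ) : ℂ) = (p.2 : ℂ) - ((j + 1 : ℕ) : ℂ) := by
        have h4 : 2 * k - j + (j + 1) = p.2 := by omega
        rw [← h4]; push_cast; ring
      rw [hcast]
      simp only [map_div₀, map_add, map_mul, Complex.conj_ofReal, Complex.conj_I, map_natCast]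
      field_simp
      ring)
    refine ⟨R, hR, ?_⟩
    rw [hk, hR2, Complex.ofReal_mul]
    congr 1
    rw [Complex.ofReal_sub]
    congr 1
    have hy : 0 < η * p.1 / p.2 := by positivity
    have h5 : act (p, 0) (η * Complex.I) = ((η * p.1 / p.2 : ℝ) : ℂ) * Complex.I := by
      change ((p.1 : ℂ) * (η * Complex.I) + ((0 : ℕ) : ℂ)) / p.2 = _
      push_cast
      field_simp
      ring
    rw [h5, (hf _ hy).1, ← hk]
  choose! R hR0 hR using hin
  have hreal : aeval x (diag F) = (∏ p ∈ D.divisorsAntidiagonal, (x - f (η * p.1 / p.2))) *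
      ∏ p ∈ D.divisorsAntidiagonal, R p := by
    have h1 : ((aeval x (diag F) : ℝ) : ℂ) = aeval (x : ℂ) (diag F) := by
      have := aeval_algebraMap_apply ℂ x (diag F)
      exact this.symm
    have h2 : ((aeval x (diag F) : ℝ) : ℂ) =
        (((∏ p ∈ D.divisorsAntidiagonal, (x - f (η * p.1 / p.2))) *
          ∏ p ∈ D.divisorsAntidiagonal, R p : ℝ) : ℂ) := by
      rw [h1, hprod, prod_TT, Finset.prod_congr rfl hR, ← Complex.ofReal_prod,
        Finset.prod_mul_distrib]
    exact_mod_cast h2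
  have hR1 : 0 ≤ ∏ p ∈ D.divisorsAntidiagonal, R p := Finset.prod_nonneg hR0
  rw [hreal, ← mul_assoc]
  refine mul_nonneg ?_ hR1
  rw [Nat.prod_divisorsAntidiagonal (fun a d : ℕ => x - f (η * a / d))]
  refine sign_prod hD hsq η (fun e => x - f (η * e / ((D / e : ℕ) : ℝ))) ?_ ?_
  · intro e k hek hke hnear
    have he0 : 0 < e := by omega
    have hk0 : 0 < k := Nat.pos_of_ne_zero (by rintro rfl; simp at hek; omega)
    have hDe : D / e = k := by rw [← hek]; exact Nat.mul_div_cancel_left k he0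
    have hDk : D / k = e := by rw [← hek]; exact Nat.mul_div_cancel e hk0
    simp only [hDe, hDk]
    have heR : (0 : ℝ) < e := by exact_mod_cast he0
    have hkR : (0 : ℝ) < k := by exact_mod_cast hk0
    have hkeR : (k : ℝ) < e := by exact_mod_cast hke
    have hDR : (D : ℝ) = e * k := by rw [← hek]; push_cast; ring
    have hlt : (e : ℝ) < η ^ 2 * k := by
      rw [hDR] at hnear
      nlinarith
    have ha : η < η * e / k := by
      rw [lt_div_iff₀ hkR]
      nlinarith
    have h1 : x - f (η * e / k) ≤ 0 := by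
      rw [hxf]
      have := hmono (Set.mem_Ici.2 hη.le) (Set.mem_Ici.2 (hη.le.trans ha.le)) ha
      linarith
    have hb : η * k / e < η := by
      rw [div_lt_iff₀ heR]
      nlinarith
    have hb0 : 0 < η * k / e := by positivity
    have h2 : 0 ≤ x - f (η * k / e) := by
      rw [hxf]
      rcases le_or_gt 1 (η * k / e) with h3 | h3
      · have := hmono (Set.mem_Ici.2 h3) (Set.mem_Ici.2 hη.le) hb
        linarith
      · have h4 : 1 ≤ 1 / (η * k / e) := by
          rw [le_div_iff₀ hb0]; linarith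
        have h5 : 1 / (η * k / e) < η := by
          rw [div_lt_iff₀ hb0]
          have : η * (η * k / e) = η ^ 2 * k / e := by ring
          rw [this, lt_div_iff₀ heR]
          linarith
        have := hmono (Set.mem_Ici.2 h4) (Set.mem_Ici.2 hη.le) h5
        rw [(hf _ hb0).2] at this
        linarith
    exact mul_nonpos_of_nonpos_of_nonneg h1 h2
  · intro e k hek hke hnear
    have he0 : 0 < e := by omega
    have hk0 : 0 < k := Nat.pos_of_ne_zero (by rintro rfl; simp at hek; omega)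
    have hDe : D / e = k := by rw [← hek]; exact Nat.mul_div_cancel_left k he0
    have hDk : D / k = e := by rw [← hek]; exact Nat.mul_div_cancel e hk0
    simp only [hDe, hDk]
    have heR : (0 : ℝ) < e := by exact_mod_cast he0
    have hkR : (0 : ℝ) < k := by exact_mod_cast hk0
    have hkeR : (k : ℝ) < e := by exact_mod_cast hke
    have hDR : (D : ℝ) = e * k := by rw [← hek]; push_cast; ring
    have hle : η ^ 2 * k ≤ (e : ℝ) := by
      rw [hDR, not_lt] at hnear
      nlinarith
    have ha : η < η * e / k := by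
      rw [lt_div_iff₀ hkR]
      nlinarith
    have h1 : x - f (η * e / k) ≤ 0 := by
      rw [hxf]
      have := hmono (Set.mem_Ici.2 hη.le) (Set.mem_Ici.2 (hη.le.trans ha.le)) ha
      linarith
    have hb0 : 0 < η * k / e := by positivity
    have h2 : x - f (η * k / e) ≤ 0 := by
      rw [hxf]
      have h5 : η ≤ 1 / (η * k / e) := by
        rw [le_div_iff₀ hb0]
        have : η * (η * k / e) = η ^ 2 * k / e := by ring
        rw [this, div_le_iff₀ heR]
        linarith
      have := hmono.monotoneOn (Set.mem_Ici.2 hη.le) (Set.mem_Ici.2 (hη.le.trans h5)) h5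
      rw [(hf _ hb0).2] at this
      linarith
    exact mul_nonneg_of_nonpos_of_nonpos h1 h2

end SSM
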