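import Pool.Agent.SSM.SG1

/-!
# MP_d74fca_nt, part IV: SG2, the sign of `F_D(x, x)` for `x < 1728`
-/

set_option autoImplicit false

open Polynomial

namespace SSM

namespace SG2_

open Finset

theorem prod_TT {M : Type*} [CommMonoid M] (D : ℕ) (h : (ℕ × ℕ) × ℕ → M) :
    ∏ g ∈ TT D, h g = ∏ x ∈ D.divisorsAntidiagonal, ∏ b ∈ range x.2, h (x, b) := by
  unfold TT
  rw [prod_filter, prod_product]
  apply prod_congr rfl
  intro x hx
  rw [← prod_filter]
  apply prod_congr _ (fun _ _ => rfl)
  ext b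
  rw [mem_filter, mem_range, mem_range]
  have h1 : x.2 ≤ D := Nat.divisor_le (Nat.snd_mem_divisors_of_mem_antidiagonal hx)
  dsimp only
  omega

theorem conj_prod (S : Finset ℕ) (σ : ℕ → ℕ) (h : ℕ → ℂ) (hσ : ∀ b ∈ S, σ b ∈ S)
    (hσσ : ∀ b ∈ S, σ (σ b) = b) (hne : ∀ b ∈ S, σ b ≠ b)
    (hc : ∀ b ∈ S, h (σ b) = starRingEnd ℂ (h b)) :
    ∃ r : ℝ, 0 ≤ r ∧ ∏ b ∈ S, h b = r := by
  have h1 := prod_filter_mul_prod_filter_not S (fun b => b < σ b) h
  have h2 : ∏ b ∈ S.filter (fun b => ¬ b < σ b), h b =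
      ∏ b ∈ S.filter (fun b => b < σ b), starRingEnd ℂ (h b) := by
    symm
    refine prod_nbij' σ σ ?_ ?_ ?_ ?_ ?_
    · intro b hb
      rw [mem_filter] at hb ⊢
      refine ⟨hσ b hb.1, ?_⟩
      rw [hσσ b hb.1]
      have := hb.2
      omega
    · intro b hb
      rw [mem_filter] at hb ⊢
      refine ⟨hσ b hb.1, ?_⟩
      rw [hσσ b hb.1]
      have := hb.2
      have := hne b hb.1
      omega
    · intro b hb
      exact hσσ b (mem_filter.1 hb).1
    · intro b hb
      exact hσσ b (mem_filter.1 hb).1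
    · intro b hb
      exact (hc b (mem_filter.1 hb).1).symm
  rw [h2, ← map_prod, Complex.mul_conj] at h1
  exact ⟨Complex.normSq _, Complex.normSq_nonneg _, h1.symm⟩

theorem uniq {a b c c' d : ℕ} (hc : c < d) (hc' : c' < d) (h : d ∣ a + b + c)
    (h' : d ∣ a + b + c') : c = c' := by
  have h1 : (a + b + c) ≡ (a + b + c') [MOD d] :=
    ((Nat.modEq_zero_iff_dvd).2 h).trans ((Nat.modEq_zero_iff_dvd).2 h').symm
  exact (Nat.ModEq.add_left_cancel' _ h1).eq_of_lt_of_lt hc hc'

theorem shift (hINV : T_INV) (z : ℂ) (hz : 0 < z.im) (n : ℤ) : J (z + n) = J z := by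
  have h1 := (hINV.2.1 1 n 0 1 (by ring) z hz).2.2
  simpa using h1

/-- the inner product for one pair `(a, d)` -/
theorem inner (hINV : T_INV) (f : ℝ → ℝ)
    (hf : ∀ y : ℝ, 0 < y → J ((1 + y * Complex.I) / 2) = f y ∧ f (1 / y) = f y) (x η : ℝ)
    (hη : 0 < η) (a d : ℕ) (ha : Odd a) (hd : Odd d) :
    ∃ r : ℝ, 0 ≤ r ∧ ∏ b ∈ range d, ((x : ℂ) - J ((a * ((1 + η * Complex.I) / 2) + b) / d)) =
      ((r * (x - f (η * a / d)) : ℝ) : ℂ) := by
  obtain ⟨k, hk⟩ := hd
  have hd0 : 0 < d := by omega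
  have ha0 : 0 < a := by
    rcases ha with ⟨l, hl⟩
    omega
  have hdC : (d : ℂ) ≠ 0 := by exact_mod_cast hd0.ne'
  have hdR : (0 : ℝ) < d := by exact_mod_cast hd0
  have haR : (0 : ℝ) < a := by exact_mod_cast ha0
  set t : ℂ := (1 + η * Complex.I) / 2 with ht
  have htim : t.im = η / 2 := by
    rw [ht]
    simp
  have hconj : starRingEnd ℂ t = 1 - t := by
    rw [ht]
    simp only [map_div₀, map_add, map_one, map_mul, Complex.conj_ofReal, Complex.conj_I,
      map_ofNat]
    ring
  have him : ∀ b : ℕ, 0 < ((a * t + b) / d : ℂ).im := by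
    intro b
    have h1 : ((a * t + b) / d : ℂ).im = a * t.im / d := by
      rw [Complex.div_natCast_im]
      simp
    rw [h1, htim]
    positivity
  -- the symmetry
  have hsym : ∀ b c : ℕ, d ∣ a + b + c →
      J ((a * t + c) / d) = starRingEnd ℂ (J ((a * t + b) / d)) := by
    intro b c hbc
    obtain ⟨l, hl⟩ := hbc
    rw [← hINV.2.2.2 _ (him b)]
    have h1 : (a * t + c) / d = -(starRingEnd ℂ ((a * t + b) / d)) + ((l : ℤ) : ℂ) := by
      have hlC : (a : ℂ) + b + c = d * l := by exact_mod_cast hl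
      rw [map_div₀, map_add, map_mul, hconj, Complex.conj_natCast, Complex.conj_natCast,
        Complex.conj_natCast]
      field_simp
      push_cast
      linear_combination hlC
    rw [h1]
    apply shift hINV
    have h2 := him b
    rw [Complex.neg_im, Complex.conj_im, neg_neg]
    exact h2
  -- the fixed residue
  set b0 : ℕ := (k * a) % d with hb0
  have hb0d : b0 < d := Nat.mod_lt _ hd0
  have hb0dvd : d ∣ a + b0 + b0 := by
    have h1 : (a + b0 + b0) ≡ (a + k * a + k * a) [MOD d] :=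
      ((Nat.ModEq.refl a).add (Nat.mod_modEq _ _)).add (Nat.mod_modEq _ _)
    have h2 : a + k * a + k * a = d * a := by
      rw [hk]
      ring
    rw [h2] at h1
    exact (Nat.modEq_zero_iff_dvd).1 (h1.trans ((Nat.modEq_zero_iff_dvd).2 (Dvd.intro a rfl)))
  have hfix : ∀ b, b < d → d ∣ a + b + b → b = b0 := by
    intro b hb hbb
    have h1 : (a + b + b) ≡ (a + b0 + b0) [MOD d] :=
      ((Nat.modEq_zero_iff_dvd).2 hbb).trans ((Nat.modEq_zero_iff_dvd).2 hb0dvd).symm
    rw [add_assoc, add_assoc] at h1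
    have h2 := Nat.ModEq.add_left_cancel' _ h1
    rw [← two_mul, ← two_mul] at h2
    have h3 : b ≡ b0 [MOD d] := Nat.ModEq.cancel_left_of_coprime (by
      rw [hk, Nat.gcd_comm]
      exact (Nat.coprime_mul_left_add_right 2 1 k).2 (by norm_num)) h2
    exact h3.eq_of_lt_of_lt hb hb0d
  -- the involution
  set σ : ℕ → ℕ := fun b => ((d - 1) * (a + b)) % d with hσ
  have hσd : ∀ b, σ b < d := fun b => Nat.mod_lt _ hd0
  have hσdvd : ∀ b, d ∣ a + b + σ b := by
    intro b
    have h1 : (a + b + σ b) ≡ (a + b + (d - 1) * (a + b)) [MOD d] :=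
      (Nat.ModEq.refl _).add (Nat.mod_modEq _ _)
    have h2 : a + b + (d - 1) * (a + b) = d * (a + b) := by
      obtain ⟨e, rfl⟩ : ∃ e, d = e + 1 := ⟨d - 1, by omega⟩
      simp only [Nat.add_sub_cancel]
      ring
    rw [h2] at h1
    exact (Nat.modEq_zero_iff_dvd).1 (h1.trans ((Nat.modEq_zero_iff_dvd).2 (Dvd.intro _ rfl)))
  have hσu : ∀ b c, c < d → d ∣ a + b + c → σ b = c := fun b c hc h => uniq (hσd b) hc (hσdvd b) h
  obtain ⟨r, hr0, hr⟩ := conj_prod ((range d).erase b0) σ
    (fun b => (x : ℂ) - J ((a * t + b) / d)) (by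
      intro b hb
      rw [mem_erase, mem_range] at hb ⊢
      refine ⟨fun h => hb.1 ?_, hσd b⟩
      have h1 := hσdvd b
      rw [h] at h1
      have h2 : d ∣ a + b0 + b := by
        rw [add_right_comm]
        exact h1
      exact uniq hb.2 hb0d h2 hb0dvd) (by
      intro b hb
      rw [mem_erase, mem_range] at hb
      apply hσu _ _ hb.2
      rw [add_right_comm]
      exact hσdvd b) (by
      intro b hb h
      rw [mem_erase, mem_range] at hb
      apply hb.1
      apply hfix b hb.2
      have h1 := hσdvd b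
      rwa [h] at h1) (by
      intro b hb
      rw [map_sub, Complex.conj_ofReal, hsym b (σ b) (hσdvd b)])
  refine ⟨r, hr0, ?_⟩
  rw [← mul_prod_erase (range d) _ (mem_range.2 hb0d), hr]
  obtain ⟨m, hm⟩ := hb0dvd
  have hmo : Odd m := by
    have h1 : Odd (d * m) := by
      rw [← hm]
      have h2 : a + b0 + b0 = a + 2 * b0 := by ring
      rw [h2]
      exact ha.add_even ⟨b0, by ring⟩
    exact (Nat.odd_mul.1 h1).2
  obtain ⟨l, hl⟩ := hmo
  have h1 : ((a : ℂ) * t + b0) / d = (1 + ((η * a / d : ℝ) : ℂ) * Complex.I) / 2 + ((l : ℤ) : ℂ) := by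
    have hmC : (a : ℂ) + b0 + b0 = d * (2 * l + 1) := by
      rw [hl] at hm
      exact_mod_cast hm
    rw [ht]
    push_cast
    field_simp
    linear_combination hmC
  have h2 : 0 < η * a / d := by positivity
  rw [h1, shift hINV, (hf _ h2).1]
  · push_cast
    ring
  · simp
    positivity

end SG2_

open SG2_ in
theorem p_SG2 (hINV : T_INV) (hRE2 : T_RE2) : T_SG2 := by
  intro D F η x hodd hsq hF hη hx
  obtain ⟨f, hf, hmono, -, -, -⟩ := hRE2
  have hD : 0 < D := hodd.pos
  have hη0 : 0 < η := by linarith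
  have hxf : x = f η := by
    have h1 := (hf η hη0).1
    rw [hx] at h1
    exact_mod_cast h1
  have him : 0 < ((1 + (η : ℂ) * Complex.I) / 2).im := by
    simp
    positivity
  -- the product formula
  have hprod : aeval (x : ℂ) (diag F) =
      ∏ g ∈ TT D, ((x : ℂ) - J (act g ((1 + η * Complex.I) / 2))) := by
    have h1 := hF.2 _ him
    have h2 := congrArg (fun P : ℂ[X] => P.eval (J ((1 + η * Complex.I) / 2))) h1
    simp only [SG1_.eval_inn, eval_prod, eval_sub, eval_X, eval_C] at h2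
    rw [hx] at h2
    exact h2
  -- the inner products
  have hin : ∀ p ∈ D.divisorsAntidiagonal, ∃ R : ℝ, 0 ≤ R ∧
      ∏ b ∈ Finset.range p.2, ((x : ℂ) - J (act (p, b) ((1 + η * Complex.I) / 2))) =
        ((R * (x - f (η * p.1 / p.2)) : ℝ) : ℂ) := by
    intro p hp
    obtain ⟨hp1, -⟩ := Nat.mem_divisorsAntidiagonal.1 hp
    rw [← hp1] at hodd
    obtain ⟨ha, hd⟩ := Nat.odd_mul.1 hodd
    exact SG2_.inner hINV f hf x η hη0 p.1 p.2 ha hd
  choose! R hR0 hR using hin
  have hreal : aeval x (diag F) = (∏ p ∈ D.divisorsAntidiagonal, (x - f (η * p.1 / p.2))) *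
      ∏ p ∈ D.divisorsAntidiagonal, R p := by
    have h1 : ((aeval x (diag F) : ℝ) : ℂ) = aeval (x : ℂ) (diag F) := by
      have := aeval_algebraMap_apply ℂ x (diag F)
      exact this.symm
    have h2 : ((aeval x (diag F) : ℝ) : ℂ) =
        (((∏ p ∈ D.divisorsAntidiagonal, (x - f (η * p.1 / p.2))) *
          ∏ p ∈ D.divisorsAntidiagonal, R p : ℝ) : ℂ) := by
      rw [h1, hprod, SG2_.prod_TT, Finset.prod_congr rfl hR, ← Complex.ofReal_prod,
        Finset.prod_mul_distrib, mul_comm]
    exact_mod_cast h2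
  have hR1 : 0 ≤ ∏ p ∈ D.divisorsAntidiagonal, R p := Finset.prod_nonneg hR0
  rw [hreal, ← mul_assoc]
  refine mul_nonneg ?_ hR1
  rw [Nat.prod_divisorsAntidiagonal (fun a d : ℕ => x - f (η * a / d))]
  refine SG1_.sign_prod hD hsq η (fun e => x - f (η * e / ((D / e : ℕ) : ℝ))) ?_ ?_
  · intro e k hek hke hnear
    have he0 : 0 < e := by omega
    have hk0 : 0 < k := Nat.pos_of_ne_zero (by rintro rfl; simp at hek; omega)
    have hDe : D / e = k := by rw [← hek]; exact Nat.mul_div_cancel_left k he0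
    have hDk : D / k = e := by rw [← hek]; exact Nat.mul_div_cancel e hk0
    simp only [hDe, hDk]
    have heR : (0 : ℝ) < e := by exact_mod_cast he0
    have hkR : (0 : ℝ) < k := by exact_mod_cast hk0
    have hkeR : (k : ℝ) < e := by exact_mod_cast hke
    have hDR : (D : ℝ) = e * k := by rw [← hek]; push_cast; ring
    have hlt : (e : ℝ) < η ^ 2 * k := by
      rw [hDR] at hnear
      nlinarith
    have ha : η < η * e / k := by
      rw [lt_div_iff₀ hkR]
      nlinarith
    have h1 : 0 ≤ x - f (η * e / k) := by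
      rw [hxf]
      have := hmono (Set.mem_Ici.2 hη.le) (Set.mem_Ici.2 (hη.le.trans ha.le)) ha
      linarith
    have hb : η * k / e < η := by
      rw [div_lt_iff₀ heR]
      nlinarith
    have hb0 : 0 < η * k / e := by positivity
    have h2 : x - f (η * k / e) ≤ 0 := by
      rw [hxf]
      rcases le_or_gt 1 (η * k / e) with h3 | h3
      · have := hmono (Set.mem_Ici.2 h3) (Set.mem_Ici.2 hη.le) hb
        linarith
      · have h4 : 1 ≤ 1 / (η * k / e) := by
          rw [le_div_iff₀ hb0]; linarith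
        have h5 : 1 / (η * k / e) < η := by
          rw [div_lt_iff₀ hb0]
          have : η * (η * k / e) = η ^ 2 * k / e := by ring
          rw [this, lt_div_iff₀ heR]
          linarith
        have := hmono (Set.mem_Ici.2 h4) (Set.mem_Ici.2 hη.le) h5
        rw [(hf _ hb0).2] at this
        linarith
    exact mul_nonpos_of_nonneg_of_nonpos h1 h2
  · intro e k hek hke hnear
    have he0 : 0 < e := by omega
    have hk0 : 0 < k := Nat.pos_of_ne_zero (by rintro rfl; simp at hek; omega)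
    have hDe : D / e = k := by rw [← hek]; exact Nat.mul_div_cancel_left k he0
    have hDk : D / k = e := by rw [← hek]; exact Nat.mul_div_cancel e hk0
    simp only [hDe, hDk]
    have heR : (0 : ℝ) < e := by exact_mod_cast he0
    have hkR : (0 : ℝ) < k := by exact_mod_cast hk0
    have hkeR : (k : ℝ) < e := by exact_mod_cast hke
    have hDR : (D : ℝ) = e * k := by rw [← hek]; push_cast; ring
    have hle : η ^ 2 * k ≤ (e : ℝ) := by
      rw [hDR, not_lt] at hnear
      nlinarith
    have ha : η < η * e / k := by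
      rw [lt_div_iff₀ hkR]
      nlinarith
    have h1 : 0 ≤ x - f (η * e / k) := by
      rw [hxf]
      have := hmono (Set.mem_Ici.2 hη.le) (Set.mem_Ici.2 (hη.le.trans ha.le)) ha
      linarith
    have hb0 : 0 < η * k / e := by positivity
    have h2 : 0 ≤ x - f (η * k / e) := by
      rw [hxf]
      have h5 : η ≤ 1 / (η * k / e) := by
        rw [le_div_iff₀ hb0]
        have : η * (η * k / e) = η ^ 2 * k / e := by ring
        rw [this, div_le_iff₀ heR]
        linarith
      have := hmono.antitoneOn (Set.mem_Ici.2 hη.le) (Set.mem_Ici.2 (hη.le.trans h5)) h5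
      rw [(hf _ hb0).2] at this
      linarith
    exact mul_nonneg h1 h2

end SSM
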