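import Pool.Agent.SSM.Targets

/-!
# MP_d74fca_nt, part IV: SGN, the sign of `F_D(x,x)`, locally uniformly
-/

set_option autoImplicit false

open Polynomial

namespace SSM

namespace SGN_

/-- local uniformity of the intermediate value theorem -/
theorem ivt (g : ℝ → ℝ) (c x : ℝ) (hm : StrictMonoOn g (Set.Ici 1)) (hc : ContinuousOn g (Set.Ici 1))
    (h1 : g 1 = c) (ht : Filter.Tendsto g Filter.atTop Filter.atTop) (hx : c < x) :
    ∃ δ η₁ η₂ : ℝ, 0 < δ ∧ 1 < η₁ ∧ η₁ ≤ η₂ ∧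
      ∀ x' : ℝ, |x' - x| < δ → ∃ η : ℝ, η₁ ≤ η ∧ η ≤ η₂ ∧ g η = x' := by
  obtain ⟨b, hb1, hbx⟩ : ∃ b : ℝ, 1 ≤ b ∧ x < g b :=
    ((Filter.eventually_ge_atTop (1 : ℝ)).and (ht.eventually_gt_atTop x)).exists
  have hsub : ∀ {u v : ℝ}, 1 ≤ u → Set.Icc u v ⊆ Set.Ici (1 : ℝ) :=
    fun hu y hy => hu.trans hy.1
  obtain ⟨e, ⟨he1, heb⟩, hex⟩ := intermediate_value_Icc hb1 (hc.mono (hsub le_rfl))
    (show x ∈ Set.Icc (g 1) (g b) from ⟨by rw [h1]; exact hx.le, hbx.le⟩)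
  have he : 1 < e := by
    rcases he1.lt_or_eq with h | h
    · exact h
    · rw [← h, h1] at hex
      exact absurd hex hx.ne
  have hn1 : (1 : ℝ) < (1 + e) / 2 := by linarith
  have hne : (1 + e) / 2 < e := by linarith
  have hg1 : g ((1 + e) / 2) < x := by
    rw [← hex]
    exact hm hn1.le he1 hne
  refine ⟨min (x - g ((1 + e) / 2)) (g b - x), (1 + e) / 2, b,
    lt_min (by linarith) (by linarith), hn1, by linarith, ?_⟩
  intro x' hx'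
  have ha := (abs_lt.1 (lt_of_lt_of_le hx' (min_le_left _ _))).1
  have hb := (abs_lt.1 (lt_of_lt_of_le hx' (min_le_right _ _))).2
  obtain ⟨η, ⟨hη1, hη2⟩, hη⟩ := intermediate_value_Icc (show (1 + e) / 2 ≤ b by linarith)
    (hc.mono (hsub hn1.le)) (show x' ∈ Set.Icc (g ((1 + e) / 2)) (g b) from
      ⟨by linarith, by linarith⟩)
  exact ⟨η, hη1, hη2, hη⟩

end SGN_

/-- SGN: sign of `F_D(x,x)`, locally uniform -/
theorem p_SGN (hRE1 : T_RE1) (hRE2 : T_RE2) (hSG1 : T_SG1) (hSG2 : T_SG2) : T_SGN := by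
  intro x hx
  rcases lt_or_gt_of_ne hx with h | h
  · obtain ⟨f, hf, hm, hc, h1, ht⟩ := hRE2
    obtain ⟨δ, η₁, η₂, hδ, hη1, hη2, H⟩ := SGN_.ivt (fun y => -f y) (-1728) (-x)
      (fun a ha b hb hab => neg_lt_neg (hm ha hb hab)) hc.neg (by simp only [h1])
      (Filter.tendsto_neg_atBot_atTop.comp ht) (neg_lt_neg h)
    refine ⟨δ, η₁, η₂, hδ, hη1, hη2, fun x' hx' => ?_⟩
    obtain ⟨η, e1, e2, e3⟩ := H (-x') (by rwa [neg_sub_neg, abs_sub_comm])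
    refine ⟨η, e1, e2, fun D F hD hsq hF => ?_⟩
    have hη : 1 < η := hη1.trans_le e1
    refine hSG2 D F η x' hD hsq hF hη ?_
    rw [(hf η (by linarith)).1]
    exact congrArg _ (neg_injective e3)
  · obtain ⟨f, hf, hm, hc, h1, ht⟩ := hRE1
    obtain ⟨δ, η₁, η₂, hδ, hη1, hη2, H⟩ := SGN_.ivt f 1728 x hm hc h1 ht h
    refine ⟨δ, η₁, η₂, hδ, hη1, hη2, fun x' hx' => ?_⟩
    obtain ⟨η, e1, e2, e3⟩ := H x' hx'
    refine ⟨η, e1, e2, fun D F hD hsq hF => ?_⟩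
    have hη : 1 < η := hη1.trans_le e1
    refine hSG1 D F η x' hD hsq hF hη ?_
    rw [(hf η (by linarith)).1, e3]

end SSM
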