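import Pool.Agent.SSM.Targets

/-!
# MP_d74fca_nt, part IV: size of `P_D(x)` (job SSM-SIZ, helper60)
-/

open Polynomial

namespace SSM

namespace SIZ_

theorem cast_aeval (P : ℤ[X]) (x : ℝ) :
    ((aeval x P : ℝ) : ℂ) = (P.map (Int.castRingHom ℂ)).eval (x : ℂ) := by
  have h := Polynomial.aeval_algebraMap_apply ℂ x P
  have h2 : algebraMap ℝ ℂ (aeval x P) = ((aeval x P : ℝ) : ℂ) := rfl
  rw [← h2, ← h, Polynomial.aeval_def, Polynomial.eval₂_eq_eval_map]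
  rfl

theorem prod_roots (P : ℤ[X]) (hm : P.Monic)
    (hn : (P.map (Int.castRingHom ℂ)).roots.Nodup) (x : ℝ) :
    |aeval x P| = ∏ r ∈ (P.map (Int.castRingHom ℂ)).roots.toFinset, ‖(x : ℂ) - r‖ := by
  have h1 : |aeval x P| = ‖((aeval x P : ℝ) : ℂ)‖ := by
    rw [Complex.norm_real, Real.norm_eq_abs]
  rw [h1, cast_aeval]
  have hs : (P.map (Int.castRingHom ℂ)).Splits := IsAlgClosed.splits _
  rw [hs.eval_eq_prod_roots_of_monic (hm.map _), ← norm_prod, Finset.prod,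
    Multiset.toFinset_val, hn.dedup]

theorem card_roots (P : ℤ[X]) (hm : P.Monic)
    (hn : (P.map (Int.castRingHom ℂ)).roots.Nodup) :
    P.natDegree = (P.map (Int.castRingHom ℂ)).roots.toFinset.card := by
  have hs : (P.map (Int.castRingHom ℂ)).Splits := IsAlgClosed.splits _
  rw [Multiset.toFinset_card_of_nodup hn, ← hs.natDegree_eq_card_roots, hm.natDegree_map]

/-- index set -/
def Om (D : ℕ) : Finset (Σ _ : ℕ, Bool × ℕ) :=
  (Finset.range (Nat.sqrt D + 1)).sigma (fun β =>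
    (Finset.univ : Finset Bool) ×ˢ ((β ^ 2 + D).divisors.filter (fun α => β + 1 ≤ α)))

theorem harm (N : ℕ) : ∑ β ∈ Finset.range (N + 1), (1 : ℝ) / ((β : ℝ) + 1) ≤
    1 + Real.log ((N : ℝ) + 1) := by
  have h := harmonic_le_one_add_log (N + 1)
  unfold harmonic at h
  push_cast at h
  simpa [one_div] using h

theorem sum_le (D : ℕ) (hD : 1 ≤ D) (K T : ℝ) (hK : 0 ≤ K) (hT : 0 ≤ T)
    (ht : ∀ n : ℕ, 1 ≤ n → n ≤ 2 * D → (n.divisors.card : ℝ) ≤ T) :
    ∑ w ∈ Om D, (K + 2 * Real.pi * (Real.sqrt D / (w.2.2 : ℝ))) ≤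
      4 * T * Real.sqrt D * (K + Real.pi * (1 + Real.log (2 * D))) := by
  have hπ := Real.pi_pos
  have hs0 : 0 ≤ Real.sqrt D := Real.sqrt_nonneg _
  have hD' : (1 : ℝ) ≤ D := by exact_mod_cast hD
  have hs1 : 1 ≤ Real.sqrt D := by
    rw [show (1 : ℝ) = Real.sqrt 1 by simp]
    exact Real.sqrt_le_sqrt hD'
  have hN : (Nat.sqrt D : ℝ) ≤ Real.sqrt D := by
    apply Real.le_sqrt_of_sq_le
    exact_mod_cast Nat.sqrt_le' D
  have hsD : Real.sqrt D ≤ D := by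
    have := Real.sq_sqrt (show (0 : ℝ) ≤ D by positivity)
    nlinarith
  unfold Om
  rw [Finset.sum_sigma]
  have h1 : ∀ β ∈ Finset.range (Nat.sqrt D + 1),
      ∑ p ∈ (Finset.univ : Finset Bool) ×ˢ ((β ^ 2 + D).divisors.filter (fun α => β + 1 ≤ α)),
        (K + 2 * Real.pi * (Real.sqrt D / (p.2 : ℝ))) ≤
      2 * T * (K + 2 * Real.pi * Real.sqrt D * (1 / ((β : ℝ) + 1))) := by
    intro β hβ
    have hβ' : β ≤ Nat.sqrt D := Nat.lt_succ_iff.1 (Finset.mem_range.1 hβ)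
    have hβ2 : β ^ 2 ≤ D := Nat.le_sqrt'.1 hβ'
    have h2 : ∀ p ∈ (Finset.univ : Finset Bool) ×ˢ
        ((β ^ 2 + D).divisors.filter (fun α => β + 1 ≤ α)),
        (K + 2 * Real.pi * (Real.sqrt D / (p.2 : ℝ))) ≤
          (K + 2 * Real.pi * Real.sqrt D * (1 / ((β : ℝ) + 1))) := by
      intro p hp
      rw [Finset.mem_product, Finset.mem_filter] at hp
      have h3 : ((β : ℝ) + 1) ≤ (p.2 : ℝ) := by exact_mod_cast hp.2.2
      have h4 : (0 : ℝ) < (β : ℝ) + 1 := by positivity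
      have h5 : Real.sqrt D / (p.2 : ℝ) ≤ Real.sqrt D / ((β : ℝ) + 1) :=
        div_le_div_of_nonneg_left hs0 h4 h3
      have h6 : 2 * Real.pi * Real.sqrt D * (1 / ((β : ℝ) + 1)) =
          2 * Real.pi * (Real.sqrt D / ((β : ℝ) + 1)) := by ring
      rw [h6]
      have := mul_le_mul_of_nonneg_left h5 (show (0 : ℝ) ≤ 2 * Real.pi by positivity)
      linarith
    refine (Finset.sum_le_card_nsmul _ _ _ h2).trans ?_
    rw [nsmul_eq_mul]
    have h7 : (0 : ℝ) ≤ K + 2 * Real.pi * Real.sqrt D * (1 / ((β : ℝ) + 1)) := by positivity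
    refine mul_le_mul_of_nonneg_right ?_ h7
    rw [Finset.card_product]
    have h8 : (((β ^ 2 + D).divisors.filter (fun α => β + 1 ≤ α)).card : ℝ) ≤ T := by
      refine le_trans ?_ (ht (β ^ 2 + D) (by omega) (by omega))
      exact_mod_cast Finset.card_filter_le _ _
    push_cast
    simp only [Finset.card_univ, Fintype.card_bool]
    push_cast
    linarith
  refine (Finset.sum_le_sum h1).trans ?_
  rw [← Finset.mul_sum, Finset.sum_add_distrib, ← Finset.mul_sum]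
  simp only [Finset.sum_const, Finset.card_range, nsmul_eq_mul]
  have h9 := harm (Nat.sqrt D)
  have h10 : Real.log ((Nat.sqrt D : ℝ) + 1) ≤ Real.log (2 * D) := by
    apply Real.log_le_log (by positivity)
    linarith
  push_cast
  have h11 : ((Nat.sqrt D : ℝ) + 1) * K ≤ 2 * Real.sqrt D * K :=
    mul_le_mul_of_nonneg_right (by linarith) hK
  have h12 : 2 * Real.pi * Real.sqrt D *
      ∑ β ∈ Finset.range (Nat.sqrt D + 1), (1 : ℝ) / ((β : ℝ) + 1) ≤
      2 * Real.pi * Real.sqrt D * (1 + Real.log (2 * D)) :=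
    mul_le_mul_of_nonneg_left (by linarith) (by positivity)
  calc 2 * T * (((Nat.sqrt D : ℝ) + 1) * K + 2 * Real.pi * Real.sqrt D *
      ∑ β ∈ Finset.range (Nat.sqrt D + 1), (1 : ℝ) / ((β : ℝ) + 1))
      ≤ 2 * T * (2 * Real.sqrt D * K + 2 * Real.pi * Real.sqrt D * (1 + Real.log (2 * D))) :=
        mul_le_mul_of_nonneg_left (by linarith) (by positivity)
    _ = _ := by ring

/-- the asymptotic estimate -/
theorem asym (C K ε : ℝ) (hε : 0 < ε) : ∃ D₀ : ℕ, 1 ≤ D₀ ∧ ∀ D : ℕ, D₀ ≤ D →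
    4 * (C * (2 * D : ℝ) ^ (ε / 2)) * Real.sqrt D * (K + Real.pi * (1 + Real.log (2 * D))) ≤
      (D : ℝ) ^ (1 / 2 + ε) := by
  have h1 : (fun D : ℝ => 4 * C * (2 : ℝ) ^ (ε / 2) * (K + Real.pi * (1 + Real.log 2)) +
      4 * C * (2 : ℝ) ^ (ε / 2) * Real.pi * Real.log D) =o[Filter.atTop]
      (fun D : ℝ => D ^ (ε / 2)) := by
    refine Asymptotics.IsLittleO.add ?_ ?_
    · rw [Asymptotics.isLittleO_const_left]
      right
      refine Filter.Tendsto.comp Filter.tendsto_abs_atTop_atTop ?_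
      exact tendsto_rpow_atTop (by positivity)
    · exact (isLittleO_log_rpow_atTop (by positivity)).const_mul_left _
  have h2 := h1.bound (show (0 : ℝ) < 1 by norm_num)
  obtain ⟨A, hA⟩ := Filter.eventually_atTop.1 h2
  refine ⟨⌈A⌉₊ + 1, by omega, fun D hD => ?_⟩
  have hD1 : (1 : ℝ) ≤ D := by
    have : 1 ≤ D := by omega
    exact_mod_cast this
  have hDA : A ≤ D := by
    have h3 : ⌈A⌉₊ ≤ D := by omega
    exact (Nat.le_ceil A).trans (by exact_mod_cast h3)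
  have h4 := hA D hDA
  rw [one_mul, Real.norm_of_nonneg (show (0 : ℝ) ≤ (D : ℝ) ^ (ε / 2) by positivity)] at h4
  have h5 := (le_abs_self _).trans h4
  have h6 : Real.log (2 * D) = Real.log 2 + Real.log D :=
    Real.log_mul (by norm_num) (by positivity)
  have h7 : (2 * D : ℝ) ^ (ε / 2) = (2 : ℝ) ^ (ε / 2) * (D : ℝ) ^ (ε / 2) :=
    Real.mul_rpow (by norm_num) (by positivity)
  have h8 : (D : ℝ) ^ (1 / 2 + ε) = (D : ℝ) ^ (ε / 2) * (D : ℝ) ^ (ε / 2) * Real.sqrt D := by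
    rw [Real.sqrt_eq_rpow, ← Real.rpow_add (by positivity), ← Real.rpow_add (by positivity)]
    congr 1
    ring
  rw [h6, h7, h8]
  have h9 : 4 * (C * ((2 : ℝ) ^ (ε / 2) * (D : ℝ) ^ (ε / 2))) * Real.sqrt D *
      (K + Real.pi * (1 + (Real.log 2 + Real.log D))) =
      (4 * C * (2 : ℝ) ^ (ε / 2) * (K + Real.pi * (1 + Real.log 2)) +
      4 * C * (2 : ℝ) ^ (ε / 2) * Real.pi * Real.log D) * ((D : ℝ) ^ (ε / 2) * Real.sqrt D) := by
    ring
  rw [h9]
  calc _ ≤ (D : ℝ) ^ (ε / 2) * ((D : ℝ) ^ (ε / 2) * Real.sqrt D) :=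
        mul_le_mul_of_nonneg_right h5 (by positivity)
    _ = _ := by ring

/-- the point attached to an index -/
noncomputable def U (D : ℕ) (w : Σ _ : ℕ, Bool × ℕ) : ℂ :=
  (-((if w.2.1 then (w.1 : ℤ) else -(w.1 : ℤ)) : ℤ) + Real.sqrt D * Complex.I) / (w.2.2 : ℕ)

theorem U_im (D : ℕ) (w : Σ _ : ℕ, Bool × ℕ) : (U D w).im = Real.sqrt D / (w.2.2 : ℝ) := by
  unfold U
  rw [show ((w.2.2 : ℕ) : ℂ) = ((w.2.2 : ℝ) : ℂ) by push_cast; rfl, Complex.div_ofReal_im]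
  split_ifs <;> simp

theorem root_index (h_RDS : T_RDS) (D : ℕ) (hD : 1 ≤ D) (t : ℂ) (ht : CMt D t) :
    ∃ w ∈ Om D, J (U D w) = J t ∧ 1 / 2 ≤ (U D w).im := by
  obtain ⟨α, β, γ, s, u, hs, hα, hαγ, hβα, hdet, hJ, hu⟩ := h_RDS D t hD ht
  have h1 : 3 * β ^ 2 ≤ D := by nlinarith
  have h2 : β ≤ Nat.sqrt D := Nat.le_sqrt'.2 (by omega)
  have h3 : β + 1 ≤ α := by omega
  have h4 : α ∣ β ^ 2 + D := ⟨γ, hdet.symm⟩
  have h5 : α ^ 2 ≤ 4 * D := by nlinarith
  have hmem : ∀ b : Bool, (⟨β, (b, α)⟩ : Σ _ : ℕ, Bool × ℕ) ∈ Om D := by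
    intro b
    unfold Om
    rw [Finset.mem_sigma, Finset.mem_product, Finset.mem_filter, Nat.mem_divisors]
    refine ⟨Finset.mem_range.2 (by simp only; omega), Finset.mem_univ _, ⟨h4, ?_⟩, h3⟩
    simp only
    omega
  have him : ∀ b : Bool, 1 / 2 ≤ (U D ⟨β, (b, α)⟩).im := by
    intro b
    rw [U_im]
    have hα' : (0 : ℝ) < α := by exact_mod_cast hα
    rw [le_div_iff₀ hα']
    apply Real.le_sqrt_of_sq_le
    have h6 : ((α : ℝ)) ^ 2 ≤ 4 * D := by exact_mod_cast h5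
    nlinarith
  rcases hs with hs | hs
  · refine ⟨⟨β, (true, α)⟩, hmem _, ?_, him _⟩
    rw [← hJ, hu, hs]
    simp [U]
  · refine ⟨⟨β, (false, α)⟩, hmem _, ?_, him _⟩
    rw [← hJ, hu, hs]
    simp [U]

end SIZ_

open SIZ_ in
theorem p_SIZ (h_RDS : T_RDS) (h_JBD : T_JBD) (h_TAU : T_TAU) : T_SIZ := by
  intro x ε hε
  obtain ⟨⟨C, hC, hb⟩, -⟩ := h_JBD
  obtain ⟨C', hC', htau⟩ := h_TAU (ε / 2) (by positivity)
  obtain ⟨D₀, h1, h2⟩ := asym C' (|x| + C + 1) ε hε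
  refine ⟨D₀, fun D P hD hP => ?_⟩
  have hD1 : 1 ≤ D := h1.trans hD
  have hx := abs_nonneg x
  have hsum := (sum_le D hD1 (|x| + C + 1) (C' * (2 * D : ℝ) ^ (ε / 2)) (by positivity)
    (by positivity) (fun n hn hn2 => (htau n hn).trans (by
      have : (n : ℝ) ≤ 2 * D := by exact_mod_cast hn2
      gcongr))).trans (h2 D hD)
  set S := (P.map (Int.castRingHom ℂ)).roots.toFinset with hS
  set g : (Σ _ : ℕ, Bool × ℕ) → ℝ :=
    fun w => |x| + C + 1 + 2 * Real.pi * (Real.sqrt D / (w.2.2 : ℝ)) with hg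
  have hg0 : ∀ w, 1 ≤ g w := by
    intro w
    have : 0 ≤ 2 * Real.pi * (Real.sqrt D / (w.2.2 : ℝ)) := by positivity
    simp only [hg]
    linarith
  have hroot : ∀ r ∈ S, ∃ w ∈ Om D, J (U D w) = r ∧ 1 / 2 ≤ (U D w).im := by
    intro r hr
    rw [hS, Multiset.mem_toFinset, Polynomial.mem_roots'] at hr
    have h3 : aeval r P = 0 := by
      rw [Polynomial.aeval_def, Polynomial.eval₂_eq_eval_map]
      exact hr.2
    obtain ⟨t, ht, htr⟩ := (hP.roots r).1 h3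
    obtain ⟨w, hw, hw1, hw2⟩ := root_index h_RDS D hD1 t ht
    exact ⟨w, hw, hw1.trans htr, hw2⟩
  choose! ω hω1 hω2 hω3 using hroot
  have hinj : Set.InjOn ω S := by
    intro r hr r' hr' h
    rw [← hω2 r hr, ← hω2 r' hr', h]
  have hle : ∑ r ∈ S, g (ω r) ≤ (D : ℝ) ^ (1 / 2 + ε) := by
    refine le_trans ?_ hsum
    rw [← Finset.sum_image (f := g) hinj]
    refine Finset.sum_le_sum_of_subset_of_nonneg ?_ (fun w _ _ => zero_le_one.trans (hg0 w))
    intro w hw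
    obtain ⟨r, hr, rfl⟩ := Finset.mem_image.1 hw
    exact hω1 r hr
  constructor
  · rw [prod_roots P hP.monic hP.simple x, ← hS]
    have h4 : ∏ r ∈ S, ‖(x : ℂ) - r‖ ≤ ∏ r ∈ S, Real.exp (g (ω r)) := by
      refine Finset.prod_le_prod (fun r _ => norm_nonneg _) (fun r hr => ?_)
      have h5 := (hb (U D (ω r)) (hω3 r hr)).1
      rw [hω2 r hr, U_im] at h5
      have h6 : ‖(x : ℂ) - r‖ ≤ |x| + ‖r‖ := by
        refine (norm_sub_le _ _).trans ?_
        rw [Complex.norm_real, Real.norm_eq_abs]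
      set E := Real.exp (2 * Real.pi * (Real.sqrt D / ((ω r).2.2 : ℝ))) with hE
      have h7 : 1 ≤ E := by
        rw [hE]
        apply Real.one_le_exp
        positivity
      have h8 : |x| + C ≤ Real.exp (|x| + C + 1) := by
        have := Real.add_one_le_exp (|x| + C + 1)
        linarith
      have h9 : Real.exp (g (ω r)) = Real.exp (|x| + C + 1) * E := by
        rw [hE, ← Real.exp_add]
      rw [h9]
      calc ‖(x : ℂ) - r‖ ≤ |x| + C * E := h6.trans (by linarith)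
        _ ≤ (|x| + C) * E := by nlinarith
        _ ≤ _ := mul_le_mul_of_nonneg_right h8 (by linarith)
    refine h4.trans ?_
    rw [← Real.exp_sum]
    exact Real.exp_le_exp.2 hle
  · rw [card_roots P hP.monic hP.simple, ← hS]
    refine le_trans ?_ hle
    calc ((S.card : ℕ) : ℝ) = ∑ r ∈ S, (1 : ℝ) := by simp
      _ ≤ _ := Finset.sum_le_sum (fun r _ => hg0 _)

end SSM
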