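import Pool.Agent.SSM.Targets

/-!
# MP_d74fca_nt, part IV, SPE: special values of `J`, stabilisers (helper94, for helper58)
-/

open Polynomial
open scoped MatrixGroups

namespace SSM

namespace SPE_

lemma J_eq (z : UpperHalfPlane) : J (z : ℂ) = ModularForm.E₄ z ^ 3 / ModularForm.discriminant z := by
  unfold J
  rw [UpperHalfPlane.ofComplex_apply]

lemma E4_smul (γ : SL(2, ℤ)) (z : UpperHalfPlane) :
    ModularForm.E₄ (γ • z) = (UpperHalfPlane.denom γ z) ^ 4 * ModularForm.E₄ z := by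
  have h := SlashInvariantForm.slash_action_eqn'' (ModularForm.E₄)
    (γ := (γ : GL (Fin 2) ℝ)) (MonoidHom.mem_range.mpr ⟨γ, rfl⟩) z
  exact_mod_cast h

lemma E6_smul (γ : SL(2, ℤ)) (z : UpperHalfPlane) :
    ModularForm.E₆ (γ • z) = (UpperHalfPlane.denom γ z) ^ 6 * ModularForm.E₆ z := by
  have h := SlashInvariantForm.slash_action_eqn'' (ModularForm.E₆)
    (γ := (γ : GL (Fin 2) ℝ)) (MonoidHom.mem_range.mpr ⟨γ, rfl⟩) z
  exact_mod_cast h

/-- a fixed point of a modular transformation -/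
lemma fixed (a b c d : ℤ) (h : a * d - b * c = 1) (z : UpperHalfPlane)
    (hz : (a * (z : ℂ) + b) / (c * (z : ℂ) + d) = z) :
    (c * (z : ℂ) + d) ≠ 0 ∧
    ModularForm.E₄ z = (c * (z : ℂ) + d) ^ 4 * ModularForm.E₄ z ∧
    ModularForm.E₆ z = (c * (z : ℂ) + d) ^ 6 * ModularForm.E₆ z := by
  let γ : SL(2, ℤ) := ⟨!![a, b; c, d], by rw [Matrix.det_fin_two_of]; exact h⟩
  have h1 : ((γ • z : UpperHalfPlane) : ℂ) = (a * (z : ℂ) + b) / (c * (z : ℂ) + d) := by
    rw [UpperHalfPlane.coe_specialLinearGroup_apply]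
    simp [γ]
  have h2 : γ • z = z := UpperHalfPlane.ext (h1.trans hz)
  have h3 : UpperHalfPlane.denom (γ : GL (Fin 2) ℝ) z = c * (z : ℂ) + d := by
    rw [ModularGroup.denom_apply]
    simp [γ]
  have h4 := E4_smul γ z
  have h6 := E6_smul γ z
  rw [h2, h3] at h4 h6
  refine ⟨?_, h4, h6⟩
  rw [← h3]
  exact UpperHalfPlane.denom_ne_zero _ z

lemma J_zero_iff (z : UpperHalfPlane) : J (z : ℂ) = 0 ↔ ModularForm.E₄ z = 0 := by
  have hD := ModularForm.discriminant_ne_zero z
  rw [J_eq, div_eq_zero_iff]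
  constructor
  · rintro (h | h)
    · exact pow_eq_zero_iff (by norm_num) |>.mp h
    · exact absurd h hD
  · intro h
    left
    rw [h]
    norm_num

lemma J_1728_iff (z : UpperHalfPlane) : J (z : ℂ) = 1728 ↔ ModularForm.E₆ z = 0 := by
  have hD := ModularForm.discriminant_ne_zero z
  have hE := ModularForm.discriminant_eq_E₄_cube_sub_E₆_sq z
  rw [J_eq, div_eq_iff hD]
  constructor
  · intro h
    rw [hE] at h
    have h1 : ModularForm.E₆ z ^ 2 = 0 := by linear_combination h
    exact pow_eq_zero_iff (by norm_num) |>.mp h1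
  · intro h
    rw [hE, h]
    ring

lemma rho_im : 0 < ((1 + Real.sqrt 3 * Complex.I) / 2 : ℂ).im := by
  have h1 : ((1 + Real.sqrt 3 * Complex.I) / 2 : ℂ).im = Real.sqrt 3 / 2 := by
    have h2 : ((1 + Real.sqrt 3 * Complex.I) / 2 : ℂ) =
        ((1 / 2 : ℝ) : ℂ) + ((Real.sqrt 3 / 2 : ℝ) : ℂ) * Complex.I := by
      push_cast
      ring
    rw [h2]
    simp
  rw [h1]
  positivity

lemma rho_sq : ((1 + Real.sqrt 3 * Complex.I) / 2 : ℂ) ^ 2 =
    ((1 + Real.sqrt 3 * Complex.I) / 2 : ℂ) - 1 := by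
  have h1 : ((Real.sqrt 3 : ℝ) : ℂ) ^ 2 = 3 := by
    rw [← Complex.ofReal_pow, Real.sq_sqrt (by norm_num)]
    norm_num
  have h2 := Complex.I_sq
  linear_combination (1 / 4 : ℂ) * Complex.I ^ 2 * h1 + (3 / 4 : ℂ) * h2

end SPE_

open SPE_ in
theorem p_SPE : T_SPE := by
  refine ⟨?_, ?_, ?_, ?_, ?_⟩
  · -- the value at `i`
    have h1 : ((UpperHalfPlane.I : UpperHalfPlane) : ℂ) = Complex.I := rfl
    rw [← h1, J_1728_iff]
    obtain ⟨-, -, h6⟩ := fixed 0 (-1) 1 0 (by norm_num) UpperHalfPlane.I (by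
      rw [h1]
      have h2 := Complex.I_ne_zero
      have h3 := Complex.I_sq
      push_cast
      rw [div_eq_iff (by simp)]
      linear_combination -h3)
    rw [h1] at h6
    have h7 : (((1 : ℤ) : ℂ) * Complex.I + ((0 : ℤ) : ℂ)) ^ 6 = -1 := by
      push_cast
      have h3 := Complex.I_sq
      linear_combination (Complex.I ^ 4 - Complex.I ^ 2 + 1) * h3
    rw [h7] at h6
    linear_combination (1 / 2 : ℂ) * h6
  · -- the value at `ρ`
    obtain ⟨ρ, hρ⟩ : ∃ ρ : UpperHalfPlane, (ρ : ℂ) = (1 + Real.sqrt 3 * Complex.I) / 2 :=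
      ⟨⟨_, rho_im⟩, rfl⟩
    have hsq : (ρ : ℂ) ^ 2 = ρ - 1 := by
      rw [hρ]
      exact rho_sq
    have him : 0 < (ρ : ℂ).im := ρ.im_pos
    rw [← hρ, J_zero_iff]
    have hne : (ρ : ℂ) ≠ 0 := by
      intro h
      rw [h] at him
      simp at him
    obtain ⟨-, h4, -⟩ := fixed 1 (-1) 1 0 (by norm_num) ρ (by
      push_cast
      rw [div_eq_iff (by simpa using hne)]
      linear_combination -hsq)
    have h5 : (((1 : ℤ) : ℂ) * (ρ : ℂ) + ((0 : ℤ) : ℂ)) ^ 4 = -(ρ : ℂ) := by
      push_cast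
      linear_combination ((ρ : ℂ) ^ 2 + ρ) * hsq
    rw [h5] at h4
    have h6 : (1 + (ρ : ℂ)) * ModularForm.E₄ ρ = 0 := by linear_combination h4
    rcases mul_eq_zero.mp h6 with h7 | h7
    · exfalso
      have h8 : (ρ : ℂ) = -1 := by linear_combination h7
      rw [h8] at him
      simp at him
    · exact h7
  · intro z hz h
    have h1 : UpperHalfPlane.ofComplex z = ⟨z, hz⟩ := UpperHalfPlane.ofComplex_apply_of_im_pos hz
    rw [h1]
    exact (J_zero_iff ⟨z, hz⟩).mp h
  · intro z hz h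
    have h1 : UpperHalfPlane.ofComplex z = ⟨z, hz⟩ := UpperHalfPlane.ofComplex_apply_of_im_pos hz
    rw [h1]
    exact (J_1728_iff ⟨z, hz⟩).mp h
  · intro z hz h0 h1 a b c d hdet hfix
    obtain ⟨w, hw⟩ : ∃ w : UpperHalfPlane, (w : ℂ) = z := ⟨⟨z, hz⟩, rfl⟩
    rw [← hw] at hz h0 h1 hfix
    rw [Ne, J_zero_iff] at h0
    rw [Ne, J_1728_iff] at h1
    obtain ⟨hu, h4, h6⟩ := fixed a b c d hdet w hfix
    have hu4 : (c * (w : ℂ) + d) ^ 4 = 1 := by
      apply mul_right_cancel₀ h0
      rw [← h4, one_mul]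
    have hu6 : (c * (w : ℂ) + d) ^ 6 = 1 := by
      apply mul_right_cancel₀ h1
      rw [← h6, one_mul]
    have hu2 : (c * (w : ℂ) + d) ^ 2 = 1 := by
      linear_combination hu6 - (c * (w : ℂ) + d) ^ 2 * hu4
    have hu1 : (c * (w : ℂ) + d) = 1 ∨ (c * (w : ℂ) + d) = -1 := by
      have h7 : ((c * (w : ℂ) + d) - 1) * ((c * (w : ℂ) + d) + 1) = 0 := by
        linear_combination hu2
      rcases mul_eq_zero.mp h7 with h8 | h8
      · left
        linear_combination h8
      · right
        linear_combination h8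
    have him : (c * (w : ℂ) + d).im = c * (w : ℂ).im := by
      simp
    have hc : c = 0 := by
      have h8 : (c * (w : ℂ) + d).im = 0 := by
        rcases hu1 with h9 | h9
        · rw [h9]; simp
        · rw [h9]; simp
      rw [him] at h8
      rcases mul_eq_zero.mp h8 with h9 | h9
      · exact_mod_cast h9
      · exact absurd h9 hz.ne'
    subst hc
    have hd : d = 1 ∨ d = -1 := by
      rcases hu1 with h9 | h9
      · left
        have h10 : (d : ℂ) = 1 := by
          push_cast at h9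
          linear_combination h9
        exact_mod_cast h10
      · right
        have h10 : (d : ℂ) = -1 := by
          push_cast at h9
          linear_combination h9
        exact_mod_cast h10
    have had : a * d = 1 := by linarith
    rcases hd with rfl | rfl
    · have ha : a = 1 := by linarith
      subst ha
      refine ⟨?_, rfl, rfl, Or.inl rfl⟩
      have h11 : (b : ℂ) = 0 := by
        push_cast at hfix
        linear_combination hfix
      exact_mod_cast h11
    · have ha : a = -1 := by linarith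
      subst ha
      refine ⟨?_, rfl, rfl, Or.inr rfl⟩
      have h11 : (b : ℂ) = 0 := by
        push_cast at hfix
        linear_combination -hfix
      exact_mod_cast h11

end SSM
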