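import Pool.Agent.SSM.Targets

/-!
# SQD: `F_D(X,X)` is a square up to sign modulo `ℓ ∣ D`
-/

open Polynomial

namespace SSM

theorem SQD_.evalX (v : ℤ[X]) (F : ℤ[X][X]) :
    F.eval v = aevalAeval (R := ℤ) (X : ℤ[X]) v F := by
  have h : (evalRingHom v : ℤ[X][X] →+* ℤ[X]) =
      ((aevalAeval (R := ℤ) (X : ℤ[X]) v : ℤ[X][X] →ₐ[ℤ] ℤ[X]) : ℤ[X][X] →+* ℤ[X]) := by
    refine Polynomial.ringHom_ext (fun a => ?_) ?_
    · rw [coe_evalRingHom, eval_C]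
      exact (aevalAeval_C (R := ℤ) (X : ℤ[X]) v a).symm ▸ (aeval_X_left_apply a).symm
    · rw [coe_evalRingHom, eval_X]
      exact (aevalAeval_Y (R := ℤ) (X : ℤ[X]) v).symm
  exact DFunLike.congr_fun h F

theorem SQD_.evalMap (ℓ : ℕ) (v : ℤ[X]) (F : ℤ[X][X]) :
    (F.map (expand ℤ ℓ).toRingHom).eval v = aevalAeval (R := ℤ) (X ^ ℓ : ℤ[X]) v F := by
  have h : (evalRingHom v : ℤ[X][X] →+* ℤ[X]).comp (mapRingHom (expand ℤ ℓ).toRingHom) =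
      ((aevalAeval (R := ℤ) (X ^ ℓ : ℤ[X]) v : ℤ[X][X] →ₐ[ℤ] ℤ[X]) : ℤ[X][X] →+* ℤ[X]) := by
    refine Polynomial.ringHom_ext (fun a => ?_) ?_
    · rw [RingHom.comp_apply, coe_mapRingHom, map_C, coe_evalRingHom, eval_C]
      have h1 := aevalAeval_C (R := ℤ) (X ^ ℓ : ℤ[X]) v a
      refine Eq.trans ?_ h1.symm
      have h2 : (expand ℤ ℓ : ℤ[X] →ₐ[ℤ] ℤ[X]) = aeval (X ^ ℓ : ℤ[X]) := by
        refine Polynomial.algHom_ext ?_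
        rw [expand_X, aeval_X]
      exact congrArg (fun f : ℤ[X] →ₐ[ℤ] ℤ[X] => f a) h2
    · rw [RingHom.comp_apply, coe_mapRingHom, map_X, coe_evalRingHom, eval_X]
      exact (aevalAeval_Y (R := ℤ) (X ^ ℓ : ℤ[X]) v).symm
  exact DFunLike.congr_fun h F

theorem p_SQD (h_MPI : T_MPI) (h_SYM : T_SYM) (h_KRO : T_KRO) : T_SQD := by
  intro D ℓ F hD hℓ hdvd hsq hF
  obtain ⟨m, rfl⟩ := hdvd
  have hm : ¬ ℓ ∣ m := by
    rintro ⟨e, rfl⟩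
    have h1 := hsq ℓ ⟨e, by ring⟩
    rw [Nat.isUnit_iff] at h1
    exact hℓ.one_lt.ne' h1
  have hm1 : 1 ≤ m := by
    rcases Nat.eq_zero_or_pos m with h | h
    · subst h
      simp at hm
    · exact h
  obtain ⟨F₀, hF₀⟩ := h_MPI m hm1
  obtain ⟨ε, hε, hswap⟩ := h_SYM m F₀ hm1 hF₀
  obtain ⟨K, hK⟩ := h_KRO ℓ m hℓ hm1 hm F₀ F hF₀ hF
  set S := F₀.eval (X ^ ℓ : ℤ[X]) with hS
  have h1 : S = C ε * aevalAeval (R := ℤ) (X ^ ℓ : ℤ[X]) (X : ℤ[X]) F₀ := by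
    rw [hS, SQD_.evalX]
    have h2 := Bivariate.aevalAeval_swap (R := ℤ) (X ^ ℓ : ℤ[X]) (X : ℤ[X]) F₀
    rw [hswap, map_mul, aevalAeval_C, aeval_C] at h2
    rw [← h2]
    rfl
  have hε2 : (C ε : ℤ[X]) * C ε = 1 := by
    rcases hε with h | h <;> simp [h]
  have h3 : (F₀.map (expand ℤ ℓ).toRingHom).eval (X : ℤ[X]) = C ε * S := by
    rw [SQD_.evalMap, h1, ← mul_assoc, hε2, one_mul]
  have h4 : diag F = C ε * S ^ 2 + C (ℓ : ℤ) * K.eval X := by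
    unfold diag
    rw [hK, eval_add, eval_mul, eval_mul, expand_eval, h3, eval_C, ← hS]
    ring
  refine ⟨(ε : ZMod ℓ), S.map (Int.castRingHom (ZMod ℓ)), ?_, ?_⟩
  · rcases hε with h | h
    · left
      simp [h]
    · right
      simp [h]
  · rw [h4]
    simp
end SSM
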