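import Pool.Agent.SSM.Targets

/-!
# SQM: `P` is a square modulo `ℓ`
-/

open Polynomial

namespace SSM

namespace SQM_

theorem core {K : Type} [Field K] (p r S : K[X]) (s ε : K) (hp : p.Monic) (hr : r.Monic)
    (hs : s ^ 2 = 1) (hε : ε ^ 2 = 1) (h : C s * p * r ^ 2 = C ε * S ^ 2) :
    ∃ Q : K[X], p = Q ^ 2 := by
  have hs0 : s ≠ 0 := by
    rintro rfl
    simp at hs
  have hlc := congrArg leadingCoeff h
  rw [leadingCoeff_mul, leadingCoeff_mul, leadingCoeff_C, hp.leadingCoeff, (hr.pow 2).leadingCoeff,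
    leadingCoeff_mul, leadingCoeff_C, leadingCoeff_pow, mul_one, mul_one] at hlc
  set c := S.leadingCoeff with hc
  have hc0 : c ≠ 0 := by
    intro h0
    rw [h0] at hlc
    apply hs0
    rw [hlc]
    ring
  -- `T = S / c` has `T² = p r²`
  have hT : (C c⁻¹ * S) ^ 2 = p * r ^ 2 := by
    have h1 : C ε * (C c⁻¹ * S) ^ 2 = C (c⁻¹ ^ 2) * (C s * p * r ^ 2) := by
      rw [h, mul_pow, ← C_pow]
      ring
    have h2 : (c⁻¹ ^ 2 * s) = ε := by
      rw [hlc]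
      field_simp
    have h3 : C ε * (C c⁻¹ * S) ^ 2 = C ε * (p * r ^ 2) := by
      rw [h1]
      conv_rhs => rw [← h2]
      rw [C_mul]
      ring
    have hε0 : (C ε : K[X]) ≠ 0 := by
      rw [Ne, C_eq_zero]
      rintro rfl
      simp at hε
    exact mul_left_cancel₀ hε0 h3
  have hdvd : r ^ 2 ∣ (C c⁻¹ * S) ^ 2 := ⟨p, by rw [hT]; ring⟩
  have hrT : r ∣ C c⁻¹ * S := (IsIntegrallyClosed.pow_dvd_pow_iff (by norm_num)).mp hdvd
  obtain ⟨Q, hQ⟩ := hrT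
  refine ⟨Q, ?_⟩
  rw [hQ] at hT
  have hr0 : r ^ 2 ≠ 0 := pow_ne_zero 2 hr.ne_zero
  apply mul_right_cancel₀ hr0
  rw [← hT]
  ring

end SQM_

theorem p_SQM : T_SQM := by
  intro ℓ A P R s ε S hℓ hP hR hs hε hA hmap
  have : Fact ℓ.Prime := ⟨hℓ⟩
  refine SQM_.core (P.map (Int.castRingHom (ZMod ℓ))) (R.map (Int.castRingHom (ZMod ℓ))) S
    ((s : ℤ) : ZMod ℓ) ε (hP.map _) (hR.map _) ?_ ?_ ?_
  · rcases hs with rfl | rfl <;> simp
  · rcases hε with rfl | rfl <;> simp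
  · rw [← hmap, hA]
    simp [Polynomial.map_mul, Polynomial.map_pow]

end SSM
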