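import Pool.Agent.SSM.Targets

/-! Surjectivity of the modular invariant. -/

open UpperHalfPlane ModularForm Filter Topology SlashInvariantForm
open scoped MatrixGroups

namespace SSM

namespace SUR_

theorem J_coe (τ : ℍ) : J (τ : ℂ) = E₄ τ ^ 3 / ModularForm.discriminant τ := by
  unfold J
  rw [UpperHalfPlane.ofComplex_apply]

theorem E4_tendsto : Tendsto (fun τ : ℍ => E₄ τ) atImInfty (𝓝 1) := by
  obtain ⟨c, hc, h⟩ := ModularFormClass.exp_decay_sub_atImInfty' (f := E₄)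
  have hv : valueAtInfty (E₄ : ℍ → ℂ) = 1 := by
    rw [← UpperHalfPlane.qExpansion_coeff_zero one_pos
      (ModularFormClass.analyticAt_cuspFunction_zero E₄ one_pos one_mem_strictPeriods_SL)
      (SlashInvariantFormClass.periodic_comp_ofComplex E₄ one_mem_strictPeriods_SL)]
    exact EisensteinSeries.E_qExpansion_coeff_zero _ ⟨2, rfl⟩
  have hexp : Tendsto (fun τ : ℍ => Real.exp (-c * τ.im)) atImInfty (𝓝 0) := by
    apply Real.tendsto_exp_atBot.comp
    exact (tendsto_comap (f := UpperHalfPlane.im)).const_mul_atTop_of_neg (by linarith)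
  have h2 := h.trans_tendsto hexp
  rw [hv] at h2
  have h3 := h2.add_const 1
  simpa using h3

/-- the function `1/(J - x)` -/
noncomputable def φ (x : ℂ) (τ : ℍ) : ℂ := (J (τ : ℂ) - x)⁻¹

theorem φ_tendsto (x : ℂ) : Tendsto (φ x) atImInfty (𝓝 0) := by
  have hΔ : Tendsto (fun τ : ℍ => ModularForm.discriminant τ) atImInfty (𝓝 0) :=
    discriminant_isZeroAtImInfty
  have h1 : Tendsto (fun τ : ℍ => ModularForm.discriminant τ /
      (E₄ τ ^ 3 - x * ModularForm.discriminant τ)) atImInfty (𝓝 (0 / (1 ^ 3 - x * 0))) :=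
    hΔ.div ((E4_tendsto.pow 3).sub (hΔ.const_mul x)) (by norm_num)
  rw [zero_div] at h1
  refine h1.congr fun τ => ?_
  unfold φ
  rw [J_coe]
  have hne := ModularForm.discriminant_ne_zero τ
  rw [div_sub' hne, inv_div]
  ring_nf

theorem φ_S (h : T_INV) (x : ℂ) : φ x ∣[(0 : ℤ)] ModularGroup.S = φ x := by
  ext τ
  rw [SL_slash_apply, UpperHalfPlane.modular_S_smul]
  have h1 := (h.2.2.1 (τ : ℂ) τ.im_pos).2.2
  have h2 : (-1 : ℂ) / τ = (-(τ : ℂ))⁻¹ := by
    rw [neg_div, one_div, inv_neg]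
  rw [h2] at h1
  simp only [φ, neg_zero, zpow_zero, mul_one]
  rw [UpperHalfPlane.coe_mk, h1]

theorem φ_T (h : T_INV) (x : ℂ) : φ x ∣[(0 : ℤ)] ModularGroup.T = φ x := by
  ext τ
  rw [SL_slash_apply, UpperHalfPlane.modular_T_smul]
  have h1 := (h.2.2.1 (τ : ℂ) τ.im_pos).1
  simp only [φ, neg_zero, zpow_zero, mul_one]
  rw [UpperHalfPlane.coe_vadd, Complex.ofReal_one, add_comm, h1]

/-- the modular form `1/(J - x)` -/
noncomputable def form (h : T_INV) (x : ℂ) (hx : ∀ z : ℂ, 0 < z.im → J z ≠ x) :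
    ModularForm 𝒮ℒ 0 where
  toFun := φ x
  slash_action_eq' A hA := by
    obtain ⟨A, rfl⟩ := hA
    exact slash_action_generators_SL2Z (φ_S h x) (φ_T h x) A
  holo' := by
    rw [UpperHalfPlane.mdifferentiable_iff]
    have h1 : DifferentiableOn ℂ (fun z => (J z - x)⁻¹) {z : ℂ | 0 < z.im} :=
      (h.1.sub_const x).inv (fun z hz => sub_ne_zero.2 (hx z hz))
    refine h1.congr fun z hz => ?_
    simp only [Function.comp_apply]
    change (J ((ofComplex z : ℍ) : ℂ) - x)⁻¹ = _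
    rw [ofComplex_apply_of_im_pos hz]
  bdd_at_cusps' hc := by
    rw [Subgroup.IsArithmetic.isCusp_iff_isCusp_SL2Z] at hc
    rw [OnePoint.isBoundedAt_iff_forall_SL2Z hc]
    intro γ _
    rw [slash_action_generators_SL2Z (φ_S h x) (φ_T h x)]
    exact (φ_tendsto x).isBigO_one ℝ

theorem exists_eq (h : T_INV) (x : ℂ) : ∃ z : ℂ, 0 < z.im ∧ J z = x := by
  by_contra hcon
  push Not at hcon
  obtain ⟨c, hc⟩ := ModularFormClass.levelOne_weight_zero_const (form h x hcon)
  have hc' : φ x = Function.const ℍ c := hc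
  have h1 := φ_tendsto x
  rw [hc'] at h1
  have h2 : c = 0 := tendsto_nhds_unique tendsto_const_nhds h1
  have h3 : φ x UpperHalfPlane.I = 0 := by rw [hc', h2]; rfl
  unfold φ at h3
  exact hcon _ UpperHalfPlane.I.im_pos (sub_eq_zero.1 (inv_eq_zero.1 h3))

end SUR_

theorem p_SUR (h : T_INV) (h' : T_FUN) : T_SUR := by
  intro x
  obtain ⟨z, hz, hJ⟩ := SUR_.exists_eq h x
  obtain ⟨a, b, c, d, hdet, h1, h2, h3⟩ := h' z hz
  refine ⟨(a * z + b) / (c * z + d), h1, h2, h3, ?_⟩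
  rw [(h.2.1 a b c d hdet z hz).2.2, hJ]

end SSM
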