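import Pool.Agent.SSM.Targets

/-!
# MP_d74fca_nt, part IV: symmetry of the modular polynomial up to sign (helper71)
-/

open Polynomial

namespace SSM

namespace SYM_

theorem mem_TT (m : ℕ) (g : (ℕ × ℕ) × ℕ) (hm : 1 ≤ m) :
    g ∈ TT m ↔ g.1.1 * g.1.2 = m ∧ g.2 < g.1.2 := by
  unfold TT
  rw [Finset.mem_filter, Finset.mem_product, Nat.mem_divisorsAntidiagonal, Finset.mem_range]
  constructor
  · rintro ⟨⟨⟨h1, h2⟩, h3⟩, h4⟩
    exact ⟨h1, h4⟩
  · rintro ⟨h1, h2⟩
    have h3 : 0 < g.1.1 := by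
      rcases Nat.eq_zero_or_pos g.1.1 with h | h
      · rw [h, Nat.zero_mul] at h1
        omega
      · exact h
    have h4 : g.1.2 ≤ m := by
      rw [← h1]
      exact Nat.le_mul_of_pos_left _ h3
    refine ⟨⟨⟨h1, by omega⟩, by omega⟩, h2⟩

theorem pos1 (m : ℕ) (g : (ℕ × ℕ) × ℕ) (hm : 1 ≤ m) (hg : g ∈ TT m) : 0 < g.1.1 := by
  have h1 := ((mem_TT m g hm).1 hg).1
  rcases Nat.eq_zero_or_pos g.1.1 with h | h
  · rw [h, Nat.zero_mul] at h1
    omega
  · exact h

theorem pos2 (m : ℕ) (g : (ℕ × ℕ) × ℕ) (hm : 1 ≤ m) (hg : g ∈ TT m) : 0 < g.1.2 := by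
  have h1 := ((mem_TT m g hm).1 hg).2
  omega

theorem le2 (m : ℕ) (g : (ℕ × ℕ) × ℕ) (hm : 1 ≤ m) (hg : g ∈ TT m) : g.1.2 ≤ m := by
  have h1 := ((mem_TT m g hm).1 hg).1
  rw [← h1]
  exact Nat.le_mul_of_pos_left _ (pos1 m g hm hg)

theorem act_im (g : (ℕ × ℕ) × ℕ) (z : ℂ) : (act g z).im = (g.1.1 : ℝ) * z.im / (g.1.2 : ℝ) := by
  unfold act
  have h : ((g.1.1 : ℂ) * z + (g.2 : ℂ)) / (g.1.2 : ℂ) =
      ((g.1.1 : ℂ) * z + (g.2 : ℂ)) / (((g.1.2 : ℝ)) : ℂ) := by
    push_cast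
    rfl
  rw [h, Complex.div_ofReal_im]
  simp

theorem act_im_pos (m : ℕ) (g : (ℕ × ℕ) × ℕ) (hm : 1 ≤ m) (hg : g ∈ TT m) (z : ℂ)
    (hz : 0 < z.im) : 0 < (act g z).im := by
  rw [act_im]
  have h1 : (0 : ℝ) < g.1.1 := by exact_mod_cast pos1 m g hm hg
  have h2 : (0 : ℝ) < g.1.2 := by exact_mod_cast pos2 m g hm hg
  positivity

/-- translation invariance -/
theorem J_int (hI : T_INV) (n : ℤ) (z : ℂ) (hz : 0 < z.im) : J (z + n) = J z := by
  have h := (hI.2.1 1 n 0 1 (by ring) z hz).2.2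
  have e : ((((1 : ℤ) : ℂ) * z + (n : ℂ)) / (((0 : ℤ) : ℂ) * z + ((1 : ℤ) : ℂ))) = z + n := by
    push_cast
    ring
  rw [e] at h
  exact h

/-- the adjugate matrix -/
theorem adj (hH : T_HNF) (hI : T_INV) (m : ℕ) (hm : 1 ≤ m) (g : (ℕ × ℕ) × ℕ) (hg : g ∈ TT m)
    (z : ℂ) (hz : 0 < z.im) : ∃ h ∈ TT m, J (act h (act g z)) = J z := by
  have h1 := ((mem_TT m g hm).1 hg).1
  have ha := pos1 m g hm hg
  have hd := pos2 m g hm hg
  obtain ⟨h, hh, a, b, c, d, hdet, e1, e2, e3, e4⟩ :=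
    (hH m hm).1 (g.1.2 : ℤ) (-(g.2 : ℤ)) 0 (g.1.1 : ℤ) (by
      rw [← h1]
      push_cast
      ring)
  refine ⟨h, hh, ?_⟩
  have hp1 := pos1 m h hm hh
  have hp2 := pos2 m h hm hh
  have hc : c = 0 := by
    rcases mul_eq_zero.1 e3.symm with h5 | h5
    · exact h5
    · exfalso
      omega
  subst hc
  have had : a * d = 1 := by linarith
  have ha1 : a = 1 := by
    rcases Int.eq_one_or_neg_one_of_mul_eq_one had with h5 | h5
    · exact h5
    · exfalso
      rw [h5] at e1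
      omega
  subst ha1
  have hd1 : d = 1 := by linarith
  subst hd1
  have f1 : (g.1.2 : ℂ) = (h.1.1 : ℂ) := by
    have : (g.1.2 : ℤ) = (h.1.1 : ℤ) := by linarith
    exact_mod_cast this
  have f4 : (g.1.1 : ℂ) = (h.1.2 : ℂ) := by
    have : (g.1.1 : ℤ) = (h.1.2 : ℤ) := by linarith
    exact_mod_cast this
  have f2 : (h.2 : ℂ) = -(g.2 : ℂ) - (b : ℂ) * (h.1.2 : ℂ) := by
    have : (h.2 : ℤ) = -(g.2 : ℤ) - b * (h.1.2 : ℤ) := by linarith
    exact_mod_cast this
  have n1 : (h.1.1 : ℂ) ≠ 0 := by exact_mod_cast hp1.ne'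
  have n2 : (h.1.2 : ℂ) ≠ 0 := by exact_mod_cast hp2.ne'
  have e : act h (act g z) = z + ((-b : ℤ) : ℂ) := by
    unfold act
    rw [f1, f4, f2]
    push_cast
    field_simp
    ring
  rw [e]
  exact J_int hI (-b) z hz

theorem evalswap (x y : ℂ) (F : ℤ[X][X]) :
    (inn x (Polynomial.Bivariate.swap F)).eval y = (inn y F).eval x := by
  have key : ∀ (x y : ℂ) (G : ℤ[X][X]), (inn x G).eval y = aevalAeval x y G := by
    intro x y G
    have h : ((evalRingHom y).comp (mapRingHom (aeval x : ℤ[X] →ₐ[ℤ] ℂ).toRingHom)) =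
        (aevalAeval x y : ℤ[X][X] →ₐ[ℤ] ℂ).toRingHom := by
      apply Polynomial.ringHom_ext'
      · apply Polynomial.ringHom_ext'
        · exact RingHom.ext_int _ _
        · simp
      · simp
    have h2 := congrArg (fun f : ℤ[X][X] →+* ℂ => f G) h
    simpa [inn] using h2
  rw [key, key, Polynomial.Bivariate.aevalAeval_swap]

/-- the exponential `e^{-2πi w}` -/
noncomputable def E (w : ℂ) : ℂ := Complex.exp (-(2 * Real.pi * Complex.I * w))

theorem norm_E (w : ℂ) : ‖E w‖ = Real.exp (2 * Real.pi * w.im) := by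
  unfold E
  rw [Complex.norm_exp]
  congr 1
  simp

/-- distinct elements of `TT m` give distinct values of `J` for large imaginary part -/
theorem distinct (hJ : T_JBD) (m : ℕ) (hm : 1 ≤ m) (g h : (ℕ × ℕ) × ℕ) (hg : g ∈ TT m)
    (hh : h ∈ TT m) (hgh : g ≠ h) (hle : h.1.1 ≤ g.1.1) :
    ∃ h0 : ℝ, ∀ z : ℂ, h0 < z.im → J (act g z) ≠ J (act h z) := by
  obtain ⟨C, hC, hJC⟩ := hJ.1
  have hm0 : (1 : ℝ) ≤ m := by exact_mod_cast hm
  -- lower bound for the imaginary part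
  have him : ∀ k ∈ TT m, ∀ z : ℂ, (m : ℝ) < z.im → 1 / 2 ≤ (act k z).im := by
    intro k hk z hz
    rw [act_im]
    have h1 : (1 : ℝ) ≤ k.1.1 := by exact_mod_cast pos1 m k hm hk
    have h2 : (0 : ℝ) < k.1.2 := by exact_mod_cast pos2 m k hm hk
    have h3 : (k.1.2 : ℝ) ≤ m := by exact_mod_cast le2 m k hm hk
    rw [le_div_iff₀ h2]
    nlinarith
  have hEE : ∀ z : ℂ, (m : ℝ) < z.im → J (act g z) = J (act h z) →
      ‖E (act g z) - E (act h z)‖ ≤ 2 * C := by
    intro z hz he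
    have h1 := (hJC (act g z) (him g hg z hz)).2
    have h2 := (hJC (act h z) (him h hh z hz)).2
    have e1 : E (act g z) - E (act h z) = (J (act h z) - Complex.exp (-(2 * Real.pi * Complex.I *
        (act h z)))) - (J (act g z) - Complex.exp (-(2 * Real.pi * Complex.I * (act g z)))) := by
      unfold E
      rw [he]
      ring
    rw [e1]
    refine (norm_sub_le _ _).trans ?_
    linarith
  have hpi := Real.pi_pos
  have g11 : (1 : ℝ) ≤ g.1.1 := by exact_mod_cast pos1 m g hm hg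
  have g12 : (0 : ℝ) < g.1.2 := by exact_mod_cast pos2 m g hm hg
  have gm : (g.1.1 : ℝ) * g.1.2 = m := by exact_mod_cast ((mem_TT m g hm).1 hg).1
  have h11 : (1 : ℝ) ≤ h.1.1 := by exact_mod_cast pos1 m h hm hh
  have h12 : (0 : ℝ) < h.1.2 := by exact_mod_cast pos2 m h hm hh
  have hmm : (h.1.1 : ℝ) * h.1.2 = m := by exact_mod_cast ((mem_TT m h hm).1 hh).1
  rcases Nat.lt_or_ge h.1.1 g.1.1 with hlt | hge
  · -- different sizes
    refine ⟨m + m * C, fun z hz he => ?_⟩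
    have hzm : (m : ℝ) < z.im := by
      have : 0 < (m : ℝ) * C := by positivity
      linarith
    have h1 := hEE z hzm he
    have h2 := norm_sub_norm_le (E (act g z)) (E (act h z))
    rw [norm_E, norm_E, act_im, act_im] at h2
    have hlt' : (h.1.1 : ℝ) + 1 ≤ g.1.1 := by exact_mod_cast hlt
    have hh' : (0 : ℝ) < z.im := by linarith
    obtain ⟨u, hu⟩ : ∃ u : ℝ, u = 2 * Real.pi * ((h.1.1 : ℝ) * z.im / (h.1.2 : ℝ)) := ⟨_, rfl⟩
    obtain ⟨v, hv⟩ : ∃ v : ℝ, v = 2 * Real.pi * ((g.1.1 : ℝ) * z.im / (g.1.2 : ℝ)) := ⟨_, rfl⟩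
    rw [← hu, ← hv] at h2
    have hu0 : 0 ≤ u := by
      rw [hu]
      positivity
    have key : z.im / m ≤ (g.1.1 : ℝ) * z.im / (g.1.2 : ℝ) - (h.1.1 : ℝ) * z.im / (h.1.2 : ℝ) := by
      have e1 : (g.1.1 : ℝ) * z.im / (g.1.2 : ℝ) = (g.1.1 : ℝ) ^ 2 * (z.im / m) := by
        rw [← gm]
        have : (g.1.1 : ℝ) ≠ 0 := by linarith
        field_simp
      have e2 : (h.1.1 : ℝ) * z.im / (h.1.2 : ℝ) = (h.1.1 : ℝ) ^ 2 * (z.im / m) := by
        rw [← hmm]
        have : (h.1.1 : ℝ) ≠ 0 := by linarith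
        field_simp
      rw [e1, e2]
      have h5 : 0 ≤ z.im / m := by positivity
      have h6 : (1 : ℝ) ≤ (g.1.1 : ℝ) ^ 2 - (h.1.1 : ℝ) ^ 2 := by nlinarith
      nlinarith
    have hvu : 2 * Real.pi * (z.im / m) ≤ v - u := by
      rw [hu, hv, ← mul_sub]
      exact mul_le_mul_of_nonneg_left key (by positivity)
    have h3 : Real.exp u * (v - u) ≤ Real.exp v - Real.exp u := by
      have h4 := Real.add_one_le_exp (v - u)
      have h5 : Real.exp v = Real.exp u * Real.exp (v - u) := by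
        rw [← Real.exp_add]
        congr 1
        ring
      rw [h5]
      have h6 := Real.exp_pos u
      nlinarith
    have h7 : v - u ≤ Real.exp u * (v - u) := by
      have h8 : 1 ≤ Real.exp u := Real.one_le_exp hu0
      have h9 : 0 ≤ v - u := by
        refine le_trans ?_ hvu
        positivity
      nlinarith
    have h10 : C < z.im / m := by
      rw [lt_div_iff₀ (by linarith)]
      linarith
    have h11' : 2 * C < 2 * Real.pi * (z.im / m) := by
      have := Real.pi_gt_three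
      nlinarith
    linarith
  · -- same sizes
    have e11 : h.1.1 = g.1.1 := le_antisymm hle hge
    have e12 : h.1.2 = g.1.2 := by
      have h1 := ((mem_TT m g hm).1 hg).1
      have h2 := ((mem_TT m h hm).1 hh).1
      rw [e11, ← h1] at h2
      exact Nat.eq_of_mul_eq_mul_left (pos1 m g hm hg) h2
    have e2 : g.2 ≠ h.2 := by
      intro h3
      apply hgh
      exact Prod.ext (Prod.ext e11.symm e12.symm) h3
    obtain ⟨ζ, hζ⟩ : ∃ ζ : ℂ, ζ = Complex.exp (-(2 * Real.pi * Complex.I * ((g.2 : ℂ) / (g.1.2 : ℂ)))) -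
      Complex.exp (-(2 * Real.pi * Complex.I * ((h.2 : ℂ) / (g.1.2 : ℂ)))) := ⟨_, rfl⟩
    have hζ0 : ζ ≠ 0 := by
      intro h0
      rw [hζ, sub_eq_zero, Complex.exp_eq_exp_iff_exists_int] at h0
      obtain ⟨n, hn⟩ := h0
      have hpc : (2 * Real.pi * Complex.I : ℂ) ≠ 0 := Complex.two_pi_I_ne_zero
      have g12c : (g.1.2 : ℂ) ≠ 0 := by exact_mod_cast (pos2 m g hm hg).ne'
      have h4 : (2 * Real.pi * Complex.I : ℂ) * (-((g.2 : ℂ) / (g.1.2 : ℂ))) =
          (2 * Real.pi * Complex.I : ℂ) * (-((h.2 : ℂ) / (g.1.2 : ℂ)) + n) := by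
        linear_combination hn
      have h5 := mul_left_cancel₀ hpc h4
      have h6 : (h.2 : ℂ) - (g.2 : ℂ) = n * (g.1.2 : ℂ) := by
        field_simp at h5
        linear_combination h5
      have h7 : (h.2 : ℤ) - (g.2 : ℤ) = n * (g.1.2 : ℤ) := by exact_mod_cast h6
      have b1 := ((mem_TT m g hm).1 hg).2
      have b2 := ((mem_TT m h hm).1 hh).2
      rw [e12] at b2
      have h8 : (g.1.2 : ℤ) ∣ (h.2 : ℤ) - (g.2 : ℤ) := ⟨n, by rw [h7]; ring⟩
      have h9 : |(h.2 : ℤ) - (g.2 : ℤ)| < (g.1.2 : ℤ) := by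
        rw [abs_lt]
        constructor <;> omega
      have h10 := Int.eq_zero_of_abs_lt_dvd h8 h9
      apply e2
      omega
    have hζp : 0 < ‖ζ‖ := norm_pos_iff.2 hζ0
    refine ⟨m + m * C / ‖ζ‖, fun z hz he => ?_⟩
    have hzm : (m : ℝ) < z.im := by
      have : 0 < (m : ℝ) * C / ‖ζ‖ := by positivity
      linarith
    have h1 := hEE z hzm he
    have e3 : E (act g z) - E (act h z) = E ((g.1.1 : ℂ) * z / (g.1.2 : ℂ)) * ζ := by
      rw [hζ]
      unfold E act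
      rw [e11, e12, mul_sub, ← Complex.exp_add, ← Complex.exp_add]
      congr 2
      · ring
      · ring
    rw [e3, norm_mul, norm_E] at h1
    have hh' : (0 : ℝ) < z.im := by linarith
    have e4 : ((g.1.1 : ℂ) * z / (g.1.2 : ℂ)).im = (g.1.1 : ℝ) * z.im / (g.1.2 : ℝ) := by
      have h5 := act_im ((g.1.1, g.1.2), 0) z
      unfold act at h5
      simpa using h5
    rw [e4] at h1
    have h2 : z.im / m ≤ (g.1.1 : ℝ) * z.im / (g.1.2 : ℝ) := by
      have e1 : (g.1.1 : ℝ) * z.im / (g.1.2 : ℝ) = (g.1.1 : ℝ) ^ 2 * (z.im / m) := by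
        rw [← gm]
        have : (g.1.1 : ℝ) ≠ 0 := by linarith
        field_simp
      rw [e1]
      have h5 : 0 ≤ z.im / m := by positivity
      have h6 : (1 : ℝ) ≤ (g.1.1 : ℝ) ^ 2 := by nlinarith
      nlinarith
    have h3 : 2 * Real.pi * (z.im / m) ≤ Real.exp (2 * Real.pi * ((g.1.1 : ℝ) * z.im / (g.1.2 : ℝ))) := by
      have h4 := Real.add_one_le_exp (2 * Real.pi * ((g.1.1 : ℝ) * z.im / (g.1.2 : ℝ)))
      have h5 : 2 * Real.pi * (z.im / m) ≤ 2 * Real.pi * ((g.1.1 : ℝ) * z.im / (g.1.2 : ℝ)) :=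
        mul_le_mul_of_nonneg_left h2 (by positivity)
      linarith
    have h10 : C / ‖ζ‖ < z.im / m := by
      rw [lt_div_iff₀ (by linarith)]
      have : C / ‖ζ‖ * m = m * C / ‖ζ‖ := by ring
      linarith
    have h11' : 2 * (C / ‖ζ‖) < 2 * Real.pi * (z.im / m) := by
      have h12 : 0 < C / ‖ζ‖ := by positivity
      have := Real.pi_gt_three
      nlinarith
    have h12 : 2 * (C / ‖ζ‖) * ‖ζ‖ < Real.exp (2 * Real.pi * ((g.1.1 : ℝ) * z.im / (g.1.2 : ℝ))) * ‖ζ‖ :=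
      mul_lt_mul_of_pos_right (lt_of_lt_of_le h11' h3) hζp
    have h13 : 2 * (C / ‖ζ‖) * ‖ζ‖ = 2 * C := by
      field_simp
    linarith

theorem distinct2 (hJ : T_JBD) (m : ℕ) (hm : 1 ≤ m) : ∃ h0 : ℝ, ∀ z : ℂ, h0 < z.im →
    ∀ g ∈ TT m, ∀ h ∈ TT m, J (act g z) = J (act h z) → g = h := by
  have key : ∀ g ∈ TT m, ∀ h ∈ TT m, ∃ h0 : ℝ, ∀ z : ℂ, h0 < z.im →
      J (act g z) = J (act h z) → g = h := by
    intro g hg h hh
    rcases eq_or_ne g h with he | he
    · exact ⟨0, fun z _ _ => he⟩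
    · rcases le_total h.1.1 g.1.1 with hl | hl
      · obtain ⟨h0, H⟩ := distinct hJ m hm g h hg hh he hl
        exact ⟨h0, fun z hz h1 => absurd h1 (H z hz)⟩
      · obtain ⟨h0, H⟩ := distinct hJ m hm h g hh hg he.symm hl
        exact ⟨h0, fun z hz h1 => absurd h1.symm (H z hz)⟩
  have key2 : ∀ g ∈ TT m, ∀ h ∈ TT m, ∀ᶠ y : ℝ in Filter.atTop, ∀ z : ℂ, y ≤ z.im →
      J (act g z) = J (act h z) → g = h := by
    intro g hg h hh
    obtain ⟨h0, H⟩ := key g hg h hh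
    filter_upwards [Filter.eventually_gt_atTop h0] with y hy z hz
    exact H z (lt_of_lt_of_le hy hz)
  have key3 : ∀ᶠ y : ℝ in Filter.atTop, ∀ g ∈ TT m, ∀ h ∈ TT m, ∀ z : ℂ, y ≤ z.im →
      J (act g z) = J (act h z) → g = h := by
    rw [Finset.eventually_all]
    intro g hg
    rw [Finset.eventually_all]
    intro h hh
    exact key2 g hg h hh
  obtain ⟨y, hy⟩ := key3.exists
  exact ⟨y, fun z hz g hg h hh => hy g hg h hh z hz.le⟩

/-- coefficients vanish -/
theorem vanish (hJ : T_JBD) (R : ℤ[X][X]) (h0 : ℝ)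
    (h : ∀ z : ℂ, 0 < z.im → h0 < z.im → inn (J z) R = 0) : R = 0 := by
  ext1 n
  have h1 : (R.coeff n).map (Int.castRingHom ℂ) = 0 := by
    apply hJ.2 h0
    intro z hz hz0
    have h2 := congrArg (fun p : ℂ[X] => p.coeff n) (h z hz hz0)
    unfold inn at h2
    simp only [coeff_map, coeff_zero] at h2
    rw [eval_map, ← h2]
    rfl
  rw [coeff_zero]
  exact (Polynomial.map_eq_zero_iff (RingHom.injective_int (Int.castRingHom ℂ))).1 h1

end SYM_

open SYM_ in
theorem p_SYM (h_HNF : T_HNF) (h_INV : T_INV) (h_JBD : T_JBD) : T_SYM := by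
  intro m F hm hF
  obtain ⟨hmon, hprod⟩ := hF
  obtain ⟨h0, hdis⟩ := distinct2 h_JBD m hm
  -- the transposed polynomial vanishes at the same points
  have hvan : ∀ z : ℂ, 0 < z.im → ∀ g ∈ TT m,
      (inn (J z) (Polynomial.Bivariate.swap F)).eval (J (act g z)) = 0 := by
    intro z hz g hg
    rw [evalswap, hprod (act g z) (act_im_pos m g hm hg z hz), eval_prod]
    obtain ⟨h, hh, he⟩ := adj h_HNF h_INV m hm g hg z hz
    apply Finset.prod_eq_zero hh
    rw [he]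
    simp
  have hdvd : ∀ z : ℂ, 0 < z.im → h0 < z.im →
      inn (J z) F ∣ inn (J z) (Polynomial.Bivariate.swap F) := by
    intro z hz hz0
    rw [hprod z hz]
    apply Finset.prod_dvd_of_coprime
    · intro g hg h hh hgh
      apply Polynomial.isCoprime_X_sub_C_of_isUnit_sub
      rw [isUnit_iff_ne_zero, sub_ne_zero]
      intro he
      exact hgh (hdis z hz0 g hg h hh he)
    · intro g hg
      rw [dvd_iff_isRoot]
      exact hvan z hz g hg
  -- division with remainder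
  obtain ⟨H, hH⟩ : ∃ H : ℤ[X][X], H = (Polynomial.Bivariate.swap F) /ₘ F := ⟨_, rfl⟩
  obtain ⟨R, hR⟩ : ∃ R : ℤ[X][X], R = (Polynomial.Bivariate.swap F) %ₘ F := ⟨_, rfl⟩
  have hdiv : R + F * H = Polynomial.Bivariate.swap F := by
    rw [hR, hH]
    exact modByMonic_add_div _ _
  have hdeg : R.degree < F.degree := by
    rw [hR]
    exact degree_modByMonic_lt _ hmon
  have hR0 : R = 0 := by
    apply vanish h_JBD R h0
    intro z hz hz0
    have h1 : inn (J z) F ∣ inn (J z) R := by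
      have h2 := hdvd z hz hz0
      rw [← hdiv] at h2
      have h3 : inn (J z) (R + F * H) = inn (J z) R + inn (J z) F * inn (J z) H := by
        unfold inn
        rw [Polynomial.map_add, Polynomial.map_mul]
      rw [h3] at h2
      exact (dvd_add_left (dvd_mul_right _ _)).1 h2
    refine Polynomial.eq_zero_of_dvd_of_degree_lt h1 ?_
    have h4 : (inn (J z) F).degree = F.degree := by
      unfold inn
      exact hmon.degree_map _
    rw [h4]
    refine lt_of_le_of_lt ?_ hdeg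
    unfold inn
    exact degree_map_le
  rw [hR0, zero_add] at hdiv
  have h1 : F = F * (H * Polynomial.Bivariate.swap H) := by
    have h2 := congrArg (Polynomial.Bivariate.swap (R := ℤ)) hdiv
    rw [Polynomial.Bivariate.swap_swap_apply, map_mul, ← hdiv] at h2
    rw [← mul_assoc]
    exact h2.symm
  have hF0 : F ≠ 0 := hmon.ne_zero
  have h2 : H * Polynomial.Bivariate.swap H = 1 := by
    have h3 : F * (H * Polynomial.Bivariate.swap H) = F * 1 := by
      rw [← h1, mul_one]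
    exact mul_left_cancel₀ hF0 h3
  have hunit : IsUnit H := IsUnit.of_mul_eq_one _ h2
  rw [Polynomial.isUnit_iff] at hunit
  obtain ⟨r, hr, hrH⟩ := hunit
  rw [Polynomial.isUnit_iff] at hr
  obtain ⟨ε, hε, hεr⟩ := hr
  refine ⟨ε, Int.isUnit_iff.1 hε, ?_⟩
  rw [hεr, hrH, ← hdiv, mul_comm]

end SSM
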