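import Pool.Agent.SSM.Targets

/-!
# MP_d74fca_nt: uniqueness of q-expansions
-/

open Filter Topology

namespace SSM

namespace UNX_

/-- every point of the punctured disc is a value of `q_M` -/
theorem surj (M : ℕ) (hM : 1 ≤ M) (q : ℂ) (h0 : q ≠ 0) (h1 : ‖q‖ < 1) :
    ∃ z : ℂ, 0 < z.im ∧ qq M z = q := by
  have hM0 : (M : ℂ) ≠ 0 := Nat.cast_ne_zero.2 (by omega)
  have hMr : (0 : ℝ) < M := by exact_mod_cast hM
  have hpi : (2 * Real.pi * Complex.I : ℂ) ≠ 0 := Complex.two_pi_I_ne_zero
  refine ⟨Complex.log q * M / (2 * Real.pi * Complex.I), ?_, ?_⟩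
  · have h2 : Complex.log q * M / (2 * Real.pi * Complex.I) =
        ((M / (2 * Real.pi) : ℝ) : ℂ) * (-Complex.I * Complex.log q) := by
      have hI : (Complex.I : ℂ) ≠ 0 := Complex.I_ne_zero
      have hp : (Real.pi : ℂ) ≠ 0 := Complex.ofReal_ne_zero.2 Real.pi_ne_zero
      push_cast
      rw [div_eq_iff hpi]
      field_simp
      linear_combination (Complex.log q) * Complex.I_sq
    rw [h2, Complex.im_ofReal_mul]
    have h3 : (-Complex.I * Complex.log q).im = - Real.log ‖q‖ := by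
      simp [Complex.log_re]
    rw [h3]
    have h4 : Real.log ‖q‖ < 0 := Real.log_neg (norm_pos_iff.2 h0) h1
    have h5 : 0 < (M : ℝ) / (2 * Real.pi) := by positivity
    exact mul_pos h5 (by linarith)
  · unfold qq
    have h2 : 2 * Real.pi * Complex.I * (Complex.log q * M / (2 * Real.pi * Complex.I)) / M =
        Complex.log q := by
      field_simp
    rw [h2, Complex.exp_log h0]

/-- a power series with zero sums on the punctured disc vanishes -/
theorem zero (d : ℕ → ℂ) (h : ∀ q : ℂ, q ≠ 0 → ‖q‖ < 1 → HasSum (fun n : ℕ => d n * q ^ n) 0) :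
    d = 0 := by
  set p := FormalMultilinearSeries.ofScalars ℂ d with hp
  have hr : ((1 / 2 : NNReal) : ENNReal) ≤ p.radius := by
    have hs := (h (1 / 2) (by norm_num) (by norm_num)).summable.tendsto_atTop_zero
    have hb := hs.norm
    obtain ⟨C, hC⟩ := hb.bddAbove_range
    refine p.le_radius_of_bound C fun n => ?_
    have h1 := hC ⟨n, rfl⟩
    have h2 : ‖p n‖ = ‖d n‖ := by
      rw [hp, FormalMultilinearSeries.ofScalars_norm]
    rw [h2]
    have h3 : ‖d n * (1 / 2 : ℂ) ^ n‖ ≤ C := h1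
    rw [norm_mul, norm_pow] at h3
    simpa using h3
  have hpos : 0 < p.radius := lt_of_lt_of_le (by norm_num) hr
  have hf : HasFPowerSeriesAt p.sum p 0 := (p.hasFPowerSeriesOnBall hpos).hasFPowerSeriesAt
  have hz : ∀ᶠ q in 𝓝[≠] (0 : ℂ), p.sum q = 0 := by
    have h1 : ∀ᶠ q in 𝓝[≠] (0 : ℂ), ‖q‖ < 1 := by
      have := (Metric.ball_mem_nhds (0 : ℂ) one_pos)
      filter_upwards [mem_nhdsWithin_of_mem_nhds this] with q hq
      simpa using hq
    filter_upwards [h1, self_mem_nhdsWithin] with q hq hq0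
    have h2 := (h q hq0 hq).tsum_eq
    rw [← h2, hp]
    have := FormalMultilinearSeries.ofScalars_sum_eq (E := ℂ) d q
    rw [FormalMultilinearSeries.ofScalarsSum] at this
    rw [this]
    simp [smul_eq_mul]
  have hz' : ∀ᶠ q in 𝓝 (0 : ℂ), p.sum q = 0 :=
    (hf.analyticAt.frequently_zero_iff_eventually_zero).1 hz.frequently
  have h0 : HasFPowerSeriesAt (0 : ℂ → ℂ) p 0 := hf.congr hz'
  have hp0 : p = 0 := h0.eq_zero
  funext n
  have h1 : p.coeff n = d n := by rw [hp, FormalMultilinearSeries.coeff_ofScalars]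
  rw [← h1, hp0]
  rfl

end UNX_

theorem p_UNX : T_UNX := by
  intro M a b F hM ha hb
  have h := UNX_.zero (a - b) (fun q h0 h1 => by
    obtain ⟨z, hz, hq⟩ := UNX_.surj M hM q h0 h1
    have := (ha z hz).sub (hb z hz)
    rw [sub_self] at this
    rw [← hq]
    have h2 : (fun n : ℕ => (a - b) n * qq M z ^ n) =
        fun n : ℕ => a n * qq M z ^ n - b n * qq M z ^ n := by
      funext n
      rw [Pi.sub_apply, sub_mul]
    rw [h2]
    exact this)
  exact sub_eq_zero.1 h

end SSM
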