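import Pool.Agent.SSM.Targets

/-! DEC: the odd part of an integral polynomial with leading coefficient `±1`. -/

open Polynomial

namespace SSM

namespace DEC_

lemma dec_monic : ∀ (n : ℕ) (A : ℤ[X]), A.natDegree = n → A.Monic →
    ∃ P R : ℤ[X], P.Monic ∧ R.Monic ∧ A = P * R ^ 2 ∧ Squarefree P := by
  intro n
  induction n using Nat.strong_induction_on with
  | _ n ih =>
    intro A hn hA
    by_cases hsq : Squarefree A
    · exact ⟨A, 1, hA, monic_one, by ring, hsq⟩
    · unfold Squarefree at hsq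
      push Not at hsq
      obtain ⟨B, ⟨A1, hB⟩, hBu⟩ := hsq
      have hlc : B.leadingCoeff * B.leadingCoeff * A1.leadingCoeff = 1 := by
        rw [← leadingCoeff_mul, ← leadingCoeff_mul, ← hB]; exact hA
      have hu : IsUnit B.leadingCoeff := by
        refine IsUnit.of_mul_eq_one (B.leadingCoeff * A1.leadingCoeff) ?_
        rw [← mul_assoc]; exact hlc
      have he : B.leadingCoeff * B.leadingCoeff = 1 := by
        rcases Int.isUnit_iff.mp hu with h | h <;> rw [h] <;> norm_num
      have hA1 : A1.Monic := by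
        rw [he, one_mul] at hlc
        exact hlc
      set B' : ℤ[X] := C B.leadingCoeff * B with hB'
      have hB'm : B'.Monic := by
        rw [Monic, hB', leadingCoeff_mul, leadingCoeff_C]; exact he
      have hCC : (C B.leadingCoeff * C B.leadingCoeff : ℤ[X]) = 1 := by
        rw [← C_mul, he, C_1]
      have hAB : A = B' ^ 2 * A1 := by
        rw [hB, hB']
        calc B * B * A1 = 1 * (B * B * A1) := by ring
          _ = (C B.leadingCoeff * C B.leadingCoeff) * (B * B * A1) := by rw [hCC]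
          _ = (C B.leadingCoeff * B) ^ 2 * A1 := by ring
      have hdeg : 0 < B'.natDegree := by
        rw [Nat.pos_iff_ne_zero]
        intro h0
        have h1 : B' = 1 := hB'm.natDegree_eq_zero.mp h0
        apply hBu
        refine IsUnit.of_mul_eq_one (C B.leadingCoeff) ?_
        rw [mul_comm]; exact h1
      have hdA : A.natDegree = 2 * B'.natDegree + A1.natDegree := by
        rw [hAB, (hB'm.pow 2).natDegree_mul hA1, hB'm.natDegree_pow]
      obtain ⟨P, R, hP, hR, hPR, hS⟩ := ih A1.natDegree (by omega) A1 rfl hA1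
      refine ⟨P, B' * R, hP, hB'm.mul hR, ?_, hS⟩
      rw [hAB, hPR]; ring

lemma squarefree_map {P : ℤ[X]} (hP : P.Monic) (h : Squarefree P) :
    Squarefree (P.map (algebraMap ℤ ℚ)) := by
  intro q hq
  have hP0 : P.map (algebraMap ℤ ℚ) ≠ 0 := (hP.map _).ne_zero
  obtain ⟨g, hg⟩ := IsIntegrallyClosed.eq_map_mul_C_of_dvd ℚ hP
    ((dvd_mul_right q q).trans hq)
  have hq0 : q ≠ 0 := by
    rintro rfl
    rw [zero_mul, zero_dvd_iff] at hq
    exact hP0 hq
  have hlq : q.leadingCoeff ≠ 0 := leadingCoeff_ne_zero.mpr hq0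
  have hinj : Function.Injective (algebraMap ℤ ℚ) := FaithfulSMul.algebraMap_injective ℤ ℚ
  have hgm : g.Monic := by
    have h1 := congrArg leadingCoeff hg
    rw [leadingCoeff_mul, leadingCoeff_C, leadingCoeff_map_of_injective hinj] at h1
    have h2 : (algebraMap ℤ ℚ) g.leadingCoeff = 1 := by
      apply mul_right_cancel₀ hlq
      rw [one_mul]; exact h1
    have h3 : (algebraMap ℤ ℚ) g.leadingCoeff = (algebraMap ℤ ℚ) 1 := by rw [h2, map_one]
    exact hinj h3
  have hgg : (g * g).map (algebraMap ℤ ℚ) ∣ P.map (algebraMap ℤ ℚ) := by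
    refine dvd_trans ?_ hq
    rw [← hg, Polynomial.map_mul]
    exact ⟨C q.leadingCoeff * C q.leadingCoeff, by ring⟩
  have hggP : g * g ∣ P := (map_dvd_map _ hinj (hgm.mul hgm)).mp hgg
  have hgu : IsUnit g := h g hggP
  have hgu' : IsUnit (g.map (algebraMap ℤ ℚ)) := hgu.map (mapRingHom (algebraMap ℤ ℚ))
  rw [← hg]
  exact hgu'.mul (isUnit_C.mpr (isUnit_iff_ne_zero.mpr hlq))

lemma nodup_roots_complex {P : ℤ[X]} (hP : P.Monic) (h : Squarefree P) :
    (P.map (Int.castRingHom ℂ)).roots.Nodup := by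
  have h1 : (P.map (algebraMap ℤ ℚ)).Separable :=
    PerfectField.separable_iff_squarefree.mpr (squarefree_map hP h)
  have h2 : ((P.map (algebraMap ℤ ℚ)).map (algebraMap ℚ ℂ)).Separable := h1.map
  have h3 : (P.map (algebraMap ℤ ℚ)).map (algebraMap ℚ ℂ) = P.map (Int.castRingHom ℂ) := by
    rw [Polynomial.map_map]
    congr 1
  rw [h3] at h2
  exact nodup_roots h2

end DEC_

open DEC_

theorem p_DEC : T_DEC := by
  intro A hlc
  have hee : A.leadingCoeff * A.leadingCoeff = 1 := by
    rcases hlc with h | h <;> rw [h] <;> norm_num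
  have hCC : (C A.leadingCoeff * C A.leadingCoeff : ℤ[X]) = 1 := by
    rw [← C_mul, hee, C_1]
  have hA0 : (C A.leadingCoeff * A).Monic := by
    rw [Monic, leadingCoeff_mul, leadingCoeff_C]; exact hee
  obtain ⟨P, R, hP, hR, hPR, hS⟩ := dec_monic _ (C A.leadingCoeff * A) rfl hA0
  have hAeq : A = C A.leadingCoeff * P * R ^ 2 := by
    calc A = 1 * A := by ring
      _ = C A.leadingCoeff * (C A.leadingCoeff * A) := by rw [← hCC]; ring
      _ = C A.leadingCoeff * P * R ^ 2 := by rw [hPR]; ring
  refine ⟨P, R, hP, hR, hAeq, nodup_roots_complex hP hS, ?_⟩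
  intro x
  have hnod := nodup_roots_complex hP hS
  have hPc : P.map (Int.castRingHom ℂ) ≠ 0 := (hP.map _).ne_zero
  have hRc : R.map (Int.castRingHom ℂ) ≠ 0 := (hR.map _).ne_zero
  have hmul : (A.map (Int.castRingHom ℂ)).rootMultiplicity x =
      (P.map (Int.castRingHom ℂ)).rootMultiplicity x +
        2 * (R.map (Int.castRingHom ℂ)).rootMultiplicity x := by
    have hAm : A.map (Int.castRingHom ℂ) = C ((A.leadingCoeff : ℤ) : ℂ) *
        P.map (Int.castRingHom ℂ) * (R.map (Int.castRingHom ℂ) * R.map (Int.castRingHom ℂ)) := by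
      conv_lhs => rw [hAeq]
      rw [Polynomial.map_mul, Polynomial.map_mul, Polynomial.map_pow, Polynomial.map_C, pow_two]
      rfl
    have hc' : (C ((A.leadingCoeff : ℤ) : ℂ) : ℂ[X]) ≠ 0 := by
      rw [Ne, C_eq_zero]
      rcases hlc with h | h <;> rw [h] <;> norm_num
    rw [hAm, rootMultiplicity_mul (mul_ne_zero (mul_ne_zero hc' hPc) (mul_ne_zero hRc hRc)),
      rootMultiplicity_mul (mul_ne_zero hc' hPc), rootMultiplicity_mul (mul_ne_zero hRc hRc),
      rootMultiplicity_C]
    ring
  have hroot : aeval x P = 0 ↔ (P.map (Int.castRingHom ℂ)).IsRoot x := by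
    rw [IsRoot.def, eval_map, aeval_def]
    rfl
  rw [hroot, hmul, Nat.odd_add, ← rootMultiplicity_pos hPc]
  have hle : (P.map (Int.castRingHom ℂ)).rootMultiplicity x ≤ 1 := by
    rw [← count_roots]
    exact Multiset.nodup_iff_count_le_one.mp hnod x
  have he2 : Even (2 * (R.map (Int.castRingHom ℂ)).rootMultiplicity x) := even_two_mul _
  constructor
  · intro h
    have h1 : (P.map (Int.castRingHom ℂ)).rootMultiplicity x = 1 := by omega
    rw [h1]
    exact ⟨fun _ => he2, fun _ => odd_one⟩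
  · intro h
    exact (h.mpr he2).pos

end SSM
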