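import Pool.Agent.SSM.Targets
import Pool.Agent.SSF.Targets
import Pool.Agent.SSW.Targets

/-!
# MP_d74fca_nt, part IV: the output in the form used by the final assembly (helper58)
-/

open Polynomial
open scoped UpperHalfPlane

namespace SSM

theorem p_FIN (h : T_OUT) (hC : SSW.T_CMC) : SSF.T_OUT := by
  intro r s hs _ hrs
  obtain ⟨B, ρ, hρ, hmain⟩ := h r s hs hrs
  set P : Finset ℕ := (Finset.range (B + 4)).filter (fun p => p.Prime ∧ p ≠ 2) with hP
  have hP3 : 3 ∈ P := by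
    rw [hP, Finset.mem_filter, Finset.mem_range]
    exact ⟨by omega, Nat.prime_three, by norm_num⟩
  have h24 : 24 ∣ SSN.MM P := by
    have : (3 : ℕ) ∣ ∏ p ∈ P, p := Finset.dvd_prod_of_mem _ hP3
    obtain ⟨k, hk⟩ := this
    exact ⟨k, by rw [SSN.MM, hk]; ring⟩
  refine ⟨P, min ρ 2, fun p hp => (Finset.mem_filter.mp hp).2, lt_min hρ one_lt_two,
    min_le_right _ _, ?_⟩
  intro M hM ε hε
  obtain ⟨D₀, hD₀⟩ := hmain ε hε
  refine ⟨max D₀ (B + 1), fun D hD hsq hMD hor => ?_⟩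
  have h1 : D₀ ≤ D := (le_max_left _ _).trans hD
  have h2 : B < D := by
    have := (le_max_right D₀ (B + 1)).trans hD
    omega
  have h3 : SSN.MM P ∣ D + 1 := hM.trans hMD
  have hadm : Adm B ρ D := by
    refine ⟨hsq, h24.trans h3, h2, ?_, ?_⟩
    · intro ℓ hℓ hℓD
      by_contra hcon
      have h4 : ℓ ∣ D + 1 := by
        rcases eq_or_ne ℓ 2 with rfl | h5
        · exact (Dvd.intro 4 rfl : (2 : ℕ) ∣ 8).trans
            ((Dvd.intro _ rfl : (8 : ℕ) ∣ SSN.MM P).trans h3)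
        · have h6 : ℓ ∈ P := by
            rw [hP, Finset.mem_filter, Finset.mem_range]
            exact ⟨by omega, hℓ, h5⟩
          have h7 : ℓ ∣ ∏ p ∈ P, p := Finset.dvd_prod_of_mem _ h6
          exact (h7.trans (Dvd.intro_left 8 rfl : (∏ p ∈ P, p) ∣ SSN.MM P)).trans h3
      have h8 : ℓ ∣ 1 := (Nat.dvd_add_right hℓD).mp h4
      exact hℓ.one_lt.ne' (Nat.dvd_one.mp h8)
    · rcases hor with hp | ⟨a, c, ha, hac, hlt, hlt2, _, _⟩
      · exact Or.inl hp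
      · refine Or.inr ⟨a, c, hac, ha, hlt, hlt2.trans_le ?_⟩
        exact mul_le_mul_of_nonneg_right (min_le_left _ _) (Nat.cast_nonneg _)
  obtain ⟨Q, hQ1, hQ2, hQ3, hQ4, hQ5, hQ6⟩ := hD₀ D h1 hadm
  refine ⟨Q, hQ1, hQ2, ?_, hQ4, ?_, ?_⟩
  · intro z hz
    obtain ⟨hz0, hz1, t, ⟨ht, α, β, γ, hα, hd, he⟩, rfl⟩ := hQ3 z hz
    have hJ : SSW.jt ⟨t, ht⟩ = J t := by
      rw [SSW.jt, J, UpperHalfPlane.ofComplex_apply_of_im_pos ht]
    have h5 := hC ⟨t, ht⟩ D α β γ (by omega) hd he (by rw [hJ]; exact hz0) (by rw [hJ]; exact hz1)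
    rwa [hJ] at h5
  · push_cast
    exact_mod_cast hQ5
  · rcases hQ6 with h6 | ⟨p, hp, hp2, hx, hodd⟩
    · exact Or.inl h6
    · refine Or.inr ⟨p, hp, hp2, hodd, ?_⟩
      have hfact : Fact p.Prime := ⟨hp⟩
      rw [← jacobiSym.legendreSym.to_jacobiSym, legendreSym.eq_neg_one_iff]
      rintro ⟨x, hx'⟩
      apply hx x
      push_cast at hx'
      rw [hx']
      ring

end SSM
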