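import Pool.Agent.SSM.Targets

/-!
# KR3: integral polynomials in `J` with expansion divisible by `ℓ`
-/

set_option autoImplicit false

open Polynomial

namespace SSM

namespace KR3_

/-- the integral power series `P` has the value `A` at `q` -/
def Ev (q : ℂ) (P : PowerSeries ℤ) (A : ℂ) : Prop :=
  HasSum (fun n : ℕ => ((PowerSeries.coeff n P : ℤ) : ℂ) * q ^ n) A

theorem Ev.C (q : ℂ) (m : ℤ) : Ev q (PowerSeries.C m) m := by
  unfold Ev
  have h := hasSum_single (f := fun n : ℕ =>
    ((PowerSeries.coeff n (PowerSeries.C m : PowerSeries ℤ) : ℤ) : ℂ) * q ^ n) 0 (by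
      intro n hn
      rw [PowerSeries.coeff_C, if_neg hn]
      simp)
  rw [PowerSeries.coeff_C, if_pos rfl] at h
  simpa using h

theorem Ev.X (q : ℂ) : Ev q PowerSeries.X q := by
  unfold Ev
  have h := hasSum_single (f := fun n : ℕ =>
    ((PowerSeries.coeff n (PowerSeries.X : PowerSeries ℤ) : ℤ) : ℂ) * q ^ n) 1 (by
      intro n hn
      simp [PowerSeries.coeff_X, hn])
  simpa using h

theorem Ev.add {q : ℂ} {P Q : PowerSeries ℤ} {A B : ℂ} (h1 : Ev q P A) (h2 : Ev q Q B) :
    Ev q (P + Q) (A + B) := by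
  unfold Ev at *
  refine (HasSum.add h1 h2).congr_fun ?_
  intro n
  simp [add_mul]

theorem Ev.zero (q : ℂ) : Ev q 0 0 := by
  unfold Ev
  simp [hasSum_zero]

theorem Ev.one (q : ℂ) : Ev q 1 1 := by
  have h := Ev.C q 1
  simpa using h

theorem Ev.mul {q : ℂ} {P Q : PowerSeries ℤ} {A B : ℂ} (h1 : Ev q P A) (h2 : Ev q Q B) :
    Ev q (P * Q) (A * B) := by
  unfold Ev at *
  have n1 := summable_norm_iff.2 h1.summable
  have n2 := summable_norm_iff.2 h2.summable
  have h3 := tsum_mul_tsum_eq_tsum_sum_antidiagonal_of_summable_norm n1 n2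
  have h4 := (summable_norm_sum_mul_antidiagonal_of_summable_norm n1 n2).of_norm
  rw [h1.tsum_eq, h2.tsum_eq] at h3
  have h5 := h4.hasSum
  rw [← h3] at h5
  refine h5.congr_fun ?_
  intro n
  rw [PowerSeries.coeff_mul, Int.cast_sum, Finset.sum_mul]
  refine Finset.sum_congr rfl fun p hp => ?_
  rw [Finset.HasAntidiagonal.mem_antidiagonal] at hp
  rw [← hp, pow_add]
  push_cast
  ring

theorem Ev.pow {q : ℂ} {P : PowerSeries ℤ} {A : ℂ} (h : Ev q P A) (k : ℕ) :
    Ev q (P ^ k) (A ^ k) := by
  induction k with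
  | zero => simpa using Ev.one q
  | succ k ih =>
    rw [pow_succ, pow_succ]
    exact ih.mul h

theorem Ev.sum {q : ℂ} {s : Finset ℕ} {P : ℕ → PowerSeries ℤ} {A : ℕ → ℂ}
    (h : ∀ i ∈ s, Ev q (P i) (A i)) : Ev q (∑ i ∈ s, P i) (∑ i ∈ s, A i) := by
  classical
  induction s using Finset.induction_on with
  | empty => simpa using Ev.zero q
  | insert i s hi ih =>
    rw [Finset.sum_insert hi, Finset.sum_insert hi]
    exact (h i (Finset.mem_insert_self i s)).add
      (ih fun j hj => h j (Finset.mem_insert_of_mem hj))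

/-- the algebraic core -/
theorem alg {R : Type} [CommRing R] (P : PowerSeries R)
    (hP : PowerSeries.constantCoeff P = 1) (h : ℕ → R) (d : ℕ)
    (h0 : ∑ k ∈ Finset.range (d + 1), PowerSeries.C (h k) * P ^ k * PowerSeries.X ^ (d - k) = 0) :
    ∀ k, k ≤ d → h k = 0 := by
  induction d with
  | zero =>
    intro k hk
    have hk0 : k = 0 := by omega
    subst hk0
    simp only [zero_add, Finset.sum_range_one, pow_zero, mul_one] at h0
    have h1 := congrArg PowerSeries.constantCoeff h0
    simpa using h1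
  | succ d ih =>
    rw [Finset.sum_range_succ] at h0
    have e : ∑ k ∈ Finset.range (d + 1),
        PowerSeries.C (h k) * P ^ k * PowerSeries.X ^ (d + 1 - k) =
        PowerSeries.X * ∑ k ∈ Finset.range (d + 1),
          PowerSeries.C (h k) * P ^ k * PowerSeries.X ^ (d - k) := by
      rw [Finset.mul_sum]
      refine Finset.sum_congr rfl fun k hk => ?_
      rw [Finset.mem_range] at hk
      have e1 : d + 1 - k = (d - k) + 1 := by omega
      rw [e1, pow_succ]
      ring
    rw [e, Nat.sub_self, pow_zero, mul_one] at h0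
    have h1 : h (d + 1) = 0 := by
      have h2 := congrArg PowerSeries.constantCoeff h0
      simpa [hP] using h2
    rw [h1, map_zero, zero_mul, add_zero] at h0
    have h2 : ∑ k ∈ Finset.range (d + 1),
        PowerSeries.C (h k) * P ^ k * PowerSeries.X ^ (d - k) = 0 := by
      ext n
      have h3 := congrArg (PowerSeries.coeff (n + 1)) h0
      rw [PowerSeries.coeff_succ_X_mul] at h3
      simpa using h3
    intro k hk
    rcases Nat.lt_or_ge k (d + 1) with h3 | h3
    · exact ih h2 k (by omega)
    · have : k = d + 1 := by omega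
      rw [this, h1]

theorem qq_pow (M : ℕ) (hM : 1 ≤ M) (z : ℂ) : qq M z ^ M = qq 1 z := by
  unfold qq
  rw [← Complex.exp_nat_mul]
  congr 1
  have : (M : ℂ) ≠ 0 := by exact_mod_cast (by omega : M ≠ 0)
  field_simp
  simp

end KR3_

open KR3_ in
/-- KR3: integral polynomials in `J` with expansion divisible by `ℓ` -/
theorem p_KR3 (hJ : T_JEX) (hU : T_UNX) : T_KR3 := by
  intro ℓ hℓ I hI h M N hM hexp
  obtain ⟨c, hc0, hc⟩ := hJ
  obtain ⟨a, haI, ha⟩ := hexp
  set P : PowerSeries ℤ := PowerSeries.mk c with hP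
  have hPc : PowerSeries.constantCoeff P = 1 := by
    rw [hP, ← PowerSeries.coeff_zero_eq_constantCoeff_apply, PowerSeries.coeff_mk, hc0]
  set d := h.natDegree with hd
  set B : PowerSeries ℤ := ∑ k ∈ Finset.range (d + 1),
    PowerSeries.C (h.coeff k) * P ^ k * PowerSeries.X ^ (d - k) with hB
  -- the value of `B`
  have hBz : ∀ z : ℂ, 0 < z.im →
      HasSum (fun n : ℕ => ((PowerSeries.coeff n B : ℤ) : ℂ) * qq 1 z ^ n)
        (aeval (J z) h * qq 1 z ^ d) := by
    intro z hz
    have hEP : Ev (qq 1 z) P (J z * qq 1 z) := by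
      have h1 := hc z hz
      rw [pow_one] at h1
      unfold Ev
      refine h1.congr_fun ?_
      intro n
      rw [hP, PowerSeries.coeff_mk]
    have h1 : Ev (qq 1 z) B (∑ k ∈ Finset.range (d + 1),
        ((h.coeff k : ℤ) : ℂ) * (J z * qq 1 z) ^ k * qq 1 z ^ (d - k)) :=
      Ev.sum fun k _ => ((Ev.C _ _).mul (hEP.pow k)).mul ((Ev.X _).pow _)
    have h2 : ∑ k ∈ Finset.range (d + 1),
        ((h.coeff k : ℤ) : ℂ) * (J z * qq 1 z) ^ k * qq 1 z ^ (d - k) =
        aeval (J z) h * qq 1 z ^ d := by
      rw [aeval_eq_sum_range, Finset.sum_mul]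
      refine Finset.sum_congr rfl fun k hk => ?_
      rw [Finset.mem_range] at hk
      have e1 : qq 1 z ^ d = qq 1 z ^ k * qq 1 z ^ (d - k) := by
        rw [← pow_add]; congr 1; omega
      rw [e1, zsmul_eq_mul, mul_pow]
      ring
    rw [h2] at h1
    exact h1
  -- comparison of the two expansions of `h(J) q_M^(N + M d)`
  set a' : ℕ → ℂ := fun n => if M * d ≤ n then a (n - M * d) else 0 with ha'
  set b' : ℕ → ℂ := fun n => if N ≤ n ∧ M ∣ n - N then
    ((PowerSeries.coeff ((n - N) / M) B : ℤ) : ℂ) else 0 with hb'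
  have hab : a' = b' := by
    refine hU M a' b' (fun z => aeval (J z) h * qq M z ^ (N + M * d)) hM ?_ ?_
    · intro z hz
      have hinj : Function.Injective (fun n : ℕ => n + M * d) := fun x y hxy => by
        simpa using hxy
      rw [← hinj.hasSum_iff]
      · have h1 := (ha z hz).mul_right (qq M z ^ (M * d))
        have e : aeval (J z) h * qq M z ^ (N + M * d) =
            aeval (J z) h * qq M z ^ N * qq M z ^ (M * d) := by
          rw [pow_add]; ring
        rw [e]
        refine h1.congr_fun ?_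
        intro n
        simp only [Function.comp_apply, ha']
        rw [if_pos (Nat.le_add_left _ _), Nat.add_sub_cancel, pow_add]
        ring
      · intro n hn
        simp only [ha']
        rw [if_neg, zero_mul]
        intro h1
        exact hn ⟨n - M * d, by simp; omega⟩
    · intro z hz
      have hinj : Function.Injective (fun n : ℕ => M * n + N) := fun x y hxy => by
        have h1 : M * x = M * y := by simpa using hxy
        exact Nat.eq_of_mul_eq_mul_left (by omega) h1
      rw [← hinj.hasSum_iff]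
      · have h1 := (hBz z hz).mul_right (qq M z ^ N)
        have e : aeval (J z) h * qq M z ^ (N + M * d) =
            aeval (J z) h * qq 1 z ^ d * qq M z ^ N := by
          rw [pow_add, pow_mul, qq_pow M hM]; ring
        rw [e]
        refine h1.congr_fun ?_
        intro n
        have hdv : M ∣ M * n + N - N := ⟨n, Nat.add_sub_cancel _ _⟩
        simp only [Function.comp_apply, hb']
        rw [if_pos ⟨Nat.le_add_left _ _, hdv⟩, Nat.add_sub_cancel,
          Nat.mul_div_cancel_left _ (by omega : 0 < M), pow_add, pow_mul, qq_pow M hM]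
        ring
      · intro n hn
        simp only [hb']
        rw [if_neg, zero_mul]
        rintro ⟨h1, m, h2⟩
        exact hn ⟨m, by simp; omega⟩
  have hBI : ∀ n, (ℓ : ℤ) ∣ PowerSeries.coeff n B := by
    intro n
    rw [← hI]
    have h1 : b' (M * n + N) = ((PowerSeries.coeff n B : ℤ) : ℂ) := by
      have hdv : M ∣ M * n + N - N := ⟨n, Nat.add_sub_cancel _ _⟩
      simp only [hb']
      rw [if_pos ⟨Nat.le_add_left _ _, hdv⟩, Nat.add_sub_cancel,
        Nat.mul_div_cancel_left _ (by omega : 0 < M)]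
    rw [← h1, ← hab]
    simp only [ha']
    split_ifs
    · exact haI _
    · exact I.zero_mem
  -- reduction modulo `ℓ`
  have hmap : PowerSeries.map (Int.castRingHom (ZMod ℓ)) B = 0 := by
    ext n
    rw [PowerSeries.coeff_map, map_zero]
    exact (ZMod.intCast_zmod_eq_zero_iff_dvd _ ℓ).2 (hBI n)
  have hmap2 : ∑ k ∈ Finset.range (d + 1),
      PowerSeries.C ((Int.castRingHom (ZMod ℓ)) (h.coeff k)) *
        (PowerSeries.map (Int.castRingHom (ZMod ℓ)) P) ^ k * PowerSeries.X ^ (d - k) = 0 := by
    rw [← hmap, hB, map_sum]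
    refine Finset.sum_congr rfl fun k _ => ?_
    rw [map_mul, map_mul, map_pow, map_pow, PowerSeries.map_C, PowerSeries.map_X]
  have hPc2 : PowerSeries.constantCoeff (PowerSeries.map (Int.castRingHom (ZMod ℓ)) P) = 1 := by
    rw [← PowerSeries.coeff_zero_eq_constantCoeff_apply, PowerSeries.coeff_map,
      PowerSeries.coeff_zero_eq_constantCoeff_apply, hPc, map_one]
  intro n
  rcases Nat.lt_or_ge d n with hn | hn
  · rw [coeff_eq_zero_of_natDegree_lt hn]
    exact dvd_zero _
  · have h1 := alg _ hPc2 (fun k => (Int.castRingHom (ZMod ℓ)) (h.coeff k)) d hmap2 n hn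
    exact (ZMod.intCast_zmod_eq_zero_iff_dvd _ ℓ).1 h1

end SSM
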