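import Pool.Agent.SSM.Targets

/-!
# RE2: `J` on the line `re z = 1/2` is real and decreasing
-/

open Polynomial

namespace SSM

namespace RE2_

/-- a continuous injective function on `[1, ∞)` which tends to `-∞` is decreasing -/
theorem anti {f : ℝ → ℝ} (hc : ContinuousOn f (Set.Ici 1)) (hi : Set.InjOn f (Set.Ici 1))
    (ht : Filter.Tendsto f Filter.atTop Filter.atBot) : StrictAntiOn f (Set.Ici 1) := by
  intro y hy y' hy' hlt
  by_contra hcon
  push Not at hcon
  have hy1 : 1 ≤ y := hy
  have hy1' : 1 ≤ y' := hy'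
  obtain ⟨Y, hY1, hY2⟩ := ((ht.eventually_le_atBot (f y)).and
    (Filter.eventually_ge_atTop y')).exists
  have hsub : Set.Icc y' Y ⊆ Set.Ici 1 := fun x hx => le_trans hy1' hx.1
  obtain ⟨ξ, hξ, he⟩ := intermediate_value_Icc' hY2 (hc.mono hsub) ⟨hY1, hcon⟩
  have h1 : ξ = y := hi (hsub hξ) hy he
  have h2 := hξ.1
  linarith

/-- arithmetic behind the injectivity -/
theorem arith (a b c d : ℤ) (hdet : a * d - b * c = 1) (y y' : ℝ) (hy : 1 ≤ y) (hyy : y ≤ y')
    (h1 : ((c : ℝ) + 2 * d) - c * y * y' = 2 * a + 4 * b)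
    (h2 : (c : ℝ) * y + y' * (c + 2 * d) = 2 * a * y) : y = y' := by
  have hdetR : (a : ℝ) * d - b * c = 1 := by exact_mod_cast hdet
  have hy' : 1 ≤ y' := hy.trans hyy
  have key : y' * (((c : ℝ) + 2 * d) ^ 2 + c ^ 2 * y ^ 2) = 4 * y := by
    have e : y' * (((c : ℝ) + 2 * d) ^ 2 + c ^ 2 * y ^ 2) = 4 * y * (a * d - b * c) := by
      linear_combination ((c : ℝ) + 2 * d) * h2 - (c : ℝ) * y * h1
    rw [e, hdetR, mul_one]
  have hle : ((c : ℝ) + 2 * d) ^ 2 + c ^ 2 * y ^ 2 ≤ 4 := by
    have h3 : 0 ≤ ((c : ℝ) + 2 * d) ^ 2 + c ^ 2 * y ^ 2 := by positivity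
    by_contra hcon
    push Not at hcon
    nlinarith
  have hc2 : (c : ℝ) ^ 2 ≤ 4 := by
    have h3 : (1 : ℝ) ≤ y ^ 2 := by nlinarith
    nlinarith [sq_nonneg (c : ℝ), sq_nonneg ((c : ℝ) + 2 * d)]
  have hc2Z : c ^ 2 ≤ 4 := by exact_mod_cast hc2
  have hcb : -2 ≤ c ∧ c ≤ 2 := by
    constructor <;> nlinarith
  have hfin : ((c : ℝ) + 2 * d) ^ 2 + c ^ 2 * y ^ 2 = 4 → y = y' := by
    intro h4
    rw [h4] at key
    linarith
  rcases eq_or_ne c 0 with hc0 | hc0
  · -- `c = 0`
    subst hc0
    simp only [Int.cast_zero, zero_add, zero_mul, add_zero, mul_zero, sub_zero,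
      ne_eq, OfNat.ofNat_ne_zero, not_false_eq_true, zero_pow] at hle hfin hdet
    have hd : d ^ 2 = 1 := by
      have h3 : d ∣ 1 := ⟨a, by linarith⟩
      rcases Int.isUnit_iff.1 (isUnit_of_dvd_one h3) with h4 | h4 <;> rw [h4] <;> norm_num
    apply hfin
    have hdR : (d : ℝ) ^ 2 = 1 := by exact_mod_cast hd
    nlinarith
  · by_cases hc1 : c ^ 2 = 1
    · -- `c = ±1`
      have hcR : (c : ℝ) ^ 2 = 1 := by exact_mod_cast hc1
      set e : ℤ := c + 2 * d with he
      have heR : (e : ℝ) = c + 2 * d := by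
        rw [he]
        push_cast
        ring
      rw [← heR] at h1 h2 key hle
      rw [hcR, one_mul] at key hle
      have he4 : (e : ℝ) ^ 2 ≤ 4 := by nlinarith [sq_nonneg y]
      have he4Z : e ^ 2 ≤ 3 := by
        have h3 : (e : ℝ) ^ 2 ≤ 3 := by nlinarith
        exact_mod_cast h3
      have heo : e = 1 ∨ e = -1 := by
        have h5 : c = 1 ∨ c = -1 := sq_eq_one_iff_of_ne_zero_aux c hc1
        have h6 : -1 ≤ e ∧ e ≤ 1 := by constructor <;> nlinarith
        omega
      have he2 : (e : ℝ) ^ 2 = 1 := by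
        rcases heo with h | h <;> rw [h] <;> norm_num
      rw [he2] at key hle
      -- `N = c (e - 2 a - 4 b)` equals `y y'`
      have hN : ((c * (e - 2 * a - 4 * b) : ℤ) : ℝ) = y * y' := by
        push_cast
        have h7 : (e : ℝ) - 2 * a - 4 * b = c * y * y' := by linarith
        rw [h7]
        linear_combination (y * y') * hcR
      set N : ℤ := c * (e - 2 * a - 4 * b) with hNdef
      have hodd : N % 2 = 1 := by
        have h5 : c = 1 ∨ c = -1 := sq_eq_one_iff_of_ne_zero_aux c hc1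
        rcases h5 with h | h <;> rcases heo with h' | h' <;> rw [hNdef, h, h'] <;> omega
      have hNy : (N : ℝ) * (1 + y ^ 2) = 4 * y ^ 2 := by
        rw [hN]
        linear_combination y * key
      have hy3 : y ^ 2 ≤ 3 := by linarith
      have hN2 : (N : ℝ) ≤ 3 := by
        by_contra hcon
        push Not at hcon
        nlinarith
      have hN1 : (2 : ℝ) ≤ N := by
        by_contra hcon
        push Not at hcon
        nlinarith
      have hN3 : N = 3 := by
        have h8 : N ≤ 3 := by exact_mod_cast hN2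
        have h9 : 2 ≤ N := by exact_mod_cast hN1
        omega
      rw [hN3] at hN hNy
      push_cast at hN hNy
      have hy32 : y ^ 2 = 3 := by linarith
      have : y * y = y * y' := by nlinarith
      exact mul_left_cancel₀ (by linarith : y ≠ 0) this
    · -- `|c| = 2`
      have hc4 : c ^ 2 = 4 := by
        obtain ⟨h3, h4⟩ := hcb
        have : c = -2 ∨ c = -1 ∨ c = 0 ∨ c = 1 ∨ c = 2 := by omega
        rcases this with h | h | h | h | h
        · rw [h]; norm_num
        · rw [h] at hc1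
          norm_num at hc1
        · exact absurd h hc0
        · rw [h] at hc1
          norm_num at hc1
        · rw [h]; norm_num
      have hc4R : (c : ℝ) ^ 2 = 4 := by exact_mod_cast hc4
      apply hfin
      rw [hc4R] at hle ⊢
      have h3 : (1 : ℝ) ≤ y ^ 2 := by nlinarith
      have h4 := sq_nonneg ((c : ℝ) + 2 * d)
      linarith
  where
    sq_eq_one_iff_of_ne_zero_aux (c : ℤ) (h : c ^ 2 = 1) : c = 1 ∨ c = -1 :=
      sq_eq_one_iff_of_ne_zero_aux' c h
    sq_eq_one_iff_of_ne_zero_aux' (c : ℤ) (h : c ^ 2 = 1) : c = 1 ∨ c = -1 := by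
      have h1 : (c - 1) * (c + 1) = 0 := by linear_combination h
      rcases mul_eq_zero.1 h1 with h2 | h2
      · left
        linarith
      · right
        linarith

/-- the inequality behind the injectivity -/
theorem inj_le (hINV : T_INV) (hINJ : T_INJ) (y y' : ℝ) (hy : 1 ≤ y) (hyy : y ≤ y')
    (h : J ((1 + y * Complex.I) / 2) = J ((1 + y' * Complex.I) / 2)) : y = y' := by
  have hy' : 1 ≤ y' := hy.trans hyy
  have him0 : ∀ x : ℝ, ((1 + x * Complex.I) / 2 : ℂ).im = x / 2 := by
    intro x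
    simp
  have hz : 0 < ((1 + y * Complex.I) / 2 : ℂ).im := by
    rw [him0]
    linarith
  have hw : 0 < ((1 + y' * Complex.I) / 2 : ℂ).im := by
    rw [him0]
    linarith
  obtain ⟨a, b, c, d, hdet, heq⟩ := hINJ _ _ hz hw h
  have hne := (hINV.2.1 a b c d hdet _ hz).2.1
  have h1 : ((1 + y' * Complex.I) / 2 : ℂ) * (c * ((1 + y * Complex.I) / 2) + d) =
      a * ((1 + y * Complex.I) / 2) + b := by
    rw [heq, div_mul_cancel₀ _ hne]
  have h2 : (1 + y' * Complex.I : ℂ) * ((c + 2 * d) + c * y * Complex.I) =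
      2 * a * (1 + y * Complex.I) + 4 * b := by
    linear_combination 4 * h1
  have hre := congrArg Complex.re h2
  have him := congrArg Complex.im h2
  simp at hre him
  exact arith a b c d hdet y y' hy hyy (by linarith) (by linarith)

end RE2_

open RE2_ in
theorem p_RE2 (hINV : T_INV) (hINJ : T_INJ) (hSPE : T_SPE) (hJBD : T_JBD) : T_RE2 := by
  obtain ⟨hdiff, hmod, hgen, hconj⟩ := hINV
  have him0 : ∀ x : ℝ, ((1 + x * Complex.I) / 2 : ℂ).im = x / 2 := by
    intro x
    simp
  have hreal : ∀ y : ℝ, 0 < y → J ((1 + y * Complex.I) / 2) =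
      ((J ((1 + y * Complex.I) / 2)).re : ℂ) := by
    intro y hy
    have hz : 0 < ((1 + y * Complex.I) / 2 : ℂ).im := by
      rw [him0]
      linarith
    have h1 := hconj _ hz
    have h2 : -(starRingEnd ℂ) ((1 + y * Complex.I) / 2) = (1 + y * Complex.I) / 2 - 1 := by
      rw [map_div₀, map_add, map_one, map_mul, Complex.conj_ofReal, Complex.conj_I, map_ofNat]
      ring
    rw [h2] at h1
    have hz' : 0 < ((1 + y * Complex.I) / 2 - 1 : ℂ).im := by
      rw [Complex.sub_im, him0]
      simp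
      linarith
    have h3 := (hgen _ hz').1
    rw [sub_add_cancel] at h3
    rw [← h3] at h1
    exact (Complex.conj_eq_iff_re.1 h1.symm).symm
  have hcont : ContinuousOn (fun y : ℝ => (J ((1 + y * Complex.I) / 2)).re) (Set.Ici 1) := by
    apply Complex.continuous_re.comp_continuousOn
    apply hdiff.continuousOn.comp (by fun_prop)
    intro y hy
    have hy1 : (1 : ℝ) ≤ y := hy
    show 0 < ((1 + y * Complex.I) / 2 : ℂ).im
    rw [him0]
    linarith
  have hinj : Set.InjOn (fun y : ℝ => (J ((1 + y * Complex.I) / 2)).re) (Set.Ici 1) := by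
    intro y hy y' hy' h
    have hy1 : (1 : ℝ) ≤ y := hy
    have hy1' : (1 : ℝ) ≤ y' := hy'
    have h1 : J ((1 + y * Complex.I) / 2) = J ((1 + y' * Complex.I) / 2) := by
      rw [hreal y (by linarith), hreal y' (by linarith)]
      exact congrArg _ h
    rcases le_total y y' with h2 | h2
    · exact inj_le ⟨hdiff, hmod, hgen, hconj⟩ hINJ y y' hy1 h2 h1
    · exact (inj_le ⟨hdiff, hmod, hgen, hconj⟩ hINJ y' y hy1' h2 h1.symm).symm
  have hlim : Filter.Tendsto (fun y : ℝ => (J ((1 + y * Complex.I) / 2)).re) Filter.atTop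
      Filter.atBot := by
    obtain ⟨⟨C, hC, hb⟩, -⟩ := hJBD
    have hexp : Filter.Tendsto (fun y : ℝ => -Real.exp (Real.pi * y) + C) Filter.atTop
        Filter.atBot := by
      apply Filter.tendsto_atBot_add_const_right
      apply Filter.tendsto_neg_atTop_atBot.comp
      apply Real.tendsto_exp_atTop.comp
      exact Filter.tendsto_id.const_mul_atTop Real.pi_pos
    refine Filter.tendsto_atBot_mono' _ ?_ hexp
    filter_upwards [Filter.eventually_ge_atTop (1 : ℝ)] with y hy
    have h1 := (hb ((1 + y * Complex.I) / 2) (by rw [him0]; linarith)).2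
    have h2 : Complex.exp (-(2 * Real.pi * Complex.I * ((1 + y * Complex.I) / 2))) =
        ((-Real.exp (Real.pi * y) : ℝ) : ℂ) := by
      have h3 : -(2 * Real.pi * Complex.I * ((1 + y * Complex.I) / 2)) =
          ((Real.pi * y : ℝ) : ℂ) + -(Real.pi * Complex.I) := by
        push_cast
        linear_combination (-(Real.pi : ℂ) * y) * Complex.I_mul_I
      rw [h3, Complex.exp_add, Complex.exp_neg, Complex.exp_pi_mul_I, Complex.ofReal_neg,
        Complex.ofReal_exp]
      norm_num
    rw [h2] at h1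
    have h3 := (Complex.abs_re_le_norm _).trans h1
    rw [Complex.sub_re, Complex.ofReal_re, abs_le] at h3
    linarith [h3.2]
  refine ⟨fun y => (J ((1 + y * Complex.I) / 2)).re, ?_, anti hcont hinj hlim, hcont, ?_, hlim⟩
  · intro y hy
    refine ⟨hreal y hy, ?_⟩
    have hz : 0 < ((1 + y * Complex.I) / 2 : ℂ).im := by
      rw [him0]
      linarith
    have h1 := (hmod 1 (-1) 2 (-1) (by norm_num) _ hz).2.2
    have h2 : (((1 : ℤ) : ℂ) * ((1 + y * Complex.I) / 2) + ((-1 : ℤ) : ℂ)) /
        (((2 : ℤ) : ℂ) * ((1 + y * Complex.I) / 2) + ((-1 : ℤ) : ℂ)) =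
        (1 + ((1 / y : ℝ) : ℂ) * Complex.I) / 2 := by
      have hy0 : (y : ℂ) ≠ 0 := by exact_mod_cast hy.ne'
      push_cast
      have h3 : (2 * ((1 + y * Complex.I) / 2) + -1 : ℂ) = y * Complex.I := by ring
      rw [h3, div_eq_iff (mul_ne_zero hy0 Complex.I_ne_zero)]
      field_simp
      linear_combination (-1 : ℂ) * Complex.I_sq
    rw [h2] at h1
    exact congrArg Complex.re h1
  · have hI : (0 : ℝ) < Complex.I.im := by simp
    have h1 : J ((1 + ((1 : ℝ) : ℂ) * Complex.I) / 2) = 1728 := by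
      have hz : 0 < ((1 + ((1 : ℝ) : ℂ) * Complex.I) / 2 : ℂ).im := by
        rw [him0]
        norm_num
      have h2 := (hgen _ hz).2.2
      have h3 : (-1 / ((1 + ((1 : ℝ) : ℂ) * Complex.I) / 2) : ℂ) = Complex.I - 1 := by
        have h4 : (1 + Complex.I : ℂ) ≠ 0 := by
          intro h
          have := congrArg Complex.re h
          simp at this
        rw [Complex.ofReal_one, one_mul, div_div_eq_mul_div, div_eq_iff h4]
        linear_combination (-1 : ℂ) * Complex.I_sq
      rw [h3] at h2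
      have h5 : 0 < (Complex.I - 1 : ℂ).im := by simp
      have h6 := (hgen _ h5).1
      rw [sub_add_cancel] at h6
      rw [← h2, ← h6, hSPE.1]
    show (J ((1 + ((1 : ℝ) : ℂ) * Complex.I) / 2)).re = 1728
    rw [h1]
    simp

end SSM
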