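import Pool.Agent.SSM.CMP
import Pool.Agent.SSM.DEC
import Pool.Agent.SSM.DER
import Pool.Agent.SSM.EIS
import Pool.Agent.SSM.ELL
import Pool.Agent.SSM.ESM
import Pool.Agent.SSM.FUN
import Pool.Agent.SSM.HNF
import Pool.Agent.SSM.INJ
import Pool.Agent.SSM.INV
import Pool.Agent.SSM.JAC
import Pool.Agent.SSM.JBD
import Pool.Agent.SSM.JEX
import Pool.Agent.SSM.KR0
import Pool.Agent.SSM.KR1
import Pool.Agent.SSM.KR2
import Pool.Agent.SSM.KR3
import Pool.Agent.SSM.KRO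
import Pool.Agent.SSM.LAT
import Pool.Agent.SSM.LDC
import Pool.Agent.SSM.MPI
import Pool.Agent.SSM.MUL
import Pool.Agent.SSM.NVN
import Pool.Agent.SSM.OUT
import Pool.Agent.SSM.PAR
import Pool.Agent.SSM.PER
import Pool.Agent.SSM.POL
import Pool.Agent.SSM.PRM
import Pool.Agent.SSM.PSG
import Pool.Agent.SSM.PSM
import Pool.Agent.SSM.RDS
import Pool.Agent.SSM.RE1
import Pool.Agent.SSM.RE2
import Pool.Agent.SSM.RNG
import Pool.Agent.SSM.SG1
import Pool.Agent.SSM.SG2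
import Pool.Agent.SSM.SGN
import Pool.Agent.SSM.SIZ
import Pool.Agent.SSM.SPE
import Pool.Agent.SSM.SQD
import Pool.Agent.SSM.SQM
import Pool.Agent.SSM.SUR
import Pool.Agent.SSM.SYM
import Pool.Agent.SSM.TAU
import Pool.Agent.SSM.UNX
import Pool.Agent.SSM.FIN

/-!
# MP_d74fca_nt, part IV: everything together (helper58)
-/

namespace SSM

/-- the output of part IV -/
theorem out : T_OUT :=
  have hLAT := p_LAT
  have hINJ := p_INJ p_EIS hLAT
  have hINV := p_INV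
  have hFUN := p_FUN
  have hHNF := p_HNF
  have hJEX := p_JEX
  have hJBD := p_JBD hJEX
  have hRNG := p_RNG
  have hUNX := p_UNX
  have hPER := p_PER hUNX
  have hPRM := p_PRM hHNF hINV
  have hPOL := p_POL hJEX hINV hUNX
  have hMPI := p_MPI (p_ESM hJEX hRNG hPER hPRM) (p_PSM hJEX hRNG) hPOL hJBD hPRM
  have hKRO := p_KRO hJEX hRNG p_KR0 (p_KR1 hJEX) (p_KR2 hJEX) (p_KR3 hJEX hUNX) hINV
  have hSYM := p_SYM hHNF hINV hJBD
  have hSPE := p_SPE
  have hRE1 := p_RE1 hINV hINJ hSPE hJBD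
  have hRE2 := p_RE2 hINV hINJ hSPE hJBD
  have hSGN := p_SGN hRE1 hRE2 (p_SG1 hINV hRE1) (p_SG2 hINV hRE2)
  have hCMP := p_CMP hINV (p_SUR hINV hFUN) hHNF hMPI (p_LDC hJBD) p_DEC
    (p_SQD hMPI hSYM hKRO) p_SQM (p_ELL hINJ hSPE) (p_MUL hINV hINJ p_DER)
    (p_PAR hINV hSPE hINJ hHNF)
  p_OUT hCMP (p_PSG hSGN) (p_NVN hINJ) (p_SIZ (p_RDS hINV hFUN) hJBD p_TAU) p_JAC

/-- the output of part IV in the form of the final assembly -/
theorem outF (hC : SSW.T_CMC) : SSF.T_OUT := p_FIN out hC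

end SSM
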